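import Mathlib

/-!
# Morse local-to-global property: definitions (real and discrete versions)
-/

open scoped NNReal

namespace Pool.Agent.MLG

section Real

variable {X : Type*}

/-- The restriction of `γ` to the compact interval `[a, b]` is a `(lam, eps)`-quasi-geodesic for the
distance function `d`. -/
def IsQuasiGeod (d : X → X → ℝ) (lam eps : ℝ) (a b : ℝ) (γ : ℝ → X) : Prop :=
  ∀ s ∈ Set.Icc a b, ∀ t ∈ Set.Icc a b,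
    |s - t| / lam - eps ≤ d (γ s) (γ t) ∧ d (γ s) (γ t) ≤ lam * |s - t| + eps

/-- The restriction of `γ` to `[a, b]` is `M`-Morse: every quasi-geodesic `σ : [a', b'] → X` with
endpoints on `γ` stays within distance `M lam eps` of the image of `γ`. -/
def IsMorse (d : X → X → ℝ) (M : ℝ → ℝ → ℝ≥0) (a b : ℝ) (γ : ℝ → X) : Prop :=
  ∀ lam eps : ℝ, 1 ≤ lam → 0 ≤ eps → ∀ a' b' : ℝ, a' ≤ b' → ∀ σ : ℝ → X,
    IsQuasiGeod d lam eps a' b' σ →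
    (∃ s ∈ Set.Icc a b, σ a' = γ s) → (∃ s ∈ Set.Icc a b, σ b' = γ s) →
    ∀ t ∈ Set.Icc a' b', ∃ s ∈ Set.Icc a b, d (σ t) (γ s) ≤ M lam eps

/-- The restriction of `γ` to `[a, b]` is an `(L; M; lam, eps)`-local Morse quasi-geodesic. -/
def IsLocalMorse (d : X → X → ℝ) (L : ℝ) (M : ℝ → ℝ → ℝ≥0) (lam eps : ℝ) (a b : ℝ)
    (γ : ℝ → X) : Prop :=
  ∀ s t : ℝ, a ≤ s → s ≤ t → t ≤ b → t - s ≤ L →
    IsQuasiGeod d lam eps s t γ ∧ IsMorse d M s t γ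

/-- The Morse local-to-global property of `X` with the distance function `d`. -/
def MorseLTG (d : X → X → ℝ) : Prop :=
  ∀ (M : ℝ → ℝ → ℝ≥0) (lam eps : ℝ), 1 ≤ lam → 0 ≤ eps →
    ∃ (L : ℝ) (M' : ℝ → ℝ → ℝ≥0) (lam' eps' : ℝ), 0 ≤ L ∧ 1 ≤ lam' ∧ 0 ≤ eps' ∧
      ∀ (a b : ℝ), a ≤ b → ∀ γ : ℝ → X, IsLocalMorse d L M lam eps a b γ →
        IsQuasiGeod d lam' eps' a b γ ∧ IsMorse d M' a b γ

end Real

section Discrete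

variable {X : Type*}

/-- `d` is a (pseudo)distance. -/
structure IsDist (d : X → X → ℝ) : Prop where
  self : ∀ x, d x x = 0
  symm : ∀ x y, d x y = d y x
  tri : ∀ x y z, d x z ≤ d x y + d y z
  nonneg : ∀ x y, 0 ≤ d x y

/-- Discrete quasi-geodesic: the sequence `y` restricted to the indices `i..j`. -/
def DQG (d : X → X → ℝ) (lam eps : ℝ) (y : ℕ → X) (i j : ℕ) : Prop :=
  ∀ a b : ℕ, i ≤ a → a ≤ b → b ≤ j →
    ((b : ℝ) - a) / lam - eps ≤ d (y a) (y b) ∧ d (y a) (y b) ≤ lam * ((b : ℝ) - a) + eps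

/-- Discrete Morse property of the sequence `y` restricted to the indices `i..j`. -/
def DMorse (d : X → X → ℝ) (M : ℝ → ℝ → ℝ) (y : ℕ → X) (i j : ℕ) : Prop :=
  ∀ lam eps : ℝ, 1 ≤ lam → 0 ≤ eps → ∀ (z : ℕ → X) (m : ℕ), DQG d lam eps z 0 m →
    (∃ a, i ≤ a ∧ a ≤ j ∧ z 0 = y a) → (∃ b, i ≤ b ∧ b ≤ j ∧ z m = y b) →
    ∀ p ≤ m, ∃ q, i ≤ q ∧ q ≤ j ∧ d (z p) (y q) ≤ M lam eps

/-- Discrete local Morse quasi-geodesic on the indices `0..n`. -/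
def DLocal (d : X → X → ℝ) (L : ℕ) (M : ℝ → ℝ → ℝ) (lam eps : ℝ) (y : ℕ → X) (n : ℕ) : Prop :=
  ∀ i j : ℕ, i ≤ j → j ≤ n → j ≤ i + L → DQG d lam eps y i j ∧ DMorse d M y i j

/-- Discrete Morse local-to-global property. -/
def DMLTG (d : X → X → ℝ) : Prop :=
  ∀ (M : ℝ → ℝ → ℝ) (lam eps : ℝ), 1 ≤ lam → 0 ≤ eps →
    ∃ (L : ℕ) (M' : ℝ → ℝ → ℝ) (lam' eps' : ℝ), 1 ≤ lam' ∧ 0 ≤ eps' ∧
      ∀ (y : ℕ → X) (n : ℕ), DLocal d L M lam eps y n →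
        DQG d lam' eps' y 0 n ∧ DMorse d M' y 0 n

/-- A chain of bottlenecks along the sequence `y` (indices `0..n`), one for each block `i` of
length `T` with `1 ≤ i` and `(i+2)T ≤ n`. -/
structure ChainData (d : X → X → ℝ) (y : ℕ → X) (n T : ℕ) (κ ρ δ : ℝ) where
  A : ℕ → Set X
  B : ℕ → Set X
  z : ℕ → X
  jump : ∀ i, i < n → d (y i) (y (i + 1)) ≤ κ
  yA : ∀ i, 1 ≤ i → (i + 2) * T ≤ n → y (i * T) ∈ A i
  yB : ∀ i, 1 ≤ i → (i + 2) * T ≤ n → y ((i + 1) * T) ∈ B i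
  disj : ∀ i, 1 ≤ i → (i + 2) * T ≤ n → ∀ x ∈ A i, x ∉ B i
  cover : ∀ i, 1 ≤ i → (i + 3) * T ≤ n → ∀ x, x ∈ B i ∨ x ∈ A (i + 1)
  bott : ∀ i, 1 ≤ i → (i + 2) * T ≤ n → ∀ a ∈ A i, ∀ b ∈ B i,
    d a (z i) + d (z i) b ≤ d a b + δ
  near : ∀ i, 1 ≤ i → (i + 2) * T ≤ n → d (z i) (y (i * T)) ≤ ρ
  costA : ∀ i j, 1 ≤ i → i ≤ j → (j + 2) * T ≤ n → ∀ a ∈ A i, ∀ b, b ∉ A j →
    ((j : ℝ) - i) + 1 ≤ d a b
  costB : ∀ i j, 1 ≤ i → i ≤ j → (j + 2) * T ≤ n → ∀ a, a ∉ B i → ∀ b ∈ B j,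
    ((j : ℝ) - i) + 1 ≤ d a b

/-- `f 0, …, f K` is a sequence of cut points from `x` to `y`: the sets `U 1 ⊆ … ⊆ U (K-1)` contain
`x` and not `y`, and every jump from `U k` to its complement happens near `f k`. -/
structure CutSeq (d : X → X → ℝ) (δ : ℝ) (x y : X) (K : ℕ) (f : ℕ → X) (U : ℕ → Set X) :
    Prop where
  zero : f 0 = x
  last : f K = y
  mem : ∀ k, 1 ≤ k → k < K → x ∈ U k
  notMem : ∀ k, 1 ≤ k → k < K → y ∉ U k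
  mono : ∀ k, 1 ≤ k → k + 1 < K → U k ⊆ U (k + 1)
  cut : ∀ k, 1 ≤ k → k < K → ∀ a ∈ U k, ∀ b, b ∉ U k →
    d a (f k) ≤ d a b + δ ∧ d b (f k) ≤ d a b + δ
  sum : ∑ k ∈ Finset.range K, d (f k) (f (k + 1)) ≤ d x y
  pos : 1 ≤ K
  card : (K : ℝ) ≤ 2 * d x y + 1

/-- A tree-like decomposition of `X` in pieces `P p`, each of which is (uniformly close to) an
isometrically embedded copy of `Y (ty p)` onto which `X` retracts. -/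
structure PieceData (d : X → X → ℝ) (δ : ℝ) {ι : Type*} (Y : ι → Type*)
    (dY : ∀ a, Y a → Y a → ℝ) where
  Idx : Type*
  P : Idx → Set X
  ty : Idx → ι
  emb : ∀ p, Y (ty p) → X
  ret : ∀ p, X → Y (ty p)
  emb_mem : ∀ p v, emb p v ∈ P p
  emb_isom : ∀ p v w, d (emb p v) (emb p w) = dY (ty p) v w
  ret_lip : ∀ p x y, dY (ty p) (ret p x) (ret p y) ≤ d x y
  ret_emb : ∀ p v, ret p (emb p v) = v
  dense : ∀ p, ∀ x ∈ P p, ∃ v, d x (emb p v) ≤ δ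
  branch : ∀ p, ∀ z, z ∉ P p → ∃ B E : Set X, z ∈ B ∧ E ⊆ P p ∧ (∀ e ∈ E, ∀ e' ∈ E, d e e' ≤ δ) ∧
    P p ∩ B ⊆ E ∧ ∀ x ∈ B, ∀ x', x' ∉ B → ∃ e ∈ E, d x e ≤ d x x' ∧ d x' e ≤ d x x'
  cuts : ∀ x y, ∃ (K : ℕ) (f : ℕ → X) (U : ℕ → Set X), CutSeq d δ x y K f U ∧
    ∀ k < K, ∃ p, f k ∈ P p ∧ f (k + 1) ∈ P p

end Discrete

end Pool.Agent.MLG
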