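import Mathlib

/-!
# Graph products of groups: definition, universal property, retractions, heads
-/

namespace Pool.Agent.MLG

/-- The relators of the graph product: the commutators `g h g⁻¹ h⁻¹` of `g ∈ G v` and `h ∈ G w`,
where `v` and `w` are adjacent. -/
def gpRel {V : Type*} (Γ : SimpleGraph V) (G : V → Type*) [∀ v, Group (G v)] :
    Set (Monoid.CoprodI G) :=
  {x | ∃ (v w : V) (g : G v) (h : G w), Γ.Adj v w ∧
    x = Monoid.CoprodI.of g * Monoid.CoprodI.of h * (Monoid.CoprodI.of g)⁻¹ *
      (Monoid.CoprodI.of h)⁻¹}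

/-- The graph product of the groups `G v` over the simple graph `Γ`: the quotient of the free
product of the `G v` by the relations `g h = h g` for `g ∈ G v`, `h ∈ G w` with `v`, `w`
adjacent. -/
def GraphProduct {V : Type*} (Γ : SimpleGraph V) (G : V → Type*) [∀ v, Group (G v)] : Type _ :=
  Monoid.CoprodI G ⧸ Subgroup.normalClosure (gpRel Γ G)

namespace GraphProduct

variable {V : Type*} {Γ : SimpleGraph V} {G : V → Type*} [∀ v, Group (G v)]

instance : Group (GraphProduct Γ G) :=
  inferInstanceAs (Group (Monoid.CoprodI G ⧸ Subgroup.normalClosure (gpRel Γ G)))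

variable (Γ G) in
/-- The quotient map from the free product. -/
def mk : Monoid.CoprodI G →* GraphProduct Γ G :=
  QuotientGroup.mk' (Subgroup.normalClosure (gpRel Γ G))

theorem mk_surjective : Function.Surjective (mk Γ G) :=
  QuotientGroup.mk'_surjective (Subgroup.normalClosure (gpRel Γ G))

variable (Γ G) in
/-- The canonical map of a vertex group. -/
def of (v : V) : G v →* GraphProduct Γ G := (mk Γ G).comp Monoid.CoprodI.of

theorem of_comm {v w : V} (h : Γ.Adj v w) (g : G v) (k : G w) :
    of Γ G v g * of Γ G w k = of Γ G w k * of Γ G v g := by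
  have h1 : (Monoid.CoprodI.of g * Monoid.CoprodI.of k * (Monoid.CoprodI.of g)⁻¹ *
      (Monoid.CoprodI.of k)⁻¹ : Monoid.CoprodI G) ∈ Subgroup.normalClosure (gpRel Γ G) :=
    Subgroup.subset_normalClosure ⟨v, w, g, k, h, rfl⟩
  have h2 : (mk Γ G) (Monoid.CoprodI.of g * Monoid.CoprodI.of k * (Monoid.CoprodI.of g)⁻¹ *
      (Monoid.CoprodI.of k)⁻¹ : Monoid.CoprodI G) = 1 :=
    (QuotientGroup.eq_one_iff _).2 h1
  rw [map_mul, map_mul, map_mul, map_inv, map_inv, mul_inv_eq_one, mul_inv_eq_iff_eq_mul] at h2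
  exact h2

/-- The universal property. -/
def lift {H : Type*} [Group H] (f : ∀ v, G v →* H)
    (hf : ∀ v w, Γ.Adj v w → ∀ g k, f v g * f w k = f w k * f v g) : GraphProduct Γ G →* H :=
  QuotientGroup.lift (Subgroup.normalClosure (gpRel Γ G)) (Monoid.CoprodI.lift f) (by
    have h0 : Subgroup.normalClosure (gpRel Γ G) ≤ (Monoid.CoprodI.lift f).ker := by
      apply Subgroup.normalClosure_le_normal
      rintro x ⟨v, w, g, h, hvw, rfl⟩
      change _ ∈ (Monoid.CoprodI.lift f).ker
      rw [MonoidHom.mem_ker, map_mul, map_mul, map_mul, map_inv, map_inv, mul_inv_eq_one,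
        mul_inv_eq_iff_eq_mul, Monoid.CoprodI.lift_of, Monoid.CoprodI.lift_of]
      exact hf v w hvw g h
    intro x hx
    exact h0 hx)

@[simp] theorem lift_of {H : Type*} [Group H] (f : ∀ v, G v →* H)
    (hf : ∀ v w, Γ.Adj v w → ∀ g k, f v g * f w k = f w k * f v g) (v : V) (g : G v) :
    lift f hf (of Γ G v g) = f v g := by
  change (Monoid.CoprodI.lift f) (Monoid.CoprodI.of g) = _
  rw [Monoid.CoprodI.lift_of]

theorem induction {P : GraphProduct Γ G → Prop} (x : GraphProduct Γ G) (h1 : P 1)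
    (hm : ∀ x v (g : G v), P x → P (x * of Γ G v g)) : P x := by
  obtain ⟨w, rfl⟩ := mk_surjective x
  have key : ∀ (w : Monoid.CoprodI G) (z : GraphProduct Γ G), P z →
      P (z * mk Γ G w) := by
    intro w
    induction w using Monoid.CoprodI.induction_on with
    | one => intro z hz; rw [map_one]; simpa using hz
    | of v g => intro z hz; exact hm z v g hz
    | mul a b ha hb =>
      intro z hz
      rw [map_mul]
      have := hb _ (ha z hz)
      rwa [mul_assoc] at this
  simpa using key w 1 h1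

theorem hom_ext {H : Type*} [Group H] {f g : GraphProduct Γ G →* H}
    (h : ∀ v x, f (of Γ G v x) = g (of Γ G v x)) : f = g := by
  ext x
  induction x using induction with
  | h1 => simp
  | hm x v a ih => rw [map_mul, map_mul, ih, h]

open Classical in
/-- The retraction to a vertex group. -/
noncomputable def rho (v : V) : GraphProduct Γ G →* G v :=
  lift (fun w => if h : w = v then (MonoidHom.id (G v)).comp (h ▸ MonoidHom.id (G w)) else 1) (by
    intro a b hab g k
    by_cases ha : a = v
    · have hb : b ≠ v := by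
        rintro rfl; exact hab.ne ha
      simp [hb]
    · simp [ha])

@[simp] theorem rho_of_self (v : V) (g : G v) : rho v (of Γ G v g) = g := by
  simp [rho]

theorem rho_of_ne {v w : V} (h : w ≠ v) (g : G w) : rho v (of Γ G w g) = 1 := by
  simp [rho, h]

theorem of_injective (v : V) : Function.Injective (of Γ G v) := by
  intro a b h
  have := congrArg (rho v) h
  simpa using this

/-- The subgroup generated by the vertex groups with vertex in `Δ`. -/
def Sub (Γ : SimpleGraph V) (G : V → Type*) [∀ v, Group (G v)] (Δ : Set V) :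
    Subgroup (GraphProduct Γ G) :=
  Subgroup.closure {x | ∃ v ∈ Δ, ∃ g : G v, x = of Γ G v g}

theorem of_mem_Sub {Δ : Set V} {v : V} (hv : v ∈ Δ) (g : G v) : of Γ G v g ∈ Sub Γ G Δ :=
  Subgroup.subset_closure ⟨v, hv, g, rfl⟩

theorem Sub_mono {Δ Δ' : Set V} (h : Δ ⊆ Δ') : Sub Γ G Δ ≤ Sub Γ G Δ' :=
  Subgroup.closure_mono (by rintro x ⟨v, hv, g, rfl⟩; exact ⟨v, h hv, g, rfl⟩)

theorem Sub_induction {Δ : Set V} {P : GraphProduct Γ G → Prop} {x : GraphProduct Γ G}
    (hx : x ∈ Sub Γ G Δ) (h1 : P 1)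
    (hm : ∀ x, x ∈ Sub Γ G Δ → ∀ v ∈ Δ, ∀ g : G v, P x → P (x * of Γ G v g)) : P x := by
  have : ∀ (x) (hx : x ∈ Subgroup.closure {x | ∃ v ∈ Δ, ∃ g : G v, x = of Γ G v g}), P x := by
    intro x hx
    induction hx using Subgroup.closure_induction_right with
    | one => exact h1
    | mul_right a ha b hb ih =>
      obtain ⟨v, hv, g, rfl⟩ := hb
      exact hm a ha v hv g ih
    | mul_inv_cancel a ha b hb ih =>
      obtain ⟨v, hv, g, rfl⟩ := hb
      rw [← map_inv]
      exact hm a ha v hv _ ih
  exact this x hx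

open Classical in
/-- The retraction to the subgroup generated by the vertex groups in `Δ`. -/
noncomputable def ret (Δ : Set V) : GraphProduct Γ G →* GraphProduct Γ G :=
  lift (fun w => if w ∈ Δ then of Γ G w else 1) (by
    intro a b hab g k
    by_cases ha : a ∈ Δ
    · by_cases hb : b ∈ Δ
      · simp [ha, hb, of_comm hab]
      · simp [hb]
    · simp [ha])

theorem ret_of_mem {Δ : Set V} {v : V} (hv : v ∈ Δ) (g : G v) :
    ret Δ (of Γ G v g) = of Γ G v g := by
  simp [ret, hv]

theorem ret_of_notMem {Δ : Set V} {v : V} (hv : v ∉ Δ) (g : G v) :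
    ret Δ (of Γ G v g) = 1 := by
  simp [ret, hv]

theorem ret_mem (Δ : Set V) (x : GraphProduct Γ G) : ret Δ x ∈ Sub Γ G Δ := by
  induction x using induction with
  | h1 => rw [map_one]; exact one_mem _
  | hm x v g ih =>
    rw [map_mul]
    refine mul_mem ih ?_
    by_cases hv : v ∈ Δ
    · rw [ret_of_mem hv]; exact of_mem_Sub hv g
    · rw [ret_of_notMem hv]; exact one_mem _

theorem ret_of_Sub {Δ : Set V} {x : GraphProduct Γ G} (hx : x ∈ Sub Γ G Δ) : ret Δ x = x := by
  refine Sub_induction (P := fun x => ret Δ x = x) hx (by simp) ?_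
  intro x _ v hv g ih
  rw [map_mul, ih, ret_of_mem hv]

theorem rho_of_Sub_notMem {Δ : Set V} {v : V} (hv : v ∉ Δ) {x : GraphProduct Γ G}
    (hx : x ∈ Sub Γ G Δ) : rho v x = 1 := by
  refine Sub_induction (P := fun x => rho v x = 1) hx (by simp) ?_
  intro x _ w hw g ih
  have hne : w ≠ v := by rintro rfl; exact hv hw
  rw [map_mul, ih, rho_of_ne hne, one_mul]

theorem of_comm_Sub {v : V} {Δ' : Set V} (h : ∀ w ∈ Δ', Γ.Adj v w) (g : G v)
    {y : GraphProduct Γ G} (hy : y ∈ Sub Γ G Δ') : of Γ G v g * y = y * of Γ G v g := by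
  refine Sub_induction (P := fun y => of Γ G v g * y = y * of Γ G v g) hy (by simp) ?_
  intro y _ w hw k ih
  rw [← mul_assoc, ih, mul_assoc, of_comm (h w hw), mul_assoc]

/-- elements of commuting subgroups commute -/
theorem Sub_comm {Δ Δ' : Set V} (h : ∀ v ∈ Δ, ∀ w ∈ Δ', Γ.Adj v w) {x y : GraphProduct Γ G}
    (hx : x ∈ Sub Γ G Δ) (hy : y ∈ Sub Γ G Δ') : x * y = y * x := by
  refine Sub_induction (P := fun x => x * y = y * x) hx (by simp) ?_
  intro x _ v hv g ih
  rw [mul_assoc, of_comm_Sub (h v hv) g hy, ← mul_assoc, ih, mul_assoc]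

/-- The star of a vertex as a set. -/
def st (Γ : SimpleGraph V) (v : V) : Set V := {w | w = v ∨ Γ.Adj v w}

/-- The star subgroup. -/
def St (Γ : SimpleGraph V) (G : V → Type*) [∀ v, Group (G v)] (v : V) :
    Subgroup (GraphProduct Γ G) := Sub Γ G (st Γ v)

theorem of_mem_St {v w : V} (hw : w ∈ st Γ v) (g : G w) : of Γ G w g ∈ St Γ G v :=
  of_mem_Sub hw g

theorem self_mem_st (v : V) : v ∈ st Γ v := Or.inl rfl

theorem mul_of_mem_St {v w : V} (hw : w ∈ st Γ v) (x : GraphProduct Γ G) (g : G w) :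
    x * of Γ G w g ∈ St Γ G v ↔ x ∈ St Γ G v := by
  have h := of_mem_Sub (Γ := Γ) (G := G) hw g
  exact (St Γ G v).mul_mem_cancel_right h

open Classical in
/-- one step of the head action -/
noncomputable def cst (v w : V) (x : GraphProduct Γ G) (g : G w) : G v :=
  if x ∈ St Γ G v then rho v (of Γ G w g) else 1

theorem cst_mul (v w : V) (x : GraphProduct Γ G) (g h : G w) :
    cst v w x g * cst v w (x * of Γ G w g) h = cst v w x (g * h) := by
  classical
  by_cases hw : w = v
  · subst hw
    have : x * of Γ G w g ∈ St Γ G w ↔ x ∈ St Γ G w := mul_of_mem_St (Or.inl rfl) x g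
    unfold cst
    by_cases hx : x ∈ St Γ G w
    · simp [hx, this.2 hx]
    · have hx' : x * of Γ G w g ∉ St Γ G w := fun h => hx (this.1 h)
      simp [hx, hx']
  · unfold cst
    rw [rho_of_ne hw, rho_of_ne hw, rho_of_ne hw]
    simp

theorem cst_one (v w : V) (x : GraphProduct Γ G) : cst v w x (1 : G w) = 1 := by
  unfold cst; simp

theorem cst_eq_of_adj (v w w' : V) (h : Γ.Adj w w') (x : GraphProduct Γ G) (g : G w) (k : G w') :
    cst v w (x * of Γ G w' k) g = cst v w x g := by
  classical
  by_cases hw : w = v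
  · subst hw
    have : x * of Γ G w' k ∈ St Γ G w ↔ x ∈ St Γ G w := mul_of_mem_St (Or.inr h) x k
    unfold cst
    simp [this]
  · unfold cst
    rw [rho_of_ne hw]
    simp

theorem cst_comm (v w w' : V) (h : Γ.Adj w w') (x : GraphProduct Γ G) (g : G w) (k : G w') :
    cst v w x g * cst v w' (x * of Γ G w g) k = cst v w' x k * cst v w (x * of Γ G w' k) g := by
  rw [cst_eq_of_adj v w w' h, cst_eq_of_adj v w' w h.symm]
  by_cases hw : w = v
  · have hw' : w' ≠ v := by rintro rfl; exact h.ne hw
    have : cst v w' x k = 1 := by unfold cst; rw [rho_of_ne hw']; simp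
    rw [this]; simp
  · have : cst v w x g = 1 := by unfold cst; rw [rho_of_ne hw]; simp
    rw [this]; simp

/-- The head action of one vertex group: `g` acts as right multiplication by `g⁻¹`. -/
noncomputable def actGen (v w : V) : G w →* Equiv.Perm (GraphProduct Γ G × G v) where
  toFun g :=
    { toFun := fun p => (p.1 * of Γ G w g⁻¹, p.2 * cst v w p.1 g⁻¹)
      invFun := fun p => (p.1 * of Γ G w g, p.2 * cst v w p.1 g)
      left_inv := by
        rintro ⟨x, c⟩
        simp only [Prod.mk.injEq]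
        refine ⟨by rw [mul_assoc, ← map_mul]; simp, ?_⟩
        rw [mul_assoc, cst_mul]; simp [cst_one]
      right_inv := by
        rintro ⟨x, c⟩
        simp only [Prod.mk.injEq]
        refine ⟨by rw [mul_assoc, ← map_mul]; simp, ?_⟩
        rw [mul_assoc, cst_mul]; simp [cst_one] }
  map_one' := by
    ext ⟨x, c⟩ <;> simp [cst_one]
  map_mul' g h := by
    apply Equiv.ext
    rintro ⟨x, c⟩
    simp only [Equiv.coe_fn_mk, Equiv.Perm.coe_mul, Function.comp_apply, Prod.mk.injEq]
    refine ⟨by rw [mul_assoc, ← map_mul, mul_inv_rev], ?_⟩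
    rw [mul_assoc, cst_mul, mul_inv_rev]

theorem actGen_apply (v w : V) (g : G w) (p : GraphProduct Γ G × G v) :
    actGen v w g p = (p.1 * of Γ G w g⁻¹, p.2 * cst v w p.1 g⁻¹) := rfl

/-- The head action. -/
noncomputable def act (v : V) : GraphProduct Γ G →* Equiv.Perm (GraphProduct Γ G × G v) :=
  lift (fun w => actGen v w) (by
    intro w w' h g k
    apply Equiv.ext
    rintro ⟨x, c⟩
    simp only [Equiv.Perm.coe_mul, Function.comp_apply, actGen_apply, Prod.mk.injEq]
    refine ⟨by rw [mul_assoc, mul_assoc, of_comm h], ?_⟩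
    rw [mul_assoc, mul_assoc, cst_comm v w w' h])

theorem act_of (v w : V) (g : G w) (p : GraphProduct Γ G × G v) :
    act v (of Γ G w g) p = (p.1 * of Γ G w g⁻¹, p.2 * cst v w p.1 g⁻¹) := by
  unfold act; rw [lift_of, actGen_apply]

theorem act_fst (v : V) (g : GraphProduct Γ G) (p : GraphProduct Γ G × G v) :
    (act v g p).1 = p.1 * g⁻¹ := by
  induction g using induction generalizing p with
  | h1 => simp
  | hm x w g ih =>
    rw [map_mul, Equiv.Perm.mul_apply, ih, act_of, mul_inv_rev, map_inv, mul_assoc]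

/-- The head of `x` in the vertex group `v`. -/
noncomputable def H (v : V) (x : GraphProduct Γ G) : G v := (act v x⁻¹ (1, 1)).2

theorem act_inv (v : V) (x : GraphProduct Γ G) : act v x⁻¹ (1, 1) = (x, H v x) := by
  ext
  · rw [act_fst]; simp
  · rfl

@[simp] theorem H_one (v : V) : H v (1 : GraphProduct Γ G) = 1 := by
  unfold H; simp

theorem H_mul_of' (v w : V) (x : GraphProduct Γ G) (g : G w) :
    H v (x * of Γ G w g) = H v x * cst v w x g := by
  have : act v (x * of Γ G w g)⁻¹ (1, 1) = act v (of Γ G w g⁻¹) (act v x⁻¹ (1, 1)) := by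
    rw [mul_inv_rev, map_mul, Equiv.Perm.mul_apply, ← map_inv]
  have h2 := congrArg Prod.snd this
  rw [act_inv, act_inv, act_of] at h2
  simpa using h2

theorem H_mul_of_mem {v : V} {x : GraphProduct Γ G} (hx : x ∈ St Γ G v) (w : V) (g : G w) :
    H v (x * of Γ G w g) = H v x * rho v (of Γ G w g) := by
  rw [H_mul_of']; simp [cst, hx]

theorem H_mul_of_notMem {v : V} {x : GraphProduct Γ G} (hx : x ∉ St Γ G v) (w : V) (g : G w) :
    H v (x * of Γ G w g) = H v x := by
  rw [H_mul_of']; simp [cst, hx]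

theorem H_mul_of_ne {v w : V} (hw : w ≠ v) (x : GraphProduct Γ G) (g : G w) :
    H v (x * of Γ G w g) = H v x := by
  rw [H_mul_of']; simp [cst, rho_of_ne hw]

theorem H_of_mem {v : V} {x : GraphProduct Γ G} (hx : x ∈ St Γ G v) : H v x = rho v x := by
  refine Sub_induction (P := fun x => H v x = rho v x) hx (by simp) ?_
  intro x hx w hw g ih
  rw [H_mul_of_mem hx, ih, map_mul]

theorem H_left_mul {v : V} {k : GraphProduct Γ G} (hk : k ∈ St Γ G v) (x : GraphProduct Γ G) :
    H v (k * x) = rho v k * H v x := by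
  induction x using induction with
  | h1 => rw [mul_one, H_one, mul_one, H_of_mem hk]
  | hm x w g ih =>
    rw [← mul_assoc]
    by_cases hx : x ∈ St Γ G v
    · rw [H_mul_of_mem hx, H_mul_of_mem (mul_mem hk hx), ih, mul_assoc]
    · have : k * x ∉ St Γ G v := fun h => hx (((St Γ G v).mul_mem_cancel_left hk).1 h)
      rw [H_mul_of_notMem hx, H_mul_of_notMem this, ih]

end GraphProduct

end Pool.Agent.MLG
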