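import Mathlib
import Pool.Agent.MLG.GP

/-!
# Hyperplanes of a graph product and the word metric
-/

namespace Pool.Agent.MLG

/-- A word length on a group, with finite balls. -/
structure WLen (G : Type*) [Group G] where
  len : G → ℕ
  one : len 1 = 0
  inv : ∀ g, len g⁻¹ = len g
  mul_le : ∀ g h, len (g * h) ≤ len g + len h
  eq_one : ∀ g, len g = 0 → g = 1
  step : ∀ g, len g ≠ 0 → ∃ s h, g = s * h ∧ len s = 1 ∧ len h + 1 = len g
  fin : ∀ n, {g | len g ≤ n}.Finite

namespace GraphProduct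

variable {V : Type*} {Γ : SimpleGraph V} {G : V → Type*} [∀ v, Group (G v)]

theorem St_decomp {v : V} {k : GraphProduct Γ G} (hk : k ∈ St Γ G v) :
    ∃ m ∈ Sub Γ G {w | Γ.Adj v w}, k = of Γ G v (rho v k) * m := by
  refine Sub_induction (P := fun k => ∃ m ∈ Sub Γ G {w | Γ.Adj v w}, k = of Γ G v (rho v k) * m)
    hk ⟨1, one_mem _, by simp⟩ ?_
  rintro x _ w hw g ⟨m, hm, hx⟩
  rcases hw with rfl | hw
  · refine ⟨m, hm, ?_⟩
    rw [map_mul, rho_of_self, map_mul]
    have h1 : m * of Γ G w g = of Γ G w g * m :=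
      (of_comm_Sub (Δ' := {u | Γ.Adj w u}) (fun u hu => hu) g hm).symm
    have h2 : x * of Γ G w g = of Γ G w (rho w x) * m * of Γ G w g := by rw [← hx]
    rw [h2, mul_assoc, h1, ← mul_assoc]
  · refine ⟨m * of Γ G w g, mul_mem hm (of_mem_Sub hw g), ?_⟩
    rw [map_mul, rho_of_ne hw.ne.symm, mul_one, ← mul_assoc, ← hx]

theorem comm_of_rho_one {v : V} {k : GraphProduct Γ G} (hk : k ∈ St Γ G v) (h1 : rho v k = 1)
    (g : G v) : k * of Γ G v g = of Γ G v g * k := by
  obtain ⟨m, hm, h⟩ := St_decomp hk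
  rw [h1, map_one, one_mul] at h
  rw [h]
  exact (of_comm_Sub (Δ' := {u | Γ.Adj v u}) (fun u hu => hu) g hm).symm

/-- product of a word in syllables -/
def wprod (Γ : SimpleGraph V) (G : V → Type*) [∀ v, Group (G v)] (l : List (Σ v, G v)) :
    GraphProduct Γ G := (l.map (fun p => of Γ G p.1 p.2)).prod

@[simp] theorem wprod_nil : wprod Γ G [] = 1 := rfl

@[simp] theorem wprod_cons (p : Σ v, G v) (l : List (Σ v, G v)) :
    wprod Γ G (p :: l) = of Γ G p.1 p.2 * wprod Γ G l := by
  simp [wprod]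

@[simp] theorem wprod_append (l m : List (Σ v, G v)) :
    wprod Γ G (l ++ m) = wprod Γ G l * wprod Γ G m := by
  simp [wprod]

theorem exists_word (x : GraphProduct Γ G) : ∃ l, wprod Γ G l = x := by
  induction x using induction with
  | h1 => exact ⟨[], rfl⟩
  | hm x v g ih =>
    obtain ⟨l, hl⟩ := ih
    exact ⟨l ++ [⟨v, g⟩], by simp [hl]⟩

theorem head_word (v : V) (l : List (Σ v, G v)) : ∃ m : List (Σ v, G v),
    wprod Γ G l = of Γ G v (H v (wprod Γ G l)) * wprod Γ G m ∧ m.length ≤ l.length ∧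
    (∀ p ∈ l.head?, p.1 = v → m.length + 1 ≤ l.length) := by
  classical
  induction l using List.reverseRecOn with
  | nil => exact ⟨[], by simp, le_refl _, by simp⟩
  | append_singleton l p ih =>
    obtain ⟨m, h1, h2, h3⟩ := ih
    obtain ⟨w, g⟩ := p
    by_cases hc : w = v ∧ wprod Γ G l ∈ St Γ G v
    · obtain ⟨rfl, hx⟩ := hc
      refine ⟨m, ?_, by simp; omega, ?_⟩
      · have hm : wprod Γ G m ∈ St Γ G w := by
          have : wprod Γ G m = (of Γ G w (H w (wprod Γ G l)))⁻¹ * wprod Γ G l := by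
            rw [eq_inv_mul_iff_mul_eq, ← h1]
          rw [this]
          exact (St Γ G w).mul_mem ((St Γ G w).inv_mem (of_mem_St (self_mem_st w) _)) hx
        have hr : rho w (wprod Γ G m) = 1 := by
          have := congrArg (rho w) h1
          rw [map_mul, rho_of_self, H_of_mem hx] at this
          exact (mul_eq_left (a := rho w (wprod Γ G l))).1 this.symm
        have hcm := comm_of_rho_one hm hr g
        rw [wprod_append]
        simp only [wprod_cons, wprod_nil, mul_one]
        rw [H_mul_of_mem hx, rho_of_self, map_mul]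
        have h5 : wprod Γ G l * of Γ G w g
            = of Γ G w (H w (wprod Γ G l)) * wprod Γ G m * of Γ G w g := by rw [← h1]
        rw [h5, mul_assoc, hcm, ← mul_assoc]
      · intro p hp hpv
        cases l with
        | nil => simp at h2 ⊢; omega
        | cons a l =>
          simp at hp
          have := h3 a (by simp) (by rw [hp]; exact hpv)
          simp at this ⊢; omega
    · refine ⟨m ++ [⟨w, g⟩], ?_, by simp; omega, ?_⟩
      · rw [wprod_append, wprod_append]
        simp only [wprod_cons, wprod_nil, mul_one]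
        have : H v (wprod Γ G l * of Γ G w g) = H v (wprod Γ G l) := by
          by_cases hw : w = v
          · subst hw
            exact H_mul_of_notMem (fun h => hc ⟨rfl, h⟩) _ _
          · exact H_mul_of_ne hw _ _
        rw [this, ← mul_assoc, ← h1]
      · intro p hp hpv
        cases l with
        | nil =>
          simp at hp
          exfalso
          apply hc
          refine ⟨by rw [← hpv, ← hp], ?_⟩
          rw [wprod_nil]; exact (St Γ G v).one_mem
        | cons a l =>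
          simp at hp
          have := h3 a (by simp) (by rw [hp]; exact hpv)
          simp at this ⊢; omega

/-- A nontrivial element has a nontrivial head. -/
theorem exists_head {x : GraphProduct Γ G} (hx : x ≠ 1) : ∃ v, H v x ≠ 1 := by
  classical
  by_contra hcon
  push Not at hcon
  have hex : ∃ n, ∃ l : List (Σ v, G v), l.length = n ∧ wprod Γ G l = x := by
    obtain ⟨l, hl⟩ := exists_word x
    exact ⟨_, l, rfl, hl⟩
  obtain ⟨l, hl, hlx⟩ := Nat.find_spec hex
  have hmin := fun m => Nat.find_min hex (m := m)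
  cases l with
  | nil => exact hx (by rw [← hlx]; rfl)
  | cons p l =>
    obtain ⟨m, h1, _, h3⟩ := head_word (Γ := Γ) p.1 (p :: l)
    have h4 := h3 p (by simp) rfl
    rw [hlx, hcon p.1, map_one, one_mul] at h1
    exact hmin m.length (by omega) ⟨m, rfl, h1.symm⟩

/-- Hyperplanes: pairs of a vertex `v` and a coset of the star subgroup. -/
def Hyp (Γ : SimpleGraph V) (G : V → Type*) [∀ v, Group (G v)] : Type _ :=
  Σ v : V, (GraphProduct Γ G ⧸ St Γ G v)

/-- The `v`-hyperplane at `x`. -/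
def hyp (v : V) (x : GraphProduct Γ G) : Hyp Γ G := ⟨v, (x : GraphProduct Γ G ⧸ St Γ G v)⟩

/-- The carrier of a hyperplane. -/
def car (J : Hyp Γ G) : Set (GraphProduct Γ G) := {x | hyp J.1 x = J}

/-- base point of a hyperplane -/
noncomputable def base (J : Hyp Γ G) : GraphProduct Γ G := Quotient.out J.2

theorem hyp_base (J : Hyp Γ G) : hyp J.1 (base J) = J := by
  unfold hyp base
  rw [QuotientGroup.out_eq']
  rfl

theorem hyp_eq_iff {v : V} {x y : GraphProduct Γ G} :
    hyp v x = hyp v y ↔ x⁻¹ * y ∈ St Γ G v := by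
  rw [← QuotientGroup.eq]
  unfold hyp
  constructor
  · intro h
    exact eq_of_heq (Sigma.mk.inj h).2
  · intro h; rw [h]

theorem mem_car_iff {J : Hyp Γ G} {x : GraphProduct Γ G} :
    x ∈ car J ↔ (base J)⁻¹ * x ∈ St Γ G J.1 := by
  rw [← hyp_eq_iff, hyp_base]
  exact eq_comm

theorem mem_car_hyp (v : V) (x : GraphProduct Γ G) : x ∈ car (hyp v x) := rfl

/-- The coordinate of `x` with respect to the hyperplane `J`. -/
noncomputable def crd (J : Hyp Γ G) (x : GraphProduct Γ G) : G J.1 := H J.1 ((base J)⁻¹ * x)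

theorem crd_mul_of_mem {J : Hyp Γ G} {x : GraphProduct Γ G} (hx : x ∈ car J) (w : V) (g : G w) :
    crd J (x * of Γ G w g) = crd J x * rho J.1 (of Γ G w g) := by
  unfold crd
  rw [← mul_assoc, H_mul_of_mem (mem_car_iff.1 hx)]

theorem crd_mul_of_notMem {J : Hyp Γ G} {x : GraphProduct Γ G} (hx : x ∉ car J) (w : V)
    (g : G w) : crd J (x * of Γ G w g) = crd J x := by
  unfold crd
  rw [← mul_assoc, H_mul_of_notMem (fun h => hx (mem_car_iff.2 h))]

theorem crd_mul_of_ne {J : Hyp Γ G} {w : V} (hw : w ≠ J.1) (x : GraphProduct Γ G)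
    (g : G w) : crd J (x * of Γ G w g) = crd J x := by
  unfold crd
  rw [← mul_assoc, H_mul_of_ne hw]

theorem crd_mul_of_ne' {J : Hyp Γ G} {w : V} {x : GraphProduct Γ G} (h : J ≠ hyp w x)
    (g : G w) : crd J (x * of Γ G w g) = crd J x := by
  by_cases hw : w = J.1
  · apply crd_mul_of_notMem
    intro hx
    apply h
    subst hw
    exact hx.symm
  · exact crd_mul_of_ne hw x g

theorem crd_hyp_mul (w : V) (x : GraphProduct Γ G) (g : G w) :
    crd (hyp w x) (x * of Γ G w g) = crd (hyp w x) x * (show G (hyp w x).1 from g) := by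
  rw [crd_mul_of_mem (mem_car_hyp w x)]
  have : rho (hyp w x).1 (of Γ G w g) = g := rho_of_self w g
  rw [this]

theorem crd_hyp (v : V) (x y : GraphProduct Γ G) :
    (crd (hyp v x) x)⁻¹ * crd (hyp v x) y = H v (x⁻¹ * y) := by
  have h := mem_car_iff.1 (mem_car_hyp v x)
  have e : (base (hyp v x))⁻¹ * y = ((base (hyp v x))⁻¹ * x) * (x⁻¹ * y) := by group
  unfold crd
  rw [e, H_left_mul h, H_of_mem h, inv_mul_cancel_left]
  rfl

theorem mul_mem_car {J : Hyp Γ G} {x : GraphProduct Γ G} {w : V} (hw : w ∈ st Γ J.1) (g : G w) :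
    x * of Γ G w g ∈ car J ↔ x ∈ car J := by
  rw [mem_car_iff, mem_car_iff, ← mul_assoc, mul_of_mem_St hw]

theorem mul_mem_car' {J : Hyp Γ G} {x k : GraphProduct Γ G} (hk : k ∈ St Γ G J.1) :
    x * k ∈ car J ↔ x ∈ car J := by
  rw [mem_car_iff, mem_car_iff, ← mul_assoc]
  exact (St Γ G J.1).mul_mem_cancel_right hk

theorem sep_finite_aux (x z : GraphProduct Γ G) :
    {J : Hyp Γ G | crd J x ≠ crd J (x * z)}.Finite := by
  induction z using induction with
  | h1 => simp
  | hm z w g ih =>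
    refine (ih.union (Set.finite_singleton (hyp w (x * z)))).subset ?_
    intro J hJ
    by_cases h : J = hyp w (x * z)
    · right; exact h
    · left
      have := crd_mul_of_ne' h g
      simp only [Set.mem_ofPred_eq] at hJ ⊢
      rwa [← mul_assoc, this] at hJ

theorem sep_finite (x y : GraphProduct Γ G) : {J : Hyp Γ G | crd J x ≠ crd J y}.Finite := by
  have := sep_finite_aux x (x⁻¹ * y)
  rwa [mul_inv_cancel_left] at this

variable (ℓ : ∀ v, WLen (G v))

/-- distance of coordinates -/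
noncomputable def dJ (J : Hyp Γ G) (x y : GraphProduct Γ G) : ℕ :=
  (ℓ J.1).len ((crd J x)⁻¹ * crd J y)

theorem dJ_self (J : Hyp Γ G) (x : GraphProduct Γ G) : dJ ℓ J x x = 0 := by
  simp [dJ, (ℓ J.1).one]

theorem dJ_comm (J : Hyp Γ G) (x y : GraphProduct Γ G) : dJ ℓ J x y = dJ ℓ J y x := by
  unfold dJ
  rw [← (ℓ J.1).inv, mul_inv_rev, inv_inv]

theorem dJ_tri (J : Hyp Γ G) (x y z : GraphProduct Γ G) :
    dJ ℓ J x z ≤ dJ ℓ J x y + dJ ℓ J y z := by
  unfold dJ
  refine le_trans (le_of_eq ?_) ((ℓ J.1).mul_le _ _)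
  congr 1; group

theorem dJ_eq_zero {J : Hyp Γ G} {x y : GraphProduct Γ G} : dJ ℓ J x y = 0 ↔ crd J x = crd J y := by
  constructor
  · intro h
    have := (ℓ J.1).eq_one _ h
    rwa [inv_mul_eq_one] at this
  · intro h
    unfold dJ; rw [h, inv_mul_cancel, (ℓ J.1).one]

theorem dJ_pos {J : Hyp Γ G} {x y : GraphProduct Γ G} (h : crd J x ≠ crd J y) :
    1 ≤ dJ ℓ J x y := by
  rw [Nat.one_le_iff_ne_zero]
  exact fun h' => h ((dJ_eq_zero ℓ).1 h')

theorem dJ_finite (x y : GraphProduct Γ G) :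
    (Function.support fun J => dJ ℓ J x y).Finite := by
  refine (sep_finite x y).subset ?_
  intro J hJ
  simp only [Function.mem_support] at hJ
  exact fun h => hJ ((dJ_eq_zero ℓ).2 h)

/-- The distance: the sum of the distances of coordinates. -/
noncomputable def D (x y : GraphProduct Γ G) : ℕ := ∑ᶠ J : Hyp Γ G, dJ ℓ J x y

theorem D_self (x : GraphProduct Γ G) : D ℓ x x = 0 := by
  unfold D; simp [dJ_self]

theorem D_comm (x y : GraphProduct Γ G) : D ℓ x y = D ℓ y x := by
  unfold D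
  exact finsum_congr (fun J => dJ_comm ℓ J x y)

theorem D_tri (x y z : GraphProduct Γ G) : D ℓ x z ≤ D ℓ x y + D ℓ y z := by
  unfold D
  rw [← finsum_add_distrib (dJ_finite ℓ x y) (dJ_finite ℓ y z)]
  apply finsum_le_finsum' (dJ_finite ℓ x z)
  · refine ((dJ_finite ℓ x y).union (dJ_finite ℓ y z)).subset ?_
    exact Function.support_add _ _
  · intro J; exact dJ_tri ℓ J x y z

theorem dJ_le_D (J : Hyp Γ G) (x y : GraphProduct Γ G) : dJ ℓ J x y ≤ D ℓ x y := by
  unfold D
  exact single_le_finsum J (dJ_finite ℓ x y) (fun _ => Nat.zero_le _)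

theorem finsum_eq_of_le {α : Type*} {f g : α → ℕ} (hf : f.support.Finite)
    (hg : g.support.Finite) (hle : ∀ a, f a ≤ g a) (h : ∑ᶠ a, g a ≤ ∑ᶠ a, f a) (a : α) :
    f a = g a := by
  have hd : (Function.support fun a => g a - f a).Finite := by
    refine hg.subset ?_
    intro b hb
    simp only [Function.mem_support] at hb ⊢
    omega
  have h1 : ∑ᶠ a, g a = ∑ᶠ a, f a + ∑ᶠ a, (g a - f a) := by
    rw [← finsum_add_distrib hf hd]
    exact finsum_congr (fun b => by have := hle b; omega)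
  have h2 : g a - f a ≤ ∑ᶠ a, (g a - f a) := single_le_finsum a hd (fun _ => Nat.zero_le _)
  have := hle a
  omega

theorem dJ_add_of_D_add {x y z : GraphProduct Γ G} (h : D ℓ x z = D ℓ x y + D ℓ y z)
    (J : Hyp Γ G) : dJ ℓ J x z = dJ ℓ J x y + dJ ℓ J y z := by
  unfold D at h
  rw [← finsum_add_distrib (dJ_finite ℓ x y) (dJ_finite ℓ y z)] at h
  refine finsum_eq_of_le (dJ_finite ℓ x z) ?_ (fun J => dJ_tri ℓ J x y z) h.ge J
  refine ((dJ_finite ℓ x y).union (dJ_finite ℓ y z)).subset ?_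
  exact Function.support_add _ _

theorem dJ_mul_of_ne {J : Hyp Γ G} {w : V} {x : GraphProduct Γ G} (h : J ≠ hyp w x)
    (g : G w) (y : GraphProduct Γ G) : dJ ℓ J (x * of Γ G w g) y = dJ ℓ J x y := by
  unfold dJ; rw [crd_mul_of_ne' h]

theorem D_mul_of (w : V) (x : GraphProduct Γ G) (g : G w) :
    D ℓ x (x * of Γ G w g) = (ℓ w).len g := by
  unfold D
  rw [finsum_eq_single _ (hyp w x)]
  · unfold dJ
    rw [crd_hyp_mul, inv_mul_cancel_left]
    rfl
  · intro J hJ
    rw [dJ_comm, dJ_mul_of_ne ℓ hJ, dJ_self]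

theorem D_step {x y : GraphProduct Γ G} (hxy : x ≠ y) :
    ∃ w, ∃ s : G w, (ℓ w).len s = 1 ∧ D ℓ (x * of Γ G w s) y + 1 = D ℓ x y := by
  classical
  obtain ⟨v, hv⟩ := exists_head (x := x⁻¹ * y) (fun h => hxy (inv_mul_eq_one.1 h))
  have h0 : (ℓ v).len (H v (x⁻¹ * y)) ≠ 0 := fun h => hv ((ℓ v).eq_one _ h)
  obtain ⟨s, k, hsk, hs, hk⟩ := (ℓ v).step _ h0
  refine ⟨v, s, hs, ?_⟩
  have h1 : dJ ℓ (hyp v x) x y = (ℓ v).len (H v (x⁻¹ * y)) := by
    unfold dJ
    rw [crd_hyp]
    rfl
  have h2 : dJ ℓ (hyp v x) (x * of Γ G v s) y = (ℓ v).len k := by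
    unfold dJ
    have e : (crd (hyp v x) x)⁻¹ * crd (hyp v x) y = H v (x⁻¹ * y) := crd_hyp v x y
    have e2 : (crd (hyp v x) (x * of Γ G v s))⁻¹ * crd (hyp v x) y = k := by
      rw [crd_hyp_mul, mul_inv_rev, mul_assoc]
      erw [e]
      rw [hsk]
      exact inv_mul_cancel_left s k
    rw [e2]
    rfl
  unfold D
  have h3 : ∀ J, dJ ℓ J x y = dJ ℓ J (x * of Γ G v s) y + (if J = hyp v x then 1 else 0) := by
    intro J
    by_cases hJ : J = hyp v x
    · subst hJ
      rw [h1, h2, if_pos rfl]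
      exact hk.symm
    · rw [if_neg hJ, dJ_mul_of_ne ℓ hJ, add_zero]
  have h4 : (Function.support fun J : Hyp Γ G => if J = hyp v x then 1 else 0).Finite := by
    refine (Set.finite_singleton (hyp v x)).subset ?_
    intro J hJ
    simp only [Function.mem_support] at hJ
    by_contra hne
    exact hJ (if_neg hne)
  rw [finsum_congr h3, finsum_add_distrib (dJ_finite ℓ _ _) h4]
  congr 1
  rw [finsum_eq_single _ (hyp v x) (fun J hJ => if_neg hJ), if_pos rfl]

theorem D_eq_zero {x y : GraphProduct Γ G} : D ℓ x y = 0 ↔ x = y := by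
  constructor
  · intro h
    by_contra hne
    obtain ⟨w, s, _, h2⟩ := D_step ℓ hne
    omega
  · rintro rfl; exact D_self ℓ x

/-- geodesic words -/
theorem exists_geod (n : ℕ) : ∀ (x y : GraphProduct Γ G), D ℓ x y = n →
    ∃ l : List (Σ v, G v), (∀ p ∈ l, (ℓ p.1).len p.2 = 1) ∧ l.length = n ∧
      y = x * wprod Γ G l := by
  induction n with
  | zero =>
    intro x y h
    exact ⟨[], by simp, rfl, by rw [(D_eq_zero ℓ).1 h]; simp⟩
  | succ n ih =>
    intro x y h
    have hne : x ≠ y := by rintro rfl; rw [D_self] at h; omega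
    obtain ⟨w, s, hs, h2⟩ := D_step ℓ hne
    obtain ⟨l, h3, h4, h5⟩ := ih (x * of Γ G w s) y (by omega)
    refine ⟨⟨w, s⟩ :: l, ?_, by simp [h4], by rw [h5, wprod_cons, mul_assoc]⟩
    intro p hp
    rcases List.mem_cons.1 hp with rfl | hp
    · exact hs
    · exact h3 p hp

theorem D_le_length (l : List (Σ v, G v)) (hl : ∀ p ∈ l, (ℓ p.1).len p.2 = 1)
    (x : GraphProduct Γ G) : D ℓ x (x * wprod Γ G l) ≤ l.length := by
  induction l generalizing x with
  | nil => simp [D_self]
  | cons p l ih =>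
    have h1 := ih (fun q hq => hl q (List.mem_cons_of_mem _ hq)) (x * of Γ G p.1 p.2)
    have h2 := D_tri ℓ x (x * of Γ G p.1 p.2) (x * of Γ G p.1 p.2 * wprod Γ G l)
    rw [D_mul_of, hl p List.mem_cons_self] at h2
    rw [wprod_cons, ← mul_assoc, List.length_cons]
    omega

theorem D_left (k x y : GraphProduct Γ G) : D ℓ (k * x) (k * y) = D ℓ x y := by
  have key : ∀ k x y : GraphProduct Γ G, D ℓ (k * x) (k * y) ≤ D ℓ x y := by
    intro k x y
    obtain ⟨l, h1, h2, h3⟩ := exists_geod ℓ _ x y rfl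
    rw [← h2, h3, ← mul_assoc]
    exact D_le_length ℓ l h1 _
  refine le_antisymm (key k x y) ?_
  have := key k⁻¹ (k * x) (k * y)
  rwa [inv_mul_cancel_left, inv_mul_cancel_left] at this

/-- The word length of the graph product. -/
noncomputable def gpLen [Finite V] : WLen (GraphProduct Γ G) where
  len x := D ℓ 1 x
  one := D_self ℓ 1
  inv x := by
    have := D_left ℓ x 1 x⁻¹
    rw [mul_one, mul_inv_cancel, D_comm] at this
    exact this.symm
  mul_le x y := by
    have h1 := D_tri ℓ 1 x (x * y)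
    have h2 := D_left ℓ x 1 y
    rw [mul_one] at h2
    rwa [h2] at h1
  eq_one x h := ((D_eq_zero ℓ).1 h).symm
  step x h := by
    have hne : (1 : GraphProduct Γ G) ≠ x := by
      rintro rfl; exact h (D_self ℓ 1)
    obtain ⟨w, s, hs, h2⟩ := D_step ℓ hne
    rw [one_mul] at h2
    refine ⟨of Γ G w s, (of Γ G w s)⁻¹ * x, by rw [mul_inv_cancel_left], ?_, ?_⟩
    · have := D_mul_of (Γ := Γ) ℓ w 1 s
      rw [one_mul] at this
      rw [this, hs]
    · have := D_left ℓ (of Γ G w s) 1 ((of Γ G w s)⁻¹ * x)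
      rw [mul_one, mul_inv_cancel_left] at this
      rw [← this, h2]
  fin n := by
    induction n with
    | zero =>
      refine (Set.finite_singleton (1 : GraphProduct Γ G)).subset ?_
      intro x hx
      simp only [Set.mem_ofPred_eq, Nat.le_zero] at hx
      exact ((D_eq_zero ℓ).1 hx).symm
    | succ n ih =>
      have h1 : (⋃ w : V, ⋃ s ∈ {s : G w | (ℓ w).len s ≤ 1},
          (fun x => of Γ G w s * x) '' {x | D ℓ 1 x ≤ n}).Finite := by
        apply Set.finite_iUnion
        intro w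
        exact ((ℓ w).fin 1).biUnion (fun s _ => ih.image _)
      refine (ih.union h1).subset ?_
      intro x hx
      simp only [Set.mem_ofPred_eq] at hx
      by_cases hx1 : (1 : GraphProduct Γ G) = x
      · left; simp only [Set.mem_ofPred_eq]; rw [← hx1, D_self]; omega
      · right
        obtain ⟨w, s, hs, h2⟩ := D_step ℓ hx1
        rw [one_mul] at h2
        simp only [Set.mem_iUnion, Set.mem_image, Set.mem_ofPred_eq]
        refine ⟨w, s, by omega, (of Γ G w s)⁻¹ * x, ?_, by rw [mul_inv_cancel_left]⟩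
        have := D_left ℓ (of Γ G w s) 1 ((of Γ G w s)⁻¹ * x)
        rw [mul_one, mul_inv_cancel_left] at this
        omega

end GraphProduct

end Pool.Agent.MLG
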