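import Mathlib
import Pool.Agent.MLG.Hyp

/-!
# Crossing and nested hyperplanes
-/

namespace Pool.Agent.MLG

namespace GraphProduct

variable {V : Type*} {Γ : SimpleGraph V} {G : V → Type*} [∀ v, Group (G v)]

/-- Two hyperplanes cross when their labels are adjacent and their carriers meet. -/
def Cross (J K : Hyp Γ G) : Prop := Γ.Adj J.1 K.1 ∧ ∃ x, x ∈ car J ∧ x ∈ car K

theorem Cross.symm {J K : Hyp Γ G} (h : Cross J K) : Cross K J :=
  ⟨h.1.symm, h.2.imp fun _ h => ⟨h.2, h.1⟩⟩

theorem car_mul_mem {J : Hyp Γ G} {x y : GraphProduct Γ G} (hx : x ∈ car J) (hy : y ∈ car J) :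
    x⁻¹ * y ∈ St Γ G J.1 := by
  rw [← hyp_eq_iff]
  have h1 : hyp J.1 x = J := hx
  have h2 : hyp J.1 y = J := hy
  rw [h1, h2]

/-- The coordinate of a non-crossing distinct hyperplane is constant on a carrier. -/
theorem crd_const_car {J K : Hyp Γ G} (hne : J ≠ K) (hc : ¬ Cross J K)
    {x y : GraphProduct Γ G} (hx : x ∈ car K) (hy : y ∈ car K) : crd J x = crd J y := by
  have key : ∀ k ∈ St Γ G K.1, crd J x = crd J (x * k) := by
    intro k hk
    refine Sub_induction (P := fun k => crd J x = crd J (x * k)) hk (by simp) ?_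
    intro k hk w hw g ih
    rw [ih, ← mul_assoc]
    symm
    apply crd_mul_of_ne'
    intro hJ
    have hxk : x * k ∈ car K := (mul_mem_car' hk).2 hx
    have hJ1 : J.1 = w := by rw [hJ]; rfl
    rcases hw with rfl | hw
    · apply hne
      rw [hJ]
      exact hxk
    · apply hc
      refine ⟨?_, x * k, ?_, hxk⟩
      · rw [hJ1]; exact hw.symm
      · rw [hJ]; exact mem_car_hyp _ _
  have := key (x⁻¹ * y) (car_mul_mem hx hy)
  rwa [mul_inv_cancel_left] at this

/-- Non-crossing distinct hyperplanes are nested. -/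
theorem nested {J K : Hyp Γ G} (hne : J ≠ K) (hc : ¬ Cross J K) {a b : GraphProduct Γ G}
    (ha : a ∈ car K) (hb : b ∈ car J) (x : GraphProduct Γ G) :
    crd J x = crd J a ∨ crd K x = crd K b := by
  have key : ∀ z : GraphProduct Γ G, crd J (b * z) = crd J a ∨ crd K (b * z) = crd K b := by
    intro z
    induction z using induction with
    | h1 => right; rw [mul_one]
    | hm z w g ih =>
      rw [← mul_assoc]
      by_cases hJ : J = hyp w (b * z)
      · right
        have h1 : b * z * of Γ G w g ∈ car J := by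
          rw [hJ]
          have : w ∈ st Γ (hyp w (b * z) : Hyp Γ G).1 := self_mem_st w
          exact (mul_mem_car this g).2 (mem_car_hyp _ _)
        exact crd_const_car (Ne.symm hne) (fun h => hc h.symm) h1 hb
      · rw [crd_mul_of_ne' hJ]
        by_cases hK : K = hyp w (b * z)
        · left
          have h1 : b * z ∈ car K := by rw [hK]; exact mem_car_hyp _ _
          exact crd_const_car hne hc h1 ha
        · rw [crd_mul_of_ne' hK]; exact ih
  have := key (b⁻¹ * x)
  rwa [mul_inv_cancel_left] at this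

theorem exists_mem_car (J : Hyp Γ G) : ∃ x, x ∈ car J := ⟨base J, hyp_base J⟩

theorem nested' {J K : Hyp Γ G} (hne : J ≠ K) (hc : ¬ Cross J K) :
    ∃ c k, ∀ x, crd J x = c ∨ crd K x = k := by
  obtain ⟨a, ha⟩ := exists_mem_car K
  obtain ⟨b, hb⟩ := exists_mem_car J
  exact ⟨crd J a, crd K b, fun x => nested hne hc ha hb x⟩

theorem exists_crd_ne {J K : Hyp Γ G} (h : Cross J K) [Nontrivial (G J.1)] [Nontrivial (G K.1)]
    (c : G J.1) (k : G K.1) : ∃ x, crd J x ≠ c ∧ crd K x ≠ k := by
  obtain ⟨hadj, z, hzJ, hzK⟩ := h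
  obtain ⟨a, ha⟩ : ∃ a : G J.1, crd J z * a ≠ c := by
    obtain ⟨a, ha⟩ := exists_ne ((crd J z)⁻¹ * c)
    exact ⟨a, fun h => ha (by rw [← h, inv_mul_cancel_left])⟩
  obtain ⟨b, hb⟩ : ∃ b : G K.1, crd K z * b ≠ k := by
    obtain ⟨b, hb⟩ := exists_ne ((crd K z)⁻¹ * k)
    exact ⟨b, fun h => hb (by rw [← h, inv_mul_cancel_left])⟩
  refine ⟨z * of Γ G J.1 a * of Γ G K.1 b, ?_, ?_⟩
  · rw [crd_mul_of_ne hadj.ne.symm, crd_mul_of_mem hzJ, rho_of_self]; exact ha
  · have h1 : z * of Γ G J.1 a ∈ car K := (mul_mem_car (Or.inr hadj.symm) a).2 hzK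
    rw [crd_mul_of_mem h1, rho_of_self, crd_mul_of_ne hadj.ne]; exact hb

theorem not_nested {J K : Hyp Γ G} (h : Cross J K) [Nontrivial (G J.1)] [Nontrivial (G K.1)]
    {c : G J.1} {k : G K.1} (hn : ∀ x, crd J x = c ∨ crd K x = k) : False := by
  obtain ⟨x, h1, h2⟩ := exists_crd_ne h c k
  rcases hn x with h | h
  · exact h1 h
  · exact h2 h

theorem nontrivial_of_sep {J : Hyp Γ G} {x y : GraphProduct Γ G} (h : crd J x ≠ crd J y) :
    Nontrivial (G J.1) := ⟨_, _, h⟩

/-- A hyperplane crossing both `J` and `K` crosses everything in between. -/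
theorem cross_between {J K L W : Hyp Γ G} (hJ : Cross W J) (hL : Cross W L)
    [Nontrivial (G W.1)] [Nontrivial (G J.1)] [Nontrivial (G L.1)]
    {a : G J.1} {b b' : G K.1} {c : G L.1} (h1 : ∀ x, crd J x = a ∨ crd K x = b)
    (h2 : ∀ x, crd K x = b' ∨ crd L x = c) (hb : b ≠ b') : Cross W K := by
  by_contra hcon
  by_cases hWK : W = K
  · subst hWK
    exact not_nested hJ.symm h1
  · obtain ⟨w, k, hn⟩ := nested' hWK hcon
    -- from `J`
    obtain ⟨x, hx1, hx2⟩ := exists_crd_ne hJ w a
    have e1 : crd K x = b := (h1 x).resolve_left hx2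
    have e2 : crd K x = k := (hn x).resolve_left hx1
    obtain ⟨y, hy1, hy2⟩ := exists_crd_ne hL w c
    have e3 : crd K y = b' := (h2 y).resolve_right hy2
    have e4 : crd K y = k := (hn y).resolve_left hy1
    exact hb (by rw [← e1, e2, ← e4, e3])

/-- `J` is strictly before `K` on the way from `x` to `y`. -/
def Before (x y : GraphProduct Γ G) (J K : Hyp Γ G) : Prop :=
  J ≠ K ∧ crd J x ≠ crd J y ∧ crd K x ≠ crd K y ∧ ∀ z, crd J z = crd J y ∨ crd K z = crd K x

theorem not_both {x y : GraphProduct Γ G} {J K : Hyp Γ G} (hne : J ≠ K)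
    (hJ : crd J x ≠ crd J y)
    (h1 : ∀ z, (crd J z = crd J x ∧ crd K z = crd K x) ∨ (crd J z ≠ crd J x ∧ crd K z ≠ crd K x)) :
    False := by
  have key : ∀ z : GraphProduct Γ G, crd J (x * z) = crd J x ∧ crd K (x * z) = crd K x := by
    intro z
    induction z using induction with
    | h1 => simp
    | hm z w g ih =>
      rw [← mul_assoc]
      rcases h1 (x * z * of Γ G w g) with h | h
      · exact h
      · exfalso
        by_cases hJ : J = hyp w (x * z)
        · have hK : K ≠ hyp w (x * z) := fun hK => hne (hJ.trans hK.symm)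
          apply h.2
          rw [crd_mul_of_ne' hK]; exact ih.2
        · apply h.1
          rw [crd_mul_of_ne' hJ]; exact ih.1
  have := key (x⁻¹ * y)
  rw [mul_inv_cancel_left] at this
  exact hJ this.1.symm

theorem Before.trans {x y : GraphProduct Γ G} {J K L : Hyp Γ G} (h1 : Before x y J K)
    (h2 : Before x y K L) : Before x y J L := by
  refine ⟨?_, h1.2.1, h2.2.2.1, fun z => ?_⟩
  · rintro rfl
    refine not_both h1.1 h1.2.1 ?_
    intro z
    rcases h1.2.2.2 z with h | h
    · right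
      refine ⟨fun h' => h1.2.1 (h'.symm.trans h), ?_⟩
      rcases h2.2.2.2 z with h' | h'
      · exact fun h'' => h1.2.2.1 (h''.symm.trans h')
      · exact absurd (h'.symm.trans h) h1.2.1
    · left
      refine ⟨?_, h⟩
      rcases h2.2.2.2 z with h' | h'
      · exact absurd (h.symm.trans h') h1.2.2.1
      · exact h'
  · rcases h1.2.2.2 z with h | h
    · exact Or.inl h
    · rcases h2.2.2.2 z with h' | h'
      · exact absurd (h.symm.trans h') h1.2.2.1
      · exact Or.inr h'

/-- The pair `J, K` is good: the hyperplanes crossing both have finite, pairwise adjacent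
(or equal) labels. -/
def Good (J K : Hyp Γ G) : Prop :=
  (∀ W : Hyp Γ G, Nontrivial (G W.1) → Cross W J → Cross W K → Finite (G W.1)) ∧
  ∀ W W' : Hyp Γ G, Nontrivial (G W.1) → Nontrivial (G W'.1) → Cross W J → Cross W K →
    Cross W' J → Cross W' K → W.1 ≠ W'.1 → Γ.Adj W.1 W'.1

theorem cross_of_before {x y : GraphProduct Γ G} {J K L W : Hyp Γ G} (hW : Nontrivial (G W.1))
    (hJ : Cross W J) (hL : Cross W L) (h1 : Before x y J K) (h2 : Before x y K L) : Cross W K := by
  haveI := nontrivial_of_sep h1.2.1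
  haveI := nontrivial_of_sep h2.2.2.1
  exact cross_between hJ hL h1.2.2.2 h2.2.2.2 h1.2.2.1

end GraphProduct

end Pool.Agent.MLG
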