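import Mathlib
import Pool.Agent.MLG.Defs
import Pool.Agent.MLG.Nest

/-!
# Common definitions and tools for the two steps of the proof
-/

namespace Pool.Agent.MLG

namespace GraphProduct

variable {V : Type*} {Γ : SimpleGraph V} {G : V → Type*} [∀ v, Group (G v)]

variable (ℓ : ∀ v, WLen (G v))

/-- the distance as a real number -/
noncomputable def Dr (x y : GraphProduct Γ G) : ℝ := (D ℓ x y : ℝ)

theorem isDist_Dr : IsDist (Dr (Γ := Γ) ℓ) where
  self x := by unfold Dr; rw [D_self]; simp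
  symm x y := by unfold Dr; rw [D_comm]
  tri x y z := by unfold Dr; exact_mod_cast D_tri ℓ x y z
  nonneg x y := by unfold Dr; positivity

theorem Dr_left (k x y : GraphProduct Γ G) : Dr ℓ (k * x) (k * y) = Dr ℓ x y := by
  unfold Dr; rw [D_left]

theorem D_eq_len (x y : GraphProduct Γ G) : D ℓ x y = D ℓ 1 (x⁻¹ * y) := by
  have := D_left ℓ x 1 (x⁻¹ * y)
  rw [mul_one, mul_inv_cancel_left] at this
  exact this

/-- A geodesic sequence from `x` to `y`. -/
theorem exists_geodSeq (x y : GraphProduct Γ G) : ∃ β : ℕ → GraphProduct Γ G,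
    β 0 = x ∧ β (D ℓ x y) = y ∧ (∀ i j, i ≤ j → j ≤ D ℓ x y → D ℓ (β i) (β j) = j - i) ∧
    ∀ i, i < D ℓ x y → ∃ w, ∃ s : G w, (ℓ w).len s = 1 ∧ β (i + 1) = β i * of Γ G w s := by
  have key : ∀ n (x : GraphProduct Γ G), D ℓ x y = n → ∃ β : ℕ → GraphProduct Γ G,
      β 0 = x ∧ β n = y ∧ (∀ i, i ≤ n → D ℓ (β i) y = n - i) ∧
      ∀ i, i < n → ∃ w, ∃ s : G w, (ℓ w).len s = 1 ∧ β (i + 1) = β i * of Γ G w s := by
    intro n
    induction n with
    | zero =>
      intro x hx
      have : x = y := (D_eq_zero ℓ).1 hx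
      subst this
      exact ⟨fun _ => x, rfl, rfl, fun i hi => by simp [D_self], fun i hi => by omega⟩
    | succ n ih =>
      intro x hx
      have hne : x ≠ y := by rintro rfl; rw [D_self] at hx; omega
      obtain ⟨w, s, hs, h2⟩ := D_step ℓ hne
      obtain ⟨β, h3, h4, h5, h6⟩ := ih (x * of Γ G w s) (by omega)
      refine ⟨fun i => if i = 0 then x else β (i - 1), by simp, by simp [h4], ?_, ?_⟩
      · intro i hi
        rcases Nat.eq_zero_or_pos i with rfl | hi0
        · simp [hx]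
        · simp only [if_neg hi0.ne']
          rw [h5 (i - 1) (by omega)]; omega
      · intro i hi
        rcases Nat.eq_zero_or_pos i with rfl | hi0
        · exact ⟨w, s, hs, by simp [h3]⟩
        · obtain ⟨w', s', hs', h7⟩ := h6 (i - 1) (by omega)
          refine ⟨w', s', hs', ?_⟩
          simp only [if_neg hi0.ne', if_neg (Nat.succ_ne_zero i)]
          rw [show i + 1 - 1 = (i - 1) + 1 by omega, h7]
  obtain ⟨β, h1, h2, h3, h4⟩ := key _ x rfl
  refine ⟨β, h1, h2, ?_, h4⟩
  have hup : ∀ i k, i + k ≤ D ℓ x y → D ℓ (β i) (β (i + k)) ≤ k := by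
    intro i k
    induction k with
    | zero => intro _; simp [D_self]
    | succ k ih =>
      intro hk
      obtain ⟨w, s, hs, h5⟩ := h4 (i + k) (by omega)
      have h6 := D_tri ℓ (β i) (β (i + k)) (β (i + (k + 1)))
      have h7 : D ℓ (β (i + k)) (β (i + (k + 1))) = 1 := by
        rw [← add_assoc, h5, D_mul_of, hs]
      have := ih (by omega)
      omega
  intro i j hij hj
  have h5 := hup i (j - i) (by omega)
  rw [show i + (j - i) = j by omega] at h5
  have h6 := D_tri ℓ (β i) (β j) y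
  rw [h3 i (by omega), h3 j hj] at h6
  omega

/-- Pairwise distinct separating hyperplanes are at most as many as the distance. -/
theorem card_le_D {x y : GraphProduct Γ G} (s : Finset (Hyp Γ G))
    (hs : ∀ J ∈ s, crd J x ≠ crd J y) : s.card ≤ D ℓ x y := by
  classical
  have h1 : ∑ J ∈ s, 1 ≤ ∑ J ∈ s, dJ ℓ J x y := Finset.sum_le_sum (fun J hJ => dJ_pos ℓ (hs J hJ))
  have h2 : ∑ J ∈ s, dJ ℓ J x y ≤ D ℓ x y := by
    unfold D
    rw [finsum_eq_sum_of_support_subset (s := s ∪ (dJ_finite ℓ x y).toFinset)]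
    · exact Finset.sum_le_sum_of_subset Finset.subset_union_left
    · intro J hJ
      simp only [Finset.coe_union, Set.Finite.coe_toFinset]
      exact Or.inr hJ
  simp only [Finset.sum_const, smul_eq_mul, mul_one] at h1
  omega

/-- `Before` extends along geodesics. -/
theorem Before.extend {x p q y : GraphProduct Γ G} {J K : Hyp Γ G}
    (h : D ℓ x y = D ℓ x p + D ℓ p q + D ℓ q y) (hb : Before p q J K) : Before x y J K := by
  have t1 := D_tri ℓ x p q
  have t2 := D_tri ℓ x q y
  have t3 := D_tri ℓ p q y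
  have t4 := D_tri ℓ x p y
  have e1 : D ℓ x y = D ℓ x q + D ℓ q y := by omega
  have e2 : D ℓ x q = D ℓ x p + D ℓ p q := by omega
  have e3 : D ℓ x y = D ℓ x p + D ℓ p y := by omega
  have e4 : D ℓ p y = D ℓ p q + D ℓ q y := by omega
  have pJ := dJ_pos ℓ hb.2.1
  have pK := dJ_pos ℓ hb.2.2.1
  have sepx : ∀ L : Hyp Γ G, 1 ≤ dJ ℓ L p q → crd L x ≠ crd L q := by
    intro L hL he
    have := dJ_add_of_D_add ℓ e2 L
    rw [(dJ_eq_zero ℓ).2 he] at this
    omega
  have sepy : ∀ L : Hyp Γ G, 1 ≤ dJ ℓ L p q → crd L p ≠ crd L y := by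
    intro L hL he
    have := dJ_add_of_D_add ℓ e4 L
    rw [(dJ_eq_zero ℓ).2 he] at this
    omega
  have sepxy : ∀ L : Hyp Γ G, 1 ≤ dJ ℓ L p q → crd L x ≠ crd L y := by
    intro L hL he
    have h1 := dJ_add_of_D_add ℓ e1 L
    have h2 := dJ_add_of_D_add ℓ e2 L
    rw [(dJ_eq_zero ℓ).2 he] at h1
    omega
  have hJ : crd J y = crd J q := by
    rcases hb.2.2.2 y with h | h
    · exact h
    · exact absurd h.symm (sepy K pK)
  have hK : crd K x = crd K p := by
    rcases hb.2.2.2 x with h | h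
    · exact absurd h (sepx J pJ)
    · exact h
  exact ⟨hb.1, sepxy J pJ, sepxy K pK, fun z => by rw [hJ, hK]; exact hb.2.2.2 z⟩

/-- Bound on the subsegments of geodesics from `x` to `y` contained in products of two commuting
subgroups: the longer component is at most `n` when the other factor is infinite. -/
def WideBound (n : ℕ) (x y : GraphProduct Γ G) : Prop :=
  ∀ p q, D ℓ x y = D ℓ x p + D ℓ p q + D ℓ q y → ∀ (Λ₁ Λ₂ : Set V),
    (∀ v ∈ Λ₁, ∀ w ∈ Λ₂, Γ.Adj v w) → (Sub Γ G Λ₂ : Set (GraphProduct Γ G)).Infinite →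
    ∀ u₁ ∈ Sub Γ G Λ₁, ∀ u₂ ∈ Sub Γ G Λ₂, q = p * u₁ * u₂ → D ℓ 1 u₂ ≤ D ℓ 1 u₁ →
    D ℓ 1 u₁ ≤ n

/-- no infinite vertex group with finite link group -/
def Reduced (Γ : SimpleGraph V) (G : V → Type*) [∀ v, Group (G v)] : Prop :=
  ∀ v, Infinite (G v) → (Sub Γ G {w | Γ.Adj v w} : Set (GraphProduct Γ G)).Infinite

/-- `K 0, …, K (m-1)` is a chain of hyperplanes from `x` to `y` with good consecutive pairs. -/
structure IsChain (x y : GraphProduct Γ G) (m : ℕ) (K : ℕ → Hyp Γ G) : Prop where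
  before : ∀ i j, i < j → j < m → Before x y (K i) (K j)
  good : ∀ i, i + 1 < m → Good (K i) (K (i + 1))

/-- the labels of a piece: `none` is the complement of `V1`, `some v` the singleton `v ∈ V1` -/
def pieceSet (V1 : Set V) : Option V1 → Set V
  | none => V1ᶜ
  | some v => {v.1}

/-- The retraction does not increase lengths. -/
theorem D_ret (Δ : Set V) (x y : GraphProduct Γ G) : D ℓ (ret Δ x) (ret Δ y) ≤ D ℓ x y := by
  obtain ⟨l, h1, h2, h3⟩ := exists_geod ℓ _ x y rfl
  have key : ∀ (l : List (Σ v, G v)), (∀ p ∈ l, (ℓ p.1).len p.2 = 1) →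
      ∀ x : GraphProduct Γ G, D ℓ (ret Δ x) (ret Δ (x * wprod Γ G l)) ≤ l.length := by
    intro l
    induction l with
    | nil => intro _ x; simp [D_self]
    | cons p l ih =>
      intro hl x
      have h1 := ih (fun q hq => hl q (List.mem_cons_of_mem _ hq)) (x * of Γ G p.1 p.2)
      have h2 : D ℓ (ret Δ x) (ret Δ (x * of Γ G p.1 p.2)) ≤ 1 := by
        rw [map_mul]
        by_cases hv : p.1 ∈ Δ
        · rw [ret_of_mem hv, D_mul_of, hl p List.mem_cons_self]
        · rw [ret_of_notMem hv, mul_one, D_self]; omega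
      have h3 := D_tri ℓ (ret Δ x) (ret Δ (x * of Γ G p.1 p.2))
        (ret Δ (x * of Γ G p.1 p.2 * wprod Γ G l))
      rw [wprod_cons, ← mul_assoc, List.length_cons]
      omega
  rw [← h2]
  conv_lhs => rw [h3]
  exact key l h1 x

end GraphProduct

end Pool.Agent.MLG
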