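import Mathlib
import Pool.Agent.MLG.Step

/-!
# Chains of hyperplanes along a local Morse sequence
-/

namespace Pool.Agent.MLG

namespace GraphProduct

variable {V : Type*} {Γ : SimpleGraph V} {G : V → Type*} [∀ v, Group (G v)]

variable (ℓ : ∀ v, WLen (G v))

theorem D_inv (u : GraphProduct Γ G) : D ℓ 1 u⁻¹ = D ℓ 1 u := by
  have := D_left ℓ u 1 u⁻¹
  rw [mul_one, mul_inv_cancel, D_comm] at this
  exact this.symm

/-- A geodesic sequence gives a discrete `(1,0)`-quasi-geodesic. -/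
theorem dqg_of_geod {β : ℕ → GraphProduct Γ G} {n : ℕ}
    (h : ∀ i j, i ≤ j → j ≤ n → D ℓ (β i) (β j) = j - i) : DQG (Dr ℓ) 1 0 β 0 n := by
  intro a b _ hab hb
  have h1 := h a b hab hb
  have h2 : Dr ℓ (β a) (β b) = (b : ℝ) - a := by
    unfold Dr; rw [h1, Nat.cast_sub hab]
  rw [h2]
  constructor <;> simp

/-- A geodesic sequence from `x` to `y` through a point `p` of the interval. -/
theorem exists_geodSeq_through {x p y : GraphProduct Γ G} (h : D ℓ x y = D ℓ x p + D ℓ p y) :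
    ∃ β : ℕ → GraphProduct Γ G, β 0 = x ∧ β (D ℓ x y) = y ∧ β (D ℓ x p) = p ∧
      ∀ i j, i ≤ j → j ≤ D ℓ x y → D ℓ (β i) (β j) = j - i := by
  obtain ⟨β₁, a1, a2, a3, -⟩ := exists_geodSeq ℓ x p
  obtain ⟨β₂, b1, b2, b3, -⟩ := exists_geodSeq ℓ p y
  set β : ℕ → GraphProduct Γ G := fun i => if i ≤ D ℓ x p then β₁ i else β₂ (i - D ℓ x p) with hβ
  have e0 : β 0 = x := by simp [hβ, a1]
  have ep : β (D ℓ x p) = p := by simp [hβ, a2]
  have e1 : ∀ i, i ≤ D ℓ x p → β i = β₁ i := fun i hi => by simp [hβ, hi]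
  have e2 : ∀ i, D ℓ x p ≤ i → β i = β₂ (i - D ℓ x p) := by
    intro i hi
    rcases Nat.eq_or_lt_of_le hi with h' | h'
    · rw [← h', ep, Nat.sub_self, b1]
    · simp [hβ, Nat.not_le.2 h']
  have ey : β (D ℓ x y) = y := by
    rw [e2 _ (by omega), show D ℓ x y - D ℓ x p = D ℓ p y by omega, b2]
  refine ⟨β, e0, ey, ep, ?_⟩
  have hx : ∀ i, i ≤ D ℓ x y → D ℓ x (β i) ≤ i := by
    intro i hi
    rcases Nat.le_total i (D ℓ x p) with h' | h'
    · rw [e1 i h']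
      have := a3 0 i (Nat.zero_le _) h'
      rw [a1] at this
      omega
    · rw [e2 i h']
      have := b3 0 (i - D ℓ x p) (Nat.zero_le _) (by omega)
      rw [b1] at this
      have := D_tri ℓ x p (β₂ (i - D ℓ x p))
      omega
  have hy : ∀ i, i ≤ D ℓ x y → D ℓ (β i) y ≤ D ℓ x y - i := by
    intro i hi
    rcases Nat.le_total i (D ℓ x p) with h' | h'
    · rw [e1 i h']
      have := a3 i (D ℓ x p) h' le_rfl
      rw [a2] at this
      have := D_tri ℓ (β₁ i) p y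
      omega
    · rw [e2 i h']
      have := b3 (i - D ℓ x p) (D ℓ p y) (by omega) le_rfl
      rw [b2] at this
      omega
  have hup : ∀ i j, i ≤ j → j ≤ D ℓ x y → D ℓ (β i) (β j) ≤ j - i := by
    intro i j hij hj
    rcases Nat.le_total j (D ℓ x p) with h' | h'
    · rw [e1 i (by omega), e1 j h', a3 i j hij h']
    · rcases Nat.le_total i (D ℓ x p) with h'' | h''
      · rw [e1 i h'', e2 j h']
        have c1 := a3 i (D ℓ x p) h'' le_rfl
        rw [a2] at c1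
        have c2 := b3 0 (j - D ℓ x p) (Nat.zero_le _) (by omega)
        rw [b1] at c2
        have := D_tri ℓ (β₁ i) p (β₂ (j - D ℓ x p))
        omega
      · rw [e2 i h'', e2 j h', b3 (i - D ℓ x p) (j - D ℓ x p) (by omega) (by omega)]
        omega
  intro i j hij hj
  have c1 := hup i j hij hj
  have c2 := hx i (by omega)
  have c3 := hy j hj
  have c4 := D_tri ℓ x (β i) y
  have c5 := D_tri ℓ (β i) (β j) y
  omega

/-- The wide bound passes to subintervals of geodesics. -/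
theorem WideBound.mono {n : ℕ} {x y p q : GraphProduct Γ G} (hW : WideBound ℓ n x y)
    (h : D ℓ x y = D ℓ x p + D ℓ p q + D ℓ q y) : WideBound ℓ n p q := by
  intro p' q' h' Λ₁ Λ₂ hadj hinf u₁ hu₁ u₂ hu₂ hq hle
  refine hW p' q' ?_ Λ₁ Λ₂ hadj hinf u₁ hu₁ u₂ hu₂ hq hle
  have t1 := D_tri ℓ x p p'
  have t2 := D_tri ℓ q' q y
  have t3 := D_tri ℓ x p' y
  have t4 := D_tri ℓ p' q' y
  omega

theorem exists_chains [Finite V]
    (hchain : ∀ n m : ℕ, ∃ N : ℕ, ∀ x y : GraphProduct Γ G, WideBound ℓ n x y → N ≤ D ℓ x y →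
      ∃ K : ℕ → Hyp Γ G, IsChain x y m K)
    (hfellow : ∀ (M : ℝ → ℝ → ℝ) (lam eps Δ : ℝ), 1 ≤ lam → 0 ≤ eps → 0 ≤ Δ →
      ∃ R : ℝ, 0 ≤ R ∧ ∀ (y : ℕ → GraphProduct Γ G) (a b : ℕ), a ≤ b →
        DQG (Dr ℓ) lam eps y a b → DMorse (Dr ℓ) M y a b →
        ∀ (β : ℕ → GraphProduct Γ G) (m : ℕ), DQG (Dr ℓ) 1 0 β 0 m →
          Dr ℓ (β 0) (y a) ≤ Δ → Dr ℓ (β m) (y b) ≤ Δ →
          (∀ k ≤ m, ∃ q, a ≤ q ∧ q ≤ b ∧ Dr ℓ (β k) (y q) ≤ R) ∧
          (∀ q, a ≤ q → q ≤ b → ∃ k ≤ m, Dr ℓ (y q) (β k) ≤ R))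
    (hdetour : ∀ (M : ℝ → ℝ → ℝ) (lam eps Δ : ℝ), 1 ≤ lam → 0 ≤ eps → 0 ≤ Δ →
      ∃ n : ℕ, ∀ (y : ℕ → GraphProduct Γ G) (a b : ℕ), a ≤ b →
        DQG (Dr ℓ) lam eps y a b → DMorse (Dr ℓ) M y a b →
        ∀ x x', Dr ℓ x (y a) ≤ Δ → Dr ℓ x' (y b) ≤ Δ →
        ∀ Λ₁ Λ₂ : Set V, (∀ v ∈ Λ₁, ∀ w ∈ Λ₂, Γ.Adj v w) →
        (Sub Γ G Λ₂ : Set (GraphProduct Γ G)).Infinite →
        ∀ u₁ ∈ Sub Γ G Λ₁, ∀ u₂ ∈ Sub Γ G Λ₂, x' = x * u₁ * u₂ →
        D ℓ 1 u₂ ≤ D ℓ 1 u₁ → D ℓ 1 u₁ ≤ n)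
    (M : ℝ → ℝ → ℝ) (lam eps : ℝ) (hlam : 1 ≤ lam) (heps : 0 ≤ eps) (m : ℕ) :
    ∃ L T : ℕ, 1 ≤ T ∧ ∀ (y : ℕ → GraphProduct Γ G) (n : ℕ), DLocal (Dr ℓ) L M lam eps y n →
      (∀ i, i < n → Dr ℓ (y i) (y (i + 1)) ≤ lam + eps) ∧
      ∀ i, 1 ≤ i → (i + 2) * T ≤ n → ∃ K : ℕ → Hyp Γ G,
        IsChain (y (i * T)) (y ((i + 1) * T)) m K ∧
        ∀ j < m, crd (K j) (y ((i - 1) * T)) = crd (K j) (y (i * T)) ∧
          crd (K j) (y ((i + 2) * T)) = crd (K j) (y ((i + 1) * T)) := by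
  classical
  obtain ⟨R0, hR0, hf0⟩ := hfellow M lam eps 0 hlam heps le_rfl
  obtain ⟨R1, hR1, hf1⟩ := hfellow M lam eps R0 hlam heps hR0
  obtain ⟨n0, hn0⟩ := hdetour M lam eps R0 hlam heps hR0
  set r : ℕ := ⌈R0⌉₊ with hr
  have hrR : R0 ≤ r := Nat.le_ceil R0
  set m0 : ℕ := m + 2 * r + 4 with hm0
  obtain ⟨N, hN⟩ := hchain n0 m0
  set T : ℕ := ⌈lam * (eps + 2 * R0 + R1 + N + 1)⌉₊ + 1 with hT
  have hlam0 : 0 < lam := by linarith
  have hTlam : eps + 2 * R0 + R1 + N + 1 ≤ (T : ℝ) / lam := by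
    rw [le_div_iff₀ hlam0]
    have h1 : lam * (eps + 2 * R0 + R1 + N + 1) ≤ (⌈lam * (eps + 2 * R0 + R1 + N + 1)⌉₊ : ℝ) :=
      Nat.le_ceil _
    have h2 : (T : ℝ) = (⌈lam * (eps + 2 * R0 + R1 + N + 1)⌉₊ : ℝ) + 1 := by
      rw [hT]; push_cast; ring
    rw [h2]; linarith
  refine ⟨3 * T, T, by omega, ?_⟩
  intro y n hloc
  refine ⟨?_, ?_⟩
  · intro i hi
    have h1 := (hloc i (i + 1) (by omega) (by omega) (by omega)).1 i (i + 1) le_rfl (by omega) le_rfl
    have h2 := h1.2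
    push_cast at h2
    have h3 : (i : ℝ) + 1 - i = 1 := by ring
    rw [h3, mul_one] at h2
    exact h2
  intro i hi1 hin
  obtain ⟨i, rfl⟩ : ∃ i', i = i' + 1 := ⟨i - 1, by omega⟩
  have hsub : i + 1 - 1 = i := by omega
  rw [hsub]
  set a0 : ℕ := i * T with ha0
  set a1 : ℕ := (i + 1) * T with ha1
  set a2 : ℕ := (i + 1 + 1) * T with ha2
  set a3 : ℕ := (i + 1 + 2) * T with ha3
  have e1 : a1 = a0 + T := by rw [ha1, ha0]; ring
  have e2 : a2 = a0 + 2 * T := by rw [ha2, ha0]; ring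
  have e3 : a3 = a0 + 3 * T := by rw [ha3, ha0]; ring
  have loc : ∀ s t, a0 ≤ s → s ≤ t → t ≤ a3 →
      DQG (Dr ℓ) lam eps y s t ∧ DMorse (Dr ℓ) M y s t := by
    intro s t hs hst ht
    exact hloc s t hst (by omega) (by omega)
  obtain ⟨Q, Mo⟩ := loc a0 a3 le_rfl (by omega) le_rfl
  set x := y a0 with hx
  set x' := y a3 with hx'
  have hd := isDist_Dr (Γ := Γ) ℓ
  -- geodesics between the endpoints
  have gd : ∀ β : ℕ → GraphProduct Γ G, β 0 = x → β (D ℓ x x') = x' →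
      (∀ i j, i ≤ j → j ≤ D ℓ x x' → D ℓ (β i) (β j) = j - i) →
      (∀ k ≤ D ℓ x x', ∃ q, a0 ≤ q ∧ q ≤ a3 ∧ Dr ℓ (β k) (y q) ≤ R0) ∧
      (∀ q, a0 ≤ q → q ≤ a3 → ∃ k ≤ D ℓ x x', Dr ℓ (y q) (β k) ≤ R0) := by
    intro β h0 h1 h2
    refine hf0 y a0 a3 (by omega) Q Mo β (D ℓ x x') (dqg_of_geod ℓ h2) ?_ ?_
    · rw [h0]; exact (hd.self x).le
    · rw [h1]; exact (hd.self x').le
  -- every point of the interval is close to the sequence
  have near : ∀ p, D ℓ x x' = D ℓ x p + D ℓ p x' → ∃ q, a0 ≤ q ∧ q ≤ a3 ∧ Dr ℓ p (y q) ≤ R0 := by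
    intro p hp
    obtain ⟨β, h0, h1, h2, h3⟩ := exists_geodSeq_through ℓ hp
    obtain ⟨q, hq1, hq2, hq3⟩ := (gd β h0 h1 h3).1 (D ℓ x p) (by omega)
    rw [h2] at hq3
    exact ⟨q, hq1, hq2, hq3⟩
  have wide : WideBound ℓ n0 x x' := by
    intro p q hpq Λ₁ Λ₂ hadj hinf u₁ hu₁ u₂ hu₂ hq hle
    have t1 := D_tri ℓ x p q
    have t2 := D_tri ℓ x q x'
    have t3 := D_tri ℓ p q x'
    have t4 := D_tri ℓ x p x'
    obtain ⟨a, a1', a2', a3'⟩ := near p (by omega)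
    obtain ⟨b, b1', b2', b3'⟩ := near q (by omega)
    rcases Nat.le_total a b with hab | hab
    · obtain ⟨Q', Mo'⟩ := loc a b a1' hab b2'
      exact hn0 y a b hab Q' Mo' p q a3' b3' Λ₁ Λ₂ hadj hinf u₁ hu₁ u₂ hu₂ hq hle
    · obtain ⟨Q', Mo'⟩ := loc b a b1' hab a2'
      have := hn0 y b a hab Q' Mo' q p b3' a3' Λ₁ Λ₂ hadj hinf u₁⁻¹ (inv_mem hu₁) u₂⁻¹
        (inv_mem hu₂) ?_ ?_
      · rwa [D_inv] at this
      · have hc : u₁ * u₂ = u₂ * u₁ := Sub_comm hadj hu₁ hu₂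
        rw [hq, mul_assoc p, hc]; group
      · rw [D_inv, D_inv]; exact hle
  -- the geodesic and the two intermediate points
  obtain ⟨β, h0, h1, h2, -⟩ := exists_geodSeq ℓ x x'
  obtain ⟨k, hk, hkR⟩ := (gd β h0 h1 h2).2 a1 (by omega) (by omega)
  obtain ⟨l, hl, hlR⟩ := (gd β h0 h1 h2).2 a2 (by omega) (by omega)
  have hkl : k ≤ l := by
    by_contra hcon
    push Not at hcon
    obtain ⟨Q', Mo'⟩ := loc a0 a1 le_rfl (by omega) (by omega)
    have hsubβ : DQG (Dr ℓ) 1 0 β 0 k :=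
      dqg_of_geod ℓ (fun i j hij hj => h2 i j hij (by omega))
    obtain ⟨q, hq1, hq2, hq3⟩ := (hf1 y a0 a1 (by omega) Q' Mo' β k hsubβ
      (by rw [h0]; exact (hd.self x).le.trans hR0) (by rw [hd.symm]; exact hkR)).1 l (by omega)
    have h3 := (Q q a2 hq1 (by omega) (by omega)).1
    have h4 := hd.tri (y q) (β l) (y a2)
    rw [hd.symm (y q) (β l), hd.symm (β l) (y a2)] at h4
    have h5 : (T : ℝ) / lam ≤ ((a2 : ℝ) - q) / lam := by
      apply div_le_div_of_nonneg_right _ hlam0.le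
      have : (q : ℝ) + T ≤ a2 := by exact_mod_cast (by omega : q + T ≤ a2)
      linarith
    have hN0 : (0 : ℝ) ≤ N := Nat.cast_nonneg N
    linarith
  set p := β k with hp
  set q := β l with hq
  have hxp : D ℓ x p = k := by
    have := h2 0 k (Nat.zero_le _) hk
    rw [h0] at this; omega
  have hpq : D ℓ p q = l - k := h2 k l hkl hl
  have hqx' : D ℓ q x' = D ℓ x x' - l := by
    have := h2 l (D ℓ x x') hl le_rfl
    rwa [h1] at this
  have hgeo : D ℓ x x' = D ℓ x p + D ℓ p q + D ℓ q x' := by omega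
  have hNpq : N ≤ D ℓ p q := by
    have h3 := (Q a1 a2 (by omega) (by omega) (by omega)).1
    have h4 : (T : ℝ) / lam = ((a2 : ℝ) - a1) / lam := by
      congr 1
      rw [e1, e2]; push_cast; ring
    have h5 := hd.tri (y a1) p (y a2)
    have h6 := hd.tri p q (y a2)
    rw [hd.symm q (y a2)] at h6
    have h7 : (N : ℝ) ≤ Dr ℓ p q := by
      rw [← h4] at h3
      linarith
    unfold Dr at h7
    exact_mod_cast h7
  obtain ⟨K0, hK0⟩ := hN p q (wide.mono ℓ hgeo) hNpq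
  -- dJ is additive
  have hxq : D ℓ x q = l - 0 := by
    have := h2 0 l (Nat.zero_le _) hl
    rw [h0] at this
    exact this
  have hpx' : D ℓ p x' = D ℓ x x' - k := by
    have := h2 k (D ℓ x x') hk le_rfl
    rw [h1] at this
    exact this
  have tpq : D ℓ x q = D ℓ x p + D ℓ p q := by omega
  have tpq' : D ℓ p x' = D ℓ p q + D ℓ q x' := by omega
  have sepxq : ∀ J : Hyp Γ G, crd J p ≠ crd J q → crd J x ≠ crd J q := by
    intro J hJ he
    have h3 := dJ_add_of_D_add ℓ tpq J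
    rw [(dJ_eq_zero ℓ).2 he] at h3
    have h4 := dJ_pos ℓ hJ
    omega
  have seppx' : ∀ J : Hyp Γ G, crd J p ≠ crd J q → crd J x' ≠ crd J p := by
    intro J hJ he
    have h3 := dJ_add_of_D_add ℓ tpq' J
    rw [(dJ_eq_zero ℓ).2 he.symm] at h3
    have h4 := dJ_pos ℓ hJ
    omega
  have hsep : ∀ j, j < m0 → crd (K0 j) p ≠ crd (K0 j) q := by
    intro j hj
    rcases Nat.eq_zero_or_pos j with rfl | hj0
    · exact (hK0.before 0 1 (by omega) (by omega)).2.1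
    · exact (hK0.before 0 j hj0 hj).2.2.1
  have hinj : ∀ i j, i < m0 → j < m0 → K0 i = K0 j → i = j := by
    intro i j hi hj hij
    rcases lt_trichotomy i j with h | h | h
    · exact absurd hij (hK0.before i j h hj).1
    · exact h
    · exact absurd hij.symm (hK0.before j i h hi).1
  have cx : ∀ j, 1 ≤ j → j < m0 → crd (K0 j) x = crd (K0 j) p := by
    intro j hj1 hj
    rcases (hK0.before 0 j hj1 hj).2.2.2 x with h | h
    · exact absurd h (sepxq _ (hsep 0 (by omega)))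
    · exact h
  have cx' : ∀ j, j + 1 < m0 → crd (K0 j) x' = crd (K0 j) q := by
    intro j hj
    rcases (hK0.before j (m0 - 1) (by omega) (by omega)).2.2.2 x' with h | h
    · exact h
    · exact absurd h (seppx' _ (hsep (m0 - 1) (by omega)))
  have cy : ∀ j, r ≤ j → j < m0 → crd (K0 j) (y a1) = crd (K0 j) p := by
    intro j hrj hj
    by_contra hne
    have hall : ∀ j' ≤ j, crd (K0 j') (y a1) ≠ crd (K0 j') p := by
      intro j' hj'
      rcases Nat.eq_or_lt_of_le hj' with rfl | hlt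
      · exact hne
      · rcases (hK0.before j' j hlt hj).2.2.2 (y a1) with h | h
        · rw [h]; exact (hsep j' (by omega)).symm
        · exact absurd h hne
    have hcard := card_le_D ℓ (x := y a1) (y := p) ((Finset.range (j + 1)).image K0) (by
      intro J hJ
      obtain ⟨j', hj', rfl⟩ := Finset.mem_image.1 hJ
      exact hall j' (by have := Finset.mem_range.1 hj'; omega))
    rw [Finset.card_image_of_injOn] at hcard
    · rw [Finset.card_range] at hcard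
      have h3 : ((j + 1 : ℕ) : ℝ) ≤ Dr ℓ (y a1) p := by unfold Dr; exact_mod_cast hcard
      have h4 : (r : ℝ) ≤ j := by exact_mod_cast hrj
      push_cast at h3
      linarith
    · intro i1 hi1 i2 hi2 h
      have := Finset.mem_coe.1 hi1
      have := Finset.mem_coe.1 hi2
      simp only [Finset.mem_range] at *
      exact hinj _ _ (by omega) (by omega) h
  have cy' : ∀ j, j + r < m0 → crd (K0 j) (y a2) = crd (K0 j) q := by
    intro j hj
    by_contra hne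
    have hall : ∀ j', j ≤ j' → j' < m0 → crd (K0 j') (y a2) ≠ crd (K0 j') q := by
      intro j' hj' hj'm
      rcases Nat.eq_or_lt_of_le hj' with rfl | hlt
      · exact hne
      · rcases (hK0.before j j' hlt hj'm).2.2.2 (y a2) with h | h
        · exact absurd h hne
        · rw [h]; exact hsep j' hj'm
    have hcard := card_le_D ℓ (x := y a2) (y := q) ((Finset.Ico j m0).image K0) (by
      intro J hJ
      obtain ⟨j', hj', rfl⟩ := Finset.mem_image.1 hJ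
      have := Finset.mem_Ico.1 hj'
      exact hall j' this.1 this.2)
    rw [Finset.card_image_of_injOn] at hcard
    · rw [Nat.card_Ico] at hcard
      have h3 : ((r + 1 : ℕ) : ℝ) ≤ Dr ℓ (y a2) q := by
        unfold Dr; exact_mod_cast (by omega : r + 1 ≤ D ℓ (y a2) q)
      push_cast at h3
      linarith
    · intro i1 hi1 i2 hi2 h
      have := Finset.mem_coe.1 hi1
      have := Finset.mem_coe.1 hi2
      simp only [Finset.mem_Ico] at *
      exact hinj _ _ (by omega) (by omega) h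
  refine ⟨fun j => K0 (j + r + 1), ⟨?_, ?_⟩, ?_⟩
  · intro i' j' hij hj'
    obtain ⟨b1, b2, b3, b4⟩ := hK0.before (i' + r + 1) (j' + r + 1) (by omega) (by omega)
    have u1 := cy (i' + r + 1) (by omega) (by omega)
    have u2 := cy (j' + r + 1) (by omega) (by omega)
    have v1 := cy' (i' + r + 1) (by omega)
    have v2 := cy' (j' + r + 1) (by omega)
    refine ⟨b1, ?_, ?_, ?_⟩
    · rw [u1, v1]; exact b2
    · rw [u2, v2]; exact b3
    · intro z
      rw [v1, u2]; exact b4 z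
  · intro i' hi'
    have := hK0.good (i' + r + 1) (by omega)
    have e : i' + 1 + r + 1 = i' + r + 1 + 1 := by omega
    rw [e]; exact this
  · intro j hj
    constructor
    · rw [cx (j + r + 1) (by omega) (by omega), cy (j + r + 1) (by omega) (by omega)]
    · rw [cx' (j + r + 1) (by omega), cy' (j + r + 1) (by omega)]

end GraphProduct

end Pool.Agent.MLG
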