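import Mathlib
import Pool.Agent.MLG.Step

/-!
# From chains of hyperplanes to chains of bottlenecks
-/

namespace Pool.Agent.MLG

namespace GraphProduct

variable {V : Type*} {Γ : SimpleGraph V} {G : V → Type*} [∀ v, Group (G v)]

variable (ℓ : ∀ v, WLen (G v))

include ℓ in
/-- Distinct hyperplanes crossing both members of a good pair have distinct labels. -/
theorem good_label_inj {J K W W' : Hyp Γ G} (hg : Good J K) [Nontrivial (G J.1)]
    [Nontrivial (G K.1)] [Nontrivial (G W.1)] [Nontrivial (G W'.1)] (hJ : Cross W J)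
    (hK : Cross W K) (hJ' : Cross W' J) (hK' : Cross W' K) (hne : W ≠ W') : W.1 ≠ W'.1 := by
  classical
  intro hlab
  have hex : ∃ n, ∃ x y, x ∈ car W ∧ y ∈ car W' ∧ D ℓ x y = n := by
    obtain ⟨x, hx⟩ := exists_mem_car W
    obtain ⟨y, hy⟩ := exists_mem_car W'
    exact ⟨_, x, y, hx, hy, rfl⟩
  obtain ⟨x, y, hx, hy, hxy⟩ := Nat.find_spec hex
  have hmin := fun m => Nat.find_min hex (m := m)
  have hxne : x ≠ y := by
    rintro rfl
    apply hne
    have h1 : hyp W.1 x = W := hx
    have h2 : hyp W'.1 x = W' := hy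
    rw [← h1, ← h2, hlab]
  obtain ⟨w, s, hs, hD⟩ := D_step ℓ hxne
  have hw : w ∉ st Γ W.1 := by
    intro hw
    refine hmin (D ℓ (x * of Γ G w s) y) (by omega) ⟨_, y, (mul_mem_car hw s).2 hx, hy, rfl⟩
  have hadd : D ℓ x y = D ℓ x (x * of Γ G w s) + D ℓ (x * of Γ G w s) y := by
    rw [D_mul_of, hs]; omega
  have hsep : crd (hyp w x) x ≠ crd (hyp w x) y := by
    intro h0
    have h1 := dJ_add_of_D_add ℓ hadd (hyp w x)
    rw [(dJ_eq_zero ℓ).2 h0] at h1
    have h2 : dJ ℓ (hyp w x) x (x * of Γ G w s) = 0 := by omega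
    rw [dJ_eq_zero, crd_hyp_mul] at h2
    have h3 : s = 1 := mul_eq_left.1 h2.symm
    rw [h3, (ℓ w).one] at hs
    omega
  have hU1 : W ≠ hyp w x := by
    intro h
    apply hw
    have : W.1 = w := congrArg Sigma.fst h
    rw [this]; exact self_mem_st w
  have hU1' : hyp w x ≠ W' := by
    intro h
    apply hw
    have : w = W'.1 := congrArg Sigma.fst h
    rw [this, hlab]; exact self_mem_st _
  have hc1 : ¬ Cross W (hyp w x) := fun h => hw (Or.inr h.1)
  have hc1' : ¬ Cross (hyp w x) W' := fun h => hw (Or.inr (by rw [hlab]; exact h.1.symm))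
  haveI : Nontrivial (G (hyp w x : Hyp Γ G).1) := nontrivial_of_sep hsep
  have n1 := nested hU1 hc1 (mem_car_hyp w x) hx
  have n2 := nested hU1' hc1' hy (mem_car_hyp w x)
  have x1 : Cross J (hyp w x) := cross_between hJ.symm hJ'.symm n1 n2 hsep
  have x2 : Cross K (hyp w x) := cross_between hK.symm hK'.symm n1 n2 hsep
  have hlne : W.1 ≠ (hyp w x : Hyp Γ G).1 := by
    intro h
    apply hw
    have h' : W.1 = w := h
    rw [h']; exact self_mem_st w
  exact hw (Or.inr (hg.2 W (hyp w x) inferInstance inferInstance hJ hK x1.symm x2.symm hlne))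

/-- total diameter of the finite vertex groups -/
theorem exists_diam [Finite V] : ∃ dm : V → ℕ, ∀ v, Finite (G v) → ∀ g, (ℓ v).len g ≤ dm v := by
  have : ∀ v, ∃ δ, Finite (G v) → ∀ g, (ℓ v).len g ≤ δ := by
    intro v
    by_cases h : Finite (G v)
    · obtain ⟨δ, hδ⟩ := (Set.finite_range (ℓ v).len).bddAbove
      exact ⟨δ, fun _ g => hδ ⟨g, rfl⟩⟩
    · exact ⟨0, fun h' => absurd h' h⟩
  choose dm hdm using this
  exact ⟨dm, hdm⟩

theorem D_eq_sum {x y : GraphProduct Γ G} {S : Finset (Hyp Γ G)}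
    (hS : ∀ J, crd J x ≠ crd J y → J ∈ S) : D ℓ x y = ∑ J ∈ S, dJ ℓ J x y := by
  unfold D
  apply finsum_eq_sum_of_support_subset
  intro J hJ
  rw [Function.mem_support] at hJ
  exact hS J (fun h => hJ ((dJ_eq_zero ℓ).2 h))

include ℓ in
/-- hyperplanes crossing both members of a good pair have small total diameter -/
theorem sum_exc_le [Fintype V] {dm : V → ℕ} {J K : Hyp Γ G} (hg : Good J K)
    [Nontrivial (G J.1)] [Nontrivial (G K.1)] (S : Finset (Hyp Γ G))
    (hS : ∀ W ∈ S, Nontrivial (G W.1) ∧ Cross W J ∧ Cross W K) :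
    ∑ W ∈ S, dm W.1 ≤ ∑ v, dm v := by
  classical
  have hinj : Set.InjOn (fun W : Hyp Γ G => W.1) S := by
    intro W hW W' hW' h
    by_contra hne
    obtain ⟨a1, a2, a3⟩ := hS W hW
    obtain ⟨b1, b2, b3⟩ := hS W' hW'
    exact good_label_inj ℓ hg a2 a3 b2 b3 hne h
  rw [← Finset.sum_image (f := dm) (g := fun W : Hyp Γ G => W.1) hinj]
  exact Finset.sum_le_sum_of_subset (Finset.subset_univ _)

/-- The bottleneck inequality. -/
theorem bottleneck [Fintype V] {dm : V → ℕ} (hdm : ∀ v, Finite (G v) → ∀ g, (ℓ v).len g ≤ dm v)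
    {x x' z a b : GraphProduct Γ G} {H₁ H₂ H₃ H₄ : Hyp Γ G} (hg₁ : Good H₁ H₂) (hg₂ : Good H₃ H₄)
    (hz : D ℓ x x' = D ℓ x z + D ℓ z x')
    (s : ∀ H, H = H₁ ∨ H = H₂ ∨ H = H₃ ∨ H = H₄ → crd H x ≠ crd H x')
    (z₁ : ∀ H, H = H₁ ∨ H = H₂ → crd H z = crd H x')
    (z₂ : ∀ H, H = H₃ ∨ H = H₄ → crd H z = crd H x)
    (ha : ∀ H, H = H₁ ∨ H = H₂ ∨ H = H₃ ∨ H = H₄ → crd H a = crd H x)
    (hb : ∀ H, H = H₁ ∨ H = H₂ ∨ H = H₃ ∨ H = H₄ → crd H b = crd H x') :
    D ℓ a z + D ℓ z b ≤ D ℓ a b + 4 * ∑ v, dm v := by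
  classical
  haveI := nontrivial_of_sep (s H₁ (Or.inl rfl))
  haveI := nontrivial_of_sep (s H₂ (Or.inr (Or.inl rfl)))
  haveI := nontrivial_of_sep (s H₃ (Or.inr (Or.inr (Or.inl rfl))))
  haveI := nontrivial_of_sep (s H₄ (Or.inr (Or.inr (Or.inr rfl))))
  set S := (sep_finite a z).toFinset ∪ (sep_finite z b).toFinset ∪ (sep_finite a b).toFinset
    with hSdef
  have hS1 : ∀ J, crd J a ≠ crd J z → J ∈ S := fun J h => by simp [hSdef, h]
  have hS2 : ∀ J, crd J z ≠ crd J b → J ∈ S := fun J h => by simp [hSdef, h]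
  have hS3 : ∀ J, crd J a ≠ crd J b → J ∈ S := fun J h => by simp [hSdef, h]
  set E₁ := S.filter (fun W => Nontrivial (G W.1) ∧ Cross W H₁ ∧ Cross W H₂) with hE₁
  set E₂ := S.filter (fun W => Nontrivial (G W.1) ∧ Cross W H₃ ∧ Cross W H₄) with hE₂
  have e1 := sum_exc_le ℓ (dm := dm) hg₁ E₁ (fun W hW => (Finset.mem_filter.1 hW).2)
  have e2 := sum_exc_le ℓ (dm := dm) hg₂ E₂ (fun W hW => (Finset.mem_filter.1 hW).2)
  rw [D_eq_sum ℓ hS1, D_eq_sum ℓ hS2, D_eq_sum ℓ hS3]
  have key : ∀ W ∈ S, dJ ℓ W a z + dJ ℓ W z b ≤ dJ ℓ W a b +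
      ((if W ∈ E₁ then 2 * dm W.1 else 0) + (if W ∈ E₂ then 2 * dm W.1 else 0)) := by
    intro W hWS
    by_cases h1 : crd W a = crd W z
    · have e : dJ ℓ W a z = 0 := (dJ_eq_zero ℓ).2 h1
      have e' : dJ ℓ W z b = dJ ℓ W a b := by unfold dJ; rw [h1]
      omega
    by_cases h2 : crd W z = crd W b
    · have e : dJ ℓ W z b = 0 := (dJ_eq_zero ℓ).2 h2
      have e' : dJ ℓ W a z = dJ ℓ W a b := by unfold dJ; rw [h2]
      omega
    have hnt : Nontrivial (G W.1) := nontrivial_of_sep h1
    by_cases hW1 : W ∈ E₁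
    · have hf : Finite (G W.1) := by
        obtain ⟨_, a1, a2, a3⟩ := Finset.mem_filter.1 hW1
        exact hg₁.1 W a1 a2 a3
      have b1 : dJ ℓ W a z ≤ dm W.1 := hdm _ hf _
      have b2 : dJ ℓ W z b ≤ dm W.1 := hdm _ hf _
      rw [if_pos hW1]
      omega
    by_cases hW2 : W ∈ E₂
    · have hf : Finite (G W.1) := by
        obtain ⟨_, a1, a2, a3⟩ := Finset.mem_filter.1 hW2
        exact hg₂.1 W a1 a2 a3
      have b1 : dJ ℓ W a z ≤ dm W.1 := hdm _ hf _
      have b2 : dJ ℓ W z b ≤ dm W.1 := hdm _ hf _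
      rw [if_pos hW2]
      omega
    -- `W` does not cross both members of either pair
    have f1 : ∃ H, (H = H₁ ∨ H = H₂) ∧ ¬ Cross W H := by
      by_contra hcon
      push Not at hcon
      exact hW1 (Finset.mem_filter.2 ⟨hWS, hnt, hcon H₁ (Or.inl rfl), hcon H₂ (Or.inr rfl)⟩)
    have f2 : ∃ H, (H = H₃ ∨ H = H₄) ∧ ¬ Cross W H := by
      by_contra hcon
      push Not at hcon
      exact hW2 (Finset.mem_filter.2 ⟨hWS, hnt, hcon H₃ (Or.inl rfl), hcon H₄ (Or.inr rfl)⟩)
    have g1 : crd W a = crd W x := by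
      obtain ⟨H, hH, hc⟩ := f1
      have hH' : H = H₁ ∨ H = H₂ ∨ H = H₃ ∨ H = H₄ := by tauto
      have hne : W ≠ H := by
        rintro rfl
        exact h2 ((z₁ W hH).trans (hb W hH').symm)
      obtain ⟨w, c, hn⟩ := nested' hne hc
      have hcx : c = crd H x' := by
        by_contra hcx
        have u1 : crd W z = w := (hn z).resolve_right (by rw [z₁ H hH]; exact Ne.symm hcx)
        have u2 : crd W b = w := (hn b).resolve_right (by rw [hb H hH']; exact Ne.symm hcx)
        exact h2 (u1.trans u2.symm)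
      have u1 : crd W a = w :=
        (hn a).resolve_right (by rw [ha H hH', hcx]; exact s H hH')
      have u2 : crd W x = w := (hn x).resolve_right (by rw [hcx]; exact s H hH')
      rw [u1, u2]
    have g2 : crd W b = crd W x' := by
      obtain ⟨H, hH, hc⟩ := f2
      have hH' : H = H₁ ∨ H = H₂ ∨ H = H₃ ∨ H = H₄ := by tauto
      have hne : W ≠ H := by
        rintro rfl
        exact h1 ((ha W hH').trans (z₂ W hH).symm)
      obtain ⟨w, c, hn⟩ := nested' hne hc
      have hcx : c = crd H x := by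
        by_contra hcx
        have u1 : crd W z = w := (hn z).resolve_right (by rw [z₂ H hH]; exact Ne.symm hcx)
        have u2 : crd W a = w := (hn a).resolve_right (by rw [ha H hH']; exact Ne.symm hcx)
        exact h1 (u2.trans u1.symm)
      have u1 : crd W b = w :=
        (hn b).resolve_right (by rw [hb H hH', hcx]; exact (s H hH').symm)
      have u2 : crd W x' = w := (hn x').resolve_right (by rw [hcx]; exact (s H hH').symm)
      rw [u1, u2]
    have g3 := dJ_add_of_D_add ℓ hz W
    have g4 : dJ ℓ W a z = dJ ℓ W x z := by unfold dJ; rw [g1]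
    have g5 : dJ ℓ W z b = dJ ℓ W z x' := by unfold dJ; rw [g2]
    have g6 : dJ ℓ W a b = dJ ℓ W x x' := by unfold dJ; rw [g1, g2]
    omega
  have hsum := Finset.sum_le_sum key
  rw [Finset.sum_add_distrib, Finset.sum_add_distrib, Finset.sum_add_distrib] at hsum
  have i1 : ∑ W ∈ S, (if W ∈ E₁ then 2 * dm W.1 else 0) = 2 * ∑ W ∈ E₁, dm W.1 := by
    rw [← Finset.sum_filter, Finset.mul_sum]
    congr 1
    ext W
    simp only [Finset.mem_filter, hE₁]
    tauto
  have i2 : ∑ W ∈ S, (if W ∈ E₂ then 2 * dm W.1 else 0) = 2 * ∑ W ∈ E₂, dm W.1 := by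
    rw [← Finset.sum_filter, Finset.mul_sum]
    congr 1
    ext W
    simp only [Finset.mem_filter, hE₂]
    tauto
  rw [i1, i2] at hsum
  omega

/-- the cut point in the middle of a chain -/
theorem exists_mid {x x' : GraphProduct Γ G} {m r : ℕ} {K : ℕ → Hyp Γ G} (h : IsChain x x' m K)
    (hr : r + 1 < m) : ∃ z, D ℓ x x' = D ℓ x z + D ℓ z x' ∧ (∀ a < r, crd (K a) z = crd (K a) x') ∧
      ∀ a, r < a → a < m → crd (K a) z = crd (K a) x := by
  classical
  obtain ⟨β, h1, h2, h3, h4⟩ := exists_geodSeq ℓ x x'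
  have hsep : crd (K r) x ≠ crd (K r) x' := (h.before r (r + 1) (by omega) hr).2.1
  have hex : ∃ t, crd (K r) (β t) ≠ crd (K r) x := ⟨D ℓ x x', by rw [h2]; exact hsep.symm⟩
  have ht := Nat.find_spec hex
  have hmin := fun m => Nat.find_min hex (m := m)
  set t := Nat.find hex with htdef
  have ht0 : t ≠ 0 := by
    intro h0
    rw [h0, h1] at ht
    exact ht rfl
  have htD : t ≤ D ℓ x x' := Nat.find_min' hex (by rw [h2]; exact hsep.symm)
  have hprev : crd (K r) (β (t - 1)) = crd (K r) x := by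
    by_contra hcon
    exact hmin (t - 1) (by omega) hcon
  obtain ⟨w, s, hs, hstep⟩ := h4 (t - 1) (by omega)
  rw [show t - 1 + 1 = t by omega] at hstep
  have hKr : K r = hyp w (β (t - 1)) := by
    by_contra hcon
    apply ht
    rw [hstep, crd_mul_of_ne' hcon, hprev]
  refine ⟨β t, ?_, ?_, ?_⟩
  · have e1 := h3 0 t (Nat.zero_le _) htD
    have e2 := h3 t (D ℓ x x') htD le_rfl
    rw [h1] at e1
    rw [h2] at e2
    omega
  · intro a ha
    rcases (h.before a r ha (by omega)).2.2.2 (β t) with h' | h'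
    · exact h'
    · exact absurd h' ht
  · intro a ha ham
    have hb := h.before r a ha ham
    have e1 : crd (K a) (β (t - 1)) = crd (K a) x := by
      rcases hb.2.2.2 (β (t - 1)) with h' | h'
      · exact absurd (hprev.symm.trans h') hsep
      · exact h'
    have hne : K a ≠ hyp w (β (t - 1)) := by
      rw [← hKr]; exact hb.1.symm
    rw [hstep, crd_mul_of_ne' hne, e1]

/-- Orientation of nestedness. -/
theorem nested_orient {K J : Hyp Γ G} {p₀ p₁ p₂ : GraphProduct Γ G} (hne : K ≠ J)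
    (hc : ¬ Cross K J) (k1 : crd K p₀ ≠ crd K p₁) (k2 : crd K p₂ = crd K p₁)
    (j1 : crd J p₁ ≠ crd J p₂) (j2 : crd J p₀ = crd J p₁) (z : GraphProduct Γ G) :
    crd K z = crd K p₁ ∨ crd J z = crd J p₁ := by
  obtain ⟨c, w, hn⟩ := nested' hne hc
  have hcw : c = crd K p₁ := by
    by_contra hcon
    have u1 : crd J p₁ = w := (hn p₁).resolve_left (Ne.symm hcon)
    have u2 : crd J p₂ = w := (hn p₂).resolve_left (by rw [k2]; exact Ne.symm hcon)
    exact j1 (u1.trans u2.symm)
  have u0 : crd J p₀ = w := (hn p₀).resolve_left (by rw [hcw]; exact k1)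
  rw [← hcw, ← j2, u0]
  exact hn z

theorem jump_bound {y : ℕ → GraphProduct Γ G} {n : ℕ} {κ : ℝ}
    (hj : ∀ i, i < n → Dr ℓ (y i) (y (i + 1)) ≤ κ) (i k : ℕ) (h : i + k ≤ n) :
    Dr ℓ (y i) (y (i + k)) ≤ κ * k := by
  induction k with
  | zero => simp [Dr, D_self]
  | succ k ih =>
    have h1 := (isDist_Dr (Γ := Γ) ℓ).tri (y i) (y (i + k)) (y (i + (k + 1)))
    have h2 := hj (i + k) (by omega)
    have h3 := ih (by omega)
    rw [add_assoc] at h2
    push_cast
    linarith

theorem chainData_of_chains [Finite V] : ∃ (m : ℕ) (δ : ℝ), 0 ≤ δ ∧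
    ∀ (y : ℕ → GraphProduct Γ G) (n T : ℕ) (κ : ℝ), 0 ≤ κ → 1 ≤ T →
      (∀ i, i < n → Dr ℓ (y i) (y (i + 1)) ≤ κ) →
      (∀ i, 1 ≤ i → (i + 2) * T ≤ n → ∃ K : ℕ → Hyp Γ G,
        IsChain (y (i * T)) (y ((i + 1) * T)) m K ∧
        ∀ j < m, crd (K j) (y ((i - 1) * T)) = crd (K j) (y (i * T)) ∧
          crd (K j) (y ((i + 2) * T)) = crd (K j) (y ((i + 1) * T))) →
      Nonempty (ChainData (Dr ℓ) y n T κ (κ * T) δ) := by
  classical
  haveI := Fintype.ofFinite V
  obtain ⟨dm, hdm⟩ := exists_diam ℓ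
  set C := Fintype.card V with hC
  refine ⟨C + 8, ((4 * ∑ v, dm v : ℕ) : ℝ), by positivity, ?_⟩
  intro y n T κ hκ hT hjump hch
  by_cases hV : Nonempty V
  swap
  · have hno : ∀ i, 1 ≤ i → (i + 2) * T ≤ n → False := by
      intro i h1 h2
      obtain ⟨K, _⟩ := hch i h1 h2
      exact hV ⟨(K 0).1⟩
    exact ⟨{ A := fun _ => Set.univ
             B := fun _ => Set.univ
             z := fun _ => 1
             jump := hjump
             yA := fun i h1 h2 => (hno i h1 h2).elim
             yB := fun i h1 h2 => (hno i h1 h2).elim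
             disj := fun i h1 h2 => (hno i h1 h2).elim
             cover := fun i h1 h2 => (hno i h1
               (le_trans (Nat.mul_le_mul_right T (by omega)) h2)).elim
             bott := fun i h1 h2 => (hno i h1 h2).elim
             near := fun i h1 h2 => (hno i h1 h2).elim
             costA := fun i j h1 h2 h3 => (hno j (by omega) h3).elim
             costB := fun i j h1 h2 h3 => (hno j (by omega) h3).elim }⟩
  -- choose the chains
  have hch' : ∀ i, ∃ K : ℕ → Hyp Γ G, 1 ≤ i → (i + 2) * T ≤ n →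
      IsChain (y (i * T)) (y ((i + 1) * T)) (C + 8) K ∧
        ∀ j < C + 8, crd (K j) (y ((i - 1) * T)) = crd (K j) (y (i * T)) ∧
          crd (K j) (y ((i + 2) * T)) = crd (K j) (y ((i + 1) * T)) := by
    intro i
    by_cases h : 1 ≤ i ∧ (i + 2) * T ≤ n
    · obtain ⟨K, hK⟩ := hch i h.1 h.2
      exact ⟨K, fun _ _ => hK⟩
    · exact ⟨fun _ => hyp hV.some 1, fun h1 h2 => absurd ⟨h1, h2⟩ h⟩
  choose K hK using hch'
  -- choose the non-crossing pairs
  have hsel : ∀ i, ∃ j k, j ≤ C ∧ (k = C + 6 ∨ k = C + 7) ∧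
      (1 ≤ i → (i + 3) * T ≤ n → ¬ Cross (K i k) (K (i + 1) j)) := by
    intro i
    by_cases h : 1 ≤ i ∧ (i + 3) * T ≤ n
    · obtain ⟨h1, h2⟩ := h
      by_contra hcon
      push Not at hcon
      have hi2 : (i + 2) * T ≤ n := le_trans (Nat.mul_le_mul_right T (by omega)) h2
      have hi3 : (i + 1 + 2) * T ≤ n := by
        rw [show i + 1 + 2 = i + 3 by omega]; exact h2
      obtain ⟨c1, _⟩ := hK i h1 hi2
      obtain ⟨c2, _⟩ := hK (i + 1) (by omega) hi3
      have hcr : ∀ j ≤ C, Cross (K (i + 1) j) (K i (C + 6)) ∧ Cross (K (i + 1) j) (K i (C + 7)) :=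
        fun j hj => ⟨(hcon j (C + 6) hj (Or.inl rfl)).2.2.symm,
          (hcon j (C + 7) hj (Or.inr rfl)).2.2.symm⟩
      have hb := c1.before (C + 6) (C + 7) (by omega) (by omega)
      haveI := nontrivial_of_sep hb.2.1
      haveI := nontrivial_of_sep hb.2.2.1
      have hnt : ∀ j ≤ C, Nontrivial (G (K (i + 1) j).1) := fun j hj =>
        nontrivial_of_sep (c2.before j (C + 7) (by omega) (by omega)).2.1
      have hinj : Function.Injective (fun j : Fin (C + 1) => (K (i + 1) j).1) := by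
        intro a b hab
        by_contra hne
        have ha := Nat.lt_succ_iff.1 a.2
        have hb' := Nat.lt_succ_iff.1 b.2
        haveI := hnt a ha
        haveI := hnt b hb'
        refine good_label_inj ℓ (c1.good (C + 6) (by omega)) (hcr a ha).1 (hcr a ha).2
          (hcr b hb').1 (hcr b hb').2 ?_ hab
        intro hKK
        have hne' : (a : ℕ) ≠ b := fun h => hne (Fin.ext h)
        rcases Nat.lt_or_gt_of_ne hne' with h' | h'
        · exact (c2.before a b h' (by omega)).1 hKK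
        · exact (c2.before b a h' (by omega)).1 hKK.symm
      have := Fintype.card_le_of_injective _ hinj
      rw [Fintype.card_fin] at this
      omega
    · exact ⟨0, C + 6, Nat.zero_le _, Or.inl rfl, fun h1 h2 => absurd ⟨h1, h2⟩ h⟩
  choose jf kf hjf hkf hcr using hsel
  -- the hyperplanes `J i` and `Q i`
  set jj : ℕ → ℕ := fun i => jf (i - 1) with hjj
  have hjj' : ∀ i, jj i ≤ C := fun i => hjf (i - 1)
  set J : ℕ → Hyp Γ G := fun i => K i (jj i) with hJdef
  set Q : ℕ → Hyp Γ G := fun i => K i (kf i) with hQdef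
  set A : ℕ → Set (GraphProduct Γ G) := fun i => {a | crd (J i) a = crd (J i) (y (i * T))} with hA
  set B : ℕ → Set (GraphProduct Γ G) :=
    fun i => {a | crd (Q i) a = crd (Q i) (y ((i + 1) * T))} with hB
  have hJQ : ∀ i, 1 ≤ i → (i + 2) * T ≤ n → Before (y (i * T)) (y ((i + 1) * T)) (J i) (Q i) := by
    intro i h1 h2
    have := hjj' i
    exact (hK i h1 h2).1.before _ _ (by rcases hkf i with h | h <;> omega)
      (by rcases hkf i with h | h <;> omega)
  have hdisj : ∀ i, 1 ≤ i → (i + 2) * T ≤ n → ∀ x ∈ A i, x ∉ B i := by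
    intro i h1 h2 x hx hx'
    have hb := hJQ i h1 h2
    rcases hb.2.2.2 x with h | h
    · exact hb.2.1 (Eq.trans (Eq.symm hx) h)
    · exact hb.2.2.1 (h.symm.trans hx')
  have hcover : ∀ i, 1 ≤ i → (i + 3) * T ≤ n → ∀ x, x ∈ B i ∨ x ∈ A (i + 1) := by
    intro i h1 h2 x
    have hi2 : (i + 2) * T ≤ n := le_trans (Nat.mul_le_mul_right T (by omega)) h2
    have hi3 : (i + 1 + 2) * T ≤ n := by
      rw [show i + 1 + 2 = i + 3 by omega]; exact h2
    have b1 := hJQ i h1 hi2
    have b2 := hJQ (i + 1) (by omega) hi3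
    have kk : kf i < C + 8 := by rcases hkf i with h | h <;> omega
    have jk : jj (i + 1) < C + 8 := by have := hjj' (i + 1); omega
    have e1 := ((hK i h1 hi2).2 (kf i) kk).2
    have e2 := ((hK (i + 1) (by omega) hi3).2 (jj (i + 1)) jk).1
    rw [show i + 1 - 1 = i by omega] at e2
    have hcr' : ¬ Cross (Q i) (J (i + 1)) := by
      have := hcr i h1 h2
      exact this
    have hne : Q i ≠ J (i + 1) := by
      intro h
      apply b1.2.2.1
      rw [h]
      exact e2
    exact nested_orient hne hcr' b1.2.2.1 e1 b2.2.1 e2 x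
  have hAmono : ∀ i j, 1 ≤ i → i ≤ j → (j + 2) * T ≤ n → A i ⊆ A j := by
    intro i j h1 hij
    induction j, hij using Nat.le_induction with
    | base => intro _ x hx; exact hx
    | succ j hij ih =>
      intro hj x hx
      have h2 : (j + 2) * T ≤ n := le_trans (Nat.mul_le_mul_right T (by omega)) hj
      have h3 := hdisj j (by omega) h2 x (ih h2 hx)
      rcases hcover j (by omega) (by rw [show j + 3 = j + 1 + 2 by omega]; exact hj) x with h | h
      · exact absurd h h3
      · exact h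
  have hBmono : ∀ i j, 1 ≤ i → i ≤ j → (j + 2) * T ≤ n → B j ⊆ B i := by
    intro i j h1 hij
    induction j, hij using Nat.le_induction with
    | base => intro _ x hx; exact hx
    | succ j hij ih =>
      intro hj x hx
      have h2 : (j + 2) * T ≤ n := le_trans (Nat.mul_le_mul_right T (by omega)) hj
      rcases hcover j (by omega) (by rw [show j + 3 = j + 1 + 2 by omega]; exact hj) x with h | h
      · exact ih h2 h
      · exact absurd hx (hdisj (j + 1) (by omega) hj x h)
  have hyA : ∀ i, 1 ≤ i → (i + 2) * T ≤ n → y (i * T) ∈ A i := fun i _ _ => rfl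
  have hyB : ∀ i, 1 ≤ i → (i + 2) * T ≤ n → y ((i + 1) * T) ∈ B i := fun i _ _ => rfl
  have hyA' : ∀ i, 1 ≤ i → (i + 3) * T ≤ n → y ((i + 1) * T) ∈ A (i + 1) := fun i _ _ => rfl
  have hcostA : ∀ i j, 1 ≤ i → i ≤ j → (j + 2) * T ≤ n → ∀ a ∈ A i, ∀ b, b ∉ A j →
      ((j : ℝ) - i) + 1 ≤ Dr ℓ a b := by
    intro i j h1 hij hj a ha b hb
    have hin : ∀ k, i ≤ k → k ≤ j → (k + 2) * T ≤ n := fun k _ hk =>
      le_trans (Nat.mul_le_mul_right T (by omega)) hj
    have hsep : ∀ k, i ≤ k → k ≤ j → crd (J k) a ≠ crd (J k) b := by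
      intro k h2 h3 he
      have u1 : a ∈ A k := hAmono i k h1 h2 (hin k h2 h3) ha
      have u2 : b ∉ A k := fun h => hb (hAmono k j (by omega) h3 hj h)
      apply u2
      have u1' : crd (J k) a = crd (J k) (y (k * T)) := u1
      have : crd (J k) b = crd (J k) (y (k * T)) := by rw [← he, u1']
      exact this
    have hinj : Set.InjOn J (Finset.Icc i j) := by
      have hlt : ∀ k k', i ≤ k → k < k' → k' ≤ j → J k ≠ J k' := by
        intro k k' h2 h3 h4 he
        have v1 := (hJQ k (by omega) (hin k h2 (by omega))).2.1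
        apply v1
        have w1 : y (k * T) ∈ A k' := hAmono k k' (by omega) (by omega) (hin k' (by omega) h4)
          (hyA k (by omega) (hin k h2 (by omega)))
        have w2 : y ((k + 1) * T) ∈ A k' := hAmono (k + 1) k' (by omega) (by omega)
          (hin k' (by omega) h4) rfl
        rw [he]
        exact (show crd (J k') (y (k * T)) = _ from w1).trans
          (show crd (J k') (y ((k + 1) * T)) = _ from w2).symm
      intro k hk k' hk' he
      simp only [Finset.coe_Icc, Set.mem_Icc] at hk hk'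
      by_contra hne
      rcases Nat.lt_or_gt_of_ne hne with h' | h'
      · exact hlt k k' hk.1 h' hk'.2 he
      · exact hlt k' k hk'.1 h' hk.2 he.symm
    have hcard := card_le_D ℓ (x := a) (y := b) ((Finset.Icc i j).image J) (by
      intro L hL
      rw [Finset.mem_image] at hL
      obtain ⟨k, hk, rfl⟩ := hL
      rw [Finset.mem_Icc] at hk
      exact hsep k hk.1 hk.2)
    rw [Finset.card_image_of_injOn hinj, Nat.card_Icc] at hcard
    unfold Dr
    have h5 : (j + 1 : ℝ) ≤ (D ℓ a b : ℝ) + i := by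
      exact_mod_cast (by omega : j + 1 ≤ D ℓ a b + i)
    linarith
  have hcostB : ∀ i j, 1 ≤ i → i ≤ j → (j + 2) * T ≤ n → ∀ a, a ∉ B i → ∀ b ∈ B j,
      ((j : ℝ) - i) + 1 ≤ Dr ℓ a b := by
    intro i j h1 hij hj a ha b hb
    have hin : ∀ k, i ≤ k → k ≤ j → (k + 2) * T ≤ n := fun k _ hk =>
      le_trans (Nat.mul_le_mul_right T (by omega)) hj
    have hsep : ∀ k, i ≤ k → k ≤ j → crd (Q k) a ≠ crd (Q k) b := by
      intro k h2 h3 he
      have u1 : b ∈ B k := hBmono k j (by omega) h3 hj hb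
      have u2 : a ∉ B k := fun h => ha (hBmono i k h1 h2 (hin k h2 h3) h)
      apply u2
      have u1' : crd (Q k) b = crd (Q k) (y ((k + 1) * T)) := u1
      have : crd (Q k) a = crd (Q k) (y ((k + 1) * T)) := by rw [he, u1']
      exact this
    have hinj : Set.InjOn Q (Finset.Icc i j) := by
      have hlt : ∀ k k', i ≤ k → k < k' → k' ≤ j → Q k ≠ Q k' := by
        intro k k' h2 h3 h4 he
        have v1 := (hJQ k' (by omega) (hin k' (by omega) h4)).2.2.1
        apply v1
        have w1 : y (k' * T) ∈ B k := by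
          have := hyB (k' - 1) (by omega) (hin (k' - 1) (by omega) (by omega))
          rw [show k' - 1 + 1 = k' by omega] at this
          exact hBmono k (k' - 1) (by omega) (by omega) (hin (k' - 1) (by omega) (by omega)) this
        have w2 : y ((k' + 1) * T) ∈ B k := hBmono k k' (by omega) (by omega)
          (hin k' (by omega) h4) rfl
        rw [← he]
        exact (show crd (Q k) (y (k' * T)) = _ from w1).trans
          (show crd (Q k) (y ((k' + 1) * T)) = _ from w2).symm
      intro k hk k' hk' he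
      simp only [Finset.coe_Icc, Set.mem_Icc] at hk hk'
      by_contra hne
      rcases Nat.lt_or_gt_of_ne hne with h' | h'
      · exact hlt k k' hk.1 h' hk'.2 he
      · exact hlt k' k hk'.1 h' hk.2 he.symm
    have hcard := card_le_D ℓ (x := a) (y := b) ((Finset.Icc i j).image Q) (by
      intro L hL
      rw [Finset.mem_image] at hL
      obtain ⟨k, hk, rfl⟩ := hL
      rw [Finset.mem_Icc] at hk
      exact hsep k hk.1 hk.2)
    rw [Finset.card_image_of_injOn hinj, Nat.card_Icc] at hcard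
    unfold Dr
    have h5 : (j + 1 : ℝ) ≤ (D ℓ a b : ℝ) + i := by
      exact_mod_cast (by omega : j + 1 ≤ D ℓ a b + i)
    linarith
  -- the middle points
  have hz : ∀ i, ∃ z, 1 ≤ i → (i + 2) * T ≤ n →
      D ℓ (y (i * T)) (y ((i + 1) * T)) = D ℓ (y (i * T)) z + D ℓ z (y ((i + 1) * T)) ∧
      ∀ a ∈ A i, ∀ b ∈ B i, D ℓ a z + D ℓ z b ≤ D ℓ a b + 4 * ∑ v, dm v := by
    intro i
    by_cases h : 1 ≤ i ∧ (i + 2) * T ≤ n
    · obtain ⟨h1, h2⟩ := h
      obtain ⟨hc, _⟩ := hK i h1 h2
      obtain ⟨z, z1, z2, z3⟩ := exists_mid ℓ hc (r := C + 3) (by omega)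
      refine ⟨z, fun _ _ => ⟨z1, fun a ha b hb => ?_⟩⟩
      have hj := hjj' i
      have hk : C + 6 ≤ kf i ∧ kf i < C + 8 := by rcases hkf i with h | h <;> omega
      have sep : ∀ t, t < C + 7 → crd (K i t) (y (i * T)) ≠ crd (K i t) (y ((i + 1) * T)) :=
        fun t ht => (hc.before t (C + 7) ht (by omega)).2.1
      have ea : ∀ t, C < t → t < C + 7 → crd (K i t) a = crd (K i t) (y (i * T)) := by
        intro t ht ht'
        have hb' := hc.before (jj i) t (by omega) (by omega)
        rcases hb'.2.2.2 a with h | h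
        · exact absurd (Eq.trans (Eq.symm ha) h) hb'.2.1
        · exact h
      have eb : ∀ t, t < C + 6 → crd (K i t) b = crd (K i t) (y ((i + 1) * T)) := by
        intro t ht
        have hb' := hc.before t (kf i) (by omega) hk.2
        rcases hb'.2.2.2 b with h | h
        · exact h
        · exact absurd (h.symm.trans hb) hb'.2.2.1
      refine bottleneck ℓ hdm (H₁ := K i (C + 1)) (H₂ := K i (C + 2)) (H₃ := K i (C + 4))
        (H₄ := K i (C + 5)) (hc.good (C + 1) (by omega)) (hc.good (C + 4) (by omega)) z1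
        ?_ ?_ ?_ ?_ ?_
      · rintro H (rfl | rfl | rfl | rfl) <;> exact sep _ (by omega)
      · rintro H (rfl | rfl) <;> exact z2 _ (by omega)
      · rintro H (rfl | rfl) <;> exact z3 _ (by omega) (by omega)
      · rintro H (rfl | rfl | rfl | rfl) <;> exact ea _ (by omega) (by omega)
      · rintro H (rfl | rfl | rfl | rfl) <;> exact eb _ (by omega)
    · exact ⟨1, fun h1 h2 => absurd ⟨h1, h2⟩ h⟩
  choose z hz using hz
  exact ⟨{ A := A
           B := B
           z := z
           jump := hjump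
           yA := hyA
           yB := hyB
           disj := hdisj
           cover := hcover
           bott := by
            intro i h1 h2 a ha b hb
            have := (hz i h1 h2).2 a ha b hb
            unfold Dr
            exact_mod_cast this
           near := by
            intro i h1 h2
            have h3 := (hz i h1 h2).1
            have h4 : i * T + T ≤ n := by
              refine le_trans ?_ h2
              rw [show (i + 2) * T = i * T + T + T by ring]; omega
            have h5 := jump_bound ℓ hjump (i * T) T h4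
            rw [show i * T + T = (i + 1) * T by ring] at h5
            have h6 : Dr ℓ (z i) (y (i * T)) ≤ Dr ℓ (y (i * T)) (y ((i + 1) * T)) := by
              unfold Dr
              rw [D_comm ℓ (z i)]
              exact_mod_cast (by omega)
            linarith
           costA := hcostA
           costB := hcostB }⟩

end GraphProduct

end Pool.Agent.MLG
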