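import Mathlib
import Pool.Agent.MLG.Defs

/-!
# Cayley graphs and the Morse local-to-global property of finitely generated groups
-/

namespace Pool.Agent.MLG

universe u

/-- The Cayley graph of `G` with respect to `S`: distinct `g`, `h` are joined when `g⁻¹ h ∈ S` or
`h⁻¹ g ∈ S`. -/
def cayley {G : Type*} [Group G] (S : Set G) : SimpleGraph G :=
  SimpleGraph.fromRel fun g h => g⁻¹ * h ∈ S

/-- The path metric of the Cayley graph on its vertex set `G`. -/
noncomputable def cayleyDist {G : Type*} [Group G] (S : Set G) (g h : G) : ℝ :=
  ((cayley S).dist g h : ℝ)

/-- `X` is a model of the Cayley graph of `G` with respect to `S`: the vertex set `G`, with the path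
metric, embeds isometrically in `X`, and each point of `X` is within distance `1` of the image.
The vertex set itself and the geometric realization (edges of length `1`) are models. -/
def IsCayleyModel {G : Type*} [Group G] (S : Set G) (X : Type*) [PseudoMetricSpace X] : Prop :=
  ∃ f : G → X, (∀ g h, dist (f g) (f h) = cayleyDist S g h) ∧ ∀ x, ∃ g, dist x (f g) ≤ 1

/-- `G` is a (finitely generated) Morse local-to-global group: for some finite generating set `S`,
some model of the Cayley graph has the Morse local-to-global property. -/
def IsMorseLTGGroup (G : Type u) [Group G] : Prop :=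
  ∃ S : Finset G, Subgroup.closure (S : Set G) = ⊤ ∧
    ∃ (X : Type u) (_ : PseudoMetricSpace X), IsCayleyModel (S : Set G) X ∧
      MorseLTG (dist : X → X → ℝ)

end Pool.Agent.MLG
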