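import Pool.Agent.MLG.Hyp
import Pool.Agent.MLG.Group

/-!
# Word lengths and Cayley graph distances
-/

namespace Pool.Agent.MLG

variable {G : Type*} [Group G]

theorem cayley_adj (S : Set G) (g h : G) :
    (cayley S).Adj g h ↔ g ≠ h ∧ (g⁻¹ * h ∈ S ∨ h⁻¹ * g ∈ S) := by
  unfold cayley
  rw [SimpleGraph.fromRel_adj]

theorem cayley_adj_left (S : Set G) (a g h : G) :
    (cayley S).Adj (a * g) (a * h) ↔ (cayley S).Adj g h := by
  rw [cayley_adj, cayley_adj]
  have h1 : (a * g)⁻¹ * (a * h) = g⁻¹ * h := by group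
  have h2 : (a * h)⁻¹ * (a * g) = h⁻¹ * g := by group
  rw [h1, h2, Ne, mul_left_cancel_iff]

/-- left translation as a homomorphism of the Cayley graph -/
def leftHom (S : Set G) (a : G) : cayley S →g cayley S where
  toFun g := a * g
  map_rel' {g h} hgh := (cayley_adj_left S a g h).2 hgh

theorem cayley_reach (S : Set G) (hS : Subgroup.closure S = ⊤) (x y : G) :
    (cayley S).Reachable x y := by
  have key : ∀ g : G, ∀ x : G, (cayley S).Reachable x (x * g) := by
    intro g
    have hg : g ∈ Subgroup.closure S := by rw [hS]; exact Subgroup.mem_top g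
    induction hg using Subgroup.closure_induction with
    | mem s hs =>
      intro x
      by_cases h : x = x * s
      · rw [← h]
      · refine SimpleGraph.Adj.reachable ((cayley_adj S x (x * s)).2 ⟨h, Or.inl ?_⟩)
        rwa [inv_mul_cancel_left]
    | one => intro x; rw [mul_one]
    | mul a b _ _ ha hb =>
      intro x
      rw [← mul_assoc]
      exact (ha x).trans (hb (x * a))
    | inv a _ ha =>
      intro x
      have := ha (x * a⁻¹)
      rw [inv_mul_cancel_right] at this
      exact this.symm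
  have := key (x⁻¹ * y) x
  rwa [mul_inv_cancel_left] at this

theorem cayley_dist_le_left (S : Set G) (hS : Subgroup.closure S = ⊤) (a x y : G) :
    (cayley S).dist (a * x) (a * y) ≤ (cayley S).dist x y := by
  obtain ⟨p, hp⟩ := (cayley_reach S hS x y).exists_walk_length_eq_dist
  rw [← hp, ← SimpleGraph.Walk.length_map (leftHom S a) p]
  exact SimpleGraph.dist_le _

theorem cayley_dist_left (S : Set G) (hS : Subgroup.closure S = ⊤) (a x y : G) :
    (cayley S).dist (a * x) (a * y) = (cayley S).dist x y := by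
  refine le_antisymm (cayley_dist_le_left S hS a x y) ?_
  have := cayley_dist_le_left S hS a⁻¹ (a * x) (a * y)
  rwa [inv_mul_cancel_left, inv_mul_cancel_left] at this

theorem cayley_dist_tri (S : Set G) (hS : Subgroup.closure S = ⊤) (x y z : G) :
    (cayley S).dist x z ≤ (cayley S).dist x y + (cayley S).dist y z := by
  have hc : (cayley S).Connected := ⟨fun x y => cayley_reach S hS x y⟩
  exact hc.dist_triangle

theorem cayley_step (S : Set G) (hS : Subgroup.closure S = ⊤) (g : G)
    (hg : (cayley S).dist 1 g ≠ 0) :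
    ∃ s h, g = s * h ∧ (cayley S).dist 1 s = 1 ∧
      (cayley S).dist 1 h + 1 = (cayley S).dist 1 g := by
  obtain ⟨p, hp⟩ := (cayley_reach S hS 1 g).exists_walk_length_eq_dist
  cases p with
  | nil => exact absurd (by simp) hg
  | cons hadj q =>
    rename_i s
    rw [SimpleGraph.Walk.length_cons] at hp
    have h1 : (cayley S).dist 1 s = 1 := SimpleGraph.dist_eq_one_iff_adj.2 hadj
    have h2 : (cayley S).dist s g ≤ q.length := SimpleGraph.dist_le q
    have h3 := cayley_dist_tri S hS 1 s g
    have h4 := cayley_dist_left S hS s⁻¹ s g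
    rw [inv_mul_cancel] at h4
    refine ⟨s, s⁻¹ * g, by rw [mul_inv_cancel_left], h1, ?_⟩
    omega

theorem cayley_ball_finite (S : Finset G) (hS : Subgroup.closure (S : Set G) = ⊤) (n : ℕ) :
    {g | (cayley (S : Set G)).dist 1 g ≤ n}.Finite := by
  have h1 : {g | (cayley (S : Set G)).dist 1 g = 1}.Finite := by
    refine ((S.finite_toSet).union (S.finite_toSet.preimage
      (f := fun g : G => g⁻¹) (fun a _ b _ h => inv_injective h))).subset ?_
    intro g hg
    have hadj := SimpleGraph.dist_eq_one_iff_adj.1 hg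
    rw [cayley_adj] at hadj
    rcases hadj.2 with h | h
    · left
      simpa using h
    · right
      simpa using h
  induction n with
  | zero =>
    refine (Set.finite_singleton (1 : G)).subset ?_
    intro g hg
    have h0 : (cayley (S : Set G)).dist 1 g = 0 := Nat.le_zero.1 hg
    exact ((cayley_reach _ hS 1 g).dist_eq_zero_iff.1 h0).symm
  | succ n ih =>
    refine ((Set.finite_singleton (1 : G)).union (h1.image2 (fun s h => s * h) ih)).subset ?_
    intro g hg
    by_cases h0 : (cayley (S : Set G)).dist 1 g = 0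
    · left
      exact ((cayley_reach _ hS 1 g).dist_eq_zero_iff.1 h0).symm
    · right
      obtain ⟨s, h, hgs, hs, hh⟩ := cayley_step _ hS g h0
      refine ⟨s, hs, h, ?_, hgs.symm⟩
      have : (cayley (S : Set G)).dist 1 g ≤ n + 1 := hg
      show (cayley (S : Set G)).dist 1 h ≤ n
      omega

theorem exists_wlen (S : Finset G) (hS : Subgroup.closure (S : Set G) = ⊤) : Nonempty (WLen G) := by
  refine ⟨{ len := fun g => (cayley (S : Set G)).dist 1 g
            one := SimpleGraph.dist_self
            inv := ?_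
            mul_le := ?_
            eq_one := ?_
            step := fun g hg => cayley_step _ hS g hg
            fin := fun n => cayley_ball_finite S hS n }⟩
  · intro g
    have := cayley_dist_left _ hS g 1 g⁻¹
    rw [mul_one, mul_inv_cancel] at this
    rw [← this, SimpleGraph.dist_comm]
  · intro g h
    have h1 := cayley_dist_tri _ hS 1 g (g * h)
    have h2 := cayley_dist_left _ hS g 1 h
    rw [mul_one] at h2
    rwa [h2] at h1
  · intro g hg
    exact ((cayley_reach _ hS 1 g).dist_eq_zero_iff.1 hg).symm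

theorem isDist_cayley (S : Finset G) (hS : Subgroup.closure (S : Set G) = ⊤) :
    IsDist (cayleyDist (S : Set G)) where
  self x := by simp [cayleyDist]
  symm x y := by unfold cayleyDist; rw [SimpleGraph.dist_comm]
  tri x y z := by
    unfold cayleyDist
    exact_mod_cast cayley_dist_tri _ hS x y z
  nonneg x y := by unfold cayleyDist; exact Nat.cast_nonneg _

theorem isDist_len (ℓ : WLen G) : IsDist (fun x y : G => (ℓ.len (x⁻¹ * y) : ℝ)) where
  self x := by simp [ℓ.one]
  symm x y := by
    have h : ℓ.len (x⁻¹ * y) = ℓ.len (y⁻¹ * x) := by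
      rw [← ℓ.inv (x⁻¹ * y)]
      congr 1
      group
    simp only [h]
  tri x y z := by
    have h : ℓ.len (x⁻¹ * z) ≤ ℓ.len (x⁻¹ * y) + ℓ.len (y⁻¹ * z) := by
      refine le_trans (le_of_eq ?_) (ℓ.mul_le _ _)
      congr 1
      group
    exact_mod_cast h
  nonneg x y := Nat.cast_nonneg _

theorem cayley_bilip (ℓ : WLen G) (S : Finset G) (hS : Subgroup.closure (S : Set G) = ⊤) :
    ∃ K : ℝ, 1 ≤ K ∧
      (∀ x y, cayleyDist (S : Set G) x y ≤ K * (ℓ.len (x⁻¹ * y) : ℝ)) ∧
      (∀ x y, (ℓ.len (x⁻¹ * y) : ℝ) ≤ K * cayleyDist (S : Set G) x y) := by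
  classical
  let B : Finset G := (ℓ.fin 1).toFinset
  let K : ℕ := 1 + ∑ s ∈ S, ℓ.len s + ∑ g ∈ B, (cayley (S : Set G)).dist 1 g
  have hK1 : 1 ≤ K := by
    show 1 ≤ 1 + ∑ s ∈ S, ℓ.len s + ∑ g ∈ B, (cayley (S : Set G)).dist 1 g
    omega
  have hKS : ∀ s ∈ S, ℓ.len s ≤ K := by
    intro s hs
    have := Finset.single_le_sum (f := fun s => ℓ.len s) (fun i _ => Nat.zero_le _) hs
    have h2 : ℓ.len s ≤ ∑ s ∈ S, ℓ.len s := this
    show ℓ.len s ≤ 1 + ∑ s ∈ S, ℓ.len s + ∑ g ∈ B, (cayley (S : Set G)).dist 1 g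
    omega
  have hKB : ∀ g, ℓ.len g ≤ 1 → (cayley (S : Set G)).dist 1 g ≤ K := by
    intro g hg
    have hgB : g ∈ B := by
      show g ∈ (ℓ.fin 1).toFinset
      rw [Set.Finite.mem_toFinset]
      exact hg
    have := Finset.single_le_sum (f := fun g => (cayley (S : Set G)).dist 1 g)
      (fun i _ => Nat.zero_le _) hgB
    have h2 : (cayley (S : Set G)).dist 1 g ≤ ∑ g ∈ B, (cayley (S : Set G)).dist 1 g := this
    show (cayley (S : Set G)).dist 1 g ≤
      1 + ∑ s ∈ S, ℓ.len s + ∑ g ∈ B, (cayley (S : Set G)).dist 1 g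
    omega
  have hA : ∀ n, ∀ g, ℓ.len g = n → (cayley (S : Set G)).dist 1 g ≤ K * n := by
    intro n
    induction n with
    | zero =>
      intro g hg
      rw [ℓ.eq_one g hg]
      simp
    | succ n ih =>
      intro g hg
      obtain ⟨s, h, hgs, hs, hh⟩ := ℓ.step g (by omega)
      have h1 := cayley_dist_tri _ hS 1 s (s * h)
      have h2 := cayley_dist_left _ hS s 1 h
      rw [mul_one] at h2
      have h3 := ih h (by omega)
      have h4 := hKB s (by omega)
      rw [hgs]
      calc (cayley (S : Set G)).dist 1 (s * h) ≤ _ := h1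
        _ ≤ K + K * n := by rw [h2]; exact Nat.add_le_add h4 h3
        _ = K * (n + 1) := by ring
  have hB : ∀ x y : G, ∀ p : (cayley (S : Set G)).Walk x y, ℓ.len (x⁻¹ * y) ≤ K * p.length := by
    intro x y p
    induction p with
    | nil => rw [inv_mul_cancel, ℓ.one]; exact Nat.zero_le _
    | cons hadj q ih =>
      rename_i u v w
      rw [SimpleGraph.Walk.length_cons]
      have h1 : ℓ.len (u⁻¹ * w) ≤ ℓ.len (u⁻¹ * v) + ℓ.len (v⁻¹ * w) := by
        refine le_trans (le_of_eq ?_) (ℓ.mul_le _ _)
        congr 1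
        group
      have h2 : ℓ.len (u⁻¹ * v) ≤ K := by
        rw [cayley_adj] at hadj
        rcases hadj.2 with h | h
        · exact hKS _ (by simpa using h)
        · have h5 : ℓ.len (u⁻¹ * v) = ℓ.len (v⁻¹ * u) := by
            rw [← ℓ.inv (u⁻¹ * v)]
            congr 1
            group
          rw [h5]
          exact hKS _ (by simpa using h)
      calc ℓ.len (u⁻¹ * w) ≤ _ := h1
        _ ≤ K + K * q.length := Nat.add_le_add h2 ih
        _ = K * (q.length + 1) := by ring
  refine ⟨(K : ℝ), by exact_mod_cast hK1, ?_, ?_⟩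
  · intro x y
    have h1 := hA _ (x⁻¹ * y) rfl
    have h2 := cayley_dist_left _ hS x 1 (x⁻¹ * y)
    rw [mul_one, mul_inv_cancel_left] at h2
    rw [← h2] at h1
    unfold cayleyDist
    exact_mod_cast h1
  · intro x y
    obtain ⟨p, hp⟩ := (cayley_reach _ hS x y).exists_walk_length_eq_dist
    have h1 := hB x y p
    rw [hp] at h1
    unfold cayleyDist
    exact_mod_cast h1

end Pool.Agent.MLG
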