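import Pool.Agent.MLG.Defs

/-!
# A chain of bottlenecks is a Morse quasi-geodesic
-/

namespace Pool.Agent.MLG

section Chain

variable {X : Type*} {d : X → X → ℝ}

theorem DQG.chainShift {l e : ℝ} {z : ℕ → X} {s t m : ℕ} (h : DQG d l e z 0 m) (hst : s ≤ t)
    (htm : t ≤ m) : DQG d l e (fun k => z (s + k)) 0 (t - s) := by
  intro a b _ hab hb
  have := h (s + a) (s + b) (Nat.zero_le _) (by omega) (by omega)
  push_cast at this
  have e1 : ((s : ℝ) + b - (s + a)) = (b : ℝ) - a := by ring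
  rw [e1] at this
  exact this

theorem DQG.rev (hd : IsDist d) {l e : ℝ} {z : ℕ → X} {s t m : ℕ} (h : DQG d l e z 0 m)
    (hst : s ≤ t) (htm : t ≤ m) : DQG d l e (fun k => z (t - k)) 0 (t - s) := by
  intro a b _ hab hb
  have := h (t - b) (t - a) (Nat.zero_le _) (by omega) (by omega)
  have e1 : (((t - a : ℕ) : ℝ) - ((t - b : ℕ) : ℝ)) = (b : ℝ) - a := by
    rw [Nat.cast_sub (by omega), Nat.cast_sub (by omega)]
    ring
  rw [e1] at this
  show ((b : ℝ) - a) / l - e ≤ d (z (t - a)) (z (t - b)) ∧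
    d (z (t - a)) (z (t - b)) ≤ l * ((b : ℝ) - a) + e
  rw [hd.symm (z (t - a)) (z (t - b))]
  exact this

variable {y : ℕ → X} {n T : ℕ} {κ ρ δ : ℝ}

theorem ChainData.jump_sum (hd : IsDist d) (D : ChainData d y n T κ ρ δ) (p q : ℕ)
    (hpq : p ≤ q) (hq : q ≤ n) : d (y p) (y q) ≤ κ * ((q : ℝ) - p) := by
  induction q, hpq using Nat.le_induction with
  | base => rw [hd.self]; simp
  | succ q hpq ih =>
    have h1 := ih (by omega)
    have h2 := D.jump q (by omega)
    have h3 := hd.tri (y p) (y q) (y (q + 1))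
    push_cast
    nlinarith

theorem divT (q T : ℕ) (hT : 1 ≤ T) : ∃ a, a * T ≤ q ∧ q < (a + 1) * T := by
  refine ⟨q / T, Nat.div_mul_le_self _ _, ?_⟩
  have := Nat.lt_div_mul_add (a := q) (b := T) (by omega)
  rw [add_mul, one_mul]; exact this

/-- The constants. -/
noncomputable def cR (T : ℕ) (κ ρ δ l e : ℝ) : ℝ :=
  l + e + ρ + (δ + e + l * (l * κ * T + 2)) / 2

noncomputable def cC (T : ℕ) (κ ρ δ l e : ℝ) : ℕ := ⌈cR T κ ρ δ l e + 2 * κ * T⌉₊

noncomputable def cM0 (T : ℕ) (κ ρ δ l e : ℝ) : ℝ :=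
  l * (2 * cR T κ ρ δ l e + κ * T * (3 + 2 * cC T κ ρ δ l e) + e)

noncomputable def cMmax (T : ℕ) (κ ρ δ l e : ℝ) : ℝ := cM0 T κ ρ δ l e * (1 + l * κ * T)

theorem chainExcursion (hd : IsDist d) (hT : 1 ≤ T) (hκ : 0 ≤ κ) (hρ : 0 ≤ ρ) (hδ : 0 ≤ δ)
    (D : ChainData d y n T κ ρ δ) {l e : ℝ} (hl : 1 ≤ l) (he : 0 ≤ e) (u : ℕ → X) (M : ℕ)
    (hu : DQG d l e u 0 M) (q0 q1 : ℕ) (hq01 : q0 ≤ q1) (hq1 : q1 ≤ n)
    (h0 : d (u 0) (y q0) ≤ cR T κ ρ δ l e) (hM : d (u M) (y q1) ≤ cR T κ ρ δ l e)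
    (hmid : ∀ k, 0 < k → k < M → ∀ q ≤ n, cR T κ ρ δ l e < d (u k) (y q)) :
    (M : ℝ) ≤ cMmax T κ ρ δ l e := by
  classical
  set R := cR T κ ρ δ l e with hR
  obtain ⟨c, hc⟩ : ∃ c, c = cC T κ ρ δ l e := ⟨_, rfl⟩
  have hT1 : (1 : ℝ) ≤ T := by exact_mod_cast hT
  have hκT : 0 ≤ κ * T := by positivity
  have hlκT : 0 ≤ l * κ * T := by positivity
  have hRl : l ≤ R := by
    rw [hR, cR]
    have : 0 ≤ (δ + e + l * (l * κ * T + 2)) / 2 := by positivity
    linarith
  have hR0 : 0 ≤ R := by linarith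
  have hcR : R + 2 * κ * T ≤ c := by rw [hc]; exact Nat.le_ceil _
  set M0 := cM0 T κ ρ δ l e with hM0def
  have hM0 : M0 = l * (2 * R + κ * T * (3 + 2 * c) + e) := by rw [hc]; rfl
  have hM02 : 2 ≤ M0 := by
    rw [hM0]
    have : 2 ≤ 2 * R + κ * T * (3 + 2 * c) + e := by
      have : 0 ≤ κ * T * (3 + 2 * (c : ℝ)) := by positivity
      linarith
    nlinarith
  have hMmax : cMmax T κ ρ δ l e = M0 * (1 + l * κ * T) := rfl
  rw [hMmax]
  have hM0le : M0 ≤ M0 * (1 + l * κ * T) := by nlinarith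
  -- upper bound on `M`
  have hup : (M : ℝ) ≤ l * (2 * R + κ * ((q1 : ℝ) - q0) + e) := by
    have h1 := (hu 0 M le_rfl (Nat.zero_le _) le_rfl).1
    have h2 := hd.tri (u 0) (y q0) (u M)
    have h3 := hd.tri (y q0) (y q1) (u M)
    have h4 := D.jump_sum hd q0 q1 hq01 hq1
    rw [hd.symm (y q1) (u M)] at h3
    have h5 : ((M : ℝ) - (0 : ℕ)) / l ≤ 2 * R + κ * ((q1 : ℝ) - q0) + e := by linarith
    rw [div_le_iff₀ (by linarith)] at h5
    simp only [Nat.cast_zero, sub_zero] at h5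
    linarith
  obtain ⟨a, haT, haT'⟩ : ∃ a, a * T ≤ q0 ∧ q0 < (a + 1) * T := divT q0 T hT
  obtain ⟨b, hbT, hbT'⟩ : ∃ b, b * T ≤ q1 ∧ q1 < (b + 1) * T := divT q1 T hT
  have hq : (q1 : ℝ) - q0 ≤ ((b : ℝ) - a + 1) * T := by
    have h1 : (q1 : ℝ) ≤ ((b : ℝ) + 1) * T := by exact_mod_cast hbT'.le
    have h2 : (a : ℝ) * T ≤ q0 := by exact_mod_cast haT
    nlinarith
  by_cases hN : b ≤ a + 2 + 2 * c
  · -- few blocks
    have hN' : (b : ℝ) ≤ a + 2 + 2 * c := by exact_mod_cast hN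
    refine le_trans hup (le_trans ?_ hM0le)
    rw [hM0]
    apply mul_le_mul_of_nonneg_left _ (by linarith)
    have : κ * ((q1 : ℝ) - q0) ≤ κ * ((3 + 2 * c) * T) := by
      apply mul_le_mul_of_nonneg_left _ hκ
      refine le_trans hq ?_
      apply mul_le_mul_of_nonneg_right _ (by linarith)
      linarith
    nlinarith
  push Not at hN
  obtain ⟨N, hNeq⟩ : ∃ N : ℕ, b = a + 2 + 2 * c + N := ⟨b - (a + 2 + 2 * c), by omega⟩
  have hNpos : 0 < N := by omega
  by_cases hM1 : M ≤ 1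
  · have : (M : ℝ) ≤ 1 := by exact_mod_cast hM1
    linarith
  push Not at hM1
  -- all points are far from `y`
  have hfar : ∀ k ≤ M, ∀ q ≤ n, R - l - e < d (u k) (y q) := by
    intro k hk q hqn
    rcases Nat.eq_zero_or_pos k with rfl | hk0
    · have h1 := hmid 1 (by omega) (by omega) q hqn
      have h2 := hd.tri (u 1) (u 0) (y q)
      have h3 := (hu 0 1 le_rfl (by omega) (by omega)).2
      rw [hd.symm (u 0) (u 1)] at h3
      push_cast at h3
      linarith
    · rcases lt_or_eq_of_le hk with hk1 | rfl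
      · have := hmid k hk0 hk1 q hqn
        linarith
      · have h1 := hmid (k - 1) (by omega) (by omega) q hqn
        have h2 := hd.tri (u (k - 1)) (u k) (y q)
        have h3 := (hu (k - 1) k (Nat.zero_le _) (by omega) le_rfl).2
        rw [Nat.cast_sub (by omega)] at h3
        push_cast at h3
        linarith
  set DD : ℝ := l * κ * T + 2 with hDD
  -- block facts
  have hval : ∀ r, r < N → 1 ≤ a + 1 + c + r ∧ (a + 1 + c + r + 2) * T ≤ n := by
    intro r hr
    refine ⟨by omega, ?_⟩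
    have h1 : (a + 1 + c + r + 2) * T ≤ b * T := Nat.mul_le_mul_right _ (by omega)
    omega
  have hA : ∀ r, r < N → u 0 ∈ D.A (a + 1 + c + r) := by
    intro r hr
    obtain ⟨hv1, hv2⟩ := hval r hr
    by_contra hcon
    have hva : (a + 1 + 2) * T ≤ n :=
      le_trans (Nat.mul_le_mul_right _ (by omega)) hv2
    have h1 := D.costA (a + 1) (a + 1 + c + r) (by omega) (by omega) hv2 (y ((a + 1) * T))
      (D.yA (a + 1) (by omega) hva) (u 0) hcon
    have hle : (a + 1) * T ≤ n :=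
      le_trans (Nat.mul_le_mul_right _ (by omega)) hva
    have h2 := D.jump_sum hd q0 ((a + 1) * T) haT'.le hle
    have h3 := hd.tri (y ((a + 1) * T)) (y q0) (u 0)
    rw [hd.symm (y ((a + 1) * T)) (y q0), hd.symm (y q0) (u 0)] at h3
    have h4 : (((a + 1) * T : ℕ) : ℝ) - q0 ≤ T := by
      have : (a + 1) * T ≤ q0 + T := by rw [add_mul, one_mul]; omega
      have : (((a + 1) * T : ℕ) : ℝ) ≤ q0 + T := by exact_mod_cast this
      linarith
    have h5 : κ * ((((a + 1) * T : ℕ) : ℝ) - q0) ≤ κ * T := mul_le_mul_of_nonneg_left h4 hκ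
    push_cast at h1
    have hr0 : (0 : ℝ) ≤ r := Nat.cast_nonneg _
    nlinarith
  have hB : ∀ r, r < N → u M ∈ D.B (a + 1 + c + r) := by
    intro r hr
    obtain ⟨hv1, hv2⟩ := hval r hr
    by_contra hcon
    have hjv : (b - 2 + 2) * T ≤ n := by
      rw [show b - 2 + 2 = b by omega]; omega
    have h1 := D.costB (a + 1 + c + r) (b - 2) (by omega) (by omega) hjv (u M) hcon
      (y ((b - 2 + 1) * T)) (D.yB (b - 2) (by omega) hjv)
    have hbb : b - 2 + 1 = b - 1 := by omega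
    rw [hbb] at h1
    have hle : (b - 1) * T ≤ q1 := le_trans (Nat.mul_le_mul_right _ (by omega)) hbT
    have h2 := D.jump_sum hd ((b - 1) * T) q1 hle hq1
    have h3 := hd.tri (u M) (y q1) (y ((b - 1) * T))
    rw [hd.symm (y q1) (y ((b - 1) * T))] at h3
    have h4 : (q1 : ℝ) - ((b - 1) * T : ℕ) ≤ 2 * T := by
      have : q1 ≤ (b - 1) * T + 2 * T := by
        rw [← add_mul, show b - 1 + 2 = b + 1 by omega]; exact hbT'.le
      have : (q1 : ℝ) ≤ ((b - 1) * T : ℕ) + 2 * T := by exact_mod_cast this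
      linarith
    have h5 : κ * ((q1 : ℝ) - ((b - 1) * T : ℕ)) ≤ κ * (2 * T) :=
      mul_le_mul_of_nonneg_left h4 hκ
    have h6 : (((b - 2 : ℕ) : ℝ)) - ((a + 1 + c + r : ℕ) : ℝ) ≥ c := by
      have : a + 1 + c + r + c ≤ b - 2 := by omega
      have : (((a + 1 + c + r + c : ℕ)) : ℝ) ≤ ((b - 2 : ℕ) : ℝ) := by exact_mod_cast this
      push_cast at this ⊢
      linarith
    linarith
  -- the step
  have hlast : ∀ r, r < N → ∃ k, k < M ∧ u k ∈ D.A (a + 1 + c + r) ∧
      ∀ k', k < k' → k' ≤ M → u k' ∉ D.A (a + 1 + c + r) := by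
    intro r hr
    obtain ⟨hv1, hv2⟩ := hval r hr
    set P : ℕ → Prop := fun k => u k ∈ D.A (a + 1 + c + r) with hP
    refine ⟨Nat.findGreatest P M, ?_, ?_, ?_⟩
    · have h1 : Nat.findGreatest P M ≤ M := Nat.findGreatest_le _
      rcases lt_or_eq_of_le h1 with h2 | h2
      · exact h2
      · exfalso
        have h3 : P (Nat.findGreatest P M) :=
          Nat.findGreatest_spec (P := P) (m := 0) (Nat.zero_le _) (hA r hr)
        rw [h2] at h3
        exact D.disj _ hv1 hv2 _ h3 (hB r hr)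
    · exact Nat.findGreatest_spec (P := P) (m := 0) (Nat.zero_le _) (hA r hr)
    · intro k' hk' hk'M
      exact Nat.findGreatest_is_greatest hk' hk'M
  have hfirst : ∀ r, r < N → ∀ k, k < M → u k ∈ D.A (a + 1 + c + r) →
      ∃ j, k < j ∧ j ≤ M ∧ u j ∈ D.B (a + 1 + c + r) ∧
        u (j - 1) ∉ D.B (a + 1 + c + r) ∧ DD ≤ (j : ℝ) - k := by
    intro r hr k hkM hk
    obtain ⟨hv1, hv2⟩ := hval r hr
    have hex : ∃ j, k < j ∧ u j ∈ D.B (a + 1 + c + r) := ⟨M, hkM, hB r hr⟩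
    set j := Nat.find hex with hj
    have hjs := Nat.find_spec hex
    have hjM : j ≤ M := Nat.find_min' hex ⟨hkM, hB r hr⟩
    refine ⟨j, hjs.1, hjM, hjs.2, ?_, ?_⟩
    · intro hcon
      rcases Nat.lt_or_ge k (j - 1) with h | h
      · exact Nat.find_min hex (show j - 1 < Nat.find hex by omega) ⟨h, hcon⟩
      · have : j - 1 = k := by
          have := hjs.1
          omega
        rw [this] at hcon
        exact D.disj _ hv1 hv2 _ hk hcon
    · have h1 := D.bott _ hv1 hv2 (u k) hk (u j) hjs.2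
      have hw := D.near _ hv1 hv2
      have hle : (a + 1 + c + r) * T ≤ n := le_trans (Nat.mul_le_mul_right _ (by omega)) hv2
      have f1 := hfar k hkM.le _ hle
      have f2 := hfar j hjM _ hle
      have t1 := hd.tri (u k) (D.z (a + 1 + c + r)) (y ((a + 1 + c + r) * T))
      have t2 := hd.tri (u j) (D.z (a + 1 + c + r)) (y ((a + 1 + c + r) * T))
      rw [hd.symm (u j) (D.z (a + 1 + c + r))] at t2
      have h2 := (hu k j (Nat.zero_le _) hjs.1.le hjM).2
      have h3 : 2 * (R - l - e - ρ) - δ - e ≤ l * ((j : ℝ) - k) := by linarith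
      have h4 : 2 * (R - l - e - ρ) - δ - e = l * DD := by
        rw [hR, cR, hDD]; ring
      rw [h4] at h3
      exact le_of_mul_le_mul_left h3 (by linarith)
  have hind : ∀ r, r < N → ∃ k, k < M ∧ u k ∈ D.A (a + 1 + c + r) ∧
      (∀ k', k < k' → k' ≤ M → u k' ∉ D.A (a + 1 + c + r)) ∧ (r : ℝ) * (DD - 1) ≤ k := by
    intro r
    induction r with
    | zero =>
      intro hr
      obtain ⟨k, hk1, hk2, hk3⟩ := hlast 0 hr
      exact ⟨k, hk1, hk2, hk3, by simp⟩
    | succ r ih =>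
      intro hr
      obtain ⟨k, hk1, hk2, hk3, hk4⟩ := ih (by omega)
      obtain ⟨j, hj1, hj2, hj3, hj4, hj5⟩ := hfirst r (by omega) k hk1 hk2
      obtain ⟨k', hk1', hk2', hk3'⟩ := hlast (r + 1) hr
      refine ⟨k', hk1', hk2', hk3', ?_⟩
      have hmem : u (j - 1) ∈ D.A (a + 1 + c + (r + 1)) := by
        have hv := hval (r + 1) hr
        have hv' := hval r (by omega)
        rcases D.cover (a + 1 + c + r) hv'.1 (by
          have := hv.2
          rw [show a + 1 + c + (r + 1) + 2 = a + 1 + c + r + 3 by ring] at this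
          exact this) (u (j - 1)) with h | h
        · exact absurd h hj4
        · exact h
      have hge : j - 1 ≤ k' := by
        by_contra hcon
        push Not at hcon
        exact hk3' (j - 1) hcon (by omega) hmem
      have h1 : (j : ℝ) - 1 ≤ k' := by
        have : j ≤ k' + 1 := by omega
        have : (j : ℝ) ≤ k' + 1 := by exact_mod_cast this
        linarith
      push_cast
      linarith
  obtain ⟨k, hk1, hk2, hk3, hk4⟩ := hind (N - 1) (by omega)
  obtain ⟨j, hj1, hj2, hj3, hj4, hj5⟩ := hfirst (N - 1) (by omega) k hk1 hk2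
  have hNM : (N : ℝ) * (DD - 1) ≤ M := by
    have h1 : (j : ℝ) ≤ M := by exact_mod_cast hj2
    rw [Nat.cast_sub (by omega)] at hk4
    push_cast at hk4
    have e4 : (N : ℝ) * (DD - 1) = ((N : ℝ) - 1) * (DD - 1) + (DD - 1) := by ring
    linarith
  have hbN : (b : ℝ) - a + 1 = 3 + 2 * c + N := by
    rw [hNeq]; push_cast; ring
  have hup2 : (M : ℝ) ≤ M0 + l * κ * T * N := by
    refine le_trans hup ?_
    rw [hM0]
    have : κ * ((q1 : ℝ) - q0) ≤ κ * ((3 + 2 * c + N) * T) := by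
      apply mul_le_mul_of_nonneg_left _ hκ
      rw [← hbN]; exact hq
    have h2 : l * (2 * R + κ * ((q1 : ℝ) - q0) + e) ≤
        l * (2 * R + κ * ((3 + 2 * c + N) * T) + e) :=
      mul_le_mul_of_nonneg_left (by linarith) (by linarith)
    refine le_trans h2 (le_of_eq ?_)
    ring
  have hNM0 : (N : ℝ) ≤ M0 := by
    have : (N : ℝ) * (l * κ * T + 1) ≤ M0 + l * κ * T * N := by
      have e1 : DD - 1 = l * κ * T + 1 := by rw [hDD]; ring
      rw [e1] at hNM
      linarith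
    have e2 : (N : ℝ) * (l * κ * T + 1) = l * κ * T * N + N := by ring
    linarith
  have h3 : l * κ * T * N ≤ l * κ * T * M0 := mul_le_mul_of_nonneg_left hNM0 hlκT
  have e3 : M0 * (1 + l * κ * T) = M0 + l * κ * T * M0 := by ring
  rw [e3]
  linarith

theorem chain_qg (hd : IsDist d) (hT : 1 ≤ T) (hκ : 0 ≤ κ)
    (D : ChainData d y n T κ ρ δ) :
    DQG d (κ + T) (4 + 3 * κ * T) y 0 n := by
  have hT1 : (1 : ℝ) ≤ T := by exact_mod_cast hT
  intro p q _ hpq hqn
  have hpq' : (p : ℝ) ≤ q := by exact_mod_cast hpq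
  constructor
  · -- lower bound
    have hlam : ((q : ℝ) - p) / (κ + T) ≤ ((q : ℝ) - p) / T := by
      apply div_le_div_of_nonneg_left (by linarith) (by linarith) (by linarith)
    obtain ⟨a, haT, haT'⟩ : ∃ a, a * T ≤ p ∧ p < (a + 1) * T := divT p T hT
    obtain ⟨b, hbT, hbT'⟩ : ∃ b, b * T ≤ q ∧ q < (b + 1) * T := divT q T hT
    have hq : ((q : ℝ) - p) / T ≤ (b : ℝ) - a + 1 := by
      rw [div_le_iff₀ (by linarith)]
      have h1 : (q : ℝ) ≤ ((b : ℝ) + 1) * T := by exact_mod_cast hbT'.le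
      have h2 : (a : ℝ) * T ≤ p := by exact_mod_cast haT
      nlinarith
    have hκT : 0 ≤ κ * T := by positivity
    by_cases hab : a + 3 ≤ b
    · have hv : (b - 2 + 2) * T ≤ n := by
        rw [show b - 2 + 2 = b by omega]; omega
      have hva : (a + 1 + 2) * T ≤ n :=
        le_trans (Nat.mul_le_mul_right _ (by omega)) hv
      have hyB := D.yB (b - 2) (by omega) hv
      have hnot : y ((b - 2 + 1) * T) ∉ D.A (b - 2) := fun h =>
        D.disj _ (by omega) hv _ h hyB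
      have h1 := D.costA (a + 1) (b - 2) (by omega) (by omega) hv (y ((a + 1) * T))
        (D.yA (a + 1) (by omega) hva) _ hnot
      rw [show b - 2 + 1 = b - 1 by omega] at h1
      have hle1 : (a + 1) * T ≤ n := le_trans (Nat.mul_le_mul_right _ (by omega)) hva
      have hle : (b - 1) * T ≤ q := le_trans (Nat.mul_le_mul_right _ (by omega)) hbT
      have j1 := D.jump_sum hd p ((a + 1) * T) haT'.le hle1
      have j2 := D.jump_sum hd ((b - 1) * T) q hle hqn
      have t1 := hd.tri (y ((a + 1) * T)) (y p) (y ((b - 1) * T))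
      have t2 := hd.tri (y p) (y q) (y ((b - 1) * T))
      rw [hd.symm (y ((a + 1) * T)) (y p)] at t1
      rw [hd.symm (y q) (y ((b - 1) * T))] at t2
      have h4 : (((a + 1) * T : ℕ) : ℝ) - p ≤ T := by
        have : (a + 1) * T ≤ p + T := by rw [add_mul, one_mul]; omega
        have : (((a + 1) * T : ℕ) : ℝ) ≤ p + T := by exact_mod_cast this
        linarith
      have h4' : (q : ℝ) - ((b - 1) * T : ℕ) ≤ 2 * T := by
        have : q ≤ (b - 1) * T + 2 * T := by
          rw [← add_mul, show b - 1 + 2 = b + 1 by omega]; exact hbT'.le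
        have : (q : ℝ) ≤ ((b - 1) * T : ℕ) + 2 * T := by exact_mod_cast this
        linarith
      have h5 : κ * ((((a + 1) * T : ℕ) : ℝ) - p) ≤ κ * T := mul_le_mul_of_nonneg_left h4 hκ
      have h5' : κ * ((q : ℝ) - ((b - 1) * T : ℕ)) ≤ κ * (2 * T) :=
        mul_le_mul_of_nonneg_left h4' hκ
      rw [Nat.cast_sub (by omega)] at h1
      push_cast at h1
      nlinarith
    · have hab' : (b : ℝ) ≤ a + 2 := by
        have : b ≤ a + 2 := by omega
        exact_mod_cast this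
      have := hd.nonneg (y p) (y q)
      nlinarith
  · have h := D.jump_sum hd p q hpq hqn
    have h1 : κ * ((q : ℝ) - p) ≤ (κ + T) * ((q : ℝ) - p) := by
      apply mul_le_mul_of_nonneg_right _ (by linarith)
      linarith
    have : 0 ≤ 3 * κ * T := by positivity
    linarith

theorem chain_morse (hd : IsDist d) (hT : 1 ≤ T) (hκ : 0 ≤ κ) (hρ : 0 ≤ ρ) (hδ : 0 ≤ δ)
    (D : ChainData d y n T κ ρ δ) :
    DMorse d (fun l e => cR T κ ρ δ l e + l * cMmax T κ ρ δ l e + e) y 0 n := by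
  classical
  intro l e hl he z m hz h0 hm p hp
  show ∃ q, 0 ≤ q ∧ q ≤ n ∧ d (z p) (y q) ≤ cR T κ ρ δ l e + l * cMmax T κ ρ δ l e + e
  set R := cR T κ ρ δ l e with hR
  have hT1 : (1 : ℝ) ≤ T := by exact_mod_cast hT
  have hR0 : 0 ≤ R := by
    rw [hR, cR]; positivity
  have hM0 : 0 ≤ cM0 T κ ρ δ l e := by
    unfold cM0
    rw [← hR]
    positivity
  have hMmax : 0 ≤ cMmax T κ ρ δ l e := by
    unfold cMmax
    positivity
  have hlM : 0 ≤ l * cMmax T κ ρ δ l e := by positivity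
  set P : ℕ → Prop := fun k => ∃ q ≤ n, d (z k) (y q) ≤ R with hP
  by_cases hPp : P p
  · obtain ⟨q, hq, hdq⟩ := hPp
    exact ⟨q, Nat.zero_le _, hq, by linarith⟩
  have hP0 : P 0 := by
    obtain ⟨a, _, ha, hza⟩ := h0
    refine ⟨a, ha, ?_⟩
    rw [hza, hd.self]; exact hR0
  have hPm : P m := by
    obtain ⟨b, _, hb, hzb⟩ := hm
    refine ⟨b, hb, ?_⟩
    rw [hzb, hd.self]; exact hR0
  -- last index before `p`, first after
  set s := Nat.findGreatest P p with hs
  have hsP : P s := Nat.findGreatest_spec (P := P) (m := 0) (Nat.zero_le _) hP0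
  have hsp : s ≤ p := Nat.findGreatest_le _
  have hsp' : s < p := lt_of_le_of_ne hsp (fun h => hPp (h ▸ hsP))
  have hsmax : ∀ k, s < k → k ≤ p → ¬ P k := fun k h1 h2 => Nat.findGreatest_is_greatest h1 h2
  have hex : ∃ k, p ≤ k ∧ P k := ⟨m, hp, hPm⟩
  set t := Nat.find hex with ht
  have htP := Nat.find_spec hex
  have htm : t ≤ m := Nat.find_min' hex ⟨hp, hPm⟩
  have htmin : ∀ k, p ≤ k → k < t → ¬ P k := fun k h1 h2 h3 => Nat.find_min hex h2 ⟨h1, h3⟩
  have hst : s ≤ t := le_trans hsp htP.1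
  have hmid : ∀ k, s < k → k < t → ∀ q ≤ n, R < d (z k) (y q) := by
    intro k h1 h2 q hq
    by_contra hcon
    push Not at hcon
    rcases le_total k p with h | h
    · exact hsmax k h1 h ⟨q, hq, hcon⟩
    · exact htmin k h h2 ⟨q, hq, hcon⟩
  obtain ⟨qs, hqs, hdqs⟩ := hsP
  obtain ⟨qt, hqt, hdqt⟩ := htP.2
  have hlen : ((t - s : ℕ) : ℝ) ≤ cMmax T κ ρ δ l e := by
    rcases le_total qs qt with hle | hle
    · apply chainExcursion hd hT hκ hρ hδ D hl he (fun k => z (s + k)) (t - s)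
        (hz.chainShift hst htm) qs qt hle hqt
      · simpa using hdqs
      · show d (z (s + (t - s))) (y qt) ≤ _
        rw [Nat.add_sub_cancel' hst]; exact hdqt
      · intro k hk0 hk1 q hq
        exact hmid (s + k) (by omega) (by omega) q hq
    · apply chainExcursion hd hT hκ hρ hδ D hl he (fun k => z (t - k)) (t - s)
        (hz.rev hd hst htm) qt qs hle hqs
      · simpa using hdqt
      · show d (z (t - (t - s))) (y qs) ≤ _
        rw [Nat.sub_sub_self hst]; exact hdqs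
      · intro k hk0 hk1 q hq
        exact hmid (t - k) (by omega) (by omega) q hq
  refine ⟨qs, Nat.zero_le _, hqs, ?_⟩
  have h1 := (hz s p (Nat.zero_le _) hsp hp).2
  have h2 := hd.tri (z p) (z s) (y qs)
  rw [hd.symm (z p) (z s)] at h2
  have h3 : (p : ℝ) - s ≤ cMmax T κ ρ δ l e := by
    rw [Nat.cast_sub hst] at hlen
    have : (p : ℝ) ≤ t := by exact_mod_cast htP.1
    linarith
  have h4 : l * ((p : ℝ) - s) ≤ l * cMmax T κ ρ δ l e :=
    mul_le_mul_of_nonneg_left h3 (by linarith)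
  linarith

theorem chain_main {X : Type*} {d : X → X → ℝ} (hd : IsDist d) (T : ℕ) (hT : 1 ≤ T)
    (κ ρ δ : ℝ) (hκ : 0 ≤ κ) (hρ : 0 ≤ ρ) (hδ : 0 ≤ δ) :
    ∃ (lam' eps' : ℝ) (M' : ℝ → ℝ → ℝ), 1 ≤ lam' ∧ 0 ≤ eps' ∧
      ∀ (y : ℕ → X) (n : ℕ), Nonempty (ChainData d y n T κ ρ δ) →
        DQG d lam' eps' y 0 n ∧ DMorse d M' y 0 n := by
  have hT1 : (1 : ℝ) ≤ T := by exact_mod_cast hT
  refine ⟨κ + T, 4 + 3 * κ * T, fun l e => cR T κ ρ δ l e + l * cMmax T κ ρ δ l e + e,
    by linarith, by positivity, ?_⟩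
  rintro y n ⟨D⟩
  exact ⟨chain_qg hd hT hκ D, chain_morse hd hT hκ hρ hδ D⟩

end Chain

end Pool.Agent.MLG
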