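import Mathlib
import Pool.Agent.MLG.Defs

/-!
# Invariance of the discrete Morse local-to-global property under coarse isometries
-/

namespace Pool.Agent.MLG

variable {X Y : Type*}

theorem DQG.of_close {dX : X → X → ℝ} {dY : Y → Y → ℝ} {l e C : ℝ} {z : ℕ → Y} {w : ℕ → X}
    {i j : ℕ} (h : DQG dY l e z i j)
    (hc : ∀ a b, i ≤ a → a ≤ b → b ≤ j → |dX (w a) (w b) - dY (z a) (z b)| ≤ C) :
    DQG dX l (e + C) w i j := by
  intro a b ha hab hb
  have h1 := h a b ha hab hb
  have h2 := abs_le.1 (hc a b ha hab hb)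
  constructor
  · linarith [h1.1, h2.1]
  · linarith [h1.2, h2.2]

/-- Coarse isometries preserve the discrete Morse local-to-global property. -/
theorem DMLTG.coarse {dX : X → X → ℝ} {dY : Y → Y → ℝ} (hX : IsDist dX) (hY : IsDist dY) {C : ℝ}
    (hC : 0 ≤ C) (f : Y → X) (g : X → Y) (h1 : ∀ y y', |dX (f y) (f y') - dY y y'| ≤ C)
    (h2 : ∀ x x', |dY (g x) (g x') - dX x x'| ≤ C) (h3 : ∀ x, dX x (f (g x)) ≤ C)
    (h : DMLTG dY) : DMLTG dX := by
  classical
  intro M lam eps hlam heps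
  obtain ⟨L, M', lam', eps', hl', he', hmain⟩ :=
    h (fun l e => |M l (e + 3 * C)| + 3 * C) lam (eps + C) hlam (by linarith)
  refine ⟨L, fun l e => M' l (e + C) + 2 * C, lam', eps' + C, hl', by linarith, ?_⟩
  intro u n hloc
  have hu : ∀ a b, |dX (u a) (u b) - dY (g (u a)) (g (u b))| ≤ C := by
    intro a b
    rw [abs_sub_comm]; exact h2 _ _
  have hlocal : DLocal dY L (fun l e => |M l (e + 3 * C)| + 3 * C) lam (eps + C)
      (fun k => g (u k)) n := by
    intro i j hij hjn hjL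
    obtain ⟨q1, q2⟩ := hloc i j hij hjn hjL
    refine ⟨q1.of_close (fun a b _ _ _ => h2 _ _), ?_⟩
    intro l e hl he z m hz ⟨a, ha1, ha2, ha3⟩ ⟨b, hb1, hb2, hb3⟩ p hp
    by_cases hp0 : p = 0
    · subst hp0
      refine ⟨a, ha1, ha2, ?_⟩
      rw [ha3, hY.self]
      positivity
    by_cases hpm : p = m
    · subst hpm
      refine ⟨b, hb1, hb2, ?_⟩
      rw [hb3, hY.self]
      positivity
    set z' : ℕ → X := fun k => if k = 0 then u a else if k = m then u b else f (z k) with hz'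
    have hclose : ∀ k, k ≤ m → dX (z' k) (f (z k)) ≤ C := by
      intro k hk
      simp only [hz']
      by_cases hk0 : k = 0
      · rw [if_pos hk0, hk0, ha3]; exact h3 _
      · rw [if_neg hk0]
        by_cases hkm : k = m
        · rw [if_pos hkm, hkm, hb3]; exact h3 _
        · rw [if_neg hkm, hX.self]; exact hC
    have hz'q : DQG dX l (e + 3 * C) z' 0 m := by
      refine hz.of_close (fun s t _ hst ht => ?_)
      have c1 := hclose s (by omega)
      have c2 := hclose t ht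
      have c3 := abs_le.1 (h1 (z s) (z t))
      have t1 := hX.tri (z' s) (f (z s)) (z' t)
      have t2 := hX.tri (f (z s)) (f (z t)) (z' t)
      have t3 := hX.tri (f (z s)) (z' s) (f (z t))
      have t4 := hX.tri (z' s) (z' t) (f (z t))
      rw [hX.symm (f (z t)) (z' t)] at t2
      rw [hX.symm (f (z s)) (z' s)] at t3
      rw [abs_le]
      constructor
      · linarith [c3.1]
      · linarith [c3.2]
    have hm0 : m ≠ 0 := by rintro rfl; exact hp0 (by omega)
    obtain ⟨q, hq1, hq2, hq3⟩ := q2 l (e + 3 * C) hl (by linarith) z' m hz'q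
      ⟨a, ha1, ha2, by simp [hz']⟩ ⟨b, hb1, hb2, by simp [hz', hm0]⟩ p hp
    refine ⟨q, hq1, hq2, ?_⟩
    have e1 : z' p = f (z p) := by simp [hz', hp0, hpm]
    rw [e1] at hq3
    have c1 := abs_le.1 (h1 (z p) (g (u q)))
    have t1 := hX.tri (f (z p)) (u q) (f (g (u q)))
    have c2 := h3 (u q)
    have c3 := le_abs_self (M l (e + 3 * C))
    linarith [c1.1]
  obtain ⟨r1, r2⟩ := hmain _ n hlocal
  refine ⟨r1.of_close (fun a b _ _ _ => hu a b), ?_⟩
  intro l e hl he z m hz ⟨a, ha1, ha2, ha3⟩ ⟨b, hb1, hb2, hb3⟩ p hp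
  obtain ⟨q, hq1, hq2, hq3⟩ := r2 l (e + C) hl (by linarith) (fun k => g (z k)) m
    (hz.of_close (fun a b _ _ _ => h2 _ _)) ⟨a, ha1, ha2, by simp only [ha3]⟩
    ⟨b, hb1, hb2, by simp only [hb3]⟩ p hp
  refine ⟨q, hq1, hq2, ?_⟩
  have c := abs_le.1 (h2 (z p) (u q))
  linarith [c.1]

end Pool.Agent.MLG
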