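import Mathlib
import Pool.Agent.MLG.Step

/-!
# Fellow travelling for Morse sequences, and no long Morse segments in products
-/

namespace Pool.Agent.MLG

section Fellow

variable {X : Type*}

/-- discrete intermediate value: a sequence of indices from `a` to `b` passes close to `q` -/
theorem exists_cross (Q : ℕ → ℕ) (N q : ℕ) (h0 : Q 0 < q) (hN : q ≤ Q N) :
    ∃ p, p < N ∧ Q p < q ∧ q ≤ Q (p + 1) := by
  classical
  have hex : ∃ p, q ≤ Q p := ⟨N, hN⟩
  have h1 := Nat.find_spec hex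
  have h2 : 0 < Nat.find hex := by
    rcases Nat.eq_zero_or_pos (Nat.find hex) with h | h
    · rw [h] at h1; omega
    · exact h
  refine ⟨Nat.find hex - 1, ?_, ?_, ?_⟩
  · have := Nat.find_min' hex hN
    omega
  · have := Nat.find_min hex (m := Nat.find hex - 1) (by omega)
    omega
  · rw [show Nat.find hex - 1 + 1 = Nat.find hex by omega]
    exact h1

theorem fellow {d : X → X → ℝ} (hd : IsDist d) (M : ℝ → ℝ → ℝ) (lam eps Δ : ℝ)
    (hlam : 1 ≤ lam) (heps : 0 ≤ eps) (hΔ : 0 ≤ Δ) : ∃ R : ℝ, 0 ≤ R ∧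
      ∀ (y : ℕ → X) (a b : ℕ), a ≤ b → DQG d lam eps y a b → DMorse d M y a b →
      ∀ (β : ℕ → X) (m : ℕ), DQG d 1 0 β 0 m → d (β 0) (y a) ≤ Δ → d (β m) (y b) ≤ Δ →
        (∀ k ≤ m, ∃ q, a ≤ q ∧ q ≤ b ∧ d (β k) (y q) ≤ R) ∧
        (∀ q, a ≤ q → q ≤ b → ∃ k ≤ m, d (y q) (β k) ≤ R) := by
  classical
  set R0 : ℝ := max (M 1 (2 * Δ + 2)) 0 with hR0
  have hR0' : 0 ≤ R0 := le_max_right _ _
  have hlam0 : 0 < lam := by linarith
  set J : ℝ := lam * (2 * R0 + 1 + Δ + eps) with hJ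
  have hJ0 : 0 ≤ J := by positivity
  refine ⟨lam * J + eps + R0 + Δ, by positivity, ?_⟩
  intro y a b hab hy hM β m hβ h0 hm
  set z : ℕ → X := fun p => if p = 0 then y a else if p ≤ m + 1 then β (p - 1) else y b with hz
  have z0 : z 0 = y a := by simp [hz]
  have zk : ∀ k ≤ m, z (k + 1) = β k := by
    intro k hk
    simp only [hz]
    rw [if_neg (Nat.succ_ne_zero k), if_pos (by omega)]
    simp
  have zl : z (m + 2) = y b := by
    simp only [hz]
    rw [if_neg (by omega), if_neg (by omega)]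
  have hββ : ∀ i j, i ≤ j → j ≤ m → d (β i) (β j) = (j : ℝ) - i := by
    intro i j hij hj
    have := hβ i j (Nat.zero_le _) hij hj
    have h1 := this.1
    have h2 := this.2
    rw [div_one, sub_zero] at h1
    rw [one_mul, add_zero] at h2
    exact le_antisymm h2 h1
  have cases3 : ∀ p ≤ m + 2, p = 0 ∨ (∃ k ≤ m, p = k + 1) ∨ p = m + 2 := by
    intro p hp
    rcases Nat.eq_zero_or_pos p with h | h
    · left; exact h
    · by_cases h2 : p = m + 2
      · right; right; exact h2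
      · right; left; exact ⟨p - 1, by omega, by omega⟩
  -- the sequence `z` is almost geodesic
  have hzq : ∀ i j, i ≤ j → j ≤ m + 2 →
      ((j : ℝ) - i) - (2 * Δ + 2) ≤ d (z i) (z j) ∧ d (z i) (z j) ≤ ((j : ℝ) - i) + (2 * Δ + 2) := by
    intro i j hij hj
    have tri := hd.tri
    have sy := hd.symm
    rcases cases3 i (by omega) with rfl | ⟨k, hk, rfl⟩ | rfl
    · rcases cases3 j hj with rfl | ⟨l, hl, rfl⟩ | rfl
      · rw [hd.self]; constructor <;> norm_num <;> linarith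
      · rw [z0, zk l hl]
        have h1 := hββ 0 l (Nat.zero_le _) hl
        have h2 := tri (y a) (β 0) (β l)
        have h3 := tri (β 0) (y a) (β l)
        have h4 := sy (β 0) (y a)
        push_cast at h1 ⊢
        constructor <;> linarith
      · rw [z0, zl]
        have h1 := hββ 0 m (Nat.zero_le _) le_rfl
        have h2 := tri (y a) (β 0) (y b)
        have h3 := tri (β 0) (β m) (y b)
        have h4 := sy (β 0) (y a)
        have h5 := tri (β 0) (y a) (β m)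
        have h6 := tri (y a) (y b) (β m)
        have h7 := sy (β m) (y b)
        push_cast at h1 ⊢
        constructor <;> linarith
    · rcases cases3 j hj with rfl | ⟨l, hl, rfl⟩ | rfl
      · omega
      · rw [zk k hk, zk l hl]
        have h1 := hββ k l (by omega) hl
        push_cast at h1 ⊢
        constructor <;> linarith
      · rw [zk k hk, zl]
        have h1 := hββ k m hk le_rfl
        have h2 := tri (β k) (β m) (y b)
        have h3 := tri (β k) (y b) (β m)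
        have h4 := sy (β m) (y b)
        push_cast at h1 ⊢
        constructor <;> linarith
    · have : j = m + 2 := by omega
      subst this
      rw [hd.self]
      constructor <;> norm_num <;> linarith
  have hzDQG : DQG d 1 (2 * Δ + 2) z 0 (m + 2) := by
    intro i j _ hij hj
    have := hzq i j hij hj
    rw [div_one, one_mul]
    exact this
  have hnear := hM 1 (2 * Δ + 2) le_rfl (by linarith) z (m + 2) hzDQG
    ⟨a, le_rfl, hab, z0⟩ ⟨b, hab, le_rfl, zl⟩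
  have first : ∀ k ≤ m, ∃ q, a ≤ q ∧ q ≤ b ∧ d (β k) (y q) ≤ R0 := by
    intro k hk
    obtain ⟨q, h1, h2, h3⟩ := hnear (k + 1) (by omega)
    rw [zk k hk] at h3
    exact ⟨q, h1, h2, h3.trans (le_max_left _ _)⟩
  have hRR : R0 ≤ lam * J + eps + R0 + Δ := by
    have : 0 ≤ lam * J := by positivity
    linarith
  refine ⟨fun k hk => ?_, ?_⟩
  · obtain ⟨q, h1, h2, h3⟩ := first k hk
    exact ⟨q, h1, h2, h3.trans hRR⟩
  · intro q haq hqb
    choose! q' hq1 hq2 hq3 using first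
    set Q : ℕ → ℕ := fun p => if p = 0 then a else if p ≤ m + 1 then q' (p - 1) else b with hQ
    have Q0 : Q 0 = a := by simp [hQ]
    have Qk : ∀ k ≤ m, Q (k + 1) = q' k := by
      intro k hk
      simp only [hQ]
      rw [if_neg (Nat.succ_ne_zero k), if_pos (by omega)]
      simp
    have Ql : Q (m + 2) = b := by
      simp only [hQ]
      rw [if_neg (by omega), if_neg (by omega)]
    have Qab : ∀ p ≤ m + 2, a ≤ Q p ∧ Q p ≤ b ∧ d (z p) (y (Q p)) ≤ R0 := by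
      intro p hp
      rcases cases3 p hp with rfl | ⟨k, hk, rfl⟩ | rfl
      · rw [Q0, z0, hd.self]; exact ⟨le_rfl, hab, hR0'⟩
      · rw [Qk k hk, zk k hk]; exact ⟨hq1 k hk, hq2 k hk, hq3 k hk⟩
      · rw [Ql, zl, hd.self]; exact ⟨hab, le_rfl, hR0'⟩
    rcases Nat.lt_or_ge a q with haq' | haq'
    · obtain ⟨p, hp1, hp2, hp3⟩ := exists_cross Q (m + 2) q (by rw [Q0]; exact haq')
        (by rw [Ql]; exact hqb)
      have hA := Qab p (by omega)
      have hB := Qab (p + 1) (by omega)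
      -- step of z
      have hstep : d (z p) (z (p + 1)) ≤ 1 + Δ := by
        rcases cases3 p (by omega) with rfl | ⟨k, hk, rfl⟩ | rfl
        · rw [z0, zk 0 (Nat.zero_le _), hd.symm]; linarith
        · by_cases hkm : k + 1 ≤ m
          · rw [zk k hk, zk (k + 1) hkm, hββ k (k + 1) (by omega) hkm]
            push_cast; linarith
          · have : k = m := by omega
            subst this
            rw [zk k le_rfl, zl]; linarith
        · omega
      have hdQ : d (y (Q p)) (y (Q (p + 1))) ≤ 2 * R0 + 1 + Δ := by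
        have h1 := hd.tri (y (Q p)) (z p) (y (Q (p + 1)))
        have h2 := hd.tri (z p) (z (p + 1)) (y (Q (p + 1)))
        have h3 := hd.symm (z p) (y (Q p))
        linarith [hA.2.2, hB.2.2]
      have hle : Q p ≤ Q (p + 1) := by omega
      have hlow := (hy (Q p) (Q (p + 1)) hA.1 hle hB.2.1).1
      have hgap : ((Q (p + 1) : ℝ) - Q p) ≤ J := by
        have h1 : ((Q (p + 1) : ℝ) - Q p) / lam ≤ 2 * R0 + 1 + Δ + eps := by linarith
        rw [div_le_iff₀ hlam0] at h1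
        rw [hJ]; linarith
      have c1 : (Q p : ℝ) < q := by exact_mod_cast hp2
      have c2 : (q : ℝ) ≤ Q (p + 1) := by exact_mod_cast hp3
      by_cases hpm : p + 1 ≤ m + 1
      · -- use index p + 1
        refine ⟨p, by omega, ?_⟩
        have h1 := (hy q (Q (p + 1)) haq hp3 hB.2.1).2
        have h2 : d (y (Q (p + 1))) (β p) ≤ R0 := by
          have := hB.2.2
          rw [zk p (by omega), hd.symm] at this
          exact this
        have h3 := hd.tri (y q) (y (Q (p + 1))) (β p)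
        have h4 : lam * ((Q (p + 1) : ℝ) - q) ≤ lam * J := by
          apply mul_le_mul_of_nonneg_left _ hlam0.le
          linarith
        linarith
      · have hpe : p = m + 1 := by omega
        subst hpe
        refine ⟨m, le_rfl, ?_⟩
        have h1 := (hy (Q (m + 1)) q hA.1 hp2.le hqb).2
        have h2 : d (y (Q (m + 1))) (β m) ≤ R0 := by
          have := hA.2.2
          rw [zk m le_rfl, hd.symm] at this
          exact this
        have h3 := hd.tri (y q) (y (Q (m + 1))) (β m)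
        have h4 : lam * ((q : ℝ) - Q (m + 1)) ≤ lam * J := by
          apply mul_le_mul_of_nonneg_left _ hlam0.le
          linarith
        have h5 := hd.symm (y (Q (m + 1))) (y q)
        linarith
    · have : q = a := by omega
      subst this
      refine ⟨0, Nat.zero_le _, ?_⟩
      rw [hd.symm]
      have : 0 ≤ lam * J := by positivity
      linarith

end Fellow

namespace GraphProduct

variable {V : Type*} {Γ : SimpleGraph V} {G : V → Type*} [∀ v, Group (G v)]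

theorem ret_of_Sub_disj {Λ₁ Λ₂ : Set V} (h : ∀ v ∈ Λ₁, ∀ w ∈ Λ₂, Γ.Adj v w)
    {w : GraphProduct Γ G} (hw : w ∈ Sub Γ G Λ₂) : ret Λ₁ w = 1 := by
  refine Sub_induction (P := fun x => ret Λ₁ x = 1) hw (by simp) ?_
  intro x _ v hv g ih
  have hv1 : v ∉ Λ₁ := fun hv' => (h v hv' v hv).ne rfl
  rw [map_mul, ih, ret_of_notMem hv1, one_mul]

theorem ret_of_Sub_disj' {Λ₁ Λ₂ : Set V} (h : ∀ v ∈ Λ₁, ∀ w ∈ Λ₂, Γ.Adj v w)
    {v : GraphProduct Γ G} (hv : v ∈ Sub Γ G Λ₁) : ret Λ₂ v = 1 :=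
  ret_of_Sub_disj (fun w hw v hv => (h v hv w hw).symm) hv

variable (ℓ : ∀ v, WLen (G v))

theorem len_mul_ge_left {Λ₁ Λ₂ : Set V} (h : ∀ v ∈ Λ₁, ∀ w ∈ Λ₂, Γ.Adj v w)
    {v w : GraphProduct Γ G} (hv : v ∈ Sub Γ G Λ₁) (hw : w ∈ Sub Γ G Λ₂) :
    D ℓ 1 v ≤ D ℓ 1 (v * w) := by
  have := D_ret ℓ Λ₁ 1 (v * w)
  rwa [map_one, map_mul, ret_of_Sub hv, ret_of_Sub_disj h hw, mul_one] at this

theorem len_mul_ge_right {Λ₁ Λ₂ : Set V} (h : ∀ v ∈ Λ₁, ∀ w ∈ Λ₂, Γ.Adj v w)
    {v w : GraphProduct Γ G} (hv : v ∈ Sub Γ G Λ₁) (hw : w ∈ Sub Γ G Λ₂) :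
    D ℓ 1 w ≤ D ℓ 1 (v * w) := by
  have := D_ret ℓ Λ₂ 1 (v * w)
  rwa [map_one, map_mul, ret_of_Sub hw, ret_of_Sub_disj' h hv, one_mul] at this

/-- geodesic sequences inside a subgroup generated by vertex groups -/
theorem exists_geodSeq_Sub {Λ : Set V} {e f : GraphProduct Γ G} (he : e ∈ Sub Γ G Λ)
    (hf : f ∈ Sub Γ G Λ) : ∃ β : ℕ → GraphProduct Γ G,
    β 0 = e ∧ β (D ℓ e f) = f ∧ (∀ i j, i ≤ j → j ≤ D ℓ e f → D ℓ (β i) (β j) = j - i) ∧
    ∀ i, β i ∈ Sub Γ G Λ := by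
  obtain ⟨β, h1, h2, h3, _⟩ := exists_geodSeq ℓ e f
  refine ⟨fun i => ret Λ (β i), by simp [h1, ret_of_Sub he], by simp [h2, ret_of_Sub hf], ?_,
    fun i => ret_mem Λ _⟩
  intro i j hij hj
  have a1 := D_ret ℓ Λ (β i) (β j)
  have a2 := D_ret ℓ Λ (β 0) (β i)
  have a3 := D_ret ℓ Λ (β j) (β (D ℓ e f))
  have b1 := h3 i j hij hj
  have b2 := h3 0 i (Nat.zero_le _) (hij.trans hj)
  have b3 := h3 j _ hj le_rfl
  have c1 := D_tri ℓ (ret Λ (β 0)) (ret Λ (β i)) (ret Λ (β (D ℓ e f)))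
  have c2 := D_tri ℓ (ret Λ (β i)) (ret Λ (β j)) (ret Λ (β (D ℓ e f)))
  have c3 : D ℓ (ret Λ (β 0)) (ret Λ (β (D ℓ e f))) = D ℓ e f := by
    rw [h1, h2, ret_of_Sub he, ret_of_Sub hf]
  simp only at *
  omega

/-- the detour path -/
theorem exists_detour [Finite V] {Λ₁ Λ₂ : Set V} (h : ∀ v ∈ Λ₁, ∀ w ∈ Λ₂, Γ.Adj v w)
    (hinf : (Sub Γ G Λ₂ : Set (GraphProduct Γ G)).Infinite) (x : GraphProduct Γ G)
    {u₁ u₂ : GraphProduct Γ G} (h1 : u₁ ∈ Sub Γ G Λ₁) (h2 : u₂ ∈ Sub Γ G Λ₂)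
    (h12 : D ℓ 1 u₂ ≤ D ℓ 1 u₁) :
    ∃ (z : ℕ → GraphProduct Γ G) (T P : ℕ), P ≤ T ∧ z 0 = x ∧ z T = x * u₁ * u₂ ∧
      (∀ i j, i ≤ j → j ≤ T → j - i ≤ 8 * D ℓ (z i) (z j) ∧ D ℓ (z i) (z j) ≤ j - i) ∧
      ∀ p, D ℓ x p ≤ 2 * D ℓ 1 u₁ → D ℓ 1 u₁ ≤ D ℓ (z P) p := by
  classical
  set n1 := D ℓ 1 u₁ with hn1
  -- a long element of `Sub Λ₂`
  obtain ⟨g, hg, hgl⟩ : ∃ g ∈ Sub Γ G Λ₂, 3 * n1 < D ℓ 1 g := by
    by_contra hcon
    push Not at hcon
    exact hinf (((gpLen (Γ := Γ) ℓ).fin (3 * n1)).subset (fun g hg => hcon g hg))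
  obtain ⟨hh, a1, a2, a3, a4⟩ := exists_geodSeq_Sub ℓ (one_mem (Sub Γ G Λ₂)) hg
  set hx := hh (3 * n1) with hhx
  have hhx_mem : hx ∈ Sub Γ G Λ₂ := a4 _
  have hxlen : D ℓ 1 hx = 3 * n1 := by
    have := a3 0 (3 * n1) (Nat.zero_le _) (by omega)
    rw [a1] at this
    simpa using this
  obtain ⟨c, b1, b2, b3, b4⟩ := exists_geodSeq_Sub ℓ (one_mem (Sub Γ G Λ₁)) h1
  rw [← hn1] at b2 b3
  obtain ⟨e, c1, c2, c3, c4⟩ := exists_geodSeq_Sub ℓ hhx_mem h2
  set n3 := D ℓ hx u₂ with hn3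
  have hn3le : n3 ≤ 4 * n1 := by
    have := D_tri ℓ hx 1 u₂
    rw [D_comm ℓ hx 1, hxlen] at this
    omega
  set z : ℕ → GraphProduct Γ G := fun i =>
    if i ≤ 3 * n1 then x * hh i else if i ≤ 4 * n1 then x * hx * c (i - 3 * n1)
      else x * u₁ * e (i - 4 * n1) with hz
  -- values of z
  have comm : ∀ {v w : GraphProduct Γ G}, v ∈ Sub Γ G Λ₁ → w ∈ Sub Γ G Λ₂ → v * w = w * v :=
    fun hv hw => Sub_comm h hv hw
  have zA : ∀ i, i ≤ 3 * n1 → z i = x * hh i := by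
    intro i hi; simp only [hz]; rw [if_pos hi]
  have zB : ∀ i, i ≤ n1 → z (3 * n1 + i) = x * hx * c i := by
    intro i hi
    rcases Nat.eq_zero_or_pos i with rfl | hi0
    · rw [add_zero, zA _ le_rfl, b1, mul_one]
    · simp only [hz]
      rw [if_neg (by omega), if_pos (by omega)]
      congr 2
      omega
  have zC : ∀ i, z (4 * n1 + i) = x * u₁ * e i := by
    intro i
    rcases Nat.eq_zero_or_pos i with rfl | hi0
    · have := zB n1 le_rfl
      rw [show 4 * n1 + 0 = 3 * n1 + n1 by omega, this, b2, c1, mul_assoc, mul_assoc,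
        comm h1 hhx_mem]
    · simp only [hz]
      rw [if_neg (by omega), if_neg (by omega)]
      congr 2
      omega
  have lenAB : ∀ k ≤ 3 * n1, ∀ l ≤ n1,
      3 * n1 - k + l ≤ 2 * D ℓ (x * hh k) (x * hx * c l) ∧
      D ℓ (x * hh k) (x * hx * c l) ≤ 3 * n1 - k + l := by
    intro k hk l hl
    have e1 : D ℓ (x * hh k) (x * hx * c l) = D ℓ 1 (c l * ((hh k)⁻¹ * hx)) := by
      rw [D_eq_len, comm (b4 l) (mul_mem (inv_mem (a4 k)) hhx_mem)]
      congr 1; group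
    have e2 : D ℓ 1 (c l) = l := by
      have := b3 0 l (Nat.zero_le _) hl
      rw [b1] at this; simpa using this
    have e3 : D ℓ 1 ((hh k)⁻¹ * hx) = 3 * n1 - k := by
      rw [← D_eq_len]
      exact a3 k (3 * n1) hk (by omega)
    have e4 := len_mul_ge_left ℓ h (b4 l) (mul_mem (inv_mem (a4 k)) hhx_mem)
    have e5 := len_mul_ge_right ℓ h (b4 l) (mul_mem (inv_mem (a4 k)) hhx_mem)
    have e6 := D_tri ℓ (x * hh k) (x * hx) (x * hx * c l)
    have e7 : D ℓ (x * hh k) (x * hx) = 3 * n1 - k := by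
      rw [D_left]; exact a3 k (3 * n1) hk (by omega)
    have e8 : D ℓ (x * hx) (x * hx * c l) = l := by
      rw [D_eq_len, ← mul_assoc, inv_mul_cancel, one_mul]; exact e2
    constructor
    · rw [e1]; omega
    · omega
  have lenBC : ∀ k ≤ n1, ∀ l ≤ n3,
      n1 - k + l ≤ 2 * D ℓ (x * hx * c k) (x * u₁ * e l) ∧
      D ℓ (x * hx * c k) (x * u₁ * e l) ≤ n1 - k + l := by
    intro k hk l hl
    have m1 : (c k)⁻¹ * u₁ ∈ Sub Γ G Λ₁ := mul_mem (inv_mem (b4 k)) h1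
    have m2 : hx⁻¹ * e l ∈ Sub Γ G Λ₂ := mul_mem (inv_mem hhx_mem) (c4 l)
    have e1 : D ℓ (x * hx * c k) (x * u₁ * e l) = D ℓ 1 (((c k)⁻¹ * u₁) * (hx⁻¹ * e l)) := by
      rw [D_eq_len]
      have : u₁ * hx⁻¹ = hx⁻¹ * u₁ := comm h1 (inv_mem hhx_mem)
      congr 1
      calc (x * hx * c k)⁻¹ * (x * u₁ * e l) = (c k)⁻¹ * (hx⁻¹ * u₁) * e l := by group
        _ = (c k)⁻¹ * (u₁ * hx⁻¹) * e l := by rw [this]
        _ = ((c k)⁻¹ * u₁) * (hx⁻¹ * e l) := by group
    have e2 : D ℓ 1 ((c k)⁻¹ * u₁) = n1 - k := by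
      rw [← D_eq_len]
      have := b3 k n1 hk le_rfl
      rwa [b2] at this
    have e3 : D ℓ 1 (hx⁻¹ * e l) = l := by
      rw [← D_eq_len]
      have := c3 0 l (Nat.zero_le _) hl
      rw [c1] at this; simpa using this
    have e4 := len_mul_ge_left ℓ h m1 m2
    have e5 := len_mul_ge_right ℓ h m1 m2
    have e6 := (gpLen (Γ := Γ) ℓ).mul_le ((c k)⁻¹ * u₁) (hx⁻¹ * e l)
    change D ℓ 1 _ ≤ D ℓ 1 _ + D ℓ 1 _ at e6
    constructor
    · rw [e1]; omega
    · rw [e1]; omega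
  have lenAC : ∀ k ≤ 3 * n1, ∀ l ≤ n3,
      n1 ≤ D ℓ (x * hh k) (x * u₁ * e l) ∧
      D ℓ (x * hh k) (x * u₁ * e l) ≤ 3 * n1 - k + n1 + l := by
    intro k hk l hl
    have m2 : (hh k)⁻¹ * e l ∈ Sub Γ G Λ₂ := mul_mem (inv_mem (a4 k)) (c4 l)
    have e1 : D ℓ (x * hh k) (x * u₁ * e l) = D ℓ 1 (u₁ * ((hh k)⁻¹ * e l)) := by
      rw [D_eq_len]
      have : u₁ * (hh k)⁻¹ = (hh k)⁻¹ * u₁ := comm h1 (inv_mem (a4 k))
      congr 1
      calc (x * hh k)⁻¹ * (x * u₁ * e l) = ((hh k)⁻¹ * u₁) * e l := by group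
        _ = (u₁ * (hh k)⁻¹) * e l := by rw [this]
        _ = u₁ * ((hh k)⁻¹ * e l) := by group
    have e4 := len_mul_ge_left ℓ h h1 m2
    have e5 := D_tri ℓ (x * hh k) (x * hx * c 0) (x * u₁ * e l)
    have e6 := (lenAB k hk 0 (Nat.zero_le _)).2
    have e7 := (lenBC 0 (Nat.zero_le _) l hl).2
    constructor
    · rw [e1]; exact e4
    · omega
  have lenAA : ∀ k l, k ≤ l → l ≤ 3 * n1 → D ℓ (x * hh k) (x * hh l) = l - k := by
    intro k l hkl hl
    rw [D_left]; exact a3 k l hkl (by omega)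
  have lenBB : ∀ k l, k ≤ l → l ≤ n1 → D ℓ (x * hx * c k) (x * hx * c l) = l - k := by
    intro k l hkl hl
    rw [D_left]; exact b3 k l hkl hl
  have lenCC : ∀ k l, k ≤ l → l ≤ n3 → D ℓ (x * u₁ * e k) (x * u₁ * e l) = l - k := by
    intro k l hkl hl
    rw [D_left]; exact c3 k l hkl hl
  refine ⟨z, 4 * n1 + n3, 3 * n1 + n1, by omega, by rw [zA 0 (Nat.zero_le _), a1, mul_one],
    by rw [zC, c2], ?_, ?_⟩
  · intro i j hij hj
    have casesi : ∀ i, i ≤ 4 * n1 + n3 → i ≤ 3 * n1 ∨ (∃ k ≤ n1, i = 3 * n1 + k) ∨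
        ∃ k ≤ n3, i = 4 * n1 + k := by
      intro i hi
      by_cases hi1 : i ≤ 3 * n1
      · left; exact hi1
      · by_cases hi2 : i ≤ 4 * n1
        · right; left; exact ⟨i - 3 * n1, by omega, by omega⟩
        · right; right; exact ⟨i - 4 * n1, by omega, by omega⟩
    rcases casesi i (by omega) with hi | ⟨k, hk, rfl⟩ | ⟨k, hk, rfl⟩
    · rcases casesi j hj with hj' | ⟨l, hl, rfl⟩ | ⟨l, hl, rfl⟩
      · rw [zA i hi, zA j hj', lenAA i j hij hj']; omega
      · rw [zA i hi, zB l hl]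
        have := lenAB i hi l hl
        omega
      · rw [zA i hi, zC l]
        have := lenAC i hi l hl
        omega
    · rcases casesi j hj with hj' | ⟨l, hl, rfl⟩ | ⟨l, hl, rfl⟩
      · have hk0 : k = 0 := by omega
        have hj0 : j = 3 * n1 := by omega
        subst hk0 hj0
        rw [add_zero, D_self]; omega
      · rw [zB k hk, zB l hl, lenBB k l (by omega) hl]; omega
      · rw [zB k hk, zC l]
        have := lenBC k hk l hl
        omega
    · rcases casesi j hj with hj' | ⟨l, hl, rfl⟩ | ⟨l, hl, rfl⟩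
      · have hn0 : n1 = 0 := by omega
        have hk0 : k = 0 := by omega
        have hj0 : j = 0 := by omega
        subst hk0 hj0
        rw [hn0]; simp [D_self]
      · have hk0 : k = 0 := by omega
        have hl0 : l = n1 := by omega
        subst hk0
        rw [show 4 * n1 + 0 = 3 * n1 + l by omega, D_self]; omega
      · rw [zC k, zC l, lenCC k l (by omega) hl]; omega
  · intro p hp
    rw [zB n1 le_rfl, b2]
    have e1 : D ℓ (x * hx * u₁) p = D ℓ (hx * u₁) (x⁻¹ * p) := by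
      have := D_left ℓ x (hx * u₁) (x⁻¹ * p)
      rw [mul_inv_cancel_left] at this
      rw [← this, mul_assoc]
    have e2 := D_ret ℓ Λ₂ (hx * u₁) (x⁻¹ * p)
    rw [map_mul, ret_of_Sub hhx_mem, ret_of_Sub_disj' h h1, mul_one] at e2
    have e3 := D_ret ℓ Λ₂ 1 (x⁻¹ * p)
    rw [map_one] at e3
    have e4 := D_eq_len ℓ x p
    have e5 := D_tri ℓ 1 (ret Λ₂ (x⁻¹ * p)) hx
    have e6 := D_comm ℓ hx (ret Λ₂ (x⁻¹ * p))
    omega

theorem detour [Finite V] (M : ℝ → ℝ → ℝ) (lam eps Δ : ℝ)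
    (hlam : 1 ≤ lam) (heps : 0 ≤ eps) (hΔ : 0 ≤ Δ) :
    ∃ n : ℕ, ∀ (y : ℕ → GraphProduct Γ G) (a b : ℕ), a ≤ b → DQG (Dr ℓ) lam eps y a b →
      DMorse (Dr ℓ) M y a b → ∀ x x', Dr ℓ x (y a) ≤ Δ → Dr ℓ x' (y b) ≤ Δ →
      ∀ Λ₁ Λ₂ : Set V, (∀ v ∈ Λ₁, ∀ w ∈ Λ₂, Γ.Adj v w) →
      (Sub Γ G Λ₂ : Set (GraphProduct Γ G)).Infinite →
      ∀ u₁ ∈ Sub Γ G Λ₁, ∀ u₂ ∈ Sub Γ G Λ₂, x' = x * u₁ * u₂ → D ℓ 1 u₂ ≤ D ℓ 1 u₁ →
      D ℓ 1 u₁ ≤ n := by
  classical
  obtain ⟨R, hR0, hR⟩ := fellow (isDist_Dr (Γ := Γ) ℓ) M lam eps Δ hlam heps hΔ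
  refine ⟨⌈M 8 (2 * Δ + 2) + R⌉₊, ?_⟩
  intro y a b hab hy hM x x' hx hx' Λ₁ Λ₂ hΛ hinf u₁ hu₁ u₂ hu₂ hxx' hle
  obtain ⟨z, T, P, hPT, z0, zT, hz, hfar⟩ := exists_detour ℓ hΛ hinf x hu₁ hu₂ hle
  have hd := isDist_Dr (Γ := Γ) ℓ
  -- add the end points
  set z' : ℕ → GraphProduct Γ G :=
    fun p => if p = 0 then y a else if p ≤ T + 1 then z (p - 1) else y b with hz'
  have z0' : z' 0 = y a := by simp [hz']
  have zk' : ∀ k ≤ T, z' (k + 1) = z k := by
    intro k hk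
    simp only [hz']
    rw [if_neg (Nat.succ_ne_zero k), if_pos (by omega)]
    simp
  have zl' : z' (T + 2) = y b := by
    simp only [hz']
    rw [if_neg (by omega), if_neg (by omega)]
  have cases3 : ∀ p ≤ T + 2, p = 0 ∨ (∃ k ≤ T, p = k + 1) ∨ p = T + 2 := by
    intro p hp
    rcases Nat.eq_zero_or_pos p with h | h
    · left; exact h
    · by_cases h2 : p = T + 2
      · right; right; exact h2
      · right; left; exact ⟨p - 1, by omega, by omega⟩
  have hzr : ∀ i j, i ≤ j → j ≤ T → ((j : ℝ) - i) / 8 ≤ Dr ℓ (z i) (z j) ∧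
      Dr ℓ (z i) (z j) ≤ (j : ℝ) - i := by
    intro i j hij hj
    obtain ⟨e1, e2⟩ := hz i j hij hj
    have e1' : ((j - i : ℕ) : ℝ) ≤ ((8 * D ℓ (z i) (z j) : ℕ) : ℝ) := by exact_mod_cast e1
    have e2' : ((D ℓ (z i) (z j) : ℕ) : ℝ) ≤ ((j - i : ℕ) : ℝ) := by exact_mod_cast e2
    rw [Nat.cast_sub hij] at e1' e2'
    push_cast at e1'
    unfold Dr
    constructor <;> linarith
  have hx0 : Dr ℓ (z 0) (y a) ≤ Δ := by rw [z0]; exact hx
  have hxT : Dr ℓ (z T) (y b) ≤ Δ := by rw [zT, ← hxx']; exact hx'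
  have hDQG : DQG (Dr ℓ) 8 (2 * Δ + 2) z' 0 (T + 2) := by
    intro i j _ hij hj
    have tri := hd.tri
    have sy := hd.symm
    have hTn : (0 : ℝ) ≤ T := Nat.cast_nonneg T
    rcases cases3 i (by omega) with rfl | ⟨k, hk, rfl⟩ | rfl
    · rcases cases3 j hj with rfl | ⟨l, hl, rfl⟩ | rfl
      · rw [hd.self]
        constructor
        · norm_num; linarith
        · norm_num; linarith
      · rw [z0', zk' l hl]
        have h1 := hzr 0 l (Nat.zero_le _) hl
        have h2 := tri (y a) (z 0) (z l)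
        have h3 := tri (z 0) (y a) (z l)
        have h4 := sy (z 0) (y a)
        have hl0 : (0 : ℝ) ≤ l := Nat.cast_nonneg l
        push_cast at h1 ⊢
        constructor
        · linarith [h1.1]
        · linarith [h1.2]
      · rw [z0', zl']
        have h1 := hzr 0 T (Nat.zero_le _) le_rfl
        have h2 := tri (y a) (z 0) (y b)
        have h3 := tri (z 0) (z T) (y b)
        have h4 := sy (z 0) (y a)
        have h5 := tri (z 0) (y a) (z T)
        have h6 := tri (y a) (y b) (z T)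
        have h7 := sy (z T) (y b)
        push_cast at h1 ⊢
        constructor
        · linarith [h1.1]
        · linarith [h1.2]
    · rcases cases3 j hj with rfl | ⟨l, hl, rfl⟩ | rfl
      · omega
      · rw [zk' k hk, zk' l hl]
        have hkl : k ≤ l := by omega
        have h1 := hzr k l hkl hl
        have hkl' : (k : ℝ) ≤ l := by exact_mod_cast hkl
        push_cast at h1 ⊢
        constructor
        · linarith [h1.1]
        · linarith [h1.2]
      · rw [zk' k hk, zl']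
        have h1 := hzr k T hk le_rfl
        have h2 := tri (z k) (z T) (y b)
        have h3 := tri (z k) (y b) (z T)
        have h4 := sy (z T) (y b)
        have hk' : (k : ℝ) ≤ T := by exact_mod_cast hk
        push_cast at h1 ⊢
        constructor
        · linarith [h1.1]
        · linarith [h1.2]
    · have : j = T + 2 := by omega
      subst this
      rw [hd.self]
      constructor
      · norm_num; linarith
      · norm_num; linarith
  obtain ⟨q, hq1, hq2, hq3⟩ := hM 8 (2 * Δ + 2) (by norm_num) (by linarith) z' (T + 2) hDQG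
    ⟨a, le_rfl, hab, z0'⟩ ⟨b, hab, le_rfl, zl'⟩ (P + 1) (by omega)
  rw [zk' P hPT] at hq3
  -- the geodesic
  obtain ⟨β, g1, g2, g3, _⟩ := exists_geodSeq ℓ x x'
  have hβ : DQG (Dr ℓ) 1 0 β 0 (D ℓ x x') := by
    intro i j _ hij hj
    have e := g3 i j hij hj
    have e' : Dr ℓ (β i) (β j) = (j : ℝ) - i := by
      unfold Dr; rw [e, Nat.cast_sub hij]
    rw [e', div_one, one_mul, sub_zero, add_zero]
    exact ⟨le_rfl, le_rfl⟩
  obtain ⟨_, hsec⟩ := hR y a b hab hy hM β (D ℓ x x') hβ (by rw [g1]; exact hx)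
    (by rw [g2]; exact hx')
  obtain ⟨k, hk, hk2⟩ := hsec q hq1 hq2
  have hfark : D ℓ 1 u₁ ≤ D ℓ (z P) (β k) := by
    apply hfar
    have e1 := g3 0 k (Nat.zero_le _) hk
    rw [g1] at e1
    have e2 : D ℓ x x' ≤ D ℓ 1 u₁ + D ℓ 1 u₂ := by
      have t1 := D_tri ℓ x (x * u₁) (x * u₁ * u₂)
      have t2 : D ℓ x (x * u₁) = D ℓ 1 u₁ := by rw [D_eq_len, inv_mul_cancel_left]
      have t3 : D ℓ (x * u₁) (x * u₁ * u₂) = D ℓ 1 u₂ := by rw [D_eq_len, inv_mul_cancel_left]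
      rw [hxx']; omega
    omega
  have hfin : (D ℓ 1 u₁ : ℝ) ≤ M 8 (2 * Δ + 2) + R := by
    have t1 := hd.tri (z P) (y q) (β k)
    have t2 : (D ℓ 1 u₁ : ℝ) ≤ Dr ℓ (z P) (β k) := by unfold Dr; exact_mod_cast hfark
    linarith
  exact_mod_cast hfin.trans (Nat.le_ceil _)

end GraphProduct

end Pool.Agent.MLG
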