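import Pool.Agent.MLG.Defs

/-!
# Real and discrete Morse local-to-global properties are equivalent; bi-Lipschitz invariance
-/

open scoped NNReal

namespace Pool.Agent.MLG

variable {X : Type*}

/-- It is enough to check the quasi-geodesic inequalities for `s ≤ t`. -/
theorem isQuasiGeod_of_le {d : X → X → ℝ} (hd : IsDist d) {lam eps a b : ℝ} {γ : ℝ → X}
    (h : ∀ s t : ℝ, a ≤ s → s ≤ t → t ≤ b →
      (t - s) / lam - eps ≤ d (γ s) (γ t) ∧ d (γ s) (γ t) ≤ lam * (t - s) + eps) :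
    IsQuasiGeod d lam eps a b γ := by
  intro s hs t ht
  rcases le_total s t with hst | hst
  · have h1 := h s t hs.1 hst ht.2
    have h2 : |s - t| = t - s := by rw [abs_sub_comm, abs_of_nonneg (by linarith)]
    rw [h2]; exact h1
  · have h1 := h t s ht.1 hst hs.2
    have h2 : |s - t| = s - t := by rw [abs_of_nonneg (by linarith)]
    rw [h2, hd.symm (γ s) (γ t)]; exact h1

theorem IsQuasiGeod.of_le {d : X → X → ℝ} {lam eps a b : ℝ} {γ : ℝ → X}
    (h : IsQuasiGeod d lam eps a b γ) {s t : ℝ} (hs : a ≤ s) (hst : s ≤ t) (ht : t ≤ b) :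
    (t - s) / lam - eps ≤ d (γ s) (γ t) ∧ d (γ s) (γ t) ≤ lam * (t - s) + eps := by
  have h1 := h s ⟨hs, hst.trans ht⟩ t ⟨hs.trans hst, ht⟩
  have h2 : |s - t| = t - s := by rw [abs_sub_comm, abs_of_nonneg (by linarith)]
  rwa [h2] at h1

theorem floor_diff {s t : ℝ} (hs : 0 ≤ s) (ht : 0 ≤ t) :
    ((⌊t⌋₊ : ℕ) : ℝ) - (⌊s⌋₊ : ℕ) ≤ t - s + 1 ∧ t - s - 1 ≤ ((⌊t⌋₊ : ℕ) : ℝ) - (⌊s⌋₊ : ℕ) := by
  have h1 := Nat.floor_le hs
  have h2 := Nat.floor_le ht
  have h3 := Nat.lt_floor_add_one s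
  have h4 := Nat.lt_floor_add_one t
  constructor <;> linarith

theorem one_div_le_self {l : ℝ} (hl : 1 ≤ l) : 1 / l ≤ 1 := by
  rw [div_le_iff₀ (by linarith)]; linarith

/-- The step path of a discrete quasi-geodesic. -/
theorem isQuasiGeod_floor {d : X → X → ℝ} (hd : IsDist d) {l e s0 t0 : ℝ} (hl : 1 ≤ l)
    (hs0 : 0 ≤ s0) {z : ℕ → X} (h : DQG d l e z ⌊s0⌋₊ ⌊t0⌋₊) :
    IsQuasiGeod d l (e + l) s0 t0 (fun t => z ⌊t⌋₊) := by
  apply isQuasiGeod_of_le hd
  intro s t hs hst ht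
  have hl0 : 0 < l := by linarith
  have h1 := h ⌊s⌋₊ ⌊t⌋₊ (Nat.floor_le_floor hs) (Nat.floor_le_floor hst) (Nat.floor_le_floor ht)
  obtain ⟨h2, h3⟩ := floor_diff (hs0.trans hs) ((hs0.trans hs).trans hst)
  constructor
  · have h4 : (t - s - 1) / l ≤ (((⌊t⌋₊ : ℕ) : ℝ) - (⌊s⌋₊ : ℕ)) / l := by gcongr
    have h5 : (t - s - 1) / l = (t - s) / l - 1 / l := by ring
    have h6 := one_div_le_self hl
    linarith [h1.1]
  · have h4 : l * (((⌊t⌋₊ : ℕ) : ℝ) - (⌊s⌋₊ : ℕ)) ≤ l * (t - s + 1) := by gcongr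
    have h5 : l * (t - s + 1) = l * (t - s) + l := by ring
    linarith [h1.2]

/-- Sample times. -/
noncomputable def tau (a b : ℝ) (p : ℕ) : ℝ := min (a + p) b

theorem tau_le (a b : ℝ) (p : ℕ) : tau a b p ≤ b := min_le_right _ _

theorem le_tau {a b : ℝ} (hab : a ≤ b) (p : ℕ) : a ≤ tau a b p :=
  le_min (by linarith [Nat.cast_nonneg (α := ℝ) p]) hab

theorem tau_zero {a b : ℝ} (hab : a ≤ b) : tau a b 0 = a := by
  simp [tau, hab]

theorem tau_last (a b : ℝ) : tau a b ⌈b - a⌉₊ = b := by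
  have := Nat.le_ceil (b - a)
  apply min_eq_right
  linarith

theorem tau_mono (a b : ℝ) : Monotone (tau a b) := by
  intro p q hpq
  have : (p : ℝ) ≤ q := by exact_mod_cast hpq
  exact min_le_min (by linarith) le_rfl

theorem tau_sub_le {a b : ℝ} {p q : ℕ} (hpq : p ≤ q) :
    tau a b q - tau a b p ≤ (q : ℝ) - p := by
  have h1 : (p : ℝ) ≤ q := by exact_mod_cast hpq
  unfold tau
  rcases le_total (a + p) b with h | h
  · rw [min_eq_left h]
    have := min_le_left (a + (q : ℝ)) b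
    linarith
  · rw [min_eq_right h, min_eq_right (by linarith)]
    linarith

theorem le_tau_sub {a b : ℝ} (hab : a ≤ b) {p q : ℕ} (hq : q ≤ ⌈b - a⌉₊) :
    (q : ℝ) - p - 1 ≤ tau a b q - tau a b p := by
  have h0 : tau a b p ≤ a + p := min_le_left _ _
  have h1 : a + q - 1 ≤ tau a b q := by
    apply le_min
    · linarith
    · rcases Nat.eq_zero_or_pos q with h | h
      · subst h
        push_cast; linarith
      · have h2 : q - 1 < ⌈b - a⌉₊ := by omega
        have h3 := Nat.lt_ceil.mp h2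
        have h4 : ((q - 1 : ℕ) : ℝ) = (q : ℝ) - 1 := by
          rw [Nat.cast_sub h]; norm_num
        linarith
  linarith

/-- Sampling a quasi-geodesic, up to an error `c`. -/
theorem dqg_sample {d : X → X → ℝ} (hd : IsDist d) {l e c a b : ℝ} (hl : 1 ≤ l) (hab : a ≤ b)
    {σ : ℝ → X} {z : ℕ → X} {i j : ℕ} (hj : j ≤ ⌈b - a⌉₊)
    (h : IsQuasiGeod d l e (tau a b i) (tau a b j) σ)
    (hz : ∀ p, i ≤ p → p ≤ j → d (z p) (σ (tau a b p)) ≤ c) :
    DQG d l (e + 1 + 2 * c) z i j := by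
  intro p q hip hpq hqj
  have hl0 : 0 < l := by linarith
  have h1 := h.of_le (tau_mono a b hip) (tau_mono a b hpq) (tau_mono a b hqj)
  have h2 := tau_sub_le (a := a) (b := b) hpq
  have h3 := le_tau_sub hab (p := p) (hqj.trans hj)
  have h4 := hz p hip (hpq.trans hqj)
  have h5 := hz q (hip.trans hpq) hqj
  constructor
  · have h6 := hd.tri (σ (tau a b p)) (z p) (σ (tau a b q))
    have h7 := hd.tri (z p) (z q) (σ (tau a b q))
    rw [hd.symm (σ (tau a b p)) (z p)] at h6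
    have h8 : ((q : ℝ) - p - 1) / l ≤ (tau a b q - tau a b p) / l := by gcongr
    have h9 : ((q : ℝ) - p - 1) / l = ((q : ℝ) - p) / l - 1 / l := by ring
    have h10 := one_div_le_self hl
    linarith [h1.1]
  · have h6 := hd.tri (z p) (σ (tau a b p)) (z q)
    have h7 := hd.tri (σ (tau a b p)) (σ (tau a b q)) (z q)
    rw [hd.symm (σ (tau a b q)) (z q)] at h7
    have h8 : l * (tau a b q - tau a b p) ≤ l * ((q : ℝ) - p) := by gcongr
    linarith [h1.2]

/-- Every time of `[a, b]` is close to a sample time. -/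
theorem exists_tau {a b t : ℝ} (hat : a ≤ t) (htb : t ≤ b) :
    tau a b ⌊t - a⌋₊ ≤ t ∧ t ≤ tau a b ⌊t - a⌋₊ + 1 ∧ ⌊t - a⌋₊ ≤ ⌈b - a⌉₊ := by
  have h1 := Nat.floor_le (a := t - a) (by linarith)
  have h2 := Nat.lt_floor_add_one (t - a)
  have h3 : tau a b ⌊t - a⌋₊ = a + (⌊t - a⌋₊ : ℕ) := min_eq_left (by linarith)
  refine ⟨by rw [h3]; linarith, by rw [h3]; linarith, ?_⟩
  exact (Nat.floor_le_floor (by linarith)).trans (Nat.floor_le_ceil _)

/-- A point of a quasi-geodesic is close to a sampled point. -/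
theorem dist_tau_le {d : X → X → ℝ} {l e a b t : ℝ} (hl : 1 ≤ l) (_hab : a ≤ b) {σ : ℝ → X}
    (hat : a ≤ t) (htb : t ≤ b) (h : IsQuasiGeod d l e (tau a b ⌊t - a⌋₊) t σ) :
    d (σ (tau a b ⌊t - a⌋₊)) (σ t) ≤ l + e := by
  obtain ⟨h1, h2, h3⟩ := exists_tau hat htb
  have h4 := h.of_le le_rfl h1 le_rfl
  have h5 : l * (t - tau a b ⌊t - a⌋₊) ≤ l * 1 := by gcongr; linarith
  linarith [h4.2]

theorem IsQuasiGeod.mono {d : X → X → ℝ} {lam eps a b a' b' : ℝ} {γ : ℝ → X}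
    (h : IsQuasiGeod d lam eps a b γ) (ha : a ≤ a') (hb : b' ≤ b) :
    IsQuasiGeod d lam eps a' b' γ := by
  intro s hs t ht
  exact h s ⟨ha.trans hs.1, hs.2.trans hb⟩ t ⟨ha.trans ht.1, ht.2.trans hb⟩

/-- The real Morse local-to-global property implies the discrete one. -/
theorem dmltg_of_morseLTG {d : X → X → ℝ} (hd : IsDist d) (h : MorseLTG d) : DMLTG d := by
  intro M lam eps hlam heps
  obtain ⟨L, M', lam', eps', hL, hlam', heps', hmain⟩ :=
    h (fun l e => (l + e + M l (e + 1)).toNNReal) lam (eps + lam) hlam (by linarith)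
  refine ⟨⌈L⌉₊ + 1, fun l e => M' l (e + l), lam', eps', hlam', heps', ?_⟩
  intro y n hloc
  set γ : ℝ → X := fun t => y ⌊t⌋₊ with hγ
  have hγn : ∀ k : ℕ, γ k = y k := by intro k; simp [hγ]
  have hlocal : IsLocalMorse d L (fun l e => (l + e + M l (e + 1)).toNNReal) lam (eps + lam)
      0 n γ := by
    intro s t hs hst ht htL
    have hfl : ⌊t⌋₊ ≤ ⌊s⌋₊ + (⌈L⌉₊ + 1) := by
      have h1 := Nat.lt_floor_add_one s
      have h2 := Nat.le_ceil L
      have h3 := Nat.floor_le (hs.trans hst)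
      have h4 : ((⌊t⌋₊ : ℕ) : ℝ) ≤ ((⌊s⌋₊ + (⌈L⌉₊ + 1) : ℕ) : ℝ) := by
        push_cast; linarith
      exact_mod_cast h4
    have hfn : ⌊t⌋₊ ≤ n := by
      have := Nat.floor_le_floor ht
      simpa using this
    obtain ⟨hqg, hmo⟩ := hloc ⌊s⌋₊ ⌊t⌋₊ (Nat.floor_le_floor hst) hfn hfl
    refine ⟨isQuasiGeod_floor hd hlam hs hqg, ?_⟩
    intro l e hl he a' b' hab' σ hσ hua hvb t0 ht0
    obtain ⟨u, hu, hσu⟩ := hua
    obtain ⟨v, hv, hσv⟩ := hvb
    set m := ⌈b' - a'⌉₊ with hm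
    have hz : DQG d l (e + 1) (fun p => σ (tau a' b' p)) 0 m := by
      have h1 := dqg_sample hd (c := 0) (z := fun p => σ (tau a' b' p)) (i := 0) (j := m) hl hab'
        le_rfl (hσ.mono (le_tau hab' 0) (tau_le _ _ _)) (by intro p _ _; simp [hd.self])
      simpa using h1
    obtain ⟨h1, h2, h3⟩ := exists_tau ht0.1 ht0.2
    obtain ⟨q, hq1, hq2, hq3⟩ := hmo l (e + 1) hl (by linarith) (fun p => σ (tau a' b' p)) m hz
      ⟨⌊u⌋₊, Nat.floor_le_floor hu.1, Nat.floor_le_floor hu.2, by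
        simp only [tau_zero hab']; rw [hσu]⟩
      ⟨⌊v⌋₊, Nat.floor_le_floor hv.1, Nat.floor_le_floor hv.2, by
        simp only [hm, tau_last]; rw [hσv]⟩ ⌊t0 - a'⌋₊ h3
    -- the point `y q` is a point of `γ`
    have hsw : ∃ w ∈ Set.Icc s t, γ w = y q := by
      rcases hq1.eq_or_lt with hqe | hql
      · exact ⟨s, ⟨le_rfl, hst⟩, by simp only [hγ]; rw [hqe]⟩
      · refine ⟨q, ⟨?_, ?_⟩, hγn q⟩
        · have h5 := Nat.lt_floor_add_one s
          have h6 : ((⌊s⌋₊ + 1 : ℕ) : ℝ) ≤ q := by exact_mod_cast hql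
          push_cast at h6; linarith
        · have h5 := Nat.floor_le (hs.trans hst)
          have h6 : (q : ℝ) ≤ (⌊t⌋₊ : ℕ) := by exact_mod_cast hq2
          linarith
    obtain ⟨w, hw, hwq⟩ := hsw
    refine ⟨w, hw, ?_⟩
    rw [hwq]
    have h7 := dist_tau_le hl hab' ht0.1 ht0.2 (hσ.mono (le_tau hab' _) ht0.2)
    have h8 := hd.tri (σ t0) (σ (tau a' b' ⌊t0 - a'⌋₊)) (y q)
    rw [hd.symm (σ t0) (σ (tau a' b' ⌊t0 - a'⌋₊))] at h8
    have h9 := Real.le_coe_toNNReal (l + e + M l (e + 1))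
    linarith
  obtain ⟨hqg, hmo⟩ := hmain 0 n (Nat.cast_nonneg n) γ hlocal
  constructor
  · intro a b _ hab hbn
    have h1 := hqg.of_le (s := a) (t := b) (Nat.cast_nonneg a) (by exact_mod_cast hab)
      (by exact_mod_cast hbn)
    rwa [hγn, hγn] at h1
  · intro l e hl he z m hz hza hzb p hp
    obtain ⟨a, _, han, hza⟩ := hza
    obtain ⟨b, _, hbn, hzb⟩ := hzb
    have hσ : IsQuasiGeod d l (e + l) 0 m (fun t => z ⌊t⌋₊) := by
      apply isQuasiGeod_floor hd hl le_rfl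
      simpa using hz
    obtain ⟨w, hw, hw2⟩ := hmo l (e + l) hl (by linarith) 0 m (Nat.cast_nonneg m)
      (fun t => z ⌊t⌋₊) hσ
      ⟨a, ⟨Nat.cast_nonneg a, by exact_mod_cast han⟩, by rw [hγn]; simpa using hza⟩
      ⟨b, ⟨Nat.cast_nonneg b, by exact_mod_cast hbn⟩, by rw [hγn]; simpa using hzb⟩
      p ⟨Nat.cast_nonneg p, by exact_mod_cast hp⟩
    refine ⟨⌊w⌋₊, Nat.zero_le _, ?_, ?_⟩
    · have := Nat.floor_le_floor hw.2
      simpa using this
    · simpa using hw2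

/-- The discrete Morse local-to-global property implies the real one. -/
theorem morseLTG_of_dmltg {d : X → X → ℝ} (hd : IsDist d) (h : DMLTG d) : MorseLTG d := by
  intro M lam eps hlam heps
  obtain ⟨L, M', lam', eps', hlam', heps', hmain⟩ :=
    h (fun l e => M l (e + l) + lam + eps) lam (eps + 1) hlam (by linarith)
  refine ⟨L + 1, fun l e => (M' l (e + 1 + 2 * (lam + eps)) + (lam + eps) + l + e).toNNReal,
    lam', eps' + lam' + 2 * (lam + eps), by positivity, hlam', by positivity, ?_⟩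
  intro a b hab γ hloc
  set n := ⌈b - a⌉₊ with hn
  set y : ℕ → X := fun k => γ (tau a b k) with hy
  have hlocal : DLocal d L (fun l e => M l (e + l) + lam + eps) lam (eps + 1) y n := by
    intro i j hij hjn hjL
    have hτ : tau a b j - tau a b i ≤ L + 1 := by
      have h1 := tau_sub_le (a := a) (b := b) hij
      have h2 : (j : ℝ) ≤ i + L := by exact_mod_cast hjL
      linarith
    obtain ⟨hqg, hmo⟩ := hloc (tau a b i) (tau a b j) (le_tau hab i) (tau_mono a b hij)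
      (tau_le a b j) hτ
    constructor
    · have h1 := dqg_sample hd (c := 0) (z := y) (i := i) (j := j) hlam hab hjn hqg
        (by intro p _ _; simp [hy, hd.self])
      simpa using h1
    · intro l e hl he z m hz hza hzb p hp
      obtain ⟨a0, ha1, ha2, hza⟩ := hza
      obtain ⟨b0, hb1, hb2, hzb⟩ := hzb
      have hσ : IsQuasiGeod d l (e + l) 0 m (fun t => z ⌊t⌋₊) := by
        apply isQuasiGeod_floor hd hl le_rfl
        simpa using hz
      obtain ⟨w, hw, hw2⟩ := hmo l (e + l) hl (by linarith) 0 m (Nat.cast_nonneg m)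
        (fun t => z ⌊t⌋₊) hσ
        ⟨tau a b a0, ⟨tau_mono a b ha1, tau_mono a b ha2⟩, by simpa using hza⟩
        ⟨tau a b b0, ⟨tau_mono a b hb1, tau_mono a b hb2⟩, by simpa using hzb⟩
        p ⟨Nat.cast_nonneg p, by exact_mod_cast hp⟩
      simp only [Nat.floor_natCast] at hw2
      -- choose a sample close to `w`
      rcases hw.2.eq_or_lt with hwe | hwl
      · refine ⟨j, hij, le_rfl, ?_⟩
        rw [hwe] at hw2
        have : d (z p) (y j) ≤ M l (e + l) := hw2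
        linarith
      · have haw : a ≤ w := (le_tau hab i).trans hw.1
        have hwb : w ≤ b := hw.2.trans (tau_le a b j)
        have hwb' : w < b := lt_of_lt_of_le hwl (tau_le a b j)
        have hiq : i ≤ ⌊w - a⌋₊ := by
          apply Nat.le_floor
          have h1 : min (a + (i : ℝ)) b ≤ w := hw.1
          rcases min_le_iff.mp h1 with h2 | h2
          · linarith
          · linarith
        have hqj : ⌊w - a⌋₊ ≤ j := by
          have h1 : w < a + j := lt_of_lt_of_le hwl (min_le_left _ _)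
          have h2 : ⌊w - a⌋₊ < j + 1 := by
            rw [Nat.floor_lt (by linarith)]
            push_cast; linarith
          omega
        refine ⟨⌊w - a⌋₊, hiq, hqj, ?_⟩
        have h7 := dist_tau_le hlam hab haw hwb (hqg.mono (tau_mono a b hiq) hw.2)
        have h8 := hd.tri (z p) (γ w) (y ⌊w - a⌋₊)
        rw [hd.symm (γ w) (y ⌊w - a⌋₊)] at h8
        have h9 : d (y ⌊w - a⌋₊) (γ w) ≤ lam + eps := h7
        simp only
        linarith
  obtain ⟨hqg, hmo⟩ := hmain y n hlocal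
  -- points of `γ` are close to samples
  have hclose : ∀ s, a ≤ s → s ≤ b → d (y ⌊s - a⌋₊) (γ s) ≤ lam + eps := by
    intro s hs1 hs2
    obtain ⟨h1, h2, h3⟩ := exists_tau hs1 hs2
    obtain ⟨hq, -⟩ := hloc (tau a b ⌊s - a⌋₊) s (le_tau hab _) h1 hs2 (by
      have : (0 : ℝ) ≤ L := Nat.cast_nonneg L
      linarith)
    exact dist_tau_le hlam hab hs1 hs2 hq
  have hlam0 : 0 < lam' := by linarith
  constructor
  · apply isQuasiGeod_of_le hd
    intro s t hs hst ht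
    obtain ⟨h1, h2, h3⟩ := exists_tau hs (hst.trans ht)
    obtain ⟨h4, h5, h6⟩ := exists_tau (hs.trans hst) ht
    have h7 := hqg ⌊s - a⌋₊ ⌊t - a⌋₊ (Nat.zero_le _) (Nat.floor_le_floor (by linarith)) h6
    obtain ⟨h8, h9⟩ := floor_diff (s := s - a) (t := t - a) (by linarith) (by linarith)
    have h10 := hclose s hs (hst.trans ht)
    have h11 := hclose t (hs.trans hst) ht
    constructor
    · have h12 := hd.tri (y ⌊s - a⌋₊) (γ s) (y ⌊t - a⌋₊)
      have h13 := hd.tri (γ s) (γ t) (y ⌊t - a⌋₊)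
      rw [hd.symm (γ t) (y ⌊t - a⌋₊)] at h13
      have h14 : (t - s - 1) / lam' ≤ (((⌊t - a⌋₊ : ℕ) : ℝ) - (⌊s - a⌋₊ : ℕ)) / lam' :=
        div_le_div_of_nonneg_right (by linarith) hlam0.le
      have h15 : (t - s - 1) / lam' = (t - s) / lam' - 1 / lam' := by ring
      have h16 := one_div_le_self hlam'
      linarith [h7.1]
    · have h12 := hd.tri (γ s) (y ⌊s - a⌋₊) (γ t)
      have h13 := hd.tri (y ⌊s - a⌋₊) (y ⌊t - a⌋₊) (γ t)
      rw [hd.symm (γ s) (y ⌊s - a⌋₊)] at h12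
      have h14 : lam' * (((⌊t - a⌋₊ : ℕ) : ℝ) - (⌊s - a⌋₊ : ℕ)) ≤ lam' * (t - s + 1) :=
        mul_le_mul_of_nonneg_left (by linarith) hlam0.le
      have h15 : lam' * (t - s + 1) = lam' * (t - s) + lam' := by ring
      linarith [h7.2]
  · intro l e hl he a' b' hab' σ hσ hua hvb t0 ht0
    obtain ⟨u, hu, hσu⟩ := hua
    obtain ⟨v, hv, hσv⟩ := hvb
    set m := ⌈b' - a'⌉₊ with hm
    have hc0 : 0 ≤ lam + eps := by linarith
    set z : ℕ → X := fun p => if p = 0 then y ⌊u - a⌋₊ else if p = m then y ⌊v - a⌋₊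
      else σ (tau a' b' p) with hz
    have hzc : ∀ p, d (z p) (σ (tau a' b' p)) ≤ lam + eps := by
      intro p
      simp only [hz]
      split_ifs with h1 h2
      · rw [h1, tau_zero hab', hσu]
        exact hclose u hu.1 hu.2
      · rw [h2, hm, tau_last, hσv]
        exact hclose v hv.1 hv.2
      · rw [hd.self]; exact hc0
    have hzq : DQG d l (e + 1 + 2 * (lam + eps)) z 0 m :=
      dqg_sample hd hl hab' le_rfl (hσ.mono (le_tau hab' 0) (tau_le _ _ _))
        (fun p _ _ => hzc p)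
    have hfu := exists_tau hu.1 hu.2
    have hfv := exists_tau hv.1 hv.2
    obtain ⟨h1, h2, h3⟩ := exists_tau ht0.1 ht0.2
    obtain ⟨q, hq1, hq2, hq3⟩ := hmo l (e + 1 + 2 * (lam + eps)) hl (by linarith) z m hzq
      ⟨⌊u - a⌋₊, Nat.zero_le _, hfu.2.2, by simp [hz]⟩
      (by
        by_cases hm0 : m = 0
        · exact ⟨⌊u - a⌋₊, Nat.zero_le _, hfu.2.2, by simp [hz, hm0]⟩
        · exact ⟨⌊v - a⌋₊, Nat.zero_le _, hfv.2.2, by simp [hz, hm0]⟩)
      ⌊t0 - a'⌋₊ h3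
    refine ⟨tau a b q, ⟨le_tau hab q, tau_le a b q⟩, ?_⟩
    have h7 := dist_tau_le hl hab' ht0.1 ht0.2 (hσ.mono (le_tau hab' _) ht0.2)
    have h8 := hd.tri (σ t0) (σ (tau a' b' ⌊t0 - a'⌋₊)) (y q)
    rw [hd.symm (σ t0) (σ (tau a' b' ⌊t0 - a'⌋₊))] at h8
    have h10 := hd.tri (σ (tau a' b' ⌊t0 - a'⌋₊)) (z ⌊t0 - a'⌋₊) (y q)
    rw [hd.symm (σ (tau a' b' ⌊t0 - a'⌋₊)) (z ⌊t0 - a'⌋₊)] at h10
    have h11 := hzc ⌊t0 - a'⌋₊
    have h9 := Real.le_coe_toNNReal (M' l (e + 1 + 2 * (lam + eps)) + (lam + eps) + l + e)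
    have h12 : d (σ t0) (γ (tau a b q)) = d (σ t0) (y q) := rfl
    rw [h12]
    simp only
    linarith

theorem DQG.bilip {d d' : X → X → ℝ} {K l e : ℝ} (hK : 1 ≤ K) (hl : 1 ≤ l) (he : 0 ≤ e)
    (h1 : ∀ x y, d x y ≤ K * d' x y) (h2 : ∀ x y, d' x y ≤ K * d x y) {z : ℕ → X} {i j : ℕ}
    (h : DQG d' l e z i j) : DQG d (K * l) (K * e) z i j := by
  intro a b ha hab hb
  obtain ⟨h3, h4⟩ := h a b ha hab hb
  have hK0 : 0 < K := by linarith
  have hl0 : 0 < l := by linarith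
  have h5 := h1 (z a) (z b)
  have h6 := h2 (z a) (z b)
  constructor
  · have h7 : (((b : ℝ) - a) / l - e) / K ≤ d (z a) (z b) := by
      rw [div_le_iff₀ hK0]; linarith
    have h8 : (((b : ℝ) - a) / l - e) / K = ((b : ℝ) - a) / (K * l) - e / K := by
      field_simp
    have h9 : e / K ≤ K * e := by
      rw [div_le_iff₀ hK0]
      nlinarith [mul_nonneg (mul_nonneg hK0.le he) (by linarith : (0 : ℝ) ≤ K - 1),
        mul_nonneg he (by linarith : (0 : ℝ) ≤ K - 1)]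
    linarith
  · have h7 : K * d' (z a) (z b) ≤ K * (l * ((b : ℝ) - a) + e) := by gcongr
    have h8 : K * (l * ((b : ℝ) - a) + e) = K * l * ((b : ℝ) - a) + K * e := by ring
    linarith

theorem DMorse.bilip {d d' : X → X → ℝ} {K : ℝ} (hK : 1 ≤ K)
    (h1 : ∀ x y, d x y ≤ K * d' x y) (h2 : ∀ x y, d' x y ≤ K * d x y) {M : ℝ → ℝ → ℝ}
    {y : ℕ → X} {i j : ℕ} (h : DMorse d' M y i j) :
    DMorse d (fun l e => K * M (K * l) (K * e)) y i j := by
  intro l e hl he z m hz hza hzb p hp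
  have hKl : 1 ≤ K * l := by nlinarith
  have hKe : 0 ≤ K * e := by positivity
  obtain ⟨q, hq1, hq2, hq3⟩ := h (K * l) (K * e) hKl hKe z m (hz.bilip hK hl he h2 h1) hza hzb p hp
  refine ⟨q, hq1, hq2, ?_⟩
  have h3 := h1 (z p) (y q)
  have h4 : K * d' (z p) (y q) ≤ K * M (K * l) (K * e) := by gcongr
  simp only
  linarith

/-- Bi-Lipschitz invariance. -/
theorem DMLTG.bilip {d d' : X → X → ℝ} (_hd : IsDist d) (_hd' : IsDist d') {K : ℝ} (hK : 1 ≤ K)
    (h1 : ∀ x y, d x y ≤ K * d' x y) (h2 : ∀ x y, d' x y ≤ K * d x y) (h : DMLTG d) :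
    DMLTG d' := by
  intro M lam eps hlam heps
  have hKl : 1 ≤ K * lam := by nlinarith
  have hKe : 0 ≤ K * eps := by positivity
  obtain ⟨L, M', lam', eps', hlam', heps', hmain⟩ :=
    h (fun l e => K * M (K * l) (K * e)) (K * lam) (K * eps) hKl hKe
  have hKl' : 1 ≤ K * lam' := by nlinarith
  have hKe' : 0 ≤ K * eps' := by positivity
  refine ⟨L, fun l e => K * M' (K * l) (K * e), K * lam', K * eps', hKl', hKe', ?_⟩
  intro y n hloc
  obtain ⟨hq, hm⟩ := hmain y n (by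
    intro i j hij hjn hjL
    obtain ⟨h3, h4⟩ := hloc i j hij hjn hjL
    exact ⟨h3.bilip hK hlam heps h1 h2, h4.bilip hK h1 h2⟩)
  exact ⟨hq.bilip hK hlam' heps' h2 h1, hm.bilip hK h2 h1⟩

end Pool.Agent.MLG
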