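import Mathlib
import Pool.Agent.MLG.Step

/-!
# Induced sub graph products
-/

namespace Pool.Agent.MLG

/-- The discrete Morse local-to-global property is invariant under surjective isometries. -/
theorem dmltg_of_isom {X Y : Type*} {d : X → X → ℝ} {d' : Y → Y → ℝ} (f : X → Y)
    (hf : Function.Surjective f) (hd : ∀ x y, d' (f x) (f y) = d x y) (h : DMLTG d) :
    DMLTG d' := by
  obtain ⟨g, hg⟩ := hf.hasRightInverse
  have hgd : ∀ x y, d (g x) (g y) = d' x y := by
    intro x y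
    rw [← hd, hg, hg]
  have hq : ∀ (lam eps : ℝ) (y : ℕ → Y) (i j : ℕ), DQG d' lam eps y i j →
      DQG d lam eps (fun n => g (y n)) i j := by
    intro lam eps y i j hy a b h1 h2 h3
    simp only [hgd]
    exact hy a b h1 h2 h3
  have hq' : ∀ (lam eps : ℝ) (y : ℕ → Y) (i j : ℕ), DQG d lam eps (fun n => g (y n)) i j →
      DQG d' lam eps y i j := by
    intro lam eps y i j hy a b h1 h2 h3
    have := hy a b h1 h2 h3
    simp only [hgd] at this
    exact this
  have hqf : ∀ (lam eps : ℝ) (z : ℕ → X) (i j : ℕ), DQG d lam eps z i j →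
      DQG d' lam eps (fun n => f (z n)) i j := by
    intro lam eps y i j hy a b h1 h2 h3
    simp only [hd]
    exact hy a b h1 h2 h3
  have hm : ∀ (M : ℝ → ℝ → ℝ) (y : ℕ → Y) (i j : ℕ), DMorse d' M y i j →
      DMorse d M (fun n => g (y n)) i j := by
    intro M y i j hy lam eps hlam heps z m hz hz0 hzm p hp
    obtain ⟨q, h1, h2, h3⟩ := hy lam eps hlam heps (fun n => f (z n)) m (hqf _ _ _ _ _ hz)
      (by
        obtain ⟨a, h1, h2, h3⟩ := hz0
        exact ⟨a, h1, h2, by simp only [h3]; exact hg _⟩)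
      (by
        obtain ⟨a, h1, h2, h3⟩ := hzm
        exact ⟨a, h1, h2, by simp only [h3]; exact hg _⟩) p hp
    refine ⟨q, h1, h2, ?_⟩
    rw [← hd, hg]
    exact h3
  have hm' : ∀ (M : ℝ → ℝ → ℝ) (y : ℕ → Y) (i j : ℕ), DMorse d M (fun n => g (y n)) i j →
      DMorse d' M y i j := by
    intro M y i j hy lam eps hlam heps z m hz hz0 hzm p hp
    obtain ⟨q, h1, h2, h3⟩ := hy lam eps hlam heps (fun n => g (z n)) m (hq _ _ _ _ _ hz)
      (by
        obtain ⟨a, h1, h2, h3⟩ := hz0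
        exact ⟨a, h1, h2, by simp only [h3]⟩)
      (by
        obtain ⟨a, h1, h2, h3⟩ := hzm
        exact ⟨a, h1, h2, by simp only [h3]⟩) p hp
    refine ⟨q, h1, h2, ?_⟩
    rw [← hgd]
    exact h3
  intro M lam eps hlam heps
  obtain ⟨L, M', lam', eps', h1, h2, h3⟩ := h M lam eps hlam heps
  refine ⟨L, M', lam', eps', h1, h2, ?_⟩
  intro y n hy
  have := h3 (fun n => g (y n)) n (fun i j hij hj hL =>
    ⟨hq _ _ _ _ _ (hy i j hij hj hL).1, hm _ _ _ _ (hy i j hij hj hL).2⟩)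
  exact ⟨hq' _ _ _ _ _ this.1, hm' _ _ _ _ this.2⟩

namespace GraphProduct

variable {V : Type*} {Γ : SimpleGraph V} {G : V → Type*} [∀ v, Group (G v)]

/-- The canonical map of the induced graph product. -/
def incl (Δ : Set V) : GraphProduct (Γ.induce Δ) (fun v : Δ => G v) →* GraphProduct Γ G :=
  lift (fun v : Δ => of Γ G v.1) (by
    intro v w h g k
    exact of_comm (by simpa using h) g k)

@[simp] theorem incl_of (Δ : Set V) (v : Δ) (g : G v) :
    incl Δ (of (Γ.induce Δ) (fun v : Δ => G v) v g) = of Γ G v.1 g := by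
  unfold incl; rw [lift_of]

open Classical in
/-- The retraction to the induced graph product. -/
noncomputable def retr (Δ : Set V) :
    GraphProduct Γ G →* GraphProduct (Γ.induce Δ) (fun v : Δ => G v) :=
  lift (fun v => if h : v ∈ Δ then of (Γ.induce Δ) (fun v : Δ => G v) ⟨v, h⟩ else 1) (by
    intro v w h g k
    by_cases hv : v ∈ Δ
    · by_cases hw : w ∈ Δ
      · simp only [hv, hw, dif_pos]
        exact of_comm (Γ := Γ.induce Δ) (G := fun v : Δ => G v) (v := ⟨v, hv⟩) (w := ⟨w, hw⟩)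
          (by simpa using h) g k
      · simp [hw]
    · simp [hv])

theorem retr_of_mem {Δ : Set V} {v : V} (hv : v ∈ Δ) (g : G v) :
    retr Δ (of Γ G v g) = of (Γ.induce Δ) (fun v : Δ => G v) ⟨v, hv⟩ g := by
  unfold retr; rw [lift_of]; simp [hv]

theorem retr_of_notMem {Δ : Set V} {v : V} (hv : v ∉ Δ) (g : G v) :
    retr Δ (of Γ G v g) = 1 := by
  unfold retr; rw [lift_of]; simp [hv]

theorem retr_incl (Δ : Set V) (x : GraphProduct (Γ.induce Δ) (fun v : Δ => G v)) :
    retr (Γ := Γ) (G := G) Δ (incl Δ x) = x := by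
  induction x using induction with
  | h1 => simp
  | hm x v g ih => rw [map_mul, map_mul, ih, incl_of, retr_of_mem v.2]

theorem incl_mem (Δ : Set V) (x : GraphProduct (Γ.induce Δ) (fun v : Δ => G v)) :
    incl (Γ := Γ) (G := G) Δ x ∈ Sub Γ G Δ := by
  induction x using induction with
  | h1 => simp
  | hm x v g ih =>
    rw [map_mul, incl_of]
    exact mul_mem ih (of_mem_Sub v.2 g)

theorem exists_incl {Δ : Set V} {Δ' : Set V} (hΔ : Δ' ⊆ Δ) {x : GraphProduct Γ G}
    (hx : x ∈ Sub Γ G Δ') : ∃ y ∈ Sub (Γ.induce Δ) (fun v : Δ => G v) {w | w.1 ∈ Δ'},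
      incl (Γ := Γ) (G := G) Δ y = x := by
  refine Sub_induction (P := fun x => ∃ y ∈ Sub (Γ.induce Δ) (fun v : Δ => G v) {w | w.1 ∈ Δ'},
      incl (Γ := Γ) (G := G) Δ y = x) hx ⟨1, one_mem _, by simp⟩ ?_
  rintro x _ v hv g ⟨y, hy, rfl⟩
  refine ⟨y * of (Γ.induce Δ) (fun v : Δ => G v) ⟨v, hΔ hv⟩ g, mul_mem hy ?_, ?_⟩
  · exact of_mem_Sub (Γ := Γ.induce Δ) (G := fun v : Δ => G v) (v := ⟨v, hΔ hv⟩) hv g
  · rw [map_mul, incl_of]

variable (ℓ : ∀ v, WLen (G v))

theorem D_incl (Δ : Set V) (x y : GraphProduct (Γ.induce Δ) (fun v : Δ => G v)) :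
    D ℓ (incl (Γ := Γ) (G := G) Δ x) (incl Δ y) =
      D (Γ := Γ.induce Δ) (G := fun v : Δ => G v) (fun v : Δ => ℓ v) x y := by
  apply le_antisymm
  · obtain ⟨l, h1, h2, h3⟩ := exists_geod (Γ := Γ.induce Δ) (G := fun v : Δ => G v)
      (fun v : Δ => ℓ v) _ x y rfl
    rw [← h2, h3]
    have key : ∀ (l : List (Σ v : Δ, G v)), (∀ p ∈ l, (ℓ p.1).len p.2 = 1) →
        ∀ x : GraphProduct (Γ.induce Δ) (fun v : Δ => G v),
        D ℓ (incl (Γ := Γ) (G := G) Δ x) (incl Δ (x * wprod (Γ.induce Δ) (fun v : Δ => G v) l))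
          ≤ l.length := by
      intro l
      induction l with
      | nil => intro _ x; simp [D_self]
      | cons p l ih =>
        intro hl x
        have h1 := ih (fun q hq => hl q (List.mem_cons_of_mem _ hq))
          (x * of (Γ.induce Δ) (fun v : Δ => G v) p.1 p.2)
        have h2 : D ℓ (incl (Γ := Γ) (G := G) Δ x)
            (incl Δ (x * of (Γ.induce Δ) (fun v : Δ => G v) p.1 p.2)) ≤ 1 := by
          rw [map_mul, incl_of, D_mul_of, hl p List.mem_cons_self]
        have h3 := D_tri ℓ (incl (Γ := Γ) (G := G) Δ x)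
          (incl Δ (x * of (Γ.induce Δ) (fun v : Δ => G v) p.1 p.2))
          (incl Δ (x * of (Γ.induce Δ) (fun v : Δ => G v) p.1 p.2 *
            wprod (Γ.induce Δ) (fun v : Δ => G v) l))
        rw [wprod_cons, ← mul_assoc, List.length_cons]
        omega
    exact key l h1 x
  · have key : ∀ a b : GraphProduct Γ G,
        D (Γ := Γ.induce Δ) (G := fun v : Δ => G v) (fun v : Δ => ℓ v) (retr Δ a) (retr Δ b)
          ≤ D ℓ a b := by
      intro a b
      obtain ⟨l, h1, h2, h3⟩ := exists_geod ℓ _ a b rfl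
      rw [← h2, h3]
      have key2 : ∀ (l : List (Σ v, G v)), (∀ p ∈ l, (ℓ p.1).len p.2 = 1) →
          ∀ a : GraphProduct Γ G,
          D (Γ := Γ.induce Δ) (G := fun v : Δ => G v) (fun v : Δ => ℓ v) (retr Δ a)
            (retr Δ (a * wprod Γ G l)) ≤ l.length := by
        intro l
        induction l with
        | nil => intro _ x; simp [D_self]
        | cons p l ih =>
          intro hl x
          have h1 := ih (fun q hq => hl q (List.mem_cons_of_mem _ hq)) (x * of Γ G p.1 p.2)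
          have h2 : D (Γ := Γ.induce Δ) (G := fun v : Δ => G v) (fun v : Δ => ℓ v) (retr Δ x)
              (retr Δ (x * of Γ G p.1 p.2)) ≤ 1 := by
            rw [map_mul]
            by_cases hv : p.1 ∈ Δ
            · have := hl p List.mem_cons_self
              rw [retr_of_mem hv, D_mul_of]
              exact this.le
            · rw [retr_of_notMem hv, mul_one, D_self]; omega
          have h3 := D_tri (Γ := Γ.induce Δ) (G := fun v : Δ => G v) (fun v : Δ => ℓ v)
            (retr Δ x) (retr Δ (x * of Γ G p.1 p.2))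
            (retr Δ (x * of Γ G p.1 p.2 * wprod Γ G l))
          rw [wprod_cons, ← mul_assoc, List.length_cons]
          omega
      exact key2 l h1 a
    have := key (incl Δ x) (incl Δ y)
    rwa [retr_incl, retr_incl] at this

theorem dmltg_sub_of_induce (ℓ : ∀ v, WLen (G v)) (Δ : Set V)
    (h : DMLTG (Dr (Γ := Γ.induce Δ) (G := fun v : Δ => G v) (fun v : Δ => ℓ v))) :
    DMLTG (fun x y : ↥(Sub Γ G Δ) => Dr ℓ (x : GraphProduct Γ G) y) := by
  refine dmltg_of_isom (fun x => (⟨incl Δ x, incl_mem Δ x⟩ : ↥(Sub Γ G Δ))) ?_ ?_ h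
  · rintro ⟨x, hx⟩
    obtain ⟨y, _, hy⟩ := exists_incl (Δ := Δ) (Δ' := Δ) (subset_refl _) hx
    exact ⟨y, Subtype.ext hy⟩
  · intro x y
    change ((D ℓ (incl (Γ := Γ) (G := G) Δ x) (incl Δ y) : ℕ) : ℝ) = _
    rw [D_incl]
    rfl

theorem dmltg_sub_singleton (ℓ : ∀ v, WLen (G v)) (v : V)
    (h : DMLTG (fun g k : G v => ((ℓ v).len (g⁻¹ * k) : ℝ))) :
    DMLTG (fun x y : ↥(Sub Γ G {v}) => Dr ℓ (x : GraphProduct Γ G) y) := by
  refine dmltg_of_isom (fun g : G v => (⟨of Γ G v g, of_mem_Sub (Set.mem_singleton v) g⟩ : ↥(Sub Γ G {v}))) ?_ ?_ h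
  · rintro ⟨x, hx⟩
    have : ∃ g, of Γ G v g = x := by
      refine Sub_induction (P := fun x => ∃ g, of Γ G v g = x) hx ⟨1, by simp⟩ ?_
      rintro x _ w hw g ⟨g', rfl⟩
      obtain rfl : w = v := hw
      exact ⟨g' * g, by rw [map_mul]⟩
    obtain ⟨g, hg⟩ := this
    exact ⟨g, Subtype.ext hg⟩
  · intro x y
    change ((D ℓ (of Γ G v x) (of Γ G v y) : ℕ) : ℝ) = _
    have : of Γ G v y = of Γ G v x * of Γ G v (x⁻¹ * y) := by
      rw [← map_mul, mul_inv_cancel_left]
    rw [this, D_mul_of]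

theorem reduced_induce : Reduced (Γ.induce {v : V | Infinite (G v) ∧
    (Sub Γ G {w | Γ.Adj v w} : Set (GraphProduct Γ G)).Finite}ᶜ) (fun v => G v.1) := by
  rintro ⟨v, hv⟩ hinf
  have hinf' : Infinite (G v) := hinf
  have h1 : (Sub Γ G {w | Γ.Adj v w} : Set (GraphProduct Γ G)).Infinite := by
    intro hfin
    exact hv ⟨hinf', hfin⟩
  set Δ : Set V := {v : V | Infinite (G v) ∧
    (Sub Γ G {w | Γ.Adj v w} : Set (GraphProduct Γ G)).Finite}ᶜ with hΔ
  have h2 : {w | Γ.Adj v w} ⊆ Δ := by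
    intro w hw hw'
    have hfin : (Sub Γ G {u | Γ.Adj w u} : Set (GraphProduct Γ G)).Finite := hw'.2
    have h3 : (Set.range (of Γ G v)) ⊆ (Sub Γ G {u | Γ.Adj w u} : Set (GraphProduct Γ G)) := by
      rintro _ ⟨g, rfl⟩
      exact of_mem_Sub (Δ := {u | Γ.Adj w u}) (SimpleGraph.Adj.symm hw) g
    have h4 := hfin.subset h3
    exact (Set.infinite_range_of_injective (of_injective v)) h4
  intro hfin
  apply h1
  refine (hfin.image (incl (Γ := Γ) (G := G) Δ)).subset ?_
  intro x hx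
  obtain ⟨y, hy, hyx⟩ := exists_incl (Δ := Δ) h2 hx
  refine ⟨y, ?_, hyx⟩
  exact Sub_mono (fun w hw => hw) hy

end GraphProduct

end Pool.Agent.MLG
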