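import Mathlib
import Pool.Agent.MLG.Step

/-!
# The tree-graded structure of a graph product over a set of vertices with finite link groups
-/

universe u v

namespace Pool.Agent.MLG

namespace GraphProduct

variable {V : Type u} {Γ : SimpleGraph V} {G : V → Type v} [∀ v, Group (G v)]

/-- A geodesic between two points separated by `J` leaves the first side at a point of the
carrier. -/
theorem cut_pt (ℓ : ∀ v, WLen (G v)) {J : Hyp Γ G} {a b : GraphProduct Γ G}
    (h : crd J a ≠ crd J b) :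
    ∃ e, e ∈ car J ∧ crd J e = crd J a ∧ D ℓ a b = D ℓ a e + D ℓ e b := by
  classical
  obtain ⟨β, h0, h1, h2, h3⟩ := exists_geodSeq ℓ a b
  have hex : ∃ i, crd J (β i) ≠ crd J a := ⟨D ℓ a b, by rw [h1]; exact h.symm⟩
  set i := Nat.find hex with hi
  have hi1 : crd J (β i) ≠ crd J a := Nat.find_spec hex
  have hin : i ≤ D ℓ a b := Nat.find_min' hex (by rw [h1]; exact h.symm)
  have hi0 : i ≠ 0 := by
    intro h00
    rw [h00, h0] at hi1
    exact hi1 rfl
  obtain ⟨j, hj⟩ := Nat.exists_eq_succ_of_ne_zero hi0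
  have hj1 : crd J (β j) = crd J a := by
    by_contra hne
    exact Nat.find_min hex (m := j) (by omega) hne
  obtain ⟨w, s, hs, h4⟩ := h3 j (by omega)
  have hJ : J = hyp w (β j) := by
    by_contra hne
    apply hi1
    rw [hj, Nat.succ_eq_add_one, h4, crd_mul_of_ne' hne, hj1]
  refine ⟨β j, ?_, hj1, ?_⟩
  · rw [hJ]; exact mem_car_hyp _ _
  · have e1 := h2 0 j (by omega) (by omega)
    have e2 := h2 j (D ℓ a b) (by omega) le_rfl
    rw [h0] at e1
    rw [h1] at e2
    omega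

/-- Two points of a carrier with the same coordinate differ by an element of the link group. -/
theorem link_of_crd_eq {J : Hyp Γ G} {x y : GraphProduct Γ G} (hx : x ∈ car J) (hy : y ∈ car J)
    (h : crd J x = crd J y) : x⁻¹ * y ∈ Sub Γ G {w | Γ.Adj J.1 w} := by
  have h1 := car_mul_mem hx hy
  have hJ : hyp J.1 x = J := hx
  have h2 := crd_hyp J.1 x y
  have h3 : (crd (hyp J.1 x) x)⁻¹ * crd (hyp J.1 x) y = 1 := by
    rw [inv_mul_eq_one, hJ]
    exact h
  rw [h3, H_of_mem h1] at h2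
  obtain ⟨m, hm, hk⟩ := St_decomp h1
  rw [← h2] at hk
  have h4 : of Γ G J.1 (1 : G (hyp J.1 x).1) = 1 := map_one _
  rw [h4, one_mul] at hk
  rw [hk]
  exact hm

/-- Elements of `Sub Δ` do not change coordinates with label outside `Δ`. -/
theorem crd_mul_Sub {Δ : Set V} {J : Hyp Γ G} (hJ : J.1 ∉ Δ) {k : GraphProduct Γ G}
    (hk : k ∈ Sub Γ G Δ) (x : GraphProduct Γ G) : crd J (x * k) = crd J x := by
  refine Sub_induction (P := fun k => crd J (x * k) = crd J x) hk (by simp) ?_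
  intro k _ w hw g ih
  rw [← mul_assoc, crd_mul_of_ne (fun h => hJ (h ▸ hw)), ih]

/-- the geodesic distance to the point where the coordinate has been adjusted -/
theorem D_adjust (ℓ : ∀ v, WLen (G v)) (v : V) (x y : GraphProduct Γ G) :
    D ℓ x y = D ℓ x (x * of Γ G v (H v (x⁻¹ * y))) + D ℓ (x * of Γ G v (H v (x⁻¹ * y))) y ∧
    crd (hyp v x) (x * of Γ G v (H v (x⁻¹ * y))) = crd (hyp v x) y := by
  have hc : crd (hyp v x) (x * of Γ G v (H v (x⁻¹ * y))) = crd (hyp v x) y := by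
    have e := crd_hyp (Γ := Γ) (G := G) v x y
    rw [crd_hyp_mul, ← e, mul_inv_cancel_left]
  refine ⟨?_, hc⟩
  unfold D
  rw [← finsum_add_distrib (dJ_finite ℓ _ _) (dJ_finite ℓ _ _)]
  apply finsum_congr
  intro J
  by_cases hJ : J = hyp v x
  · subst hJ
    unfold dJ
    rw [hc, inv_mul_cancel, (ℓ _).one, add_zero]
  · rw [dJ_mul_of_ne ℓ hJ, dJ_comm ℓ J x (x * _), dJ_mul_of_ne ℓ hJ, dJ_self, zero_add]

/-- the piece `g · Sub (V1ᶜ)`, or the carrier of a hyperplane -/
def piece (V1 : Set V) : GraphProduct Γ G × Option V1 → Set (GraphProduct Γ G)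
  | (g, none) => {x | g⁻¹ * x ∈ Sub Γ G V1ᶜ}
  | (g, some v) => car (hyp v.1 g)

/-- First part of a path: the first letter with label in `V1`. -/
theorem first_V1 (ℓ : ∀ v, WLen (G v)) (V1 : Set V) {x y : GraphProduct Γ G}
    (h : x⁻¹ * y ∉ Sub Γ G V1ᶜ) : ∃ e : GraphProduct Γ G, ∃ v ∈ V1, x⁻¹ * e ∈ Sub Γ G V1ᶜ ∧
      D ℓ x y = D ℓ x e + D ℓ e y ∧ crd (hyp v e) e ≠ crd (hyp v e) y := by
  classical
  obtain ⟨β, h0, h1, h2, h3⟩ := exists_geodSeq ℓ x y
  have hex : ∃ i, x⁻¹ * β i ∉ Sub Γ G V1ᶜ := ⟨D ℓ x y, by rw [h1]; exact h⟩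
  have hi1 := Nat.find_spec hex
  have hin : Nat.find hex ≤ D ℓ x y := Nat.find_min' hex (by rw [h1]; exact h)
  have hi0 : Nat.find hex ≠ 0 := by
    intro h00
    rw [h00, h0, inv_mul_cancel] at hi1
    exact hi1 (one_mem _)
  obtain ⟨j, hj⟩ := Nat.exists_eq_succ_of_ne_zero hi0
  have hj1 : x⁻¹ * β j ∈ Sub Γ G V1ᶜ := by
    by_contra hne
    exact Nat.find_min hex (m := j) (by omega) hne
  obtain ⟨w, s, hs, h4⟩ := h3 j (by omega)
  have hw : w ∈ V1 := by
    by_contra hne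
    apply hi1
    rw [hj, Nat.succ_eq_add_one, h4, ← mul_assoc]
    exact mul_mem hj1 (of_mem_Sub hne s)
  have e1 := h2 0 j (by omega) (by omega)
  have e2 := h2 j (D ℓ x y) (by omega) le_rfl
  have e3 := h2 j (j + 1) (by omega) (by omega)
  have e4 := h2 (j + 1) (D ℓ x y) (by omega) le_rfl
  rw [h0] at e1
  rw [h1] at e2 e4
  refine ⟨β j, w, hw, hj1, by omega, ?_⟩
  intro hcon
  have e5 : D ℓ (β j) y = D ℓ (β j) (β (j + 1)) + D ℓ (β (j + 1)) y := by omega
  have e6 := dJ_add_of_D_add ℓ e5 (hyp w (β j))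
  rw [(dJ_eq_zero ℓ).2 hcon, h4] at e6
  have e7 : dJ ℓ (hyp w (β j)) (β j) (β j * of Γ G w s) = (ℓ w).len s := by
    unfold dJ
    rw [crd_hyp_mul, inv_mul_cancel_left]
    rfl
  omega

/-- For `V1`-hyperplanes, nestedness in the form needed. -/
theorem nest_V1 {V1 : Set V} (h2 : ∀ v ∈ V1, ∀ w ∈ V1, ¬ Γ.Adj v w) {J W : Hyp Γ G}
    (hJ1 : J.1 ∈ V1) (hW1 : W.1 ∈ V1) {e y : GraphProduct Γ G} (he : e ∈ car J)
    (hJ : crd J e = crd J y) (hW : crd W e ≠ crd W y) (z : GraphProduct Γ G) :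
    crd J z = crd J y ∨ crd W z = crd W e := by
  have hne : J ≠ W := by
    rintro rfl; exact hW hJ
  have hc : ¬ Cross J W := fun hc => h2 _ hJ1 _ hW1 hc.1
  obtain ⟨a, ha⟩ := exists_mem_car W
  have key := fun z => nested hne hc ha he z
  have hy : crd J y = crd J a := (key y).resolve_right (fun h => hW h.symm)
  rw [hy]
  exact key z

theorem cutSeq_exists (ℓ : ∀ v, WLen (G v)) (V1 : Set V)
    (h2 : ∀ v ∈ V1, ∀ w ∈ V1, ¬ Γ.Adj v w) (δ : ℝ)
    (hδ : ∀ (J : Hyp Γ G), J.1 ∈ V1 → ∀ x ∈ car J, ∀ y ∈ car J, crd J x = crd J y →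
      Dr ℓ x y ≤ δ) (n : ℕ) : ∀ x y : GraphProduct Γ G, D ℓ x y = n →
    ∃ (K : ℕ) (f : ℕ → GraphProduct Γ G) (U : ℕ → Set (GraphProduct Γ G)),
      CutSeq (Dr (Γ := Γ) ℓ) δ x y K f U ∧
      (∀ k < K, ∃ p, f k ∈ piece V1 p ∧ f (k + 1) ∈ piece V1 p) ∧
      ∀ k, 1 ≤ k → k < K → ∃ W : Hyp Γ G, W.1 ∈ V1 ∧ crd W x ≠ crd W y ∧
        (U k = {z | crd W z = crd W x} ∨ U k = {z | crd W z ≠ crd W y}) := by
  induction n using Nat.strong_induction_on with
  | _ n ih =>
  intro x y hxy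
  by_cases h : x⁻¹ * y ∈ Sub Γ G V1ᶜ
  · refine ⟨1, fun k => if k = 0 then x else y, fun _ => ∅, ?_, ?_, ?_⟩
    · refine ⟨by simp, by simp, ?_, ?_, ?_, ?_, ?_, le_rfl, ?_⟩
      · intro k hk1 hk2; omega
      · intro k hk1 hk2; omega
      · intro k hk1 hk2; omega
      · intro k hk1 hk2; omega
      · simp
      · have := (isDist_Dr (Γ := Γ) ℓ).nonneg x y
        push_cast; linarith
    · intro k hk
      have hk0 : k = 0 := by omega
      subst hk0
      refine ⟨(x, none), ?_, ?_⟩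
      · simp [piece]
      · simpa [piece] using h
    · intro k hk1 hk2; omega
  · obtain ⟨e, v, hv, he1, he2, he3⟩ := first_V1 ℓ V1 h
    obtain ⟨ha1, ha2⟩ := D_adjust ℓ v e y
    set e' := e * of Γ G v (H v (e⁻¹ * y)) with he'
    set J : Hyp Γ G := hyp v e with hJ
    have hJ1 : J.1 ∈ V1 := hv
    have heJ : e ∈ car J := mem_car_hyp _ _
    have heJ' : e' ∈ car J := (mul_mem_car (J := J) (self_mem_st v) _).2 heJ
    have hpos : 1 ≤ D ℓ e e' := by
      refine le_trans (dJ_pos ℓ (J := J) ?_) (dJ_le_D ℓ J e e')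
      rw [ha2]; exact he3
    obtain ⟨K, f, U, hC, hP, hU⟩ := ih (D ℓ e' y) (by omega) e' y rfl
    have hxe : ∀ W : Hyp Γ G, W.1 ∈ V1 → crd W e = crd W x := by
      intro W hW
      have := crd_mul_Sub (J := W) (Δ := V1ᶜ) (fun h => h hW) he1 x
      rwa [mul_inv_cancel_left] at this
    have hxJ : crd J x ≠ crd J y := by rw [← hxe J hJ1]; exact he3
    have hWe : ∀ W : Hyp Γ G, W.1 ∈ V1 → crd W e' ≠ crd W y → crd W e' = crd W x := by
      intro W hW hne
      have hWJ : W ≠ J := by rintro rfl; exact hne ha2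
      rw [← hxe W hW, he', crd_mul_of_ne' hWJ]
    refine ⟨K + 2, fun k => if k = 0 then x else if k = 1 then e else f (k - 2),
      fun k => if k = 1 then {z | crd J z = crd J x} else if k = 2 then {z | crd J z ≠ crd J y}
        else U (k - 2), ?_, ?_, ?_⟩
    · have hK := hC.pos
      refine ⟨by simp, ?_, ?_, ?_, ?_, ?_, ?_, by omega, ?_⟩
      · simp only [if_neg (show K + 2 ≠ 0 by omega), if_neg (show K + 2 ≠ 1 by omega)]
        rw [show K + 2 - 2 = K by omega]; exact hC.last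
      · intro k hk1 hk2
        rcases (show k = 1 ∨ k = 2 ∨ 3 ≤ k by omega) with rfl | rfl | hk
        · simp
        · simpa using hxJ
        · simp only [if_neg (show k ≠ 1 by omega), if_neg (show k ≠ 2 by omega)]
          obtain ⟨W, hW1, hW2, hW3⟩ := hU (k - 2) (by omega) (by omega)
          have hW4 := hWe W hW1 hW2
          rcases hW3 with hW3 | hW3
          · rw [hW3]; exact hW4.symm
          · rw [hW3]; change crd W x ≠ crd W y
            rw [← hW4]; exact hW2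
      · intro k hk1 hk2
        rcases (show k = 1 ∨ k = 2 ∨ 3 ≤ k by omega) with rfl | rfl | hk
        · simpa using hxJ.symm
        · simp
        · simp only [if_neg (show k ≠ 1 by omega), if_neg (show k ≠ 2 by omega)]
          exact hC.notMem (k - 2) (by omega) (by omega)
      · intro k hk1 hk2
        rcases (show k = 1 ∨ k = 2 ∨ 3 ≤ k by omega) with rfl | rfl | hk
        · simp only [if_true, Nat.reduceAdd, OfNat.ofNat_ne_one, if_false]
          intro z hz
          simp only [Set.mem_ofPred_eq] at hz ⊢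
          rw [hz]; exact hxJ
        · simp only [if_neg (show (2 : ℕ) ≠ 1 by omega), if_true, if_neg (show 2 + 1 ≠ 1 by omega),
            if_neg (show 2 + 1 ≠ 2 by omega)]
          rw [show 2 + 1 - 2 = 1 by omega]
          obtain ⟨W, hW1, hW2, hW3⟩ := hU 1 le_rfl (by omega)
          intro z hz
          have h5 : crd W z = crd W e' :=
            (nest_V1 h2 hJ1 hW1 heJ' ha2 hW2 z).resolve_left hz
          rcases hW3 with hW3 | hW3
          · rw [hW3]; exact h5
          · rw [hW3]; change crd W z ≠ crd W y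
            rw [h5]; exact hW2
        · simp only [if_neg (show k ≠ 1 by omega), if_neg (show k ≠ 2 by omega),
            if_neg (show k + 1 ≠ 1 by omega), if_neg (show k + 1 ≠ 2 by omega)]
          have := hC.mono (k - 2) (by omega) (by omega)
          rwa [show k - 2 + 1 = k + 1 - 2 by omega] at this
      · have cutfact : ∀ (c : GraphProduct Γ G), c ∈ car J → ∀ a b : GraphProduct Γ G,
            crd J a = crd J c → crd J b ≠ crd J c →
            Dr ℓ a c ≤ Dr ℓ a b + δ ∧ Dr ℓ b c ≤ Dr ℓ a b + δ := by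
          intro c hc a b hac hbc
          obtain ⟨m, hm1, hm2, hm3⟩ := cut_pt ℓ (J := J) (a := a) (b := b)
            (by rw [hac]; exact hbc.symm)
          have h5 := hδ J hJ1 m hm1 c hc (hm2.trans hac)
          have hd := isDist_Dr (Γ := Γ) ℓ
          have h6 : Dr ℓ a b = Dr ℓ a m + Dr ℓ m b := by
            unfold Dr; exact_mod_cast hm3
          have h7 := hd.tri a m c
          have h8 := hd.tri b m c
          have h9 := hd.symm b m
          have h10 := hd.nonneg a m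
          have h11 := hd.nonneg m b
          constructor <;> linarith
        intro k hk1 hk2
        rcases (show k = 1 ∨ k = 2 ∨ 3 ≤ k by omega) with rfl | rfl | hk
        · intro a ha b hb
          simp only [if_true, Set.mem_ofPred_eq] at ha hb
          simp only [if_neg (show (1 : ℕ) ≠ 0 by omega), if_true]
          exact cutfact e heJ a b (by rw [hxe J hJ1]; exact ha) (by rw [hxe J hJ1]; exact hb)
        · intro a ha b hb
          simp only [if_neg (show (2 : ℕ) ≠ 1 by omega), if_true, Set.mem_ofPred_eq,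
            not_not] at ha hb
          simp only [if_neg (show (2 : ℕ) ≠ 0 by omega), if_neg (show (2 : ℕ) ≠ 1 by omega)]
          rw [show 2 - 2 = 0 by omega, hC.zero]
          have h12 := cutfact e' heJ' b a (by rw [ha2]; exact hb) (by rw [ha2]; exact ha)
          rw [(isDist_Dr (Γ := Γ) ℓ).symm a b]
          exact ⟨h12.2, h12.1⟩
        · simp only [if_neg (show k ≠ 1 by omega), if_neg (show k ≠ 2 by omega),
            if_neg (show k ≠ 0 by omega)]
          exact hC.cut (k - 2) (by omega) (by omega)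
      · rw [Finset.sum_range_succ', Finset.sum_range_succ']
        have h5 : ∀ k ∈ Finset.range K,
            Dr ℓ (if k + 1 + 1 = 0 then x else if k + 1 + 1 = 1 then e else f (k + 1 + 1 - 2))
              (if k + 1 + 1 + 1 = 0 then x else if k + 1 + 1 + 1 = 1 then e
                else f (k + 1 + 1 + 1 - 2)) = Dr ℓ (f k) (f (k + 1)) := by
          intro k _
          rw [if_neg (by omega), if_neg (by omega), if_neg (by omega), if_neg (by omega)]
          rw [show k + 1 + 1 - 2 = k by omega, show k + 1 + 1 + 1 - 2 = k + 1 by omega]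
        rw [Finset.sum_congr rfl h5]
        have h6 := hC.sum
        have h7 : Dr ℓ x y = Dr ℓ x e + Dr ℓ e y := by unfold Dr; exact_mod_cast he2
        have h8 : Dr ℓ e y = Dr ℓ e e' + Dr ℓ e' y := by unfold Dr; exact_mod_cast ha1
        simp only [zero_add, Nat.reduceAdd, one_ne_zero, if_false, if_true, OfNat.ofNat_ne_zero,
          OfNat.ofNat_ne_one, Nat.sub_self, hC.zero]
        linarith
      · have h6 := hC.card
        have h7 : Dr ℓ x y = Dr ℓ x e + Dr ℓ e y := by unfold Dr; exact_mod_cast he2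
        have h8 : Dr ℓ e y = Dr ℓ e e' + Dr ℓ e' y := by unfold Dr; exact_mod_cast ha1
        have h9 : (1 : ℝ) ≤ Dr ℓ e e' := by unfold Dr; exact_mod_cast hpos
        have h10 := (isDist_Dr (Γ := Γ) ℓ).nonneg x e
        push_cast
        linarith
    · intro k hk
      rcases (show k = 0 ∨ k = 1 ∨ 2 ≤ k by omega) with rfl | rfl | hk2
      · refine ⟨(x, none), ?_, ?_⟩
        · simp [piece]
        · simpa [piece] using he1
      · refine ⟨(e, some ⟨v, hv⟩), ?_, ?_⟩
        · simpa [piece] using heJ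
        · simp only [Nat.reduceAdd, OfNat.ofNat_ne_zero, if_false, OfNat.ofNat_ne_one,
            Nat.sub_self, hC.zero]
          exact heJ'
      · simp only [if_neg (show k ≠ 1 by omega), if_neg (show k ≠ 0 by omega),
            if_neg (show k + 1 ≠ 1 by omega), if_neg (show k + 1 ≠ 0 by omega)]
        obtain ⟨p, hp⟩ := hP (k - 2) (by omega)
        refine ⟨p, hp.1, ?_⟩
        have := hp.2
        rwa [show k - 2 + 1 = k + 1 - 2 by omega] at this
    · intro k hk1 hk2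
      rcases (show k = 1 ∨ k = 2 ∨ 3 ≤ k by omega) with rfl | rfl | hk
      · exact ⟨J, hJ1, hxJ, Or.inl (by simp)⟩
      · exact ⟨J, hJ1, hxJ, Or.inr (by simp)⟩
      · simp only [if_neg (show k ≠ 1 by omega), if_neg (show k ≠ 2 by omega)]
        obtain ⟨W, hW1, hW2, hW3⟩ := hU (k - 2) (by omega) (by omega)
        have hW4 := hWe W hW1 hW2
        refine ⟨W, hW1, by rw [← hW4]; exact hW2, ?_⟩
        rw [← hW4]; exact hW3

theorem exists_pieceData [Finite V] (ℓ : ∀ v, WLen (G v)) (V1 : Set V)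
    (h1 : ∀ v ∈ V1, (Sub Γ G {w | Γ.Adj v w} : Set (GraphProduct Γ G)).Finite)
    (h2 : ∀ v ∈ V1, ∀ w ∈ V1, ¬ Γ.Adj v w) :
    ∃ δ : ℝ, 0 ≤ δ ∧ Nonempty (PieceData.{max u v, u, max u v, max u v} (Dr (Γ := Γ) ℓ) δ
      (fun a : Option V1 => ↥(Sub Γ G (pieceSet V1 a)))
      (fun _ x y => Dr ℓ (x : GraphProduct Γ G) y)) := by
  classical
  have hfin : (⋃ v ∈ V1, (Sub Γ G {w | Γ.Adj v w} : Set (GraphProduct Γ G))).Finite :=
    V1.toFinite.biUnion h1
  obtain ⟨N, hN⟩ := (hfin.image (D ℓ 1)).bddAbove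
  have hN' : ∀ v ∈ V1, ∀ m ∈ Sub Γ G {w | Γ.Adj v w}, Dr ℓ 1 m ≤ (N : ℝ) := by
    intro v hv m hm
    have : D ℓ 1 m ≤ N := hN ⟨m, Set.mem_biUnion hv hm, rfl⟩
    unfold Dr; exact_mod_cast this
  have hδ : ∀ (J : Hyp Γ G), J.1 ∈ V1 → ∀ x ∈ car J, ∀ y ∈ car J, crd J x = crd J y →
      Dr ℓ x y ≤ (N : ℝ) := by
    intro J hJ x hx y hy hxy
    have h3 := hN' J.1 hJ _ (link_of_crd_eq hx hy hxy)
    unfold Dr at h3 ⊢
    rwa [D_eq_len ℓ x y]
  refine ⟨N, by positivity, ⟨{
    Idx := GraphProduct Γ G × Option V1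
    P := piece V1
    ty := Prod.snd
    emb := fun p x => p.1 * (x : GraphProduct Γ G)
    ret := fun p x => ⟨ret (pieceSet V1 p.2) (p.1⁻¹ * x), ret_mem _ _⟩
    emb_mem := ?_
    emb_isom := ?_
    ret_lip := ?_
    ret_emb := ?_
    dense := ?_
    branch := ?_
    cuts := ?_ }⟩⟩
  · rintro ⟨g, _ | v⟩ ⟨x, hx⟩
    · change g⁻¹ * (g * x) ∈ Sub Γ G V1ᶜ
      rw [inv_mul_cancel_left]; exact hx
    · change g * x ∈ car (hyp v.1 g)
      have hx' : x ∈ St Γ G v.1 := Sub_mono (by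
        intro w hw
        have hw : w = v.1 := hw
        exact Or.inl hw) hx
      exact (mul_mem_car' (J := hyp v.1 g) hx').2 (mem_car_hyp _ _)
  · intro p x y
    exact Dr_left ℓ _ _ _
  · intro p x y
    refine le_trans (b := Dr ℓ (p.1⁻¹ * x) (p.1⁻¹ * y)) ?_ (le_of_eq (Dr_left ℓ _ _ _))
    have := D_ret ℓ (pieceSet V1 p.2) (p.1⁻¹ * x) (p.1⁻¹ * y)
    unfold Dr; exact_mod_cast this
  · rintro p ⟨x, hx⟩
    apply Subtype.ext
    change ret (pieceSet V1 p.2) (p.1⁻¹ * (p.1 * x)) = x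
    rw [inv_mul_cancel_left]
    exact ret_of_Sub hx
  · rintro ⟨g, _ | v⟩ x hx
    · refine ⟨⟨g⁻¹ * x, hx⟩, ?_⟩
      change Dr ℓ x (g * (g⁻¹ * x)) ≤ N
      rw [mul_inv_cancel_left, (isDist_Dr ℓ).self]
      positivity
    · have hx1 : g⁻¹ * x ∈ St Γ G v.1 :=
        car_mul_mem (J := hyp v.1 g) (mem_car_hyp _ _) hx
      obtain ⟨m, hm, hk⟩ := St_decomp hx1
      refine ⟨⟨of Γ G v.1 (rho v.1 (g⁻¹ * x)), of_mem_Sub (Set.mem_singleton v.1) _⟩, ?_⟩
      change Dr ℓ x (g * of Γ G v.1 (rho v.1 (g⁻¹ * x))) ≤ N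
      have hx2 : x = g * of Γ G v.1 (rho v.1 (g⁻¹ * x)) * m := by
        rw [mul_assoc, ← hk, mul_inv_cancel_left]
      have h3 := hN' v.1 v.2 m hm
      rw [(isDist_Dr ℓ).symm]
      have h4 := Dr_left ℓ (g * of Γ G v.1 (rho v.1 (g⁻¹ * x))) 1 m
      rw [mul_one, ← hx2] at h4
      rw [h4]; exact h3
  · rintro ⟨g, _ | v⟩ z hz
    · -- the coset of `Sub V1ᶜ`
      have hz' : g⁻¹ * z ∉ Sub Γ G V1ᶜ := hz
      obtain ⟨e, v, hv, he1, he2, he3⟩ := first_V1 ℓ V1 hz'
      set J : Hyp Γ G := hyp v e with hJ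
      have heJ : e ∈ car J := mem_car_hyp _ _
      refine ⟨{x | crd J x ≠ crd J e}, {x | x ∈ car J ∧ crd J x = crd J e}, he3.symm, ?_, ?_, ?_,
        ?_⟩
      · rintro x ⟨hx1, hx2⟩
        change g⁻¹ * x ∈ Sub Γ G V1ᶜ
        have h3 : e⁻¹ * x ∈ Sub Γ G {w | Γ.Adj J.1 w} := link_of_crd_eq heJ hx1 hx2.symm
        have h4 : e⁻¹ * x ∈ Sub Γ G V1ᶜ :=
          Sub_mono (fun w hw hw1 => h2 v hv w hw1 hw) h3
        have h5 : g⁻¹ * x = g⁻¹ * e * (e⁻¹ * x) := by group
        rw [h5]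
        exact mul_mem he1 h4
      · rintro x ⟨hx1, hx2⟩ x' ⟨hx1', hx2'⟩
        exact hδ J hv x hx1 x' hx1' (hx2.trans hx2'.symm)
      · rintro x ⟨hx1, hx2⟩
        exfalso
        apply hx2
        have hx1 : g⁻¹ * x ∈ Sub Γ G V1ᶜ := hx1
        have h5 : x = e * ((g⁻¹ * e)⁻¹ * (g⁻¹ * x)) := by group
        rw [h5]
        exact crd_mul_Sub (Δ := V1ᶜ) (fun h => h hv) (mul_mem (inv_mem he1) hx1) e
      · intro x hx x' hx'
        simp only [Set.mem_ofPred_eq, not_not] at hx hx'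
        obtain ⟨m, hm1, hm2, hm3⟩ := cut_pt ℓ (J := J) (a := x') (b := x)
          (by rw [hx']; exact hx.symm)
        refine ⟨m, ⟨hm1, hm2.trans hx'⟩, ?_, ?_⟩
        · rw [(isDist_Dr ℓ).symm x m, (isDist_Dr ℓ).symm x x']
          unfold Dr; rw [hm3]; push_cast
          linarith [Nat.cast_nonneg (α := ℝ) (D ℓ x' m)]
        · rw [(isDist_Dr ℓ).symm x x']
          unfold Dr; rw [hm3]; push_cast
          linarith [Nat.cast_nonneg (α := ℝ) (D ℓ m x)]
    · set J : Hyp Γ G := hyp v.1 g with hJ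
      refine ⟨{x | crd J x = crd J z}, {x | x ∈ car J ∧ crd J x = crd J z}, rfl, ?_, ?_, ?_, ?_⟩
      · rintro x ⟨hx1, hx2⟩
        exact hx1
      · rintro x ⟨hx1, hx2⟩ x' ⟨hx1', hx2'⟩
        exact hδ J v.2 x hx1 x' hx1' (hx2.trans hx2'.symm)
      · rintro x ⟨hx1, hx2⟩
        exact ⟨hx1, hx2⟩
      · intro x hx x' hx'
        simp only [Set.mem_ofPred_eq] at hx hx'
        obtain ⟨m, hm1, hm2, hm3⟩ := cut_pt ℓ (J := J) (a := x) (b := x')
          (by rw [hx]; exact fun h => hx' h.symm)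
        refine ⟨m, ⟨hm1, hm2.trans hx⟩, ?_, ?_⟩
        · unfold Dr; rw [hm3]; push_cast
          linarith [Nat.cast_nonneg (α := ℝ) (D ℓ m x')]
        · rw [(isDist_Dr ℓ).symm x' m]
          unfold Dr; rw [hm3]; push_cast
          linarith [Nat.cast_nonneg (α := ℝ) (D ℓ x m)]
  · intro x y
    obtain ⟨K, f, U, hC, hP, _⟩ := cutSeq_exists ℓ V1 h2 N hδ _ x y rfl
    exact ⟨K, f, U, hC, hP⟩

end GraphProduct

end Pool.Agent.MLG
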