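import Mathlib
import Pool.Agent.MLG.Defs

/-!
# Morse local-to-global for tree-graded unions of pieces
-/

namespace Pool.Agent.MLG

section Basic

variable {X : Type*} {d : X → X → ℝ}

theorem DQG.close (hd : IsDist d) {l e r : ℝ} {w w' : ℕ → X} {i j : ℕ}
    (h : DQG d l e w i j) (hc : ∀ k, i ≤ k → k ≤ j → d (w' k) (w k) ≤ r) :
    DQG d l (e + 2 * r) w' i j := by
  intro a b ha hab hb
  have h1 := h a b ha hab hb
  have ha' := hc a ha (hab.trans hb)
  have hb' := hc b (ha.trans hab) hb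
  have t1 := hd.tri (w a) (w' a) (w b)
  have t2 := hd.tri (w' a) (w' b) (w b)
  have t3 := hd.tri (w' a) (w a) (w' b)
  have t4 := hd.tri (w a) (w b) (w' b)
  have s1 := hd.symm (w a) (w' a)
  have s2 := hd.symm (w b) (w' b)
  constructor <;> linarith [h1.1, h1.2]

theorem DQG.sub {l e : ℝ} {w : ℕ → X} {i j i' j' : ℕ} (h : DQG d l e w i j) (hi : i ≤ i')
    (hj : j' ≤ j) : DQG d l e w i' j' :=
  fun a b ha hab hb => h a b (hi.trans ha) hab (hb.trans hj)

theorem DQG.reverse (hd : IsDist d) {l e : ℝ} {w : ℕ → X} {m : ℕ} (h : DQG d l e w 0 m) :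
    DQG d l e (fun k => w (m - k)) 0 m := by
  intro a b _ hab hb
  have h1 := h (m - b) (m - a) (Nat.zero_le _) (by omega) (by omega)
  have e1 : (((m - a : ℕ) : ℝ) - ((m - b : ℕ) : ℝ)) = (b : ℝ) - a := by
    rw [Nat.cast_sub (hab.trans hb), Nat.cast_sub hb]; ring
  rw [e1] at h1
  show _ ≤ d (w (m - a)) (w (m - b)) ∧ d (w (m - a)) (w (m - b)) ≤ _
  rw [hd.symm (w (m - a)) (w (m - b))]
  exact h1

theorem DQG.shift {l e : ℝ} {w : ℕ → X} {i a b : ℕ} (h : DQG d l e w (i + a) (i + b)) :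
    DQG d l e (fun k => w (i + k)) a b := by
  intro s t hs hst ht
  have h1 := h (i + s) (i + t) (by omega) (by omega) (by omega)
  have e1 : (((i + t : ℕ) : ℝ) - ((i + s : ℕ) : ℝ)) = (t : ℝ) - s := by
    push_cast; ring
  rw [e1] at h1
  exact h1

theorem DQG.unshift {l e : ℝ} {w : ℕ → X} {i j : ℕ} (hij : i ≤ j)
    (h : DQG d l e (fun k => w (i + k)) 0 (j - i)) : DQG d l e w i j := by
  intro s t hs hst ht
  have h1 := h (s - i) (t - i) (by omega) (by omega) (by omega)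
  have e1 : (((t - i : ℕ) : ℝ) - ((s - i : ℕ) : ℝ)) = (t : ℝ) - s := by
    rw [Nat.cast_sub (hs.trans hst), Nat.cast_sub hs]; ring
  have e2 : i + (s - i) = s := by omega
  have e3 : i + (t - i) = t := by omega
  simp only [e1, e2, e3] at h1
  exact h1

theorem DMorse.shift {M : ℝ → ℝ → ℝ} {w : ℕ → X} {i a b : ℕ}
    (h : DMorse d M w (i + a) (i + b)) : DMorse d M (fun k => w (i + k)) a b := by
  intro l e hl he z m hz h0 hm p hp
  obtain ⟨s, hs1, hs2, hs3⟩ := h0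
  obtain ⟨t, ht1, ht2, ht3⟩ := hm
  obtain ⟨q, hq1, hq2, hq3⟩ := h l e hl he z m hz ⟨i + s, by omega, by omega, hs3⟩
    ⟨i + t, by omega, by omega, ht3⟩ p hp
  refine ⟨q - i, by omega, by omega, ?_⟩
  have e3 : i + (q - i) = q := by omega
  simp only [e3]
  exact hq3

theorem DMorse.unshift {M : ℝ → ℝ → ℝ} {w : ℕ → X} {i j : ℕ} (hij : i ≤ j)
    (h : DMorse d M (fun k => w (i + k)) 0 (j - i)) : DMorse d M w i j := by
  intro l e hl he z m hz h0 hm p hp
  obtain ⟨s, hs1, hs2, hs3⟩ := h0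
  obtain ⟨t, ht1, ht2, ht3⟩ := hm
  have e1 : i + (s - i) = s := by omega
  have e2 : i + (t - i) = t := by omega
  obtain ⟨q, hq1, hq2, hq3⟩ := h l e hl he z m hz ⟨s - i, by omega, by omega, by
    simp only [e1]; exact hs3⟩ ⟨t - i, by omega, by omega, by simp only [e2]; exact ht3⟩ p hp
  exact ⟨i + q, by omega, by omega, hq3⟩

theorem chain_dist (hd : IsDist d) {w : ℕ → X} {i j : ℕ} {c : ℝ}
    (h : ∀ k, i ≤ k → k < j → d (w k) (w (k + 1)) ≤ c) :
    ∀ a b, i ≤ a → a ≤ b → b ≤ j → d (w a) (w b) ≤ c * ((b : ℝ) - a) := by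
  intro a b ha hab
  induction b, hab using Nat.le_induction with
  | base => intro _; rw [hd.self]; simp
  | succ b hab ih =>
    intro hb
    have h1 := ih (by omega)
    have h2 := h b (by omega) (by omega)
    have h3 := hd.tri (w a) (w b) (w (b + 1))
    push_cast
    linarith

theorem run_left (w : ℕ → X) (B : Set X) (i : ℕ) :
    ∀ k, i ≤ k → w k ∈ B → ∃ k1, i ≤ k1 ∧ k1 ≤ k ∧ w k1 ∈ B ∧
      (k1 = i ∨ (i < k1 ∧ w (k1 - 1) ∉ B)) := by
  intro k hk
  induction k, hk using Nat.le_induction with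
  | base => intro h; exact ⟨i, le_rfl, le_rfl, h, Or.inl rfl⟩
  | succ k hk ih =>
    intro h
    by_cases hB : w k ∈ B
    · obtain ⟨k1, h1, h2, h3, h4⟩ := ih hB
      exact ⟨k1, h1, by omega, h3, h4⟩
    · exact ⟨k + 1, by omega, le_rfl, h, Or.inr ⟨by omega, by simpa using hB⟩⟩

theorem run_right (w : ℕ → X) (B : Set X) (k j : ℕ) (hkj : k ≤ j) (h : w k ∈ B) :
    ∃ k2, k ≤ k2 ∧ k2 ≤ j ∧ w k2 ∈ B ∧ (k2 = j ∨ (k2 < j ∧ w (k2 + 1) ∉ B)) := by
  induction j, hkj using Nat.le_induction with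
  | base => exact ⟨k, le_rfl, le_rfl, h, Or.inl rfl⟩
  | succ j hkj ih =>
    obtain ⟨k2, h1, h2, h3, h4⟩ := ih
    rcases h4 with h4 | ⟨h4, h5⟩
    · subst h4
      by_cases hB : w (k2 + 1) ∈ B
      · exact ⟨k2 + 1, by omega, le_rfl, hB, Or.inl rfl⟩
      · exact ⟨k2, h1, by omega, h3, Or.inr ⟨by omega, hB⟩⟩
    · exact ⟨k2, h1, by omega, h3, Or.inr ⟨by omega, h5⟩⟩

theorem exists_between (σ : ℕ → ℕ) (t : ℕ) : ∀ K, 1 ≤ K → σ 0 ≤ t → t ≤ σ K →
    ∃ k < K, σ k ≤ t ∧ t ≤ σ (k + 1) := by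
  intro K hK
  induction K, hK using Nat.le_induction with
  | base => intro h0 h1; exact ⟨0, by omega, h0, by simpa using h1⟩
  | succ K hK ih =>
    intro h0 h1
    by_cases h : t ≤ σ K
    · obtain ⟨k, hk, h2, h3⟩ := ih h0 h
      exact ⟨k, by omega, h2, h3⟩
    · exact ⟨K, by omega, by omega, h1⟩

end Basic

section Cut

variable {X : Type*} {d : X → X → ℝ}

/-- Exit times of a sequence with bounded jumps through a sequence of cuts. -/
theorem exit_times (hd : IsDist d) {δ : ℝ} (hδ : 0 ≤ δ) {x x' : X} {K : ℕ} {f : ℕ → X}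
    {U : ℕ → Set X} (hC : CutSeq d δ x x' K f U) (w : ℕ → X) (i j : ℕ) (hij : i ≤ j)
    (hi : w i = x) (hj : w j = x') {c : ℝ} (hc : 0 ≤ c)
    (hjump : ∀ k, i ≤ k → k < j → d (w k) (w (k + 1)) ≤ c) :
    ∃ τ : ℕ → ℕ, τ 0 = i ∧ τ K = j ∧ (∀ k < K, τ k ≤ τ (k + 1)) ∧
      ∀ k ≤ K, d (w (τ k)) (f k) ≤ c + δ := by
  classical
  have hex : ∀ k, 1 ≤ k → k < K → ∃ t, i ≤ t ∧ w t ∉ U k := fun k h1 h2 =>
    ⟨j, hij, by rw [hj]; exact hC.notMem k h1 h2⟩
  have hpos := hC.pos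
  let τ : ℕ → ℕ := fun k => if h : 1 ≤ k ∧ k < K then Nat.find (hex k h.1 h.2) else
    if k = 0 then i else j
  have hτ0 : τ 0 = i := by simp [τ]
  have hτK : τ K = j := by
    have : K ≠ 0 := by omega
    simp [τ, this]
  have hτ : ∀ k (h1 : 1 ≤ k) (h2 : k < K), τ k = Nat.find (hex k h1 h2) := by
    intro k h1 h2
    simp only [τ]
    rw [dif_pos ⟨h1, h2⟩]
  have hspec : ∀ k, 1 ≤ k → k < K → i ≤ τ k ∧ w (τ k) ∉ U k := by
    intro k h1 h2
    rw [hτ k h1 h2]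
    exact Nat.find_spec (hex k h1 h2)
  have hmin : ∀ k, 1 ≤ k → k < K → ∀ t, i ≤ t → w t ∉ U k → τ k ≤ t := by
    intro k h1 h2 t ht1 ht2
    rw [hτ k h1 h2]
    exact Nat.find_min' (hex k h1 h2) ⟨ht1, ht2⟩
  refine ⟨τ, hτ0, hτK, ?_, ?_⟩
  · intro k hk
    rcases Nat.eq_zero_or_pos k with h0 | h0
    · subst h0
      rw [hτ0]
      by_cases h1 : 1 < K
      · exact (hspec 1 le_rfl h1).1
      · have : K = 1 := by omega
        rw [show (0 + 1) = K by omega, hτK]; exact hij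
    · by_cases h1 : k + 1 < K
      · apply hmin k h0 hk _ (hspec (k + 1) (by omega) h1).1
        intro h2
        exact (hspec (k + 1) (by omega) h1).2 (hC.mono k h0 h1 h2)
      · rw [show k + 1 = K by omega, hτK]
        apply hmin k h0 hk _ hij
        rw [hj]; exact hC.notMem k h0 hk
  · intro k hk
    rcases Nat.eq_zero_or_pos k with h0 | h0
    · subst h0
      rw [hτ0, hC.zero, hi, hd.self]; linarith
    · rcases Nat.lt_or_ge k K with h1 | h1
      · obtain ⟨h2, h3⟩ := hspec k h0 h1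
        have h4 : τ k ≠ i := by
          intro h
          rw [h, hi] at h3
          exact h3 (hC.mem k h0 h1)
        have h5 : τ k ≤ j := hmin k h0 h1 j hij (by rw [hj]; exact hC.notMem k h0 h1)
        have h6 : w (τ k - 1) ∈ U k := by
          by_contra h
          have := hmin k h0 h1 (τ k - 1) (by omega) h
          omega
        have h7 := (hC.cut k h0 h1 _ h6 _ h3).2
        have h8 := hjump (τ k - 1) (by omega) (by omega)
        rw [show τ k - 1 + 1 = τ k by omega] at h8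
        linarith
      · have h2 : k = K := le_antisymm hk h1
        subst h2
        rw [hτK, hC.last, hj, hd.self]; linarith

theorem sum_exit {K : ℕ} {τ : ℕ → ℕ} {i j : ℕ} (h0 : τ 0 = i) (hK : τ K = j) :
    ((j : ℝ) - i) = ∑ k ∈ Finset.range K, ((τ (k + 1) : ℝ) - τ k) := by
  rw [Finset.sum_range_sub (fun k => (τ k : ℝ)), h0, hK]

theorem exit_mono {K : ℕ} {τ : ℕ → ℕ} (hm : ∀ k < K, τ k ≤ τ (k + 1)) :
    ∀ a b, a ≤ b → b ≤ K → τ a ≤ τ b := by
  intro a b hab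
  induction b, hab using Nat.le_induction with
  | base => intro _; exact le_rfl
  | succ b hab ih => intro hb; exact (ih (by omega)).trans (hm b (by omega))

end Cut

section Piece

variable {X : Type*} {d : X → X → ℝ} {δ : ℝ} {ι : Type*} {Y : ι → Type*}
  {dY : ∀ a, Y a → Y a → ℝ}

theorem excursion (hd : IsDist d) (hδ : 0 ≤ δ) (D : PieceData d δ Y dY) (p : D.Idx)
    (w : ℕ → X) (i j : ℕ) {c c' : ℝ} (hcc : c ≤ c')
    (hjump : ∀ k, i ≤ k → k < j → d (w k) (w (k + 1)) ≤ c) {x x' : X} (hx : x ∈ D.P p)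
    (hx' : x' ∈ D.P p) (hxi : d (w i) x ≤ c') (hxj : d (w j) x' ≤ c') (k : ℕ) (hik : i ≤ k)
    (hkj : k ≤ j) :
    ∃ k1 k2 e1 e2, i ≤ k1 ∧ k1 ≤ k ∧ k ≤ k2 ∧ k2 ≤ j ∧ e1 ∈ D.P p ∧ e2 ∈ D.P p ∧
      d (w k1) e1 ≤ c' ∧ d (w k2) e2 ≤ c' ∧ d e1 e2 ≤ δ := by
  have hc' : 0 ≤ c' := (hd.nonneg _ _).trans hxi
  by_cases hP : w k ∈ D.P p
  · exact ⟨k, k, w k, w k, hik, le_rfl, le_rfl, hkj, hP, hP, by rw [hd.self]; exact hc',
      by rw [hd.self]; exact hc', by rw [hd.self]; exact hδ⟩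
  · obtain ⟨B, E, hB, hE, hdiam, hPB, hcross⟩ := D.branch p _ hP
    obtain ⟨k1, h1, h2, h3, h4⟩ := run_left w B i k hik hB
    obtain ⟨k2, g1, g2, g3, g4⟩ := run_right w B k j hkj hB
    have hL : ∃ e1 ∈ E, d (w k1) e1 ≤ c' := by
      rcases h4 with h4 | ⟨h4, h5⟩
      · subst h4
        by_cases hxB : x ∈ B
        · exact ⟨x, hPB ⟨hx, hxB⟩, hxi⟩
        · obtain ⟨e, he, h6, _⟩ := hcross _ h3 _ hxB
          exact ⟨e, he, h6.trans hxi⟩
      · obtain ⟨e, he, h6, _⟩ := hcross _ h3 _ h5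
        have h7 := hjump (k1 - 1) (by omega) (by omega)
        rw [show k1 - 1 + 1 = k1 by omega, hd.symm] at h7
        exact ⟨e, he, by linarith⟩
    have hR : ∃ e2 ∈ E, d (w k2) e2 ≤ c' := by
      rcases g4 with g4 | ⟨g4, g5⟩
      · subst g4
        by_cases hxB : x' ∈ B
        · exact ⟨x', hPB ⟨hx', hxB⟩, hxj⟩
        · obtain ⟨e, he, h6, _⟩ := hcross _ g3 _ hxB
          exact ⟨e, he, h6.trans hxj⟩
      · obtain ⟨e, he, h6, _⟩ := hcross _ g3 _ g5
        have h7 := hjump k2 (by omega) g4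
        exact ⟨e, he, by linarith⟩
    obtain ⟨e1, he1, h8⟩ := hL
    obtain ⟨e2, he2, h9⟩ := hR
    exact ⟨k1, k2, e1, e2, h1, h2, g1, g2, hE he1, hE he2, h8, h9, hdiam e1 he1 e2 he2⟩

theorem near_ret (hd : IsDist d) (D : PieceData d δ Y dY) (p : D.Idx)
    {x e : X} {r : ℝ} (he : e ∈ D.P p) (hr : d x e ≤ r) :
    d x (D.emb p (D.ret p x)) ≤ 2 * (r + δ) := by
  obtain ⟨v, hv⟩ := D.dense p e he
  have h1 : d x (D.emb p v) ≤ r + δ := (hd.tri _ _ _).trans (add_le_add hr hv)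
  have h2 := D.ret_lip p x (D.emb p v)
  rw [D.ret_emb] at h2
  rw [← D.emb_isom] at h2
  have h3 := hd.tri x (D.emb p v) (D.emb p (D.ret p x))
  rw [hd.symm (D.emb p v)] at h3
  linarith

/-- A sequence with bounded jumps whose ends are near the piece `p`, and all of whose returns are
short, stays near its retraction. -/
theorem near_piece (hd : IsDist d) (hδ : 0 ≤ δ) (D : PieceData d δ Y dY) (p : D.Idx)
    (w : ℕ → X) (i j : ℕ) {c c' N : ℝ} (hc : 0 ≤ c) (hcc : c ≤ c')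
    (hjump : ∀ k, i ≤ k → k < j → d (w k) (w (k + 1)) ≤ c) {x x' : X} (hx : x ∈ D.P p)
    (hx' : x' ∈ D.P p) (hxi : d (w i) x ≤ c') (hxj : d (w j) x' ≤ c')
    (hshort : ∀ a b, i ≤ a → a ≤ b → b ≤ j → d (w a) (w b) ≤ 2 * c' + δ → (b : ℝ) - a ≤ N)
    (k : ℕ) (hik : i ≤ k) (hkj : k ≤ j) :
    d (w k) (D.emb p (D.ret p (w k))) ≤ 2 * (c * N + c' + δ) := by
  obtain ⟨k1, k2, e1, e2, h1, h2, h3, h4, he1, he2, h5, h6, h7⟩ :=
    excursion hd hδ D p w i j hcc hjump hx hx' hxi hxj k hik hkj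
  have h8 : d (w k1) (w k2) ≤ 2 * c' + δ := by
    have t1 := hd.tri (w k1) e1 (w k2)
    have t2 := hd.tri e1 e2 (w k2)
    rw [hd.symm e2] at t2
    linarith
  have h9 := hshort k1 k2 h1 (h2.trans h3) h4 h8
  have h10 := chain_dist hd hjump k1 k h1 h2 hkj
  have h11 : ((k : ℝ) - k1) ≤ N := by
    have : (k : ℝ) ≤ k2 := by exact_mod_cast h3
    linarith
  have h12 : d (w k) e1 ≤ c * N + c' := by
    have t1 := hd.tri (w k) (w k1) e1
    have s1 := hd.symm (w k) (w k1)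
    have := mul_le_mul_of_nonneg_left h11 hc
    linarith
  exact near_ret hd D p he1 h12

theorem ret_DQG (hd : IsDist d) (D : PieceData d δ Y dY) (p : D.Idx) {w : ℕ → X}
    {i j : ℕ} {l e r : ℝ} (h : DQG d l e w i j)
    (hn : ∀ k, i ≤ k → k ≤ j → d (w k) (D.emb p (D.ret p (w k))) ≤ r) :
    DQG (dY (D.ty p)) l (e + 2 * r) (fun k => D.ret p (w k)) i j := by
  have h1 : DQG d l (e + 2 * r) (fun k => D.emb p (D.ret p (w k))) i j :=
    DQG.close hd h (fun k h1 h2 => by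
      show d (D.emb p (D.ret p (w k))) (w k) ≤ r
      rw [hd.symm]; exact hn k h1 h2)
  intro a b ha hab hb
  have h2 := h1 a b ha hab hb
  simp only [D.emb_isom] at h2
  exact h2

theorem ret_DMorse (hd : IsDist d) (D : PieceData d δ Y dY) (p : D.Idx)
    {w : ℕ → X} {i j : ℕ} {M : ℝ → ℝ → ℝ} {r : ℝ} (hr : 0 ≤ r) (h : DMorse d M w i j)
    (hn : ∀ k, i ≤ k → k ≤ j → d (w k) (D.emb p (D.ret p (w k))) ≤ r) :
    DMorse (dY (D.ty p)) (fun l e => M l (e + 2 * r) + r) (fun k => D.ret p (w k)) i j := by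
  intro l e hl he z m hz h0 hm q hq
  obtain ⟨a, ha1, ha2, ha3⟩ := h0
  obtain ⟨b, hb1, hb2, hb3⟩ := hm
  let z' : ℕ → X := fun k => if k = 0 then w a else if k = m then w b else D.emb p (z k)
  have hclose : ∀ k, 0 ≤ k → k ≤ m → d (z' k) (D.emb p (z k)) ≤ r := by
    intro k _ hk
    simp only [z']
    split_ifs with h1 h2
    · subst h1; rw [ha3]; exact hn a ha1 ha2
    · subst h2; rw [hb3]; exact hn b hb1 hb2
    · rw [hd.self]; exact hr
  have hzX : DQG d l e (fun k => D.emb p (z k)) 0 m := by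
    intro s t hs hst ht
    have := hz s t hs hst ht
    simp only [D.emb_isom]
    exact this
  have hz' : DQG d l (e + 2 * r) z' 0 m := DQG.close hd hzX hclose
  have h0' : ∃ a, i ≤ a ∧ a ≤ j ∧ z' 0 = w a := ⟨a, ha1, ha2, by simp [z']⟩
  have hm' : ∃ b, i ≤ b ∧ b ≤ j ∧ z' m = w b := by
    by_cases hm0 : m = 0
    · exact ⟨a, ha1, ha2, by simp [z', hm0]⟩
    · exact ⟨b, hb1, hb2, by simp [z', hm0]⟩
  obtain ⟨s, hs1, hs2, hs3⟩ := h l (e + 2 * r) hl (by linarith) z' m hz' h0' hm' q hq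
  refine ⟨s, hs1, hs2, ?_⟩
  have h1 := D.ret_lip p (D.emb p (z q)) (w s)
  rw [D.ret_emb] at h1
  have h2 := hd.tri (D.emb p (z q)) (z' q) (w s)
  have h3 := hclose q (Nat.zero_le _) hq
  rw [hd.symm] at h3
  show dY (D.ty p) (z q) (D.ret p (w s)) ≤ _
  linarith

end Piece

section Main

variable {X : Type*} {d : X → X → ℝ} {δ : ℝ} {ι : Type*} {Y : ι → Type*}
  {dY : ∀ a, Y a → Y a → ℝ}

/-- The window hypothesis: `y` is a local Morse quasi-geodesic on `i..j` at scale `L`. -/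
def Win (d : X → X → ℝ) (L : ℕ) (M : ℝ → ℝ → ℝ) (lam eps : ℝ) (y : ℕ → X) (i j : ℕ) : Prop :=
  ∀ a b : ℕ, i ≤ a → a ≤ b → b ≤ j → b ≤ a + L → DQG d lam eps y a b ∧ DMorse d M y a b

theorem Win.jump {L : ℕ} {M : ℝ → ℝ → ℝ} {lam eps : ℝ} {y : ℕ → X} {i j : ℕ} (hL : 1 ≤ L)
    (h : Win d L M lam eps y i j) :
    ∀ k, i ≤ k → k < j → d (y k) (y (k + 1)) ≤ lam + eps := by
  intro k h1 h2
  have := ((h k (k + 1) h1 (by omega) (by omega) (by omega)).1 k (k + 1) le_rfl (by omega)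
    le_rfl).2
  push_cast at this
  have e : lam * ((k : ℝ) + 1 - k) = lam := by ring
  rw [e] at this
  exact this

theorem Win.sub {L : ℕ} {M : ℝ → ℝ → ℝ} {lam eps : ℝ} {y : ℕ → X} {i j i' j' : ℕ}
    (h : Win d L M lam eps y i j) (hi : i ≤ i') (hj : j' ≤ j) : Win d L M lam eps y i' j' :=
  fun a b ha hab hb hL => h a b (hi.trans ha) hab (hb.trans hj) hL

/-- The constant `N`: bound for the length of an excursion out of a piece. -/
noncomputable def cN (δ lam eps c' : ℝ) : ℝ := lam * (2 * c' + δ + eps)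

/-- The constant `K3`: distance of a sequence to its retraction to the piece. -/
noncomputable def cK (δ lam eps c' : ℝ) : ℝ := 2 * ((lam + eps) * cN δ lam eps c' + c' + δ)

theorem cK_nonneg {δ lam eps c' : ℝ} (hδ : 0 ≤ δ) (hl : 1 ≤ lam) (he : 0 ≤ eps) (hc : 0 ≤ c') :
    0 ≤ cK δ lam eps c' := by
  unfold cK cN
  positivity

/-- The piece lemma. -/
theorem piece_lemma (hd : IsDist d) (hδ : 0 ≤ δ)
    (D : PieceData d δ Y dY) {lam eps : ℝ} {M : ℝ → ℝ → ℝ} (hlam : 1 ≤ lam) (heps : 0 ≤ eps)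
    {L : ℕ} (hL1 : 1 ≤ L) (p : D.Idx) {La : ℕ} (hLa : La ≤ L) {Ma : ℝ → ℝ → ℝ} {la ea : ℝ}
    (hYp : ∀ (y : ℕ → Y (D.ty p)) (n : ℕ),
      DLocal (dY (D.ty p)) La
        (fun l e => M l (e + 2 * cK δ lam eps (lam + eps + δ)) + cK δ lam eps (lam + eps + δ))
        lam (eps + 2 * cK δ lam eps (lam + eps + δ)) y n →
        DQG (dY (D.ty p)) la ea y 0 n ∧ DMorse (dY (D.ty p)) Ma y 0 n)
    (y : ℕ → X) (i j : ℕ) (hij : i ≤ j) (hy : Win d L M lam eps y i j)
    (hs : ∀ a b, i ≤ a → a ≤ b → b ≤ j →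
      d (y a) (y b) ≤ 2 * (lam + eps + δ) + δ → b ≤ a + L)
    {x x' : X} (hx : x ∈ D.P p) (hx' : x' ∈ D.P p) (hxi : d (y i) x ≤ lam + eps + δ)
    (hxj : d (y j) x' ≤ lam + eps + δ) :
    (∀ k, i ≤ k → k ≤ j →
      d (y k) (D.emb p (D.ret p (y k))) ≤ cK δ lam eps (lam + eps + δ)) ∧
    DQG (dY (D.ty p)) la ea (fun k => D.ret p (y k)) i j ∧
    DMorse (dY (D.ty p)) Ma (fun k => D.ret p (y k)) i j := by
  have hlam0 : 0 < lam := by linarith
  have hnear : ∀ k, i ≤ k → k ≤ j →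
      d (y k) (D.emb p (D.ret p (y k))) ≤ cK δ lam eps (lam + eps + δ) := by
    intro k hik hkj
    refine near_piece (c := lam + eps) (c' := lam + eps + δ)
      (N := cN δ lam eps (lam + eps + δ)) hd hδ D p y i j (by linarith) (by linarith)
      (hy.jump hL1) hx hx' hxi hxj ?_ k hik hkj
    intro a b ha hab hb hdist
    have h1 := hs a b ha hab hb hdist
    have h2 := ((hy a b ha hab hb h1).1 a b le_rfl hab le_rfl).1
    have h3 : ((b : ℝ) - a) / lam ≤ 2 * (lam + eps + δ) + δ + eps := by linarith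
    rw [div_le_iff₀ hlam0] at h3
    unfold cN
    linarith
  have hK : 0 ≤ cK δ lam eps (lam + eps + δ) := cK_nonneg hδ hlam heps (by linarith)
  have hloc : DLocal (dY (D.ty p)) La
        (fun l e => M l (e + 2 * cK δ lam eps (lam + eps + δ)) + cK δ lam eps (lam + eps + δ))
        lam (eps + 2 * cK δ lam eps (lam + eps + δ)) (fun k => D.ret p (y (i + k))) (j - i) := by
    intro a b hab hb hLb
    have h1 := hy (i + a) (i + b) (by omega) (by omega) (by omega) (by omega)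
    constructor
    · have h2 := ret_DQG hd D p h1.1 (fun k h3 h4 => hnear k (by omega) (by omega))
      exact DQG.shift (w := fun k => D.ret p (y k)) h2
    · have h2 := ret_DMorse hd D p hK h1.2 (fun k h3 h4 => hnear k (by omega) (by omega))
      exact DMorse.shift (w := fun k => D.ret p (y k)) h2
  obtain ⟨h1, h2⟩ := hYp _ _ hloc
  exact ⟨hnear, DQG.unshift (w := fun k => D.ret p (y k)) hij h1,
    DMorse.unshift (w := fun k => D.ret p (y k)) hij h2⟩

theorem fin_bound {ι : Type*} [Finite ι] (f : ι → ℝ) : ∃ B : ℝ, 0 ≤ B ∧ ∀ a, f a ≤ B := by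
  obtain ⟨B, hB⟩ := (Set.finite_range f).bddAbove
  exact ⟨max B 0, le_max_right _ _, fun a => (hB (Set.mem_range_self a)).trans (le_max_left _ _)⟩

theorem fin_bound_nat {ι : Type*} [Finite ι] (f : ι → ℕ) : ∃ B : ℕ, ∀ a, f a ≤ B := by
  obtain ⟨B, hB⟩ := (Set.finite_range f).bddAbove
  exact ⟨B, fun a => hB (Set.mem_range_self a)⟩

/-- Linear lower bound for the distance along `y`, by induction on the length. -/
theorem claim_lemma (hd : IsDist d) (hδ : 0 ≤ δ)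
    (D : PieceData d δ Y dY) {n : ℕ} {y : ℕ → X} {κ C1 : ℝ} (hκ : 0 ≤ κ) (hC1 : 0 ≤ C1)
    (hjump : ∀ k, k < n → d (y k) (y (k + 1)) ≤ κ) {L : ℕ}
    (hL : 3 * C1 * (2 * (κ + δ) + δ + κ) + C1 + 1 ≤ L)
    (hseg : ∀ (p : D.Idx) (i j : ℕ), i ≤ j → j ≤ n →
      (∀ a b, i ≤ a → a ≤ b → b ≤ j → d (y a) (y b) ≤ 2 * (κ + δ) + δ → b ≤ a + L) →
      ∀ x ∈ D.P p, ∀ x' ∈ D.P p, d (y i) x ≤ κ + δ → d (y j) x' ≤ κ + δ →
        ((j : ℝ) - i) ≤ C1 * (d x x' + 1)) :
    ∀ m i j, i ≤ j → j ≤ n → j - i = m → ((j : ℝ) - i) ≤ 3 * C1 * d (y i) (y j) + C1 := by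
  intro m
  induction m using Nat.strong_induction_on with
  | _ m ih =>
    intro i j hij hjn hm
    have hCC : 0 ≤ 3 * C1 := by linarith
    have hshort : ∀ a b, i ≤ a → a ≤ b → b ≤ j → d (y a) (y b) ≤ 2 * (κ + δ) + δ →
        b ≤ a + L := by
      intro a b ha hab hb hdist
      have hcast : ∀ N : ℕ, (N : ℝ) ≤ L → N ≤ L := fun N h => by exact_mod_cast h
      by_cases h1 : b - a < m
      · have h2 := ih (b - a) h1 a b hab (hb.trans hjn) rfl
        have h3 : 3 * C1 * d (y a) (y b) ≤ 3 * C1 * (2 * (κ + δ) + δ) :=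
          mul_le_mul_of_nonneg_left hdist hCC
        have h4 : 0 ≤ 3 * C1 * κ := mul_nonneg hCC hκ
        have h5 : ((b - a : ℕ) : ℝ) ≤ L := by
          rw [Nat.cast_sub hab]
          nlinarith
        have := hcast _ h5
        omega
      · by_cases h0 : m = 0
        · omega
        · have h2 := ih (b - 1 - a) (by omega) a (b - 1) (by omega) (by omega) rfl
          have h3 : d (y a) (y (b - 1)) ≤ 2 * (κ + δ) + δ + κ := by
            have t1 := hd.tri (y a) (y b) (y (b - 1))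
            have t2 := hjump (b - 1) (by omega)
            rw [show b - 1 + 1 = b by omega] at t2
            have t3 := hd.symm (y b) (y (b - 1))
            linarith
          have h4 := mul_le_mul_of_nonneg_left h3 hCC
          have h5 : ((b - a : ℕ) : ℝ) ≤ L := by
            rw [Nat.cast_sub hab]
            rw [Nat.cast_sub (show 1 ≤ b by omega)] at h2
            push_cast at h2
            linarith
          have := hcast _ h5
          omega
    obtain ⟨K, f, U, hC, hp⟩ := D.cuts (y i) (y j)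
    obtain ⟨τ, h0, hK, hmono, hnear⟩ := exit_times hd hδ hC y i j hij rfl rfl hκ
      (fun k _ h => hjump k (by omega))
    rw [sum_exit h0 hK]
    have hm' := exit_mono hmono
    have hstep : ∀ k ∈ Finset.range K, ((τ (k + 1) : ℝ) - τ k) ≤ C1 * (d (f k) (f (k + 1)) + 1) := by
      intro k hk
      rw [Finset.mem_range] at hk
      obtain ⟨p, hp1, hp2⟩ := hp k hk
      have hi1 : i ≤ τ k := by rw [← h0]; exact hm' 0 k (Nat.zero_le _) hk.le
      have hj1 : τ (k + 1) ≤ j := by rw [← hK]; exact hm' (k + 1) K hk le_rfl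
      exact hseg p (τ k) (τ (k + 1)) (hmono k hk) (hj1.trans hjn)
        (fun a b ha hab hb => hshort a b (hi1.trans ha) hab (hb.trans hj1)) _ hp1 _ hp2
        (hnear k hk.le) (hnear (k + 1) hk)
    refine (Finset.sum_le_sum hstep).trans ?_
    rw [← Finset.mul_sum, Finset.sum_add_distrib]
    have h6 : ∑ k ∈ Finset.range K, d (f k) (f (k + 1)) + ∑ k ∈ Finset.range K, (1 : ℝ) ≤
        3 * d (y i) (y j) + 1 := by
      have h7 := hC.sum
      have h8 := hC.card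
      simp only [Finset.sum_const, Finset.card_range, nsmul_eq_mul, mul_one]
      linarith
    have h9 := mul_le_mul_of_nonneg_left h6 hC1
    linarith

/-- The Morse part for a sequence whose endpoints are in the right order. -/
theorem morse_part (hd : IsDist d) (hδ : 0 ≤ δ)
    (D : PieceData d δ Y dY) {y : ℕ → X} {κ K3 : ℝ} (hκ : 0 ≤ κ) {i0 j0 : ℕ}
    (hij : i0 ≤ j0) (hjump : ∀ k, i0 ≤ k → k < j0 → d (y k) (y (k + 1)) ≤ κ)
    {Mm : ℝ → ℝ → ℝ}
    (hpiece : ∀ (p : D.Idx) (i j : ℕ), i0 ≤ i → i ≤ j → j ≤ j0 →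
      ∀ x ∈ D.P p, ∀ x' ∈ D.P p, d (y i) x ≤ κ + δ → d (y j) x' ≤ κ + δ →
        (∀ k, i ≤ k → k ≤ j → d (y k) (D.emb p (D.ret p (y k))) ≤ K3) ∧
        DMorse (dY (D.ty p)) Mm (fun k => D.ret p (y k)) i j)
    {l e : ℝ} (hl : 1 ≤ l) (he : 0 ≤ e) {z : ℕ → X} {m : ℕ} (hz : DQG d l e z 0 m)
    (hz0 : z 0 = y i0) (hzm : z m = y j0) (t : ℕ) (ht : t ≤ m) :
    ∃ q, i0 ≤ q ∧ q ≤ j0 ∧ d (z t) (y q) ≤
      cK δ l e (l + e + δ) + (l + e + κ + 2 * δ) +
        Mm l (e + 2 * cK δ l e (l + e + δ) + 2 * (l + e + κ + 2 * δ)) + K3 := by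
  have hl0 : 0 < l := by linarith
  have hzjump : ∀ k, 0 ≤ k → k < m → d (z k) (z (k + 1)) ≤ l + e := by
    intro k _ h
    have := (hz k (k + 1) (Nat.zero_le _) (by omega) (by omega)).2
    push_cast at this
    have e : l * ((k : ℝ) + 1 - k) = l := by ring
    rw [e] at this
    exact this
  obtain ⟨K, f, U, hC, hp⟩ := D.cuts (y i0) (y j0)
  obtain ⟨τ, h0, hK, hmono, hnear⟩ := exit_times hd hδ hC y i0 j0 hij rfl rfl hκ hjump
  obtain ⟨σ, g0, gK, gmono, gnear⟩ := exit_times hd hδ hC z 0 m (Nat.zero_le _) hz0 hzm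
    (show 0 ≤ l + e by linarith) hzjump
  have hm' := exit_mono hmono
  have gm' := exit_mono gmono
  obtain ⟨k, hk, hk1, hk2⟩ := exists_between σ t K hC.pos (by omega) (by omega)
  obtain ⟨p, hp1, hp2⟩ := hp k hk
  have hi1 : i0 ≤ τ k := by rw [← h0]; exact hm' 0 k (Nat.zero_le _) hk.le
  have hj1 : τ (k + 1) ≤ j0 := by rw [← hK]; exact hm' (k + 1) K hk le_rfl
  have gj1 : σ (k + 1) ≤ m := by rw [← gK]; exact gm' (k + 1) K hk le_rfl
  obtain ⟨hy1, hy2⟩ := hpiece p (τ k) (τ (k + 1)) hi1 (hmono k hk) hj1 _ hp1 _ hp2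
    (hnear k hk.le) (hnear (k + 1) hk)
  have hznear : ∀ s, σ k ≤ s → s ≤ σ (k + 1) →
      d (z s) (D.emb p (D.ret p (z s))) ≤ cK δ l e (l + e + δ) := by
    intro s hs1 hs2
    refine near_piece (c := l + e) (c' := l + e + δ) (N := cN δ l e (l + e + δ)) hd hδ D p z
      (σ k) (σ (k + 1)) (by linarith) (by linarith)
      (fun k' _ h => hzjump k' (Nat.zero_le _) (by omega)) hp1 hp2 (gnear k hk.le)
      (gnear (k + 1) hk) ?_ s hs1 hs2
    intro a b ha hab hb hdist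
    have h2 := (hz a b (Nat.zero_le _) hab (by omega)).1
    have h3 : ((b : ℝ) - a) / l ≤ 2 * (l + e + δ) + δ + e := by linarith
    rw [div_le_iff₀ hl0] at h3
    unfold cN
    linarith
  set K3' := cK δ l e (l + e + δ) with hK3'
  have hK3'0 : 0 ≤ K3' := cK_nonneg hδ hl he (by linarith)
  have hζ := ret_DQG hd D p (hz.sub (i' := σ k) (j' := σ (k + 1)) (Nat.zero_le _) gj1) hznear
  set m' := σ (k + 1) - σ k with hm'def
  have hζ' : DQG (dY (D.ty p)) l (e + 2 * K3') (fun s => D.ret p (z (σ k + s))) 0 m' := by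
    refine DQG.shift (w := fun s => D.ret p (z s)) (i := σ k) (a := 0) (b := m') ?_
    refine hζ.sub (by omega) (by omega)
  set r := l + e + κ + 2 * δ with hr
  have hr0 : 0 ≤ r := by rw [hr]; linarith
  let ζ : ℕ → Y (D.ty p) := fun s => if s = 0 then D.ret p (y (τ k)) else
    if s = m' then D.ret p (y (τ (k + 1))) else D.ret p (z (σ k + s))
  have hself : ∀ v, dY (D.ty p) v v = 0 := by
    intro v; rw [← D.emb_isom, hd.self]
  have hsymm : ∀ v w, dY (D.ty p) v w = dY (D.ty p) w v := by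
    intro v w; rw [← D.emb_isom, ← D.emb_isom, hd.symm]
  have hend : ∀ k ≤ K, d (y (τ k)) (z (σ k)) ≤ r := by
    intro k hk
    have t1 := hd.tri (y (τ k)) (f k) (z (σ k))
    have t2 := hnear k hk
    have t3 := gnear k hk
    have t4 := hd.symm (f k) (z (σ k))
    rw [hr]
    linarith
  have hclose : ∀ s, 0 ≤ s → s ≤ m' → dY (D.ty p) (ζ s) (D.ret p (z (σ k + s))) ≤ r := by
    intro s _ hs
    simp only [ζ]
    split_ifs with h1 h2
    · subst h1
      exact (D.ret_lip _ _ _).trans (hend k hk.le)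
    · subst h2
      refine (D.ret_lip _ _ _).trans ?_
      rw [show σ k + m' = σ (k + 1) by omega]
      exact hend (k + 1) hk
    · rw [hself]; exact hr0
  have hζ2 : DQG (dY (D.ty p)) l (e + 2 * K3' + 2 * r) ζ 0 m' := by
    intro a b ha hab hb
    have h1 := hζ' a b ha hab hb
    have ha' := hclose a ha (hab.trans hb)
    have hb' := hclose b (ha.trans hab) hb
    have tri : ∀ u v w, dY (D.ty p) u w ≤ dY (D.ty p) u v + dY (D.ty p) v w := by
      intro u v w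
      rw [← D.emb_isom, ← D.emb_isom, ← D.emb_isom]; exact hd.tri _ _ _
    have t1 := tri (D.ret p (z (σ k + a))) (ζ a) (D.ret p (z (σ k + b)))
    have t2 := tri (ζ a) (ζ b) (D.ret p (z (σ k + b)))
    have t3 := tri (ζ a) (D.ret p (z (σ k + a))) (ζ b)
    have t4 := tri (D.ret p (z (σ k + a))) (D.ret p (z (σ k + b))) (ζ b)
    have s1 := hsymm (ζ a) (D.ret p (z (σ k + a)))
    have s2 := hsymm (ζ b) (D.ret p (z (σ k + b)))
    constructor <;> linarith [h1.1, h1.2]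
  have hζ0 : ∃ a, τ k ≤ a ∧ a ≤ τ (k + 1) ∧ ζ 0 = D.ret p (y a) :=
    ⟨τ k, le_rfl, hmono k hk, by simp [ζ]⟩
  have hζm : ∃ b, τ k ≤ b ∧ b ≤ τ (k + 1) ∧ ζ m' = D.ret p (y b) := by
    by_cases h : m' = 0
    · exact ⟨τ k, le_rfl, hmono k hk, by simp [ζ, h]⟩
    · exact ⟨τ (k + 1), hmono k hk, le_rfl, by simp [ζ, h]⟩
  obtain ⟨q, hq1, hq2, hq3⟩ := hy2 l (e + 2 * K3' + 2 * r) hl (by linarith) ζ m' hζ2 hζ0 hζm
    (t - σ k) (by omega)
  refine ⟨q, hi1.trans hq1, hq2.trans hj1, ?_⟩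
  have h1 := hznear t hk1 hk2
  have h2 := hclose (t - σ k) (Nat.zero_le _) (by omega)
  rw [show σ k + (t - σ k) = t by omega] at h2
  have h3 := hy1 q hq1 hq2
  have tri : ∀ u v w, dY (D.ty p) u w ≤ dY (D.ty p) u v + dY (D.ty p) v w := by
    intro u v w
    rw [← D.emb_isom, ← D.emb_isom, ← D.emb_isom]; exact hd.tri _ _ _
  have t1 := tri (D.ret p (z t)) (ζ (t - σ k)) (D.ret p (y q))
  have t2 := hsymm (D.ret p (z t)) (ζ (t - σ k))
  have t3 := hd.tri (z t) (D.emb p (D.ret p (z t))) (y q)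
  have t4 := hd.tri (D.emb p (D.ret p (z t))) (D.emb p (D.ret p (y q))) (y q)
  rw [D.emb_isom] at t4
  have t5 := hd.symm (D.emb p (D.ret p (y q))) (y q)
  linarith

/-- Morse local-to-global for tree-graded unions of finitely many types of Morse local-to-global
pieces. -/
theorem dmltg_of_pieces {X : Type*} {d : X → X → ℝ} (hd : IsDist d) {δ : ℝ} (hδ : 0 ≤ δ)
    {ι : Type*} [Finite ι] {Y : ι → Type*} {dY : ∀ a, Y a → Y a → ℝ}
    (hdY : ∀ a, IsDist (dY a)) (hY : ∀ a, DMLTG (dY a)) (D : PieceData d δ Y dY) : DMLTG d := by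
  classical
  intro M lam eps hlam heps
  have hlam0 : 0 < lam := by linarith
  have hK0 : 0 ≤ cK δ lam eps (lam + eps + δ) := cK_nonneg hδ hlam heps (by linarith)
  have key : ∀ a, ∃ (L : ℕ) (M' : ℝ → ℝ → ℝ) (lam' eps' : ℝ), 1 ≤ lam' ∧ 0 ≤ eps' ∧
      ∀ (y : ℕ → Y a) (n : ℕ), DLocal (dY a) L
        (fun l e => M l (e + 2 * cK δ lam eps (lam + eps + δ)) + cK δ lam eps (lam + eps + δ))
        lam (eps + 2 * cK δ lam eps (lam + eps + δ)) y n →
        DQG (dY a) lam' eps' y 0 n ∧ DMorse (dY a) M' y 0 n := fun a =>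
    hY a _ lam _ hlam (by linarith)
  choose La Ma la ea hla hea hYa using key
  obtain ⟨Lm, hLm⟩ := fin_bound_nat La
  obtain ⟨Λ, hΛ0, hΛ⟩ := fin_bound la
  obtain ⟨E, hE0, hE⟩ := fin_bound ea
  have hMm : ∀ l e, ∃ B : ℝ, 0 ≤ B ∧ ∀ a, Ma a l e ≤ B := fun l e => fin_bound fun a => Ma a l e
  choose Mm hMm0 hMm using hMm
  set C1 : ℝ := Λ * (2 * (lam + eps + δ) + E + 1) with hC1def
  have hC1 : 0 ≤ C1 := mul_nonneg hΛ0 (by linarith)
  obtain ⟨L0, hL0⟩ := exists_nat_ge (3 * C1 * (2 * (lam + eps + δ) + δ + (lam + eps)) + C1 + 1)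
  set L : ℕ := max (max Lm L0) 1 with hLdef
  have hL1 : 1 ≤ L := le_max_right _ _
  have hLLm : ∀ a, La a ≤ L := fun a =>
    (hLm a).trans ((le_max_left _ _).trans (le_max_left _ _))
  have hLL0 : 3 * C1 * (2 * (lam + eps + δ) + δ + (lam + eps)) + C1 + 1 ≤ L := by
    refine hL0.trans ?_
    exact_mod_cast (le_max_right Lm L0).trans (le_max_left _ 1)
  refine ⟨L, fun l e => cK δ l e (l + e + δ) + (l + e + (lam + eps) + 2 * δ) +
        Mm l (e + 2 * cK δ l e (l + e + δ) + 2 * (l + e + (lam + eps) + 2 * δ)) +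
          cK δ lam eps (lam + eps + δ), max (3 * C1) (lam + eps), C1,
    le_trans (by linarith) (le_max_right _ _), hC1, ?_⟩
  intro y n hy
  have hwin : Win d L M lam eps y 0 n := fun a b _ hab hb hL => hy a b hab hb hL
  have hpieces : ∀ (p : D.Idx) (i j : ℕ), i ≤ j → j ≤ n →
      (∀ a b, i ≤ a → a ≤ b → b ≤ j → d (y a) (y b) ≤ 2 * (lam + eps + δ) + δ → b ≤ a + L) →
      ∀ x ∈ D.P p, ∀ x' ∈ D.P p, d (y i) x ≤ lam + eps + δ → d (y j) x' ≤ lam + eps + δ →
      (∀ k, i ≤ k → k ≤ j →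
        d (y k) (D.emb p (D.ret p (y k))) ≤ cK δ lam eps (lam + eps + δ)) ∧
      DQG (dY (D.ty p)) (la (D.ty p)) (ea (D.ty p)) (fun k => D.ret p (y k)) i j ∧
      DMorse (dY (D.ty p)) (Ma (D.ty p)) (fun k => D.ret p (y k)) i j := by
    intro p i j hij hjn hs x hx x' hx' hxi hxj
    exact piece_lemma hd hδ D hlam heps hL1 p (hLLm _) (hYa (D.ty p)) y i j hij
      (hwin.sub (Nat.zero_le _) hjn) hs hx hx' hxi hxj
  have hseg : ∀ (p : D.Idx) (i j : ℕ), i ≤ j → j ≤ n →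
      (∀ a b, i ≤ a → a ≤ b → b ≤ j → d (y a) (y b) ≤ 2 * (lam + eps + δ) + δ → b ≤ a + L) →
      ∀ x ∈ D.P p, ∀ x' ∈ D.P p, d (y i) x ≤ lam + eps + δ → d (y j) x' ≤ lam + eps + δ →
        ((j : ℝ) - i) ≤ C1 * (d x x' + 1) := by
    intro p i j hij hjn hs x hx x' hx' hxi hxj
    have h1 := ((hpieces p i j hij hjn hs x hx x' hx' hxi hxj).2.1 i j le_rfl hij le_rfl).1
    have h2 := D.ret_lip p (y i) (y j)
    have hla' := hla (D.ty p)
    have h3 : d (y i) (y j) ≤ d x x' + 2 * (lam + eps + δ) := by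
      have t1 := hd.tri (y i) x (y j)
      have t2 := hd.tri x x' (y j)
      have t3 := hd.symm x' (y j)
      linarith
    have h4 : ((j : ℝ) - i) / la (D.ty p) ≤ d x x' + 2 * (lam + eps + δ) + E := by
      have := hE (D.ty p)
      linarith
    rw [div_le_iff₀ (by linarith)] at h4
    have hdx := hd.nonneg x x'
    have h5 : (d x x' + 2 * (lam + eps + δ) + E) * la (D.ty p) ≤
        (d x x' + 2 * (lam + eps + δ) + E) * Λ :=
      mul_le_mul_of_nonneg_left (hΛ _) (by linarith)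
    have h6 : (d x x' + 2 * (lam + eps + δ) + E) ≤
        (2 * (lam + eps + δ) + E + 1) * (d x x' + 1) := by
      nlinarith [mul_nonneg (show 0 ≤ 2 * (lam + eps + δ) + E by linarith) hdx]
    have h7 := mul_le_mul_of_nonneg_left h6 hΛ0
    rw [hC1def]
    linarith
  have hclaim : ∀ i j, i ≤ j → j ≤ n → ((j : ℝ) - i) ≤ 3 * C1 * d (y i) (y j) + C1 :=
    fun i j hij hjn => claim_lemma hd hδ D (show 0 ≤ lam + eps by linarith) hC1
      (fun k hk => hwin.jump hL1 k (Nat.zero_le _) hk) hLL0 hseg (j - i) i j hij hjn rfl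
  have hshort : ∀ a b, a ≤ b → b ≤ n → d (y a) (y b) ≤ 2 * (lam + eps + δ) + δ → b ≤ a + L := by
    intro a b hab hb hdist
    have h2 := hclaim a b hab hb
    have h3 : 3 * C1 * d (y a) (y b) ≤ 3 * C1 * (2 * (lam + eps + δ) + δ) :=
      mul_le_mul_of_nonneg_left hdist (by linarith)
    have h4 : 0 ≤ 3 * C1 * (lam + eps) := mul_nonneg (by linarith) (by linarith)
    have h5 : ((b - a : ℕ) : ℝ) ≤ L := by
      rw [Nat.cast_sub hab]
      linarith
    have h6 : b - a ≤ L := by exact_mod_cast h5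
    omega
  constructor
  · intro a b _ hab hb
    have hjump := hwin.jump hL1
    have h1 := chain_dist hd hjump a b (Nat.zero_le _) hab hb
    have h2 := hclaim a b hab hb
    have hab' : (0 : ℝ) ≤ (b : ℝ) - a := by
      have : (a : ℝ) ≤ b := by exact_mod_cast hab
      linarith
    have hdn := hd.nonneg (y a) (y b)
    have hmax1 : 3 * C1 ≤ max (3 * C1) (lam + eps) := le_max_left _ _
    have hmax2 : lam + eps ≤ max (3 * C1) (lam + eps) := le_max_right _ _
    set Λ' := max (3 * C1) (lam + eps) with hΛ'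
    have hΛ'1 : 1 ≤ Λ' := by linarith
    constructor
    · have h3 : ((b : ℝ) - a) ≤ (d (y a) (y b) + C1) * Λ' := by
        have h4 := mul_le_mul_of_nonneg_right hmax1 hdn
        have h5 := mul_le_mul_of_nonneg_left hΛ'1 hC1
        linarith
      have h6 := (div_le_iff₀ (show 0 < Λ' by linarith)).mpr h3
      linarith
    · have h4 := mul_le_mul_of_nonneg_right hmax2 hab'
      linarith
  · intro l e hl he z m hz h0 hm t ht
    obtain ⟨a, ha0, ha, hza⟩ := h0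
    obtain ⟨b, hb0, hb, hzb⟩ := hm
    have main : ∀ (z : ℕ → X) (a b t : ℕ), DQG d l e z 0 m → a ≤ b → b ≤ n → z 0 = y a →
        z m = y b → t ≤ m → ∃ q, 0 ≤ q ∧ q ≤ n ∧ d (z t) (y q) ≤
          cK δ l e (l + e + δ) + (l + e + (lam + eps) + 2 * δ) +
          Mm l (e + 2 * cK δ l e (l + e + δ) + 2 * (l + e + (lam + eps) + 2 * δ)) +
          cK δ lam eps (lam + eps + δ) := by
      intro z a b t hz hab hb hza hzb ht
      obtain ⟨q, hq1, hq2, hq3⟩ := morse_part hd hδ D (show 0 ≤ lam + eps by linarith) hab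
        (fun k h1 h2 => hwin.jump hL1 k (Nat.zero_le _) (by omega))
        (Mm := Mm) (K3 := cK δ lam eps (lam + eps + δ)) (y := y)
        (by
          intro p i j h1 h2 h3 x hx x' hx' hxi hxj
          obtain ⟨g1, _, g3⟩ := hpieces p i j h2 (h3.trans hb)
            (fun a b _ hab hbj => hshort a b hab (hbj.trans (h3.trans hb))) x hx x' hx' hxi hxj
          refine ⟨g1, ?_⟩
          intro l' e' hl' he' z' m' hz' h0' hm' s hs
          obtain ⟨q, hq1, hq2, hq3⟩ := g3 l' e' hl' he' z' m' hz' h0' hm' s hs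
          exact ⟨q, hq1, hq2, hq3.trans (hMm l' e' _)⟩)
        hl he hz hza hzb t ht
      exact ⟨q, Nat.zero_le _, hq2.trans hb, hq3⟩
    rcases le_total a b with hab | hab
    · exact main z a b t hz hab hb hza hzb ht
    · have hz' := DQG.reverse hd hz
      obtain ⟨q, hq1, hq2, hq3⟩ := main (fun k => z (m - k)) b a (m - t) hz' hab ha
        (by simpa using hzb) (by simpa using hza) (by omega)
      refine ⟨q, hq1, hq2, ?_⟩
      rw [show m - (m - t) = t by omega] at hq3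
      exact hq3

end Main

end Pool.Agent.MLG
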