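import Mathlib
import Pool.Agent.MLG.Step

/-!
# Long geodesics contain chains of hyperplanes (preparations)
-/

namespace Pool.Agent.MLG

namespace GraphProduct

variable {V : Type*} {Γ : SimpleGraph V} {G : V → Type*} [∀ v, Group (G v)]

/-- Two nontrivial non-adjacent vertex groups generate an infinite group. -/
theorem infinite_of_nonadj {u w : V} (hne : u ≠ w) (hadj : ¬ Γ.Adj u w) [Nontrivial (G u)]
    [Nontrivial (G w)] {Δ : Set V} (hu : u ∈ Δ) (hw : w ∈ Δ) :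
    (Sub Γ G Δ : Set (GraphProduct Γ G)).Infinite := by
  classical
  obtain ⟨a, ha⟩ := exists_ne (1 : G u)
  obtain ⟨b, hb⟩ := exists_ne (1 : G w)
  let f : GraphProduct Γ G →* Monoid.CoprodI G :=
    lift (fun v => if v = u ∨ v = w then Monoid.CoprodI.of else 1) (by
      intro v v' hvv g k
      by_cases h1 : v = u ∨ v = w
      · have h2 : ¬ (v' = u ∨ v' = w) := by
          rintro (rfl | rfl)
          · rcases h1 with rfl | rfl
            · exact hvv.ne rfl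
            · exact hadj hvv.symm
          · rcases h1 with rfl | rfl
            · exact hadj hvv
            · exact hvv.ne rfl
        simp [h2]
      · simp [h1])
  have fu : f (of Γ G u a) = Monoid.CoprodI.of a := by simp [f]
  have fw : f (of Γ G w b) = Monoid.CoprodI.of b := by simp [f]
  have hword : ∀ n : ℕ, ∃ W : Monoid.CoprodI.Word G,
      W.prod = (Monoid.CoprodI.of a * Monoid.CoprodI.of b) ^ n ∧ W.toList.length = 2 * n ∧
      W.fstIdx ≠ some w := by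
    intro n
    induction n with
    | zero => exact ⟨Monoid.CoprodI.Word.empty, by simp, by simp, by
        simp [Monoid.CoprodI.Word.fstIdx]⟩
    | succ n ih =>
      obtain ⟨W, h1, h2, h3⟩ := ih
      have h4 : (Monoid.CoprodI.Word.cons b W h3 hb).fstIdx ≠ some u := by
        rw [Monoid.CoprodI.Word.fstIdx_cons]
        intro h; exact hne (Option.some.inj h).symm
      refine ⟨Monoid.CoprodI.Word.cons a (Monoid.CoprodI.Word.cons b W h3 hb) h4 ha, ?_, ?_, ?_⟩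
      · rw [Monoid.CoprodI.Word.prod_cons, Monoid.CoprodI.Word.prod_cons, h1, pow_succ', mul_assoc]
      · simp [h2]; omega
      · rw [Monoid.CoprodI.Word.fstIdx_cons]
        intro h; exact hne (Option.some.inj h)
  have hinj : Function.Injective (fun n : ℕ => (of Γ G u a * of Γ G w b) ^ n) := by
    intro n m hnm
    have h1 := congrArg f hnm
    simp only [map_pow, map_mul, fu, fw] at h1
    obtain ⟨W, h2, h3, _⟩ := hword n
    obtain ⟨W', h2', h3', _⟩ := hword m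
    rw [← h2, ← h2'] at h1
    have : W = W' := Monoid.CoprodI.Word.equiv.symm.injective h1
    rw [this] at h3
    omega
  refine (Set.infinite_range_of_injective hinj).mono ?_
  rintro _ ⟨n, rfl⟩
  exact (Sub Γ G Δ).pow_mem ((Sub Γ G Δ).mul_mem (of_mem_Sub hu a) (of_mem_Sub hw b)) n

theorem infinite_of_mem {v : V} {Δ : Set V} (hv : v ∈ Δ) [Infinite (G v)] :
    (Sub Γ G Δ : Set (GraphProduct Γ G)).Infinite := by
  refine (Set.infinite_range_of_injective (of_injective (Γ := Γ) (G := G) v)).mono ?_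
  rintro _ ⟨g, rfl⟩
  exact of_mem_Sub hv g

/-- the common link of a set of vertices -/
def lk (Γ : SimpleGraph V) (Δ : Set V) : Set V := {w | ∀ v ∈ Δ, Γ.Adj v w}

variable (ℓ : ∀ v, WLen (G v))

/-- A geodesic with its labels. -/
structure Geod (x y : GraphProduct Γ G) (β : ℕ → GraphProduct Γ G) (c : ℕ → V) : Prop where
  zero : β 0 = x
  last : β (D ℓ x y) = y
  dist : ∀ i j, i ≤ j → j ≤ D ℓ x y → D ℓ (β i) (β j) = j - i
  step : ∀ i, i < D ℓ x y → ∃ s : G (c i), (ℓ (c i)).len s = 1 ∧ β (i + 1) = β i * of Γ G (c i) s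

theorem exists_Geod [Nonempty V] (x y : GraphProduct Γ G) : ∃ β c, Geod ℓ x y β c := by
  classical
  obtain ⟨β, h1, h2, h3, h4⟩ := exists_geodSeq ℓ x y
  have : ∀ i, ∃ w, i < D ℓ x y → ∃ s : G w, (ℓ w).len s = 1 ∧ β (i + 1) = β i * of Γ G w s := by
    intro i
    by_cases hi : i < D ℓ x y
    · obtain ⟨w, s, h⟩ := h4 i hi
      exact ⟨w, fun _ => ⟨s, h⟩⟩
    · exact ⟨Classical.arbitrary V, fun h => absurd h hi⟩
  choose c hc using this
  exact ⟨β, c, h1, h2, h3, hc⟩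

variable {ℓ}

namespace Geod

variable {x y : GraphProduct Γ G} {β : ℕ → GraphProduct Γ G} {c : ℕ → V}

theorem mid (h : Geod ℓ x y β c) {i j : ℕ} (hij : i ≤ j) (hj : j ≤ D ℓ x y) :
    D ℓ x y = D ℓ x (β i) + D ℓ (β i) (β j) + D ℓ (β j) y := by
  have h1 := h.dist 0 i (Nat.zero_le _) (by omega)
  have h2 := h.dist i j hij hj
  have h3 := h.dist j (D ℓ x y) hj le_rfl
  rw [h.zero] at h1
  rw [h.last] at h3
  omega

/-- the number of letters with labels in `Δ` bounds the distance of the retractions -/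
theorem ret_le (h : Geod ℓ x y β c) (Δ : Set V) [DecidablePred (· ∈ Δ)] {i j : ℕ} (hij : i ≤ j)
    (hj : j ≤ D ℓ x y) :
    D ℓ (ret Δ (β i)) (ret Δ (β j)) ≤ ((Finset.Ico i j).filter (fun k => c k ∈ Δ)).card := by
  induction j, hij using Nat.le_induction with
  | base => simp [D_self]
  | succ j hij ih =>
    have ih := ih (by omega)
    obtain ⟨s, hs, hβ⟩ := h.step j (by omega)
    have h1 := D_tri ℓ (ret Δ (β i)) (ret Δ (β j)) (ret Δ (β (j + 1)))
    rw [← Finset.insert_Ico_right_eq_Ico_add_one hij, Finset.filter_insert]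
    by_cases hc : c j ∈ Δ
    · rw [if_pos hc, Finset.card_insert_of_notMem (by simp)]
      have h2 : D ℓ (ret Δ (β j)) (ret Δ (β (j + 1))) = 1 := by
        rw [hβ, map_mul, ret_of_mem hc, D_mul_of, hs]
      omega
    · rw [if_neg hc]
      have h2 : D ℓ (ret Δ (β j)) (ret Δ (β (j + 1))) = 0 := by
        rw [hβ, map_mul, ret_of_notMem hc, mul_one, D_self]
      omega

/-- labels of a geodesic in `Sub Δ` are in `Δ` -/
theorem label_mem (h : Geod ℓ x y β c) {Δ : Set V} (hxy : x⁻¹ * y ∈ Sub Γ G Δ) {i : ℕ}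
    (hi : i < D ℓ x y) : c i ∈ Δ := by
  classical
  by_contra hcon
  have h1 := h.ret_le Δ (Nat.zero_le (D ℓ x y)) le_rfl
  rw [h.zero, h.last, D_eq_len ℓ (ret Δ x), ← map_inv, ← map_mul, ret_of_Sub hxy,
    ← D_eq_len] at h1
  have h2 : ((Finset.Ico 0 (D ℓ x y)).filter (fun k => c k ∈ Δ)).card <
      (Finset.Ico 0 (D ℓ x y)).card := by
    apply Finset.card_lt_card
    refine ⟨Finset.filter_subset _ _, fun hsub => ?_⟩
    have := hsub (Finset.mem_Ico.2 ⟨Nat.zero_le _, hi⟩)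
    exact hcon (Finset.mem_filter.1 this).2
  rw [Nat.card_Ico] at h2
  omega

theorem sub_mem (h : Geod ℓ x y β c) {Δ : Set V} {i j : ℕ} (hij : i ≤ j) (hj : j ≤ D ℓ x y)
    (hc : ∀ k, i ≤ k → k < j → c k ∈ Δ) : (β i)⁻¹ * β j ∈ Sub Γ G Δ := by
  induction j, hij using Nat.le_induction with
  | base => rw [inv_mul_cancel]; exact one_mem _
  | succ j hij ih =>
    obtain ⟨s, hs, hβ⟩ := h.step j (by omega)
    rw [hβ, ← mul_assoc]
    exact mul_mem (ih (by omega) (fun k hk hkj => hc k hk (by omega)))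
      (of_mem_Sub (hc j hij (by omega)) s)

/-- letters with distinct non-adjacent labels give ordered hyperplanes -/
theorem before (h : Geod ℓ x y β c) {i j : ℕ} (hij : i < j) (hj : j < D ℓ x y)
    (hne : c i ≠ c j) (hadj : ¬ Γ.Adj (c i) (c j)) :
    Before x y (hyp (c i) (β i)) (hyp (c j) (β j)) := by
  refine Before.extend ℓ (h.mid (i := i) (j := j + 1) (by omega) (by omega)) ?_
  obtain ⟨s, hs, hβi⟩ := h.step i (by omega)
  obtain ⟨t, ht, hβj⟩ := h.step j (by omega)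
  have hs1 : s ≠ 1 := by rintro rfl; rw [(ℓ _).one] at hs; omega
  have ht1 : t ≠ 1 := by rintro rfl; rw [(ℓ _).one] at ht; omega
  have hJ : (hyp (c i) (β i) : Hyp Γ G) ≠ hyp (c j) (β j) := by
    intro h'
    exact hne (congrArg Sigma.fst h')
  have hX : ¬ Cross (hyp (c i) (β i) : Hyp Γ G) (hyp (c j) (β j)) := fun h' => hadj h'.1
  have e1 : crd (hyp (c i) (β i)) (β j) = crd (hyp (c i) (β i)) (β (j + 1)) := by
    rw [hβj, crd_mul_of_ne (by exact fun h' => hne h'.symm)]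
  have d1 : dJ ℓ (hyp (c i) (β i)) (β i) (β (i + 1)) ≠ 0 := by
    intro h0
    rw [dJ_eq_zero, hβi, crd_hyp_mul] at h0
    exact hs1 (mul_eq_left.1 h0.symm)
  have d2 : dJ ℓ (hyp (c j) (β j)) (β j) (β (j + 1)) ≠ 0 := by
    intro h0
    rw [dJ_eq_zero, hβj, crd_hyp_mul] at h0
    exact ht1 (mul_eq_left.1 h0.symm)
  have a1 : D ℓ (β i) (β (j + 1)) = D ℓ (β i) (β (i + 1)) + D ℓ (β (i + 1)) (β (j + 1)) := by
    rw [h.dist i (j + 1) (by omega) (by omega), h.dist i (i + 1) (by omega) (by omega),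
      h.dist (i + 1) (j + 1) (by omega) (by omega)]
    omega
  have a2 : D ℓ (β i) (β (j + 1)) = D ℓ (β i) (β j) + D ℓ (β j) (β (j + 1)) := by
    rw [h.dist i (j + 1) (by omega) (by omega), h.dist i j (by omega) (by omega),
      h.dist j (j + 1) (by omega) (by omega)]
    omega
  refine ⟨hJ, ?_, ?_, ?_⟩
  · intro h0
    have := dJ_add_of_D_add ℓ a1 (hyp (c i) (β i))
    rw [(dJ_eq_zero ℓ).2 h0] at this
    omega
  · intro h0
    have := dJ_add_of_D_add ℓ a2 (hyp (c j) (β j))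
    rw [(dJ_eq_zero ℓ).2 h0] at this
    omega
  · intro z
    rw [← e1]
    exact nested hJ hX (mem_car_hyp _ _) (mem_car_hyp _ _) z

end Geod

theorem WideBound.sub {n : ℕ} {x p q y : GraphProduct Γ G} (h : WideBound ℓ n x y)
    (hd : D ℓ x y = D ℓ x p + D ℓ p q + D ℓ q y) : WideBound ℓ n p q := by
  intro p' q' hpq Λ₁ Λ₂ hc hinf u₁ hu₁ u₂ hu₂ hq hle
  refine h p' q' ?_ Λ₁ Λ₂ hc hinf u₁ hu₁ u₂ hu₂ hq hle
  have t1 := D_tri ℓ x p p'
  have t2 := D_tri ℓ q' q y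
  have t3 := D_tri ℓ x p' q'
  have t4 := D_tri ℓ x q' y
  omega

theorem IsChain.extend {x p q y : GraphProduct Γ G} {m : ℕ} {K : ℕ → Hyp Γ G}
    (h : IsChain p q m K) (hd : D ℓ x y = D ℓ x p + D ℓ p q + D ℓ q y) : IsChain x y m K :=
  ⟨fun i j hij hj => (h.before i j hij hj).extend ℓ hd, h.good⟩

theorem wide_single {n : ℕ} {x y : GraphProduct Γ G} (h : WideBound ℓ n x y) {Δ : Set V}
    (hxy : x⁻¹ * y ∈ Sub Γ G Δ) (hinf : (Sub Γ G (lk Γ Δ) : Set (GraphProduct Γ G)).Infinite) :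
    D ℓ x y ≤ n := by
  have := h x y (by simp [D_self]) Δ (lk Γ Δ) (fun v hv w hw => hw v hv) hinf (x⁻¹ * y) hxy 1
    (one_mem _) (by group) (by rw [D_self]; omega)
  rwa [← D_eq_len] at this

theorem ret_mul_ret {Δ₁ Δ₂ : Set V} (hc : ∀ v ∈ Δ₁, ∀ w ∈ Δ₂, Γ.Adj v w)
    {u : GraphProduct Γ G} (hu : u ∈ Sub Γ G (Δ₁ ∪ Δ₂)) : u = ret Δ₁ u * ret Δ₂ u := by
  refine Sub_induction (P := fun u => u = ret Δ₁ u * ret Δ₂ u) hu (by simp) ?_
  intro u _ v hv g ih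
  rcases hv with hv | hv
  · have hv2 : v ∉ Δ₂ := fun h => (hc v hv v h).ne rfl
    rw [map_mul, map_mul, ret_of_mem hv, ret_of_notMem hv2, mul_one]
    have h1 : of Γ G v g * ret Δ₂ u = ret Δ₂ u * of Γ G v g :=
      of_comm_Sub (fun w hw => hc v hv w hw) g (ret_mem Δ₂ u)
    rw [mul_assoc, h1, ← mul_assoc, ← ih]
  · have hv1 : v ∉ Δ₁ := fun h => (hc v h v hv).ne rfl
    rw [map_mul, map_mul, ret_of_mem hv, ret_of_notMem hv1, mul_one, ← mul_assoc, ← ih]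

theorem wide_double {n : ℕ} {x y : GraphProduct Γ G} (h : WideBound ℓ n x y) {Δ₁ Δ₂ : Set V}
    (hc : ∀ v ∈ Δ₁, ∀ w ∈ Δ₂, Γ.Adj v w) (hxy : x⁻¹ * y ∈ Sub Γ G (Δ₁ ∪ Δ₂))
    (h1 : (Sub Γ G Δ₁ : Set (GraphProduct Γ G)).Infinite)
    (h2 : (Sub Γ G Δ₂ : Set (GraphProduct Γ G)).Infinite) : D ℓ x y ≤ 2 * n := by
  have e := ret_mul_ret hc hxy
  have hlen : D ℓ x y ≤ D ℓ 1 (ret Δ₁ (x⁻¹ * y)) + D ℓ 1 (ret Δ₂ (x⁻¹ * y)) := by
    rw [D_eq_len ℓ x y]
    conv_lhs => rw [e]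
    have t := D_tri ℓ 1 (ret Δ₁ (x⁻¹ * y)) (ret Δ₁ (x⁻¹ * y) * ret Δ₂ (x⁻¹ * y))
    have t2 := D_left ℓ (ret Δ₁ (x⁻¹ * y)) 1 (ret Δ₂ (x⁻¹ * y))
    rw [mul_one] at t2
    omega
  have e1 : y = x * ret Δ₁ (x⁻¹ * y) * ret Δ₂ (x⁻¹ * y) := by
    rw [mul_assoc, ← e]; group
  have e2 : y = x * ret Δ₂ (x⁻¹ * y) * ret Δ₁ (x⁻¹ * y) := by
    rw [mul_assoc, ← Sub_comm hc (ret_mem Δ₁ _) (ret_mem Δ₂ _), ← e]; group
  rcases le_total (D ℓ 1 (ret Δ₂ (x⁻¹ * y))) (D ℓ 1 (ret Δ₁ (x⁻¹ * y))) with hle | hle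
  · have := h x y (by simp [D_self]) Δ₁ Δ₂ hc h2 _ (ret_mem Δ₁ _) _ (ret_mem Δ₂ _) e1 hle
    omega
  · have := h x y (by simp [D_self]) Δ₂ Δ₁ (fun v hv w hw => (hc w hw v hv).symm) h1 _
      (ret_mem Δ₂ _) _ (ret_mem Δ₁ _) e2 hle
    omega

theorem exists_bound_of_finite {Δ : Set V} (h : (Sub Γ G Δ : Set (GraphProduct Γ G)).Finite) :
    ∃ δ, ∀ u ∈ Sub Γ G Δ, D ℓ 1 u ≤ δ := by
  obtain ⟨δ, hδ⟩ := (h.image (fun u => D ℓ 1 u)).bddAbove
  exact ⟨δ, fun u hu => hδ ⟨u, hu, rfl⟩⟩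

theorem mem_Sub_singleton {v : V} {x : GraphProduct Γ G} (hx : x ∈ Sub Γ G {v}) :
    ∃ g, x = of Γ G v g := by
  refine Sub_induction (P := fun x => ∃ g, x = of Γ G v g) hx ⟨1, by simp⟩ ?_
  rintro x _ w hw g ⟨k, hk⟩
  have : w = v := hw
  subst this
  exact ⟨k * g, by rw [map_mul, hk]⟩

theorem Sub_singleton_finite {v : V} [Finite (G v)] :
    (Sub Γ G {v} : Set (GraphProduct Γ G)).Finite := by
  refine (Set.finite_range (of Γ G v)).subset ?_
  intro x hx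
  obtain ⟨g, rfl⟩ := mem_Sub_singleton hx
  exact ⟨g, rfl⟩

/-- every block of length `N` contains every label in `Δ` -/
def FullBlocks (Δ : Set V) (N B : ℕ) (c : ℕ → V) : Prop :=
  ∀ r, (r + 1) * N ≤ B → ∀ v ∈ Δ, ∃ k, r * N ≤ k ∧ k < (r + 1) * N ∧ c k = v

/-- the reducible case with one finite factor -/
theorem no_full_of_finite {x y : GraphProduct Γ G} {β : ℕ → GraphProduct Γ G} {c : ℕ → V}
    (h : Geod ℓ x y β c) {Δ₁ Δ₂ : Set V} (hc : ∀ v ∈ Δ₁, ∀ w ∈ Δ₂, Γ.Adj v w)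
    (hxy : x⁻¹ * y ∈ Sub Γ G (Δ₁ ∪ Δ₂)) {δ : ℕ} (hδ : ∀ u ∈ Sub Γ G Δ₂, D ℓ 1 u ≤ δ)
    {v : V} (hv : v ∈ Δ₂) {N : ℕ} (hB : FullBlocks (Δ₁ ∪ Δ₂) N (D ℓ x y) c) :
    D ℓ x y < (δ + 1) * N := by
  classical
  by_contra hcon
  push Not at hcon
  have e := ret_mul_ret hc hxy
  have hlen : D ℓ x y ≤ D ℓ (ret Δ₁ x) (ret Δ₁ y) + δ := by
    have h2 := hδ _ (ret_mem Δ₂ (x⁻¹ * y))
    rw [D_eq_len ℓ x y, D_eq_len ℓ (ret Δ₁ x), ← map_inv, ← map_mul]
    conv_lhs => rw [e]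
    have t := D_tri ℓ 1 (ret Δ₁ (x⁻¹ * y)) (ret Δ₁ (x⁻¹ * y) * ret Δ₂ (x⁻¹ * y))
    have t2 := D_left ℓ (ret Δ₁ (x⁻¹ * y)) 1 (ret Δ₂ (x⁻¹ * y))
    rw [mul_one] at t2
    omega
  have h1 := h.ret_le Δ₁ (Nat.zero_le (D ℓ x y)) le_rfl
  rw [h.zero, h.last] at h1
  -- positions of `v`
  have hk : ∀ r, ∃ k, r < δ + 1 → r * N ≤ k ∧ k < (r + 1) * N ∧ c k = v := by
    intro r
    by_cases hr : r < δ + 1
    · obtain ⟨k, hk⟩ := hB r (le_trans (Nat.mul_le_mul_right N (by omega)) hcon) v (Or.inr hv)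
      exact ⟨k, fun _ => hk⟩
    · exact ⟨0, fun h => absurd h hr⟩
  choose k hk using hk
  have hinj : Set.InjOn k (Finset.range (δ + 1)) := by
    intro a ha b hb hab
    simp only [Finset.coe_range, Set.mem_Iio] at ha hb
    obtain ⟨a1, a2, _⟩ := hk a ha
    obtain ⟨b1, b2, _⟩ := hk b hb
    by_contra hne
    rcases Nat.lt_or_gt_of_ne hne with h' | h'
    · have := Nat.mul_le_mul_right N (show a + 1 ≤ b by omega)
      omega
    · have := Nat.mul_le_mul_right N (show b + 1 ≤ a by omega)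
      omega
  have hv1 : v ∉ Δ₁ := fun h => (hc v h v hv).ne rfl
  have h2 : (Finset.image k (Finset.range (δ + 1))).card = δ + 1 := by
    rw [Finset.card_image_of_injOn hinj, Finset.card_range]
  have hsub : Finset.image k (Finset.range (δ + 1)) ⊆
      (Finset.Ico 0 (D ℓ x y)).filter (fun j => ¬ c j ∈ Δ₁) := by
    intro j hj
    rw [Finset.mem_image] at hj
    obtain ⟨r, hr, rfl⟩ := hj
    rw [Finset.mem_range] at hr
    obtain ⟨a1, a2, a3⟩ := hk r hr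
    rw [Finset.mem_filter, Finset.mem_Ico]
    refine ⟨⟨Nat.zero_le _, ?_⟩, by rw [a3]; exact hv1⟩
    have := Nat.mul_le_mul_right N (show r + 1 ≤ δ + 1 by omega)
    omega
  have h3 := Finset.card_le_card hsub
  have h4 := Finset.card_filter_add_card_filter_not (s := Finset.Ico 0 (D ℓ x y))
    (fun j => c j ∈ Δ₁)
  rw [Nat.card_Ico] at h4
  omega

end GraphProduct

end Pool.Agent.MLG
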