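import Mathlib
import Pool.Agent.MLG.PigeonA

/-!
# Long geodesics contain chains of hyperplanes
-/

namespace Pool.Agent.MLG

namespace GraphProduct

variable {V : Type*} {Γ : SimpleGraph V} {G : V → Type*} [∀ v, Group (G v)]

/-- the relation: distinct and non-adjacent in `Δ` -/
def NonAdj (Γ : SimpleGraph V) (Δ : Set V) (u w : V) : Prop :=
  u ∈ Δ ∧ w ∈ Δ ∧ u ≠ w ∧ ¬ Γ.Adj u w

variable (ℓ : ∀ v, WLen (G v))

/-- the hyperplane at position `i` -/
def hypAt (Γ : SimpleGraph V) {G : V → Type*} [∀ v, Group (G v)] (β : ℕ → GraphProduct Γ G)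
    (c : ℕ → V) (i : ℕ) : Hyp Γ G := hyp (c i) (β i)

/-- From any position with label `u` one reaches a position with label `w` in `t` blocks. -/
def Reach (Δ : Set V) (N t : ℕ) (u w : V) : Prop :=
  ∀ (x y : GraphProduct Γ G) β c, Geod ℓ x y β c → FullBlocks Δ N (D ℓ x y) c →
    ∀ i, c i = u → (i / N + t + 1) * N ≤ D ℓ x y →
    ∃ j, c j = w ∧ j / N ≤ i / N + t ∧ (i = j ∨ Before x y (hypAt Γ β c i) (hypAt Γ β c j))

def ReachS (Δ : Set V) (N t : ℕ) (u w : V) : Prop :=
  ∀ (x y : GraphProduct Γ G) β c, Geod ℓ x y β c → FullBlocks Δ N (D ℓ x y) c →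
    ∀ i, c i = u → (i / N + t + 1) * N ≤ D ℓ x y →
    ∃ j, c j = w ∧ j / N ≤ i / N + t ∧ Before x y (hypAt Γ β c i) (hypAt Γ β c j)

theorem reach_one {Δ : Set V} {N : ℕ} (hN : 1 ≤ N) {u w : V} (h : NonAdj Γ Δ u w) :
    ReachS (Γ := Γ) ℓ Δ N 1 u w := by
  intro x y β c hg hf i hi hB
  obtain ⟨j, h1, h2, h3⟩ := hf (i / N + 1) hB w h.2.1
  have hiN : i < (i / N + 1) * N := by
    have := Nat.div_add_mod i N
    have h4 := Nat.mod_lt i (show 0 < N by omega)
    rw [Nat.mul_comm N (i / N)] at this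
    rw [Nat.add_mul]
    omega
  have hij : i < j := lt_of_lt_of_le hiN h1
  refine ⟨j, h3, ?_, ?_⟩
  · have : j / N < i / N + 1 + 1 := Nat.div_lt_of_lt_mul (by rw [Nat.mul_comm]; exact h2)
    omega
  · unfold hypAt
    refine hg.before hij (lt_of_lt_of_le h2 hB) ?_ ?_
    · rw [hi, h3]; exact h.2.2.1
    · rw [hi, h3]; exact h.2.2.2

theorem reach_of_trans {Δ : Set V} {N : ℕ} (hN : 1 ≤ N) {u w : V}
    (h : Relation.ReflTransGen (NonAdj Γ Δ) u w) : ∃ t, Reach (Γ := Γ) ℓ Δ N t u w := by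
  induction h with
  | refl => exact ⟨0, fun x y β c _ _ i hi _ => ⟨i, hi, by omega, Or.inl rfl⟩⟩
  | tail _ hw ih =>
    obtain ⟨t, ht⟩ := ih
    refine ⟨t + 1, ?_⟩
    intro x y β c hg hf i hi hB
    obtain ⟨j, h1, h2, h3⟩ := ht x y β c hg hf i hi
      (le_trans (Nat.mul_le_mul_right N (by omega)) hB)
    obtain ⟨k, h4, h5, h6⟩ := reach_one ℓ hN hw x y β c hg hf j h1
      (le_trans (Nat.mul_le_mul_right N (by omega)) hB)
    refine ⟨k, h4, by omega, Or.inr ?_⟩
    rcases h3 with rfl | h3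
    · exact h6
    · exact h3.trans h6

theorem reachS_of_trans {Δ : Set V} {N : ℕ} (hN : 1 ≤ N) {u u' w : V} (h0 : NonAdj Γ Δ u u')
    (h : Relation.ReflTransGen (NonAdj Γ Δ) u' w) : ∃ t, ReachS (Γ := Γ) ℓ Δ N t u w := by
  obtain ⟨t, ht⟩ := reach_of_trans ℓ hN h
  refine ⟨t + 1, ?_⟩
  intro x y β c hg hf i hi hB
  obtain ⟨k, h4, h5, h6⟩ := reach_one ℓ hN h0 x y β c hg hf i hi
      (le_trans (Nat.mul_le_mul_right N (by omega)) hB)
  obtain ⟨j, h1, h2, h3⟩ := ht x y β c hg hf k h4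
      (le_trans (Nat.mul_le_mul_right N (by omega)) hB)
  refine ⟨j, h1, by omega, ?_⟩
  rcases h3 with rfl | h3
  · exact h6
  · exact h6.trans h3

theorem ReachS.mono {Δ : Set V} {N t t' : ℕ} {u w : V} (h : ReachS (Γ := Γ) ℓ Δ N t u w)
    (ht : t ≤ t') : ReachS (Γ := Γ) ℓ Δ N t' u w := by
  intro x y β c hg hf i hi hB
  obtain ⟨j, h1, h2, h3⟩ := h x y β c hg hf i hi
    (le_trans (Nat.mul_le_mul_right N (by omega)) hB)
  exact ⟨j, h1, by omega, h3⟩

/-- uniform version -/
theorem reach_uniform [Finite V] {Δ : Set V} {N : ℕ} (hN : 1 ≤ N)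
    (hirr : ∀ u ∈ Δ, ∀ w ∈ Δ, Relation.ReflTransGen (NonAdj Γ Δ) u w) (h2 : Δ.Nontrivial) :
    ∃ t, ∀ u ∈ Δ, ∀ w ∈ Δ, ReachS (Γ := Γ) ℓ Δ N t u w := by
  classical
  have h3 : ∀ u w : V, ∃ t, u ∈ Δ → w ∈ Δ → ReachS (Γ := Γ) ℓ Δ N t u w := by
    intro u w
    by_cases hu : u ∈ Δ
    · by_cases hw : w ∈ Δ
      · obtain ⟨u', hu', hne⟩ := h2.exists_ne u
        have hu1 : ∃ u'', NonAdj Γ Δ u u'' := by
          rcases Relation.ReflTransGen.cases_head (hirr u hu u' hu') with h | ⟨z, hz, _⟩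
          · exact absurd h.symm hne
          · exact ⟨z, hz⟩
        obtain ⟨u'', hu''⟩ := hu1
        obtain ⟨t, ht⟩ := reachS_of_trans ℓ hN hu'' (hirr u'' hu''.2.1 w hw)
        exact ⟨t, fun _ _ => ht⟩
      · exact ⟨0, fun _ h => absurd h hw⟩
    · exact ⟨0, fun h => absurd h hu⟩
  choose t ht using h3
  haveI := Fintype.ofFinite V
  refine ⟨Finset.univ.sup (fun p : V × V => t p.1 p.2), fun u hu w hw => ?_⟩
  refine (ht u w hu hw).mono ℓ ?_
  exact Finset.le_sup (f := fun p : V × V => t p.1 p.2) (Finset.mem_univ (u, w))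

theorem reach_list {Δ : Set V} {N t : ℕ}
    (ht : ∀ u ∈ Δ, ∀ w ∈ Δ, ReachS (Γ := Γ) ℓ Δ N t u w) {x y : GraphProduct Γ G}
    {β : ℕ → GraphProduct Γ G} {c : ℕ → V} (hg : Geod ℓ x y β c)
    (hf : FullBlocks Δ N (D ℓ x y) c) (ws : List V) (hws : ∀ w ∈ ws, w ∈ Δ) :
    ∀ i, c i ∈ Δ → (i / N + t * ws.length + 1) * N ≤ D ℓ x y →
    ∃ j, c j ∈ Δ ∧ j / N ≤ i / N + t * ws.length ∧
      (ws = [] → j = i) ∧ (ws ≠ [] → Before x y (hypAt Γ β c i) (hypAt Γ β c j)) ∧
      ∀ w ∈ ws, ∃ k, c k = w ∧ Before x y (hypAt Γ β c i) (hypAt Γ β c k) ∧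
        (k = j ∨ Before x y (hypAt Γ β c k) (hypAt Γ β c j)) := by
  induction ws with
  | nil => intro i hi _; exact ⟨i, hi, by omega, fun _ => rfl, fun h => absurd rfl h, by simp⟩
  | cons w ws ih =>
    intro i hi hB
    have hw := hws w List.mem_cons_self
    rw [List.length_cons, Nat.mul_succ] at hB
    obtain ⟨k, h1, h2, h3⟩ := ht (c i) hi w hw x y β c hg hf i rfl
      (le_trans (Nat.mul_le_mul_right N (by omega)) hB)
    obtain ⟨j, g1, g2, g3, g4, g5⟩ := ih (fun w' hw' => hws w' (List.mem_cons_of_mem _ hw')) k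
      (by rw [h1]; exact hw) (le_trans (Nat.mul_le_mul_right N (by omega)) hB)
    refine ⟨j, g1, by rw [List.length_cons, Nat.mul_succ]; omega, by simp, fun _ => ?_, ?_⟩
    · by_cases hn : ws = []
      · rw [g3 hn]; exact h3
      · exact h3.trans (g4 hn)
    · intro w' hw'
      rcases List.mem_cons.1 hw' with rfl | hw'
      · refine ⟨k, h1, h3, ?_⟩
        by_cases hn : ws = []
        · left; exact (g3 hn).symm
        · right; exact g4 hn
      · obtain ⟨k', e1, e2, e3⟩ := g5 w' hw'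
        exact ⟨k', e1, h3.trans e2, e3⟩

theorem good_of_cover {Δ : Set V} (hfin : (Sub Γ G (lk Γ Δ) : Set (GraphProduct Γ G)).Finite)
    {x y : GraphProduct Γ G} {J K : Hyp Γ G}
    (h : ∀ w ∈ Δ, ∃ L : Hyp Γ G, L.1 = w ∧ Before x y J L ∧ (L = K ∨ Before x y L K)) :
    Good J K := by
  have key : ∀ W : Hyp Γ G, Nontrivial (G W.1) → Cross W J → Cross W K → W.1 ∈ lk Γ Δ := by
    intro W hW hJ hK w hw
    obtain ⟨L, rfl, h1, h2⟩ := h w hw
    rcases h2 with rfl | h2
    · exact hK.1.symm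
    · exact (cross_of_before hW hJ hK h1 h2).1.symm
  refine ⟨fun W hW hJ hK => ?_, fun W W' hW hW' hJ hK hJ' hK' hne => ?_⟩
  · by_contra hinf
    rw [not_finite_iff_infinite] at hinf
    exact infinite_of_mem (Γ := Γ) (G := G) (key W hW hJ hK) hfin
  · by_contra hadj
    exact infinite_of_nonadj hne hadj (key W hW hJ hK) (key W' hW' hJ' hK') hfin

theorem chain_irreducible [Finite V] {Δ : Set V} {N : ℕ} (hN : 1 ≤ N)
    (hirr : ∀ u ∈ Δ, ∀ w ∈ Δ, Relation.ReflTransGen (NonAdj Γ Δ) u w) (h2 : Δ.Nontrivial)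
    (hfin : (Sub Γ G (lk Γ Δ) : Set (GraphProduct Γ G)).Finite) (m : ℕ) :
    ∃ B, ∀ (x y : GraphProduct Γ G) β c, Geod ℓ x y β c → FullBlocks Δ N (D ℓ x y) c →
      B ≤ D ℓ x y → ∃ K : ℕ → Hyp Γ G, IsChain x y m K := by
  classical
  haveI := Fintype.ofFinite V
  obtain ⟨t, ht⟩ := reach_uniform ℓ hN hirr h2
  set ws : List V := (Finset.univ.filter (· ∈ Δ)).toList with hws
  have hws' : ∀ w, w ∈ ws ↔ w ∈ Δ := by intro w; simp [hws]
  obtain ⟨v0, hv0⟩ := h2.nonempty
  have hne : ws ≠ [] := by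
    intro h
    have := (hws' v0).2 hv0
    rw [h] at this
    exact absurd this (List.not_mem_nil)
  set T := t * ws.length with hT
  refine ⟨((m + 1) * T + 1 + 1) * N, ?_⟩
  intro x y β c hg hf hB
  -- the sequence of positions
  have hseq : ∀ m', m' ≤ m → ∃ k : ℕ → ℕ, (∀ a ≤ m', c (k a) ∈ Δ ∧ k a / N ≤ a * T) ∧
      ∀ a < m', Before x y (hypAt Γ β c (k a)) (hypAt Γ β c (k (a + 1))) ∧
        ∀ w ∈ Δ, ∃ j, c j = w ∧ Before x y (hypAt Γ β c (k a)) (hypAt Γ β c j) ∧
          (j = k (a + 1) ∨ Before x y (hypAt Γ β c j) (hypAt Γ β c (k (a + 1)))) := by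
    intro m'
    induction m' with
    | zero =>
      intro _
      obtain ⟨k, h1, h2, h3⟩ := hf 0 (le_trans (Nat.mul_le_mul_right N (by omega)) hB) v0 hv0
      refine ⟨fun _ => k, ?_, by intro a ha; omega⟩
      intro a ha
      refine ⟨by rw [h3]; exact hv0, ?_⟩
      rw [Nat.zero_add, Nat.one_mul] at h2
      rw [Nat.div_eq_of_lt h2]; omega
    | succ m' ih =>
      intro hm
      obtain ⟨k, h1, h2⟩ := ih (by omega)
      obtain ⟨a1, a2⟩ := h1 m' le_rfl
      have hB' : (k m' / N + t * ws.length + 1) * N ≤ D ℓ x y := by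
        refine le_trans (Nat.mul_le_mul_right N ?_) hB
        have h5 : m' * T + T = (m' + 1) * T := by ring
        have h6 : (m' + 1) * T ≤ (m + 1) * T := Nat.mul_le_mul_right T (by omega)
        rw [← hT]
        omega
      obtain ⟨j, g1, g2, g3, g4, g5⟩ := reach_list ℓ ht hg hf ws
        (fun w hw => (hws' w).1 hw) (k m') a1 hB'
      refine ⟨fun a => if a ≤ m' then k a else j, ?_, ?_⟩
      · intro a ha
        by_cases ham : a ≤ m'
        · simp only [if_pos ham]; exact h1 a ham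
        · simp only [if_neg ham]
          refine ⟨g1, le_trans g2 ?_⟩
          have : a = m' + 1 := by omega
          rw [this, ← hT, Nat.succ_mul]; omega
      · intro a ha
        by_cases ham : a < m'
        · have e1 : a ≤ m' := by omega
          have e2 : a + 1 ≤ m' := by omega
          simp only [if_pos e1, if_pos e2]; exact h2 a ham
        · have e1 : a = m' := by omega
          subst e1
          have e2 : ¬ (a + 1 ≤ a) := by omega
          simp only [if_pos le_rfl, if_neg e2]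
          refine ⟨g4 hne, fun w hw => ?_⟩
          exact g5 w ((hws' w).2 hw)
  obtain ⟨k, h1, h3⟩ := hseq m le_rfl
  refine ⟨fun a => hypAt Γ β c (k a), ?_, ?_⟩
  · intro i j hij hj
    induction j, hij using Nat.le_induction with
    | base => exact (h3 i (by omega)).1
    | succ j hij ih => exact (ih (by omega)).trans (h3 j (by omega)).1
  · intro i hi
    refine good_of_cover hfin (x := x) (y := y) ?_
    intro w hw
    obtain ⟨j, e1, e2, e3⟩ := (h3 i (by omega)).2 w hw
    refine ⟨hypAt Γ β c j, e1, e2, ?_⟩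
    rcases e3 with rfl | e3
    · exact Or.inl rfl
    · exact Or.inr e3

/-- **Pigeonhole.** A long geodesic without long segments in products contains a chain. -/
theorem exists_chain_aux [Finite V] (hred : Reduced Γ G) (n m : ℕ) :
    ∀ (s : ℕ) (Δ : Finset V), Δ.card = s → ∃ N, ∀ x y : GraphProduct Γ G,
      x⁻¹ * y ∈ Sub Γ G (Δ : Set V) → WideBound ℓ n x y → N ≤ D ℓ x y →
      ∃ K : ℕ → Hyp Γ G, IsChain x y m K := by
  classical
  haveI := Fintype.ofFinite V
  intro s
  induction s with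
  | zero =>
    intro Δ hΔ
    refine ⟨1, fun x y hxy _ hD => ?_⟩
    rw [Finset.card_eq_zero] at hΔ
    subst hΔ
    exfalso
    have : x⁻¹ * y = 1 := by
      refine Sub_induction (P := fun z => z = 1) hxy rfl ?_
      intro z _ v hv
      simp at hv
    rw [D_eq_len, this, D_self] at hD
    omega
  | succ s ih =>
    intro Δ hΔ
    -- constants for the smaller label sets
    have h1 : ∀ v : V, ∃ N, v ∈ Δ → ∀ x y : GraphProduct Γ G,
        x⁻¹ * y ∈ Sub Γ G (Δ.erase v : Set V) → WideBound ℓ n x y → N ≤ D ℓ x y →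
        ∃ K : ℕ → Hyp Γ G, IsChain x y m K := by
      intro v
      by_cases hv : v ∈ Δ
      · obtain ⟨N, hN⟩ := ih (Δ.erase v) (by rw [Finset.card_erase_of_mem hv, hΔ]; rfl)
        refine ⟨N, fun _ x y hxy => hN x y ?_⟩
        exact hxy
      · exact ⟨0, fun h => absurd h hv⟩
    choose Nf hNf using h1
    set N := Finset.univ.sup Nf + 1 with hNdef
    have hN1 : 1 ≤ N := by omega
    have hNv : ∀ v, Nf v ≤ N := fun v => by
      have := Finset.le_sup (f := Nf) (Finset.mem_univ v)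
      omega
    -- reduction to full blocks
    have hred2 : ∀ B : ℕ, (∀ (x y : GraphProduct Γ G) β c, Geod ℓ x y β c →
        FullBlocks (Δ : Set V) N (D ℓ x y) c → x⁻¹ * y ∈ Sub Γ G (Δ : Set V) →
        WideBound ℓ n x y → B ≤ D ℓ x y → ∃ K : ℕ → Hyp Γ G, IsChain x y m K) →
        ∃ N, ∀ x y : GraphProduct Γ G, x⁻¹ * y ∈ Sub Γ G (Δ : Set V) → WideBound ℓ n x y →
          N ≤ D ℓ x y → ∃ K : ℕ → Hyp Γ G, IsChain x y m K := by
      intro B hB
      refine ⟨B, fun x y hxy hw hD => ?_⟩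
      haveI : Nonempty V := by
        have : 0 < Δ.card := by omega
        obtain ⟨v, _⟩ := Finset.card_pos.1 this
        exact ⟨v⟩
      obtain ⟨β, c, hg⟩ := exists_Geod ℓ x y
      by_cases hf : FullBlocks (Δ : Set V) N (D ℓ x y) c
      · exact hB x y β c hg hf hxy hw hD
      · unfold FullBlocks at hf
        push Not at hf
        obtain ⟨r, hr, v, hv, hk⟩ := hf
        have hle : r * N ≤ (r + 1) * N := Nat.mul_le_mul_right N (by omega)
        have hmid := hg.mid hle hr
        have hsub : (β (r * N))⁻¹ * β ((r + 1) * N) ∈ Sub Γ G (Δ.erase v : Set V) := by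
          refine hg.sub_mem hle hr ?_
          intro k hk1 hk2
          have h5 := hg.label_mem hxy (lt_of_lt_of_le hk2 hr)
          have h6 : c k ≠ v := fun h => hk k hk1 hk2 h
          simp only [Finset.coe_erase, Set.mem_diff, Set.mem_singleton_iff]
          exact ⟨h5, h6⟩
        have hDN : D ℓ (β (r * N)) (β ((r + 1) * N)) = N := by
          rw [hg.dist _ _ hle hr, Nat.succ_mul]; omega
        obtain ⟨K, hK⟩ := hNf v hv (β (r * N)) (β ((r + 1) * N)) hsub (hw.sub hmid)
          (by rw [hDN]; exact hNv v)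
        exact ⟨K, hK.extend hmid⟩
    -- the cases
    by_cases hfinΔ : (Sub Γ G (Δ : Set V) : Set (GraphProduct Γ G)).Finite
    · obtain ⟨δ, hδ⟩ := exists_bound_of_finite (ℓ := ℓ) hfinΔ
      refine ⟨δ + 1, fun x y hxy _ hD => ?_⟩
      exfalso
      have := hδ _ hxy
      rw [← D_eq_len] at this
      omega
    by_cases hlk : (Sub Γ G (lk Γ (Δ : Set V)) : Set (GraphProduct Γ G)).Infinite
    · refine ⟨n + 1, fun x y hxy hw hD => ?_⟩
      exfalso
      have := wide_single hw hxy hlk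
      omega
    rw [Set.not_infinite] at hlk
    by_cases hirr : ∀ u ∈ (Δ : Set V), ∀ w ∈ (Δ : Set V),
        Relation.ReflTransGen (NonAdj Γ (Δ : Set V)) u w
    · by_cases h2 : (Δ : Set V).Nontrivial
      · obtain ⟨B, hB⟩ := chain_irreducible ℓ hN1 hirr h2 hlk m
        exact hred2 B (fun x y β c hg hf _ _ hD => hB x y β c hg hf hD)
      · -- a single vertex
        exfalso
        rw [Set.not_nontrivial_iff] at h2
        have hpos : 0 < Δ.card := by omega
        obtain ⟨v, hv⟩ := Finset.card_pos.1 hpos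
        have hΔv : (Δ : Set V) = {v} := by
          ext w
          simp only [Set.mem_singleton_iff]
          exact ⟨fun hw => h2 hw hv, fun hw => by rw [hw]; exact hv⟩
        have hinf : Infinite (G v) := by
          by_contra hfin
          rw [not_infinite_iff_finite] at hfin
          apply hfinΔ
          rw [hΔv]
          exact Sub_singleton_finite
        have h5 := hred v hinf
        apply h5
        refine hlk.subset ?_
        apply Sub_mono
        intro w hw v' hv'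
        rw [hΔv] at hv'
        rw [Set.mem_singleton_iff.1 hv']
        exact hw
    · -- reducible
      push Not at hirr
      obtain ⟨u, hu, w, hw, huw⟩ := hirr
      set Δ₁ : Set V := {z | z ∈ Δ ∧ Relation.ReflTransGen (NonAdj Γ (Δ : Set V)) u z} with hΔ₁
      set Δ₂ : Set V := {z | z ∈ Δ ∧ ¬ Relation.ReflTransGen (NonAdj Γ (Δ : Set V)) u z} with hΔ₂
      have hc : ∀ v ∈ Δ₁, ∀ z ∈ Δ₂, Γ.Adj v z := by
        intro v hv z hz
        by_contra hadj
        apply hz.2
        by_cases hvz : v = z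
        · rw [← hvz]; exact hv.2
        · exact hv.2.tail ⟨hv.1, hz.1, hvz, hadj⟩
      have hun : (Δ : Set V) = Δ₁ ∪ Δ₂ := by
        ext z
        simp only [hΔ₁, hΔ₂, Set.mem_union, Set.mem_ofPred_eq]
        constructor
        · intro hz
          by_cases h : Relation.ReflTransGen (NonAdj Γ (Δ : Set V)) u z
          · exact Or.inl ⟨hz, h⟩
          · exact Or.inr ⟨hz, h⟩
        · rintro (h | h) <;> exact h.1
      have hu1 : u ∈ Δ₁ := ⟨hu, Relation.ReflTransGen.refl⟩
      have hw2 : w ∈ Δ₂ := ⟨hw, huw⟩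
      by_cases hf2 : (Sub Γ G Δ₂ : Set (GraphProduct Γ G)).Finite
      · obtain ⟨δ, hδ⟩ := exists_bound_of_finite (ℓ := ℓ) hf2
        refine hred2 ((δ + 1) * N) ?_
        intro x y β c hg hf hxy _ hD
        exfalso
        rw [hun] at hf hxy
        have := no_full_of_finite hg hc hxy hδ hw2 hf
        omega
      · by_cases hf1 : (Sub Γ G Δ₁ : Set (GraphProduct Γ G)).Finite
        · obtain ⟨δ, hδ⟩ := exists_bound_of_finite (ℓ := ℓ) hf1
          refine hred2 ((δ + 1) * N) ?_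
          intro x y β c hg hf hxy _ hD
          exfalso
          rw [hun, Set.union_comm] at hf hxy
          have := no_full_of_finite hg (fun v hv w hw => (hc w hw v hv).symm) hxy hδ hu1 hf
          omega
        · refine ⟨2 * n + 1, fun x y hxy hw hD => ?_⟩
          exfalso
          rw [hun] at hxy
          have := wide_double hw hc hxy hf1 hf2
          omega

theorem exists_chain [Finite V] (hred : Reduced Γ G) (n m : ℕ) : ∃ N : ℕ,
    ∀ x y : GraphProduct Γ G, WideBound ℓ n x y → N ≤ D ℓ x y →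
      ∃ K : ℕ → Hyp Γ G, IsChain x y m K := by
  classical
  haveI := Fintype.ofFinite V
  obtain ⟨N, hN⟩ := exists_chain_aux ℓ hred n m _ (Finset.univ : Finset V) rfl
  refine ⟨N, fun x y hw hD => hN x y ?_ hw hD⟩
  generalize x⁻¹ * y = z
  induction z using induction with
  | h1 => exact one_mem _
  | hm z v g ih => exact mul_mem ih (of_mem_Sub (by simp) g)

end GraphProduct

end Pool.Agent.MLG
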