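import Mathlib
import Pool.Agent.MLG.Defs
import Pool.Agent.MLG.Disc
import Pool.Agent.MLG.Chain
import Pool.Agent.MLG.Pieces
import Pool.Agent.MLG.Pigeon
import Pool.Agent.MLG.C1
import Pool.Agent.MLG.C2
import Pool.Agent.MLG.Detour
import Pool.Agent.MLG.PieceGP
import Pool.Agent.MLG.Induce

/-!
# Graph products of Morse local-to-global groups: assembly
-/

namespace Pool.Agent.MLG

namespace GraphProduct

variable {V : Type*} {Γ : SimpleGraph V} {G : V → Type*} [∀ v, Group (G v)]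

/-- The reduced case needs no hypothesis on the vertex groups. -/
theorem dmltg_of_reduced [Finite V] (ℓ : ∀ v, WLen (G v)) (hred : Reduced Γ G) :
    DMLTG (Dr (Γ := Γ) ℓ) := by
  obtain ⟨m, δ, hδ, hC2⟩ := chainData_of_chains (Γ := Γ) ℓ
  intro M lam eps hlam heps
  obtain ⟨L, T, hT, hC1⟩ := exists_chains ℓ (exists_chain ℓ hred)
    (fun M lam eps Δ h1 h2 h3 => fellow (isDist_Dr ℓ) M lam eps Δ h1 h2 h3)
    (fun M lam eps Δ h1 h2 h3 => detour ℓ M lam eps Δ h1 h2 h3) M lam eps hlam heps m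
  obtain ⟨lam', eps', M', h1, h2, hmain⟩ := chain_main (isDist_Dr (Γ := Γ) ℓ) T hT (lam + eps)
    ((lam + eps) * T) δ (by positivity) (by positivity) hδ
  refine ⟨L, M', lam', eps', h1, h2, fun y n hloc => ?_⟩
  obtain ⟨hj, hch⟩ := hC1 y n hloc
  exact hmain y n (hC2 y n T (lam + eps) (by positivity) hT hj hch)

/-- Graph products of Morse local-to-global groups, discrete version. -/
theorem dmltg_graphProduct [Finite V] (ℓ : ∀ v, WLen (G v))
    (h : ∀ v, DMLTG (fun g k : G v => ((ℓ v).len (g⁻¹ * k) : ℝ))) :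
    DMLTG (Dr (Γ := Γ) ℓ) := by
  set V1 : Set V := {v : V | Infinite (G v) ∧
    (Sub Γ G {w | Γ.Adj v w} : Set (GraphProduct Γ G)).Finite} with hV1
  obtain ⟨δ, hδ, ⟨P⟩⟩ := exists_pieceData (Γ := Γ) ℓ V1 (fun v hv => hv.2) (by
    intro v hv w hw hadj
    haveI := hw.1
    exact infinite_of_mem (Γ := Γ) (G := G) (Δ := {w | Γ.Adj v w}) hadj hv.2)
  refine dmltg_of_pieces (isDist_Dr ℓ) hδ ?_ ?_ P
  · intro a
    exact ⟨fun x => (isDist_Dr ℓ).self _, fun x y => (isDist_Dr ℓ).symm _ _,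
      fun x y z => (isDist_Dr ℓ).tri _ _ _, fun x y => (isDist_Dr ℓ).nonneg _ _⟩
  · intro a
    rcases a with _ | v
    · exact dmltg_sub_of_induce ℓ V1ᶜ (dmltg_of_reduced _ reduced_induce)
    · exact dmltg_sub_singleton ℓ v.1 (h v.1)

end GraphProduct

end Pool.Agent.MLG
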