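import Mathlib
import Pool.Agent.MLG.Group
import Pool.Agent.MLG.Cayley
import Pool.Agent.MLG.Coarse
import Pool.Agent.MLG.Disc
import Pool.Agent.MLG.Hyp

/-!
# Transfer of the Morse local-to-global property between models of Cayley graphs
-/

namespace Pool.Agent.MLG

theorem isDist_dist (X : Type*) [PseudoMetricSpace X] : IsDist (dist : X → X → ℝ) where
  self := dist_self
  symm := dist_comm
  tri := dist_triangle
  nonneg _ _ := dist_nonneg

variable {G : Type*} [Group G]

/-- the Morse local-to-global property of a model, in terms of a word length -/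
theorem dmltg_len_of_model (ℓ : WLen G) {S : Finset G} (hS : Subgroup.closure (S : Set G) = ⊤)
    {X : Type*} [PseudoMetricSpace X] (hX : IsCayleyModel (S : Set G) X)
    (h : MorseLTG (dist : X → X → ℝ)) : DMLTG (fun x y : G => (ℓ.len (x⁻¹ * y) : ℝ)) := by
  obtain ⟨f, hf, hd⟩ := hX
  choose g hg using hd
  have h1 := dmltg_of_morseLTG (isDist_dist X) h
  have h2 : DMLTG (cayleyDist (S : Set G)) := by
    refine h1.coarse (isDist_cayley S hS) (isDist_dist X) (C := 2) (by norm_num) g f ?_ ?_ ?_
    · intro y y'
      rw [← hf, abs_le]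
      have a1 := hg y
      have a2 := hg y'
      have t1 := dist_triangle (f (g y)) y (f (g y'))
      have t2 := dist_triangle y y' (f (g y'))
      have t3 := dist_triangle y (f (g y)) y'
      have t4 := dist_triangle (f (g y)) (f (g y')) y'
      rw [dist_comm (f (g y)) y] at t1
      rw [dist_comm (f (g y')) y'] at t4
      constructor <;> linarith
    · intro x x'
      rw [hf]; simp
    · intro x
      rw [← hf]
      have := hg (f x)
      linarith
  obtain ⟨K, hK, k1, k2⟩ := cayley_bilip ℓ S hS
  exact h2.bilip (isDist_cayley S hS) (isDist_len ℓ) hK k1 k2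

theorem morseLTG_of_dmltg_len (ℓ : WLen G) {S : Finset G}
    (hS : Subgroup.closure (S : Set G) = ⊤) {X : Type*} [PseudoMetricSpace X]
    (hX : IsCayleyModel (S : Set G) X) (h : DMLTG (fun x y : G => (ℓ.len (x⁻¹ * y) : ℝ))) :
    MorseLTG (dist : X → X → ℝ) := by
  obtain ⟨f, hf, hd⟩ := hX
  choose g hg using hd
  obtain ⟨K, hK, k1, k2⟩ := cayley_bilip ℓ S hS
  have h2 : DMLTG (cayleyDist (S : Set G)) :=
    h.bilip (isDist_len ℓ) (isDist_cayley S hS) hK k2 k1
  refine morseLTG_of_dmltg (isDist_dist X) ?_
  refine h2.coarse (isDist_dist X) (isDist_cayley S hS) (C := 2) (by norm_num) f g ?_ ?_ ?_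
  · intro x x'
    rw [hf]; simp
  · intro y y'
    rw [← hf, abs_le]
    have a1 := hg y
    have a2 := hg y'
    have t1 := dist_triangle (f (g y)) y (f (g y'))
    have t2 := dist_triangle y y' (f (g y'))
    have t3 := dist_triangle y (f (g y)) y'
    have t4 := dist_triangle (f (g y)) (f (g y')) y'
    rw [dist_comm (f (g y)) y] at t1
    rw [dist_comm (f (g y')) y'] at t4
    constructor <;> linarith
  · intro x
    have := hg x
    linarith

/-- A group with a word length is finitely generated. -/
theorem WLen.exists_gen (ℓ : WLen G) : ∃ S : Finset G, Subgroup.closure (S : Set G) = ⊤ := by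
  refine ⟨(ℓ.fin 1).toFinset, ?_⟩
  rw [eq_top_iff]
  intro x _
  have key : ∀ n, ∀ x, ℓ.len x = n → x ∈ Subgroup.closure ((ℓ.fin 1).toFinset : Set G) := by
    intro n
    induction n with
    | zero => intro x hx; rw [ℓ.eq_one x hx]; exact one_mem _
    | succ n ih =>
      intro x hx
      obtain ⟨s, k, h1, h2, h3⟩ := ℓ.step x (by omega)
      rw [h1]
      refine mul_mem (Subgroup.subset_closure ?_) (ih k (by omega))
      simp only [Set.Finite.coe_toFinset, Set.mem_ofPred_eq]
      omega
  exact key _ x rfl

/-- the vertex set as a model -/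
theorem exists_model (S : Finset G) (hS : Subgroup.closure (S : Set G) = ⊤) :
    ∃ _ : PseudoMetricSpace G, IsCayleyModel (S : Set G) G := by
  have hd := isDist_cayley S hS
  letI : PseudoMetricSpace G :=
    { dist := cayleyDist (S : Set G)
      dist_self := hd.self
      dist_comm := hd.symm
      dist_triangle := hd.tri }
  exact ⟨inferInstance, id, fun g h => rfl, fun x => ⟨x, by
    have : dist x (id x) = 0 := hd.self x
    rw [this]; norm_num⟩⟩

end Pool.Agent.MLG
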